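import Pool.Agent.MP_9ab903_nt.NAB.LL

set_option autoImplicit false

open NumberField IsDedekindDomain
open CM27 CMT CF NAB
open scoped Classical

namespace TWR

/-! ## [TWR-TD] the class of fields (file TWR/TD.lean) -/

/-- `F(√d)` is contained in a Galois extension `M` of `K = ℚ(ω)` of degree a power of two which is
unramified outside `3` and the good primes. -/
def TTd (F : IntermediateField ℚ ℂ) [NumberField F] (hw : w ∈ F) (d : 𝓞 F) : Prop :=
  letI := algK F hw
  ∃ (M : Type) (_ : Field M) (_ : NumberField M) (_ : Algebra F M) (_ : Algebra KK M)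
    (_ : IsScalarTower KK F M) (_ : IsGalois KK M) (m : ℕ), Module.finrank KK M = 2 ^ m ∧
    Unr KK M ∧ ∃ δ : M, δ ^ 2 = algebraMap F M (d : F)

end TWR
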