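import Pool.Agent.MP_9ab903_nt.TWR.AN6

set_option autoImplicit false

open NumberField IsDedekindDomain
open CM27 CMT CF NAB
open scoped Classical

namespace TWR

/-! ## [TWR-RS1] the class of fields in terms of the discriminant (file TWR/RS1.lean) -/

/-- every prime contains a prime number -/
theorem exists_rat_prime {M : Type} [Field M] [NumberField M] (P : HeightOneSpectrum (𝓞 M)) :
    ∃ p : ℕ, p.Prime ∧ (p : 𝓞 M) ∈ P.asIdeal := by
  haveI := P.isPrime
  haveI : Finite (𝓞 M ⧸ P.asIdeal) := finite_quot P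
  haveI : Nontrivial (𝓞 M ⧸ P.asIdeal) := Ideal.Quotient.nontrivial_iff.2 P.isPrime.ne_top
  obtain ⟨p, hp⟩ := CharP.exists (𝓞 M ⧸ P.asIdeal)
  rcases CharP.char_is_prime_or_zero (𝓞 M ⧸ P.asIdeal) p with h | h
  · refine ⟨p, h, ?_⟩
    rw [← Ideal.Quotient.eq_zero_iff_mem, map_natCast]
    exact CharP.cast_eq_zero _ p
  · exfalso
    subst h
    haveI := CharP.charP_to_charZero (𝓞 M ⧸ P.asIdeal)
    exact not_finite (𝓞 M ⧸ P.asIdeal)

/-- `M` is a Galois extension of `ℚ` of degree a power of two, in which only `3` and good primes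
ramify -/
structure Top (M : IntermediateField ℚ ℂ) [NumberField M] : Prop where
  gal : IsGalois ℚ M
  deg : ∃ n : ℕ, Module.finrank ℚ M = 2 ^ n
  disc : ∀ p : ℕ, p.Prime → (p : ℤ) ∣ discr M → p = 3 ∨ GoodPrime p

section
variable {M : IntermediateField ℚ ℂ} [NumberField M] (hM : Top M)
include hM

theorem Top.unr_int (P : HeightOneSpectrum (𝓞 M)) (h3 : (3 : 𝓞 M) ∉ P.asIdeal)
    (hp : ∀ p : ℕ, GoodPrime p → (p : 𝓞 M) ∉ P.asIdeal) : P.asIdeal.ramificationIdx ℤ = 1 := by
  obtain ⟨p, hpp, hpP⟩ := exists_rat_prime P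
  have hd : ¬ (p : ℤ) ∣ discr M := by
    intro h
    rcases hM.disc p hpp h with rfl | h
    · exact h3 (by exact_mod_cast hpP)
    · exact hp p h hpP
  rw [not_dvd_discr_iff_forall_mem M (𝓞 M) (Nat.prime_iff_prime_int.1 hpp)] at hd
  have hP0 := P.ne_bot
  have := P.isPrime
  have h1 := hd P.asIdeal P.isPrime (by exact_mod_cast hpP)
  exact Ideal.ramificationIdx_eq_one_iff.2 h1

theorem Top.unr (k : Type) [Field k] [NumberField k] [Algebra k M] : Unr k M := by
  intro v P hP h3 hp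
  have hv : v = und k P := HeightOneSpectrum.ext (by rw [hP.over]; rfl)
  subst hv
  have h1 := hM.unr_int P (by rw [mem_und, map_ofNat] at h3; exact h3)
    (fun p hpg => by
      have := hp p hpg
      rw [mem_und, map_natCast] at this
      exact this)
  have := P.isMaximal
  have := (und k P).isMaximal
  have h2 := Ideal.ramificationIdx_tower (R := ℤ) (und k P).asIdeal P.asIdeal
  rw [h1] at h2
  exact Nat.eq_one_of_mul_eq_one_left h2.symm

end

/-- the class of fields and twists -/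
theorem TTd.of_top {M : IntermediateField ℚ ℂ} [NumberField M] (hM : Top M)
    {F : IntermediateField ℚ ℂ} [NumberField F] (hw : w ∈ F) (hF : F ≤ M) (d : 𝓞 F)
    (hd : ∃ δ ∈ M, δ ^ 2 = ((d : F) : ℂ)) : TTd F hw d := by
  obtain ⟨δ, hδM, hδ⟩ := hd
  letI := algK F hw
  letI algFM : Algebra F M := (IntermediateField.inclusion hF).toRingHom.toAlgebra
  letI algKM : Algebra KK M := algK M (hF hw)
  haveI hST : IsScalarTower KK F M := IsScalarTower.of_algebraMap_eq fun x => rfl
  haveI := hM.gal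
  haveI hSTQ : IsScalarTower ℚ KK M := IsScalarTower.of_algebraMap_eq' (Subsingleton.elim _ _)
  haveI hgal : IsGalois KK M := IsGalois.tower_top_of_isGalois ℚ KK M
  obtain ⟨n, hn⟩ := hM.deg
  have h1 : Module.finrank KK M ∣ 2 ^ n := by
    rw [← hn, ← Module.finrank_mul_finrank ℚ KK M]
    exact dvd_mul_left _ _
  obtain ⟨m, -, hm⟩ := (Nat.dvd_prime_pow Nat.prime_two).1 h1
  exact ⟨M, inferInstance, inferInstance, algFM, algKM, hST, hgal, m, hm, hM.unr KK,
    ⟨δ, hδM⟩, Subtype.ext hδ⟩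

/-- quadratic extensions inside `M` are obtained from square roots of `d ≡ 1 mod 4` -/
theorem exists_twist {M : IntermediateField ℚ ℂ} [NumberField M] (hM : Top M)
    {F L : IntermediateField ℚ ℂ} [NumberField F] [NumberField L] (hFL : F ≤ L) (hL : L ≤ M)
    (h2 : Module.finrank ℚ L = 2 * Module.finrank ℚ F) :
    ∃ (d : 𝓞 F) (δ : ℂ), d ≠ 0 ∧ (4 : 𝓞 F) ∣ d - 1 ∧ δ ∈ L ∧ δ ∉ F ∧ δ ^ 2 = ((d : F) : ℂ) := by
  letI algFL : Algebra F L := (IntermediateField.inclusion hFL).toRingHom.toAlgebra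
  letI algLM : Algebra L M := (IntermediateField.inclusion hL).toRingHom.toAlgebra
  haveI hST2 : IsScalarTower ℚ F L := IsScalarTower.of_algebraMap_eq' (Subsingleton.elim _ _)
  haveI hfin2 : FiniteDimensional F L := Module.Finite.of_restrictScalars_finite ℚ F L
  have hrank2 : Module.finrank F L = 2 := by
    have h1 : Module.finrank ℚ F * Module.finrank F L = Module.finrank ℚ L :=
      Module.finrank_mul_finrank _ _ _
    rw [h2, mul_comm 2] at h1
    exact Nat.eq_of_mul_eq_mul_left Module.finrank_pos h1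
  haveI hquad : Algebra.IsQuadraticExtension F L := { finrank_eq_two' := hrank2 }
  obtain ⟨S⟩ := exists_Sig F L
  have hr : Ur2 F L := by
    intro W hW hmap
    have hodd : ∀ k : ℕ, ¬ 2 ∣ k → (k : 𝓞 L) ∉ W.asIdeal := by
      intro k hk h
      apply W.isPrime.ne_top
      rw [Ideal.eq_top_iff_one]
      obtain ⟨j, hj⟩ : ∃ j, k = 2 * j + 1 := ⟨k / 2, by omega⟩
      have h3 : (1 : 𝓞 L) = (k : 𝓞 L) - 2 * (j : 𝓞 L) := by
        rw [hj]; push_cast; ring
      rw [h3]
      exact Ideal.sub_mem _ h (Ideal.mul_mem_right _ _ hW)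
    obtain ⟨P, hP⟩ := exists_above (F := M) W
    have hlP : P.asIdeal.LiesOver W.asIdeal := ⟨by rw [← hP]; rfl⟩
    have hmemP : ∀ k : ℕ, ¬ 2 ∣ k → (k : 𝓞 M) ∉ P.asIdeal := by
      intro k hk h
      refine hodd k hk ?_
      rw [← hP, mem_und, map_natCast]
      exact h
    have h1 : P.asIdeal.ramificationIdx ℤ = 1 := by
      refine hM.unr_int P ?_ ?_
      · exact_mod_cast hmemP 3 (by norm_num)
      · intro p hp
        refine hmemP p fun h => ?_
        have h6 := (Nat.prime_dvd_prime_iff_eq Nat.prime_two hp.1).1 h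
        have h7 := hp.2.1
        omega
    have := W.isMaximal
    have := P.isMaximal
    have := (und F W).isMaximal
    have h2 := Ideal.ramificationIdx_tower (R := ℤ) W.asIdeal P.asIdeal
    rw [h1] at h2
    have h2' : W.asIdeal.ramificationIdx ℤ = 1 := Nat.eq_one_of_mul_eq_one_right h2.symm
    have hlies2 : W.asIdeal.LiesOver (und F W).asIdeal := ⟨rfl⟩
    have h3 := Ideal.ramificationIdx_tower (R := ℤ) (und F W).asIdeal W.asIdeal
    rw [h2'] at h3
    have h3' : W.asIdeal.ramificationIdx (𝓞 F) = 1 := Nat.eq_one_of_mul_eq_one_left h3.symm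
    have h5 : (und F W).asIdeal.ramificationIdx' W.asIdeal = 1 := by
      rw [Ideal.ramificationIdx'_eq_ramificationIdx (und F W).asIdeal W.asIdeal
        (und F W).ne_bot, h3']
    have h6 : (und F W).asIdeal.ramificationIdx' W.asIdeal = 2 := by
      refine Ideal.ramificationIdx'_spec hmap.le ?_
      rw [hmap]
      intro h
      have h1 := Ideal.dvd_iff_le.2 h
      have h2 := (pow_dvd_pow_iff W.ne_bot W.prime.not_unit).1 h1
      omega
    omega
  obtain ⟨d, δ, hd0, h4, hδ, hsδ, hδ0⟩ := exists_sqrt S hr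
  refine ⟨d, ((δ : L) : ℂ), hd0, h4, (δ : L).2, ?_, ?_⟩
  · intro h
    set e : F := ⟨((δ : L) : ℂ), h⟩ with he
    have heF : algebraMap F L e = (δ : L) := rfl
    have hint : IsIntegral ℤ e := by
      rw [← isIntegral_algebraMap_iff (algebraMap F L).injective, heF]
      exact δ.isIntegral_coe
    have h1 : S.sg (algebraMap (𝓞 F) (𝓞 L) ⟨e, hint⟩) = algebraMap (𝓞 F) (𝓞 L) ⟨e, hint⟩ :=
      S.fix _
    have h2 : algebraMap (𝓞 F) (𝓞 L) ⟨e, hint⟩ = δ := RingOfIntegers.ext heF
    rw [h2, hsδ] at h1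
    apply hδ0
    have h3 : 2 * δ = 0 := by linear_combination -h1
    exact (mul_eq_zero.1 h3).resolve_left two_ne_zero
  · have h1 : ((δ ^ 2 : 𝓞 L) : L) = algebraMap F L (d : F) := by rw [hδ]; rfl
    have h2 : (((δ ^ 2 : 𝓞 L) : L) : ℂ) = ((d : F) : ℂ) := by rw [h1]; rfl
    exact h2

end TWR
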