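import Pool.Agent.MP_9ab903_nt.TWR.PF9

set_option autoImplicit false

open NumberField IsDedekindDomain
open CM27 CMT NAB
open scoped Classical

namespace TWR

/-! ## [TWR-PG1] characters and the product of the symbols (file TWR/PG1.lean) -/

section
variable {F : Type} [Field F] [NumberField F]

/-- the order of an integer -/
noncomputable def cnt (v : HeightOneSpectrum (𝓞 F)) (g : 𝓞 F) : ℕ :=
  (Associates.mk v.asIdeal).count (Associates.mk (Ideal.span {g})).factors

theorem od_int (v : HeightOneSpectrum (𝓞 F)) {g : 𝓞 F} (hg : g ≠ 0) :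
    od v (g : F) = -(cnt v g : ℤ) := by
  rw [od, HeightOneSpectrum.valuation_of_algebraMap, HeightOneSpectrum.intValuation_if_neg _ hg,
    WithZero.log_exp]
  rfl

theorem ev_int (v : HeightOneSpectrum (𝓞 F)) {g : 𝓞 F} (hg : g ≠ 0) :
    ev v (g : F) ↔ Even (cnt v g) := by
  rw [ev, od_int v hg, even_neg, Int.even_coe_nat]

theorem cnt_zero (v : HeightOneSpectrum (𝓞 F)) {g : 𝓞 F} (hg : g ∉ v.asIdeal) : cnt v g = 0 := by
  have hg0 : g ≠ 0 := by
    rintro rfl
    exact hg (Ideal.zero_mem _)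
  have h1 := od_int v hg0
  rw [od, val_unit g v hg, WithZero.log_one] at h1
  omega

theorem cm_span {M : Type*} [CommMonoidWithZero M] (h : HeightOneSpectrum (𝓞 F) → M) {g : 𝓞 F}
    (hg : g ≠ 0) : cm h (Ideal.span {g}) = ∏ᶠ v : HeightOneSpectrum (𝓞 F), h v ^ cnt v g := by
  let φ : Ideal (𝓞 F) →* M := ⟨⟨cm h, cm_one h⟩, cm_mul h⟩
  have h1 := Ideal.finprod_heightOneSpectrum_factorization (span_ne_zero hg)
  have h2 : cm h (Ideal.span {g}) = φ (Ideal.span {g}) := rfl
  rw [h2, ← h1, map_finprod φ (Ideal.hasFiniteMulSupport (span_ne_zero hg))]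
  refine finprod_congr fun v => ?_
  rw [HeightOneSpectrum.maxPowDividing, map_pow]
  congr 1
  exact cm_prime h v

theorem cnt_support {M : Type*} [CommMonoidWithZero M] (h : HeightOneSpectrum (𝓞 F) → M) {g : 𝓞 F}
    (hg : g ≠ 0) : (Function.mulSupport fun v => h v ^ cnt v g).Finite := by
  refine (finite_primes g hg).subset fun v hv => ?_
  by_contra hcon
  apply hv
  change h v ^ cnt v g = 1
  rw [cnt_zero v hcon, pow_zero]

theorem symb_pow {v : HeightOneSpectrum (𝓞 F)} {x : F} (hx : x ≠ 0) (ex : ev v x) (n : ℕ) :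
    symb x v ^ n = if Even n then 1 else symb x v := by
  rcases symb_pm v hx ex with h | h <;> rw [h]
  · simp
  · split_ifs with hn
    · exact hn.neg_one_pow
    · exact (Nat.not_even_iff_odd.1 hn).neg_one_pow

/-- coprime integers -/
theorem HH_cop {α g : 𝓞 F} (hα : α ≠ 0) (hg : g ≠ 0) (hc : Cop α g) :
    HH (α : F) (g : F) = Xg α g * Xg g α := by
  have hαF : (α : F) ≠ 0 := RingOfIntegers.coe_ne_zero_iff.2 hα
  have hgF : (g : F) ≠ 0 := RingOfIntegers.coe_ne_zero_iff.2 hg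
  rw [Xg, Xg, chi, chi, cm_span _ hg, cm_span _ hα, HH,
    ← finprod_mul_distrib (cnt_support _ hg) (cnt_support _ hα)]
  refine finprod_congr fun v => ?_
  by_cases h1 : α ∈ v.asIdeal
  · have h2 : g ∉ v.asIdeal := hc v h1
    rw [cnt_zero v h2, pow_zero, one_mul, symb_pow hgF (ev_unit v h2)]
    by_cases h3 : ev v (α : F)
    · rw [T_ev_ev v h3 (ev_unit v h2), if_pos ((ev_int v hα).1 h3)]
    · rw [T_odd_ev v h3 (ev_unit v h2), if_neg (fun h => h3 ((ev_int v hα).2 h))]
  · rw [cnt_zero v h1, pow_zero, mul_one, symb_pow hαF (ev_unit v h1)]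
    by_cases h3 : ev v (g : F)
    · rw [T_ev_ev v (ev_unit v h1) h3, if_pos ((ev_int v hg).1 h3)]
    · rw [T_ev v (ev_unit v h1) h3, if_neg (fun h => h3 ((ev_int v hg).2 h))]

/-- **the character is trivial on the ray** -/
theorem HH_ray {d g : 𝓞 F} (hd : d ≠ 0) (hg : g ≠ 0)
    (h : ∀ v : HeightOneSpectrum (𝓞 F), ¬ ev v (d : F) → g - 1 ∈ v.asIdeal ∧ (2 : 𝓞 F) ∉ v.asIdeal) :
    HH (d : F) (g : F) = chi (d : F) (Ideal.span {g}) := by
  have hdF : (d : F) ≠ 0 := RingOfIntegers.coe_ne_zero_iff.2 hd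
  rw [chi, cm_span _ hg, HH]
  refine finprod_congr fun v => ?_
  by_cases h1 : ev v (d : F)
  · rw [symb_pow hdF h1]
    by_cases h3 : ev v (g : F)
    · rw [T_ev_ev v h1 h3, if_pos ((ev_int v hg).1 h3)]
    · rw [T_ev v h1 h3, if_neg (fun h => h3 ((ev_int v hg).2 h))]
  · obtain ⟨h2, h3⟩ := h v h1
    have h4 : g ∉ v.asIdeal := by
      intro h4
      apply v.isPrime.ne_top
      rw [Ideal.eq_top_iff_one]
      have h5 := Ideal.sub_mem _ h4 h2
      rwa [sub_sub_cancel] at h5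
    rw [T_odd_ev v h1 (ev_unit v h4), cnt_zero v h4, pow_zero,
      symb_congr_odd g 1 v h3 h4 h2]
    have h5 : ((1 : 𝓞 F) : F) = 1 ^ 2 := by
      rw [one_pow]
      exact map_one (algebraMap (𝓞 F) F)
    rw [h5, symb_sqF v one_ne_zero]

end

end TWR
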