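import Pool.Agent.MP_9ab903_nt.TWR.T0

set_option autoImplicit false

open NumberField IsDedekindDomain
open CM27 CMT CF NAB
open scoped Classical

namespace TWR

/-! ## [TWR-T1] the tower (file TWR/T1.lean) -/

/-- **(T-a)** `d` has odd valuation only above `3` and the good primes. -/
theorem odd_val (F : IntermediateField ℚ ℂ) [NumberField F] (hw : w ∈ F) (d : 𝓞 F)
    (hT : TTd F hw d) (v : HeightOneSpectrum (𝓞 F)) (hv : ¬ IsSquare (v.valuation F (d : F))) :
    (3 : 𝓞 F) ∈ v.asIdeal ∨ ∃ p : ℕ, GoodPrime p ∧ (p : 𝓞 F) ∈ v.asIdeal := by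
  by_contra hcon
  push Not at hcon
  letI := algK F hw
  obtain ⟨M, _, _, _, _, _, _, m, hm, hu, δ, hδ⟩ := hT
  exact hv (odd_val_gen KK F M hu (d : F) δ hδ v hcon.1 hcon.2)

/-- a subfield of index two -/
theorem exists_index_two (K F M : Type) [Field K] [NumberField K] [Field F] [NumberField F]
    [Field M] [NumberField M] [Algebra K F] [Algebra F M] [Algebra K M] [IsScalarTower K F M]
    [IsGalois K M] (m : ℕ) (hm : Module.finrank K M = 2 ^ m) (hne : Module.finrank K F ≠ 1) :
    ∃ L : IntermediateField K F, Module.finrank K F = 2 * Module.finrank K L := by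
  have : FiniteDimensional K M := Module.Finite.of_restrictScalars_finite ℚ K M
  have : FiniteDimensional K F := Module.Finite.of_restrictScalars_finite ℚ K F
  have : Fact (Nat.Prime 2) := ⟨Nat.prime_two⟩
  let f : F →ₐ[K] M := IsScalarTower.toAlgHom K F M
  set H : Subgroup (M ≃ₐ[K] M) := f.fieldRange.fixingSubgroup with hH
  have hfE : Module.finrank K f.fieldRange = Module.finrank K F :=
    (AlgEquiv.ofInjectiveField f).toLinearEquiv.finrank_eq.symm
  have hG : Nat.card (M ≃ₐ[K] M) = 2 ^ m := by rw [IsGalois.card_aut_eq_finrank, hm]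
  have hcardH : Nat.card H = Module.finrank f.fieldRange M :=
    IsGalois.card_fixingSubgroup_eq_finrank _
  have htow : Module.finrank K F * Nat.card H = 2 ^ m := by
    rw [hcardH, ← hfE, Module.finrank_mul_finrank, hm]
  obtain ⟨a, ham, ha⟩ := (Nat.dvd_prime_pow Nat.prime_two).1 (Dvd.intro_left _ htow)
  have hF0 : 0 < Module.finrank K F := Module.finrank_pos
  have ham' : a < m := by
    rcases ham.lt_or_eq with h | h
    · exact h
    · exfalso
      rw [ha, h] at htow
      apply hne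
      have h2 : 0 < 2 ^ m := by positivity
      exact Nat.eq_of_mul_eq_mul_right h2 (by rw [htow, one_mul])
  obtain ⟨H₀, hH₀, hle⟩ := Sylow.exists_subgroup_card_pow_succ (G := M ≃ₐ[K] M) (p := 2) (n := a)
    (by rw [hG]; exact pow_dvd_pow 2 ham') (H := H) ha
  set L' : IntermediateField K M := IntermediateField.fixedField H₀ with hL'
  have hL'E : L' ≤ f.fieldRange := by
    have h1 : IntermediateField.fixedField H = f.fieldRange :=
      IsGalois.fixedField_fixingSubgroup _
    rw [← h1]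
    exact IntermediateField.fixedField_antitone hle
  have hcard : Module.finrank L' M = 2 ^ (a + 1) := by
    rw [hL', IntermediateField.finrank_fixedField_eq_card, hH₀]
  refine ⟨L'.comap f, ?_⟩
  have hmap : (L'.comap f).map f = L' := by
    apply le_antisymm
    · rintro _ ⟨x, hx, rfl⟩
      exact hx
    · intro x hx
      obtain ⟨y, rfl⟩ := hL'E hx
      exact ⟨y, hx, rfl⟩
  have h2 : Module.finrank K (L'.comap f) = Module.finrank K L' := by
    exact ((L'.comap f).equivMap f).toLinearEquiv.finrank_eq.trans (by rw [hmap])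
  have h3 : Module.finrank K L' * 2 ^ (a + 1) = 2 ^ m := by
    rw [← hcard, Module.finrank_mul_finrank, hm]
  rw [h2]
  have h4 : Module.finrank K F * 2 ^ a = Module.finrank K L' * 2 ^ (a + 1) := by
    rw [h3, ← ha, htow]
  have h5 : 0 < 2 ^ a := by positivity
  apply Nat.eq_of_mul_eq_mul_right h5
  rw [h4, pow_succ]
  ring

theorem exists_step (F : IntermediateField ℚ ℂ) [NumberField F] (hw : w ∈ F) (hT : TTd F hw 1)
    (hne : Module.finrank ℚ F ≠ 2) :
    ∃ (F₀ : IntermediateField ℚ ℂ) (_ : NumberField F₀) (hw₀ : w ∈ F₀) (d : 𝓞 F₀) (δ : ℂ),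
      F₀ ≤ F ∧ Module.finrank ℚ F = 2 * Module.finrank ℚ F₀ ∧ TTd F₀ hw₀ d ∧ d ≠ 0 ∧
      (4 : 𝓞 F₀) ∣ d - 1 ∧ δ ^ 2 = ((d : F₀) : ℂ) ∧ δ ∈ F ∧ δ ∉ F₀ := by
  letI := algK F hw
  have hST : IsScalarTower ℚ KK F := IsScalarTower.of_algebraMap_eq' (Subsingleton.elim _ _)
  have hKF : FiniteDimensional KK F := Module.Finite.of_restrictScalars_finite ℚ KK F
  obtain ⟨M, _, _, _, _, _, _, m, hm, hu, δ', hδ'⟩ := hT
  have hKKF : Module.finrank ℚ F = 2 * Module.finrank KK F := by
    rw [← d2_finrank_KK, Module.finrank_mul_finrank]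
  obtain ⟨L, hL⟩ := exists_index_two KK F M m hm (by
    intro h
    rw [h] at hKKF
    exact hne hKKF)
  -- the field `F₀`
  set L₀ : IntermediateField ℚ F := L.restrictScalars ℚ with hL₀
  set F₀ : IntermediateField ℚ ℂ := IntermediateField.lift L₀ with hF₀
  have hle : F₀ ≤ F := IntermediateField.lift_le L₀
  have hmem : ∀ x : F, (x : ℂ) ∈ F₀ ↔ x ∈ L := fun x => IntermediateField.mem_lift x
  have hw₀ : w ∈ F₀ := by
    have h1 : (⟨w, hw⟩ : F) ∈ L := by
      have h2 : (⟨w, hw⟩ : F) = algebraMap KK F ⟨w, d2_w_mem⟩ := rfl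
      rw [h2]
      exact L.algebraMap_mem _
    exact (hmem ⟨w, hw⟩).2 h1
  have hfin : FiniteDimensional ℚ F₀ :=
    Module.Finite.of_injective (IntermediateField.inclusion hle).toLinearMap
      (IntermediateField.inclusion_injective hle)
  have hnf : NumberField F₀ := ⟨⟩
  have hrank0 : Module.finrank ℚ F₀ = Module.finrank ℚ L := by
    have h1 : Module.finrank ℚ F₀ = Module.finrank ℚ L₀ :=
      (IntermediateField.liftAlgEquiv L₀).toLinearEquiv.finrank_eq.symm
    exact h1
  have hrank : Module.finrank ℚ F = 2 * Module.finrank ℚ F₀ := by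
    rw [hrank0, hKKF, hL]
    have h1 : Module.finrank ℚ KK * Module.finrank KK L = Module.finrank ℚ L :=
      Module.finrank_mul_finrank _ _ _
    rw [d2_finrank_KK] at h1
    rw [← h1]
  -- the quadratic extension `F / F₀`
  letI algFF : Algebra F₀ F := (IntermediateField.inclusion hle).toRingHom.toAlgebra
  have hST2 : IsScalarTower ℚ F₀ F := IsScalarTower.of_algebraMap_eq' (Subsingleton.elim _ _)
  have hfin2 : FiniteDimensional F₀ F := Module.Finite.of_restrictScalars_finite ℚ F₀ F
  have hrank2 : Module.finrank F₀ F = 2 := by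
    have h1 : Module.finrank ℚ F₀ * Module.finrank F₀ F = Module.finrank ℚ F :=
      Module.finrank_mul_finrank _ _ _
    rw [hrank, mul_comm 2] at h1
    exact Nat.eq_of_mul_eq_mul_left Module.finrank_pos h1
  have hquad : Algebra.IsQuadraticExtension F₀ F := { finrank_eq_two' := hrank2 }
  obtain ⟨S⟩ := exists_Sig F₀ F
  letI algKF₀ := algK F₀ hw₀
  have hST3 : IsScalarTower KK F₀ F := IsScalarTower.of_algebraMap_eq fun x => rfl
  letI algF₀M : Algebra F₀ M := ((algebraMap F M).comp (algebraMap F₀ F)).toAlgebra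
  have hST4 : IsScalarTower F₀ F M := IsScalarTower.of_algebraMap_eq fun x => rfl
  have hST5 : IsScalarTower KK F₀ M := IsScalarTower.of_algebraMap_eq fun x => by
    rw [IsScalarTower.algebraMap_apply KK F M]
    rfl
  have huF : Unr KK F := unr_sub KK F M hu
  have hr : Ur2 F₀ F := by
    intro W hW hmap
    have hlies1 : W.asIdeal.LiesOver (und KK W).asIdeal := ⟨rfl⟩
    have hlies2 : W.asIdeal.LiesOver (und F₀ W).asIdeal := ⟨rfl⟩
    have hlies3 : (und F₀ W).asIdeal.LiesOver (und KK W).asIdeal :=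
      Ideal.LiesOver.tower_bot W.asIdeal (und F₀ W).asIdeal (und KK W).asIdeal
    have hodd : ∀ k : ℕ, ¬ 2 ∣ k → (k : 𝓞 F) ∉ W.asIdeal := by
      intro k hk h
      apply W.isPrime.ne_top
      rw [Ideal.eq_top_iff_one]
      obtain ⟨j, hj⟩ : ∃ j, k = 2 * j + 1 := ⟨k / 2, by omega⟩
      have h3 : (1 : 𝓞 F) = (k : 𝓞 F) - 2 * (j : 𝓞 F) := by
        rw [hj]; push_cast; ring
      rw [h3]
      exact Ideal.sub_mem _ h (Ideal.mul_mem_right _ _ hW)
    have h1 : W.asIdeal.ramificationIdx (𝓞 KK) = 1 := by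
      refine huF (und KK W) W hlies1 ?_ ?_
      · rw [mem_und, map_ofNat]
        exact_mod_cast hodd 3 (by norm_num)
      · intro p hp
        rw [mem_und, map_natCast]
        refine hodd p fun h => ?_
        have h6 := (Nat.prime_dvd_prime_iff_eq Nat.prime_two hp.1).1 h
        have h7 := hp.2.1
        omega
    have := W.isMaximal
    have := (und KK W).isMaximal
    have := (und F₀ W).isMaximal
    have h2 := Ideal.ramificationIdx_tower (R := 𝓞 KK) (und F₀ W).asIdeal W.asIdeal
    rw [h1] at h2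
    have h3 : W.asIdeal.ramificationIdx (𝓞 F₀) = 1 := Nat.eq_one_of_mul_eq_one_left h2.symm
    have h5 : (und F₀ W).asIdeal.ramificationIdx' W.asIdeal = 1 := by
      rw [Ideal.ramificationIdx'_eq_ramificationIdx (und F₀ W).asIdeal W.asIdeal
        (und F₀ W).ne_bot, h3]
    have h6 : (und F₀ W).asIdeal.ramificationIdx' W.asIdeal = 2 := by
      refine Ideal.ramificationIdx'_spec hmap.le ?_
      rw [hmap]
      intro h
      have h1 := Ideal.dvd_iff_le.2 h
      have h2 := (pow_dvd_pow_iff W.ne_bot W.prime.not_unit).1 h1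
      omega
    omega
  obtain ⟨d, δ, hd0, h4, hδ, hsδ, hδ0⟩ := exists_sqrt S hr
  refine ⟨F₀, hnf, hw₀, d, ((δ : F) : ℂ), hle, hrank, ?_, hd0, h4, ?_, (δ : F).2, ?_⟩
  · exact ⟨M, inferInstance, inferInstance, inferInstance, inferInstance, inferInstance,
      inferInstance, m, hm, hu, algebraMap F M (δ : F), by
        rw [← map_pow]
        have h1 : ((δ ^ 2 : 𝓞 F) : F) = algebraMap F₀ F (d : F₀) := by rw [hδ]; rfl
        have h2 : ((δ : F) ^ 2) = algebraMap F₀ F (d : F₀) := by
          rw [← h1]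
          rfl
        rw [h2]
        rfl⟩
  · have h1 : ((δ ^ 2 : 𝓞 F) : F) = algebraMap F₀ F (d : F₀) := by rw [hδ]; rfl
    have h2 : (((δ ^ 2 : 𝓞 F) : F) : ℂ) = ((d : F₀) : ℂ) := by rw [h1]; rfl
    exact h2
  · intro h
    -- `δ` would be fixed by the conjugation
    set e : F₀ := ⟨((δ : F) : ℂ), h⟩ with he
    have heF : algebraMap F₀ F e = (δ : F) := rfl
    have hint : IsIntegral ℤ e := by
      rw [← isIntegral_algebraMap_iff (algebraMap F₀ F).injective, heF]
      exact δ.isIntegral_coe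
    have h1 : S.sg (algebraMap (𝓞 F₀) (𝓞 F) ⟨e, hint⟩) = algebraMap (𝓞 F₀) (𝓞 F) ⟨e, hint⟩ :=
      S.fix _
    have h2 : algebraMap (𝓞 F₀) (𝓞 F) ⟨e, hint⟩ = δ := RingOfIntegers.ext heF
    rw [h2, hsδ] at h1
    apply hδ0
    have h3 : 2 * δ = 0 := by linear_combination -h1
    exact (mul_eq_zero.1 h3).resolve_left two_ne_zero

end TWR
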