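import Pool.Agent.MP_9ab903_nt.TWR.PG2

set_option autoImplicit false

open NumberField IsDedekindDomain
open CM27 CMT CF NAB
open scoped Classical

namespace TWR

/-! ## [TWR-TW1] towers of quadratic extensions of `ℚ(ω)` (file TWR/TW1.lean) -/

/-- towers of quadratic extensions of `ℚ(ω)` with odd discriminants -/
inductive Tow : IntermediateField ℚ ℂ → Prop
  | base : Tow KK
  | step (F₀ F : IntermediateField ℚ ℂ) (h : Tow F₀) (hle : F₀ ≤ F)
      (h2 : Module.finrank ℚ F = 2 * Module.finrank ℚ F₀)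
      (hodd : ∀ [NumberField F], Odd (discr F).natAbs) : Tow F

namespace Tow

theorem rank {F : IntermediateField ℚ ℂ} (h : Tow F) : ∃ n : ℕ, Module.finrank ℚ F = 2 ^ (n + 1) := by
  induction h with
  | base => exact ⟨0, by rw [d2_finrank_KK]; norm_num⟩
  | step F₀ F _ _ h2 _ ih =>
    obtain ⟨n, hn⟩ := ih
    exact ⟨n + 1, by rw [h2, hn]; ring⟩

theorem numberField {F : IntermediateField ℚ ℂ} (h : Tow F) : NumberField F := by
  obtain ⟨n, hn⟩ := h.rank
  haveI : FiniteDimensional ℚ F := FiniteDimensional.of_finrank_pos (by rw [hn]; positivity)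
  exact { to_charZero := inferInstance, to_finiteDimensional := inferInstance }

theorem mem {F : IntermediateField ℚ ℂ} (h : Tow F) : w ∈ F := by
  induction h with
  | base => exact d2_w_mem
  | step F₀ F _ hle _ _ ih => exact hle ih

theorem odd {F : IntermediateField ℚ ℂ} (h : Tow F) [NumberField F] : Odd (discr F).natAbs := by
  cases h with
  | base => exact odd_discr_KK
  | step F₀ _ _ _ _ hodd => exact hodd

end Tow

/-- the inclusion as an algebra -/
@[reducible] noncomputable def algI {F₀ F : IntermediateField ℚ ℂ} (hle : F₀ ≤ F) : Algebra F₀ F :=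
  (IntermediateField.inclusion hle).toRingHom.toAlgebra

theorem quadI {F₀ F : IntermediateField ℚ ℂ} [NumberField F₀] (hle : F₀ ≤ F)
    (h2 : Module.finrank ℚ F = 2 * Module.finrank ℚ F₀) :
    letI := algI hle; Algebra.IsQuadraticExtension F₀ F := by
  letI := algI hle
  have : IsScalarTower ℚ F₀ F := IsScalarTower.of_algebraMap_eq' (Subsingleton.elim _ _)
  have h1 := Module.finrank_mul_finrank ℚ F₀ F
  have h3 : 0 < Module.finrank ℚ F₀ := Module.finrank_pos
  rw [h2, mul_comm 2] at h1
  exact { finrank_eq_two' := Nat.eq_of_mul_eq_mul_left h3 h1 }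

theorem ur2_of_odd (k F : Type) [Field k] [NumberField k] [Field F] [NumberField F] [Algebra k F]
    (h : Odd (discr F).natAbs) : Ur2 k F := by
  intro w hw he
  apply two_unram_of_odd F h w hw
  rw [← he]
  have h2 : (2 : 𝓞 k) ∈ (und k w).asIdeal := (two_und (k := k) w).2 hw
  have := Ideal.mem_map_of_mem (algebraMap (𝓞 k) (𝓞 F)) h2
  rwa [map_ofNat] at this

theorem PF_KK : PF KK (fun _ => True) := by
  haveI := quad_KK
  obtain ⟨S⟩ := exists_Sig ℚ KK
  exact PF_ext S (ur2_of_odd ℚ KK odd_discr_KK) PF_rat norm_KK_pos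

/-- **The product formula in towers.** -/
theorem Tow.pf {F : IntermediateField ℚ ℂ} (h : Tow F) [NumberField F] : PF F (fun _ => True) := by
  revert ‹NumberField F›
  induction h with
  | base =>
    intro hN
    exact PF_KK
  | step F₀ F h hle h2 hodd ih =>
    intro hN
    haveI := h.numberField
    letI := algI hle
    haveI := quadI hle h2
    obtain ⟨S⟩ := exists_Sig F₀ F
    exact PF_ext S (ur2_of_odd F₀ F hodd) ih fun _ _ => trivial

/-- **The character `χ_d` is trivial on the ray.** -/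
theorem Tow.chi_one {F : IntermediateField ℚ ℂ} (h : Tow F) [NumberField F] {d g m : 𝓞 F}
    (hd : AdG (d : F)) (hg : g ≠ 0) (hm2 : Cop m 2)
    (hm : ∀ v : HeightOneSpectrum (𝓞 F), ¬ ev v (d : F) → m ∈ v.asIdeal) (hgm : m ∣ g - 1) :
    chi (d : F) (Ideal.span {g}) = 1 := by
  have hd0 : d ≠ 0 := by
    rintro rfl
    exact hd.ne_zero rfl
  rw [← HH_ray hd0 hg fun v hv => ⟨?_, hm2 v (hm v hv)⟩]
  · exact h.pf _ _ hd (RingOfIntegers.coe_ne_zero_iff.2 hg) (Or.inl trivial)
  · obtain ⟨c, hc⟩ := hgm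
    rw [hc]
    exact Ideal.mul_mem_right _ _ (hm v hv)

end TWR
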