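import Pool.Agent.MP_9ab903_nt.TWR.TW1
import Pool.Agent.MP_9ab903_nt.NAB.C1
import Pool.Agent.MP_9ab903_nt.NG.HDefs

set_option autoImplicit false

open NumberField IsDedekindDomain
open CM27 CMT CF NAB
open scoped Classical ComplexConjugate

namespace TWR

/-! ## [TWR-AN1] the modulus and the ray class characters (file TWR/AN1.lean) -/

section
variable {F : Type} [Field F] [NumberField F]

/-- above `3` or a good prime -/
def GP (v : HeightOneSpectrum (𝓞 F)) : Prop :=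
  (3 : 𝓞 F) ∈ v.asIdeal ∨ ∃ p : ℕ, GoodPrime p ∧ (p : 𝓞 F) ∈ v.asIdeal

theorem cop_of_isCoprime {a b : 𝓞 F} (h : IsCoprime a b) : Cop a b := by
  intro v ha hb
  obtain ⟨x, y, hxy⟩ := h
  apply v.isPrime.ne_top
  rw [Ideal.eq_top_iff_one, ← hxy]
  exact Ideal.add_mem _ (Ideal.mul_mem_left _ _ ha) (Ideal.mul_mem_left _ _ hb)

theorem prin_pow (I : Ideal (𝓞 F)) (hI : I ≠ 0) :
    ∃ (n : ℕ) (g : 𝓞 F), n ≠ 0 ∧ I ^ n = Ideal.span {g} := by
  have h1 : ClassGroup.mk0 (⟨I, mem_nonZeroDivisors_iff_ne_zero.2 hI⟩ : nonZeroDivisors (Ideal (𝓞 F)))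
      ^ Fintype.card (ClassGroup (𝓞 F)) = 1 := pow_card_eq_one
  rw [← map_pow] at h1
  have h2 := (ClassGroup.mk0_eq_one_iff
    ((⟨I, mem_nonZeroDivisors_iff_ne_zero.2 hI⟩ : nonZeroDivisors (Ideal (𝓞 F))) ^
      Fintype.card (ClassGroup (𝓞 F))).2).1 h1
  obtain ⟨g, hg⟩ := h2.principal
  refine ⟨Fintype.card (ClassGroup (𝓞 F)), g, Fintype.card_ne_zero, ?_⟩
  exact hg

theorem even_of_two {d : 𝓞 F} (h4 : (4 : 𝓞 F) ∣ d - 1) {v : HeightOneSpectrum (𝓞 F)}
    (hv : ¬ ev v (d : F)) : (2 : 𝓞 F) ∉ v.asIdeal := by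
  intro h2
  apply hv
  apply ev_unit
  intro hd
  apply v.isPrime.ne_top
  rw [Ideal.eq_top_iff_one]
  obtain ⟨c, hc⟩ := h4
  have h5 : (1 : 𝓞 F) = d - 2 * (2 * c) := by linear_combination -hc
  rw [h5]
  exact Ideal.sub_mem _ hd (Ideal.mul_mem_right _ _ h2)

/-- **the modulus** -/
theorem exists_modulus (d : 𝓞 F) (hd : d ≠ 0) (h4 : (4 : 𝓞 F) ∣ d - 1) :
    ∃ m : 𝓞 F, m ≠ 0 ∧ (3 : 𝓞 F) ∣ m ∧ IsCoprime m 2 ∧
      ∀ v : HeightOneSpectrum (𝓞 F), m ∈ v.asIdeal ↔ (3 : 𝓞 F) ∈ v.asIdeal ∨ ¬ ev v (d : F) := by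
  choose n g hn hg using fun v : HeightOneSpectrum (𝓞 F) => prin_pow v.asIdeal v.ne_bot
  have hfin : {v : HeightOneSpectrum (𝓞 F) | ¬ ev v (d : F)}.Finite := by
    refine (finite_primes d hd).subset fun v hv => ?_
    by_contra hcon
    exact hv (ev_unit v hcon)
  set T := hfin.toFinset with hT
  have hTm : ∀ v, v ∈ T ↔ ¬ ev v (d : F) := fun v => by rw [hT, Set.Finite.mem_toFinset]; rfl
  have hgm : ∀ v u : HeightOneSpectrum (𝓞 F), g v ∈ u.asIdeal ↔ u = v := by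
    intro v u
    constructor
    · intro h
      have h1 : v.asIdeal ^ n v ≤ u.asIdeal := by
        rw [hg v, Ideal.span_singleton_le_iff_mem]
        exact h
      have h2 : v.asIdeal ≤ u.asIdeal := u.isPrime.le_of_pow_le h1
      exact (HeightOneSpectrum.ext (v.isMaximal.eq_of_le u.isPrime.ne_top h2)).symm
    · rintro rfl
      have h1 : g u ∈ u.asIdeal ^ n u := by
        rw [hg u]
        exact Ideal.mem_span_singleton_self _
      exact Ideal.pow_le_self (hn u) h1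
  have hg0 : ∀ v, g v ≠ 0 := by
    intro v h0
    have h1 := hg v
    rw [h0, Ideal.span_singleton_eq_bot.2 rfl] at h1
    exact pow_ne_zero (n v) v.ne_bot h1
  have h30 : (3 : 𝓞 F) ≠ 0 := by norm_num
  have hmem : ∀ v : HeightOneSpectrum (𝓞 F), 3 * ∏ u ∈ T, g u ∈ v.asIdeal ↔
      (3 : 𝓞 F) ∈ v.asIdeal ∨ ¬ ev v (d : F) := by
    intro v
    rw [v.isPrime.mul_mem_iff_mem_or_mem, v.isPrime.prod_mem_iff]
    constructor
    · rintro (h | ⟨u, hu, h⟩)
      · exact Or.inl h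
      · rw [hgm] at h
        rw [h]
        exact Or.inr ((hTm u).1 hu)
    · rintro (h | h)
      · exact Or.inl h
      · exact Or.inr ⟨v, (hTm v).2 h, (hgm v v).2 rfl⟩
  refine ⟨3 * ∏ v ∈ T, g v, mul_ne_zero h30 (Finset.prod_ne_zero_iff.2 fun v _ => hg0 v),
    dvd_mul_right _ _, ?_, hmem⟩
  refine isCoprime_of_cop _ _ ?_ (fun h => two_ne_zero h.2)
  intro v hv h2
  rcases (hmem v).1 hv with h | h
  · apply v.isPrime.ne_top
    rw [Ideal.eq_top_iff_one]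
    have h5 : (1 : 𝓞 F) = 3 - 2 := by norm_num
    rw [h5]
    exact Ideal.sub_mem _ h h2
  · exact even_of_two h4 h h2

end

section
variable (F : IntermediateField ℚ ℂ) [NumberField F]

theorem pm_of_ev (m d : 𝓞 F) (hd0 : d ≠ 0)
    (hm : ∀ v : HeightOneSpectrum (𝓞 F), ¬ ev v (d : F) → m ∈ v.asIdeal)
    (I : Ideal (𝓞 F)) (hI : I ≠ 0) (hc : IsCoprime I (Ideal.span {m})) :
    chi (d : F) I = 1 ∨ chi (d : F) I = -1 := by
  refine ideal_induction (P := fun I => IsCoprime I (Ideal.span {m}) →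
    (chi (d : F) I = 1 ∨ chi (d : F) I = -1)) ?_ ?_ I hI hc
  · intro _
    left
    rw [chi, cm_one]
  · intro v I _ ih hc
    have h1 := ih (IsCoprime.of_mul_left_right hc)
    have h2 := c1_not_mem F v m (IsCoprime.of_mul_left_left hc)
    have h3 : ev v (d : F) := by
      by_contra h
      exact h2 (hm v h)
    have h4 : chi (d : F) (v.asIdeal * I) = symb (d : F) v * chi (d : F) I := by
      rw [chi, chi, cm_mul, cm_prime]
    rw [h4]
    rcases symb_pm v (RingOfIntegers.coe_ne_zero_iff.2 hd0) h3 with h5 | h5 <;>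
      rcases h1 with h6 | h6 <;> rw [h5, h6] <;> norm_num

theorem one_RC (m : 𝓞 F) : NG.IsRC F m (c1_one F m) :=
  ⟨(c1_one_RC F m).mul, (c1_one_RC F m).zero, (c1_one_RC F m).pm, (c1_one_RC F m).one⟩

theorem Tow.chi_RC {F : IntermediateField ℚ ℂ} (h : Tow F) [NumberField F] (m d : 𝓞 F)
    (hd0 : d ≠ 0) (h4 : (4 : 𝓞 F) ∣ d - 1) (hm2 : IsCoprime m 2)
    (hm : ∀ v : HeightOneSpectrum (𝓞 F), ¬ ev v (d : F) → m ∈ v.asIdeal) :
    NG.IsRC F m (c1_chi F m d) where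
  mul I J := by
    by_cases h1 : IsCoprime I (Ideal.span {m})
    · by_cases h2 : IsCoprime J (Ideal.span {m})
      · rw [c1_chi, c1_chi, c1_chi, if_pos h1, if_pos h2, if_pos (h1.mul_left h2), chi, chi, chi,
          cm_mul]
      · rw [c1_chi, c1_chi, c1_chi, if_neg h2, if_neg (fun h3 => h2 (IsCoprime.of_mul_left_right h3)),
          mul_zero]
    · rw [c1_chi, c1_chi, c1_chi, if_neg h1, if_neg (fun h3 => h1 (IsCoprime.of_mul_left_left h3)),
        zero_mul]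
  zero I hI := if_neg hI
  pm I h0 hI := by
    rw [c1_chi, if_pos hI]
    exact pm_of_ev F m d hd0 hm I h0 hI
  one g hg hg1 := by
    rw [c1_chi, if_pos (c1_cop F m g hg1)]
    exact h.chi_one (AdG_of_four h4) hg (cop_of_isCoprime hm2) hm hg1

end

end TWR
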