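import Pool.Agent.MP_9ab903_nt.TWR.AN1
import Pool.Agent.MP_9ab903_nt.NAB.Fin
import Pool.Agent.MP_9ab903_nt.NAB.FinL

set_option autoImplicit false

open NumberField IsDedekindDomain
open CM27 CMT CF NAB
open scoped Classical ComplexConjugate

namespace TWR

/-! ## [TWR-AN2] the base `L`-function (file TWR/AN2.lean) -/

/-- the class of fields, arithmetic properties -/
structure Cls (F : IntermediateField ℚ ℂ) [NumberField F] : Prop where
  tow : Tow F
  three : ∀ v : HeightOneSpectrum (𝓞 F), (3 : 𝓞 F) ∈ v.asIdeal →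
      ∃ (k : ℕ) (ϖ u : v.adicCompletionIntegers F), ¬ 3 ∣ k ∧ Irreducible ϖ ∧ IsUnit u ∧
      (3 : v.adicCompletionIntegers F) = u * ϖ ^ k
  cube : ∀ p : ℕ, GoodPrime p → ∀ v : HeightOneSpectrum (𝓞 F), (p : 𝓞 F) ∈ v.asIdeal →
      ∀ x : 𝓞 F, x ^ 3 - 2 ∉ v.asIdeal

/-- the value of the `L`-function of `E / F` -/
def AN (F : IntermediateField ℚ ℂ) [NumberField F] : Prop :=
  ∃ L : ℂ → ℂ, Differentiable ℂ L ∧
    (∀ s : ℂ, 3 / 2 < s.re → LSeriesSummable (fun k => ((E F).LFunction k : ℂ)) s ∧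
      L s = (E F).LSeries s) ∧ L 1 ≠ 0 ∧
    ∃ q : ℚ, 0 < q ∧ padicValRat 2 q = 0 ∧
      L 1 * ((√|(discr F : ℝ)| : ℝ) : ℂ) = q * ((period F : ℝ) : ℂ)

section
variable (F : IntermediateField ℚ ℂ) [NumberField F]

/-- the period -/
theorem period_eq (hw : w ∈ F) (n : ℕ) (hn : Module.finrank ℚ F = 2 * n) :
    (CM27.period F : ℝ) = √3 ^ n * Om ^ (2 * n) := by
  have hreal : InfinitePlace.nrRealPlaces F = 0 := by
    rw [InfinitePlace.nrRealPlaces, Fintype.card_eq_zero_iff]
    refine ⟨fun ⟨v, hv⟩ => ?_⟩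
    have hom : (⟨w, hw⟩ : F) ^ 2 + ⟨w, hw⟩ + 1 = 0 := by
      ext
      change w ^ 2 + w + 1 = 0
      linear_combination w_sq
    have h1 : (InfinitePlace.embedding_of_isReal hv) ⟨w, hw⟩ ^ 2 +
        (InfinitePlace.embedding_of_isReal hv) ⟨w, hw⟩ + 1 = 0 := by
      rw [← map_pow, ← map_add, ← map_one (InfinitePlace.embedding_of_isReal hv), ← map_add, hom,
        _root_.map_zero]
    nlinarith [sq_nonneg (2 * (InfinitePlace.embedding_of_isReal hv) ⟨w, hw⟩ + 1)]
  have hrank := InfinitePlace.card_add_two_mul_card_eq_rank F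
  have hp : period F = OmR ^ InfinitePlace.nrRealPlaces F * OmCC ^ InfinitePlace.nrComplexPlaces F := by
    rw [period, Finset.prod_ite, Finset.prod_const, Finset.prod_const]
    congr 2
    · rw [InfinitePlace.nrRealPlaces, Fintype.card_subtype]
    · rw [InfinitePlace.nrComplexPlaces, Fintype.card_subtype]
      congr 1
      ext v
      simp [InfinitePlace.not_isReal_iff_isComplex]
  rw [hreal, hn, zero_add] at hrank
  have hc : InfinitePlace.nrComplexPlaces F = n := by omega
  rw [hp, hreal, hc, pow_zero, one_mul, OmCC_eq, mul_pow, ← pow_mul]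

variable {F}

/-- the Euler factors at the bad primes -/
theorem factor_unit (hC : Cls F) (v : HeightOneSpectrum (𝓞 F)) (hgood : GP v) :
    ∃ r : ℚ, 0 < r ∧ padicValRat 2 r = 0 ∧
      ‖1 - hvF F v * (Ideal.absNorm v.asIdeal : ℂ) ^ (-(1 : ℂ))‖ ^ 2 = r := by
  have hw := hC.tow.mem
  by_cases h3 : (3 : 𝓞 F) ∈ v.asIdeal
  · refine ⟨1, one_pos, by simp, ?_⟩
    rw [hvF, psiv_three F hw v h3, map_zero, zero_mul, sub_zero, norm_one]
    simp
  · obtain ⟨p, hp, hpv⟩ := hgood.resolve_left h3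
    have hpodd : Odd p := by
      rcases hp.1.eq_two_or_odd' with h5 | h5
      · exfalso
        have h6 := hp.2.1
        rw [h5] at h6
        norm_num at h6
      · exact h5
    have hN : Odd (Ideal.absNorm v.asIdeal) := by
      have h5 : Ideal.absNorm v.asIdeal ∣ Ideal.absNorm (Ideal.span {(p : 𝓞 F)}) :=
        Ideal.absNorm_dvd_absNorm_of_le ((Ideal.span_singleton_le_iff_mem _).2 hpv)
      rw [Ideal.absNorm_span_natCast] at h5
      exact (hpodd.pow).of_dvd_nat h5
    have h2 : (2 : 𝓞 F) ∉ v.asIdeal := by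
      intro h5
      obtain ⟨k, hk⟩ := hpodd
      apply v.isPrime.ne_top
      rw [Ideal.eq_top_iff_one]
      have h6 : (1 : 𝓞 F) = p - k * 2 := by
        rw [hk]
        push_cast
        ring
      rw [h6]
      exact Ideal.sub_mem _ hpv (Ideal.mul_mem_left _ _ h5)
    have hodd := odd_norm_psiv_sub_one F hw v h3 h2 (hC.cube p hp v hpv)
    set N : ℕ := Ideal.absNorm v.asIdeal with hNdef
    have hN0 : (N : ℂ) ≠ 0 := by exact_mod_cast hN.pos.ne'
    have h4 := norm_hv F hw v h3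
    rw [← hNdef] at h4
    have hM0 : (0 : ℤ) < (psiv F v - 1).norm := by
      have h5 := norm_nonneg' (psiv F v - 1)
      rcases h5.lt_or_eq with h6 | h6
      · exact h6
      · rw [← h6] at hodd
        exact absurd hodd (by decide)
    obtain ⟨M, hM⟩ := Int.eq_ofNat_of_zero_le hM0.le
    have hModd : Odd M := by
      rw [hM] at hodd
      exact_mod_cast hodd
    refine ⟨(M : ℚ) / N, ?_, ?_, ?_⟩
    · have h5 : (0 : ℚ) < M := by exact_mod_cast hModd.pos
      have h6 : (0 : ℚ) < N := by exact_mod_cast hN.pos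
      positivity
    · haveI : Fact (Nat.Prime 2) := ⟨Nat.prime_two⟩
      rw [padicValRat.div (by exact_mod_cast hModd.pos.ne') (by exact_mod_cast hN.pos.ne'),
        padic_unit_odd hModd, padic_unit_odd hN, sub_self]
    · have h5 : (1 - hvF F v * (N : ℂ) ^ (-(1 : ℂ))) * conj (1 - hvF F v * (N : ℂ) ^ (-(1 : ℂ))) =
          (M : ℂ) / N := by
        have h6 : emb (psiv F v - 1) * conj (emb (psiv F v - 1)) = (M : ℂ) := by
          rw [Complex.mul_conj, normSq_emb, hM]
          push_cast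
          rfl
        rw [← h6, Complex.cpow_neg_one, map_sub, map_sub, map_mul, map_inv₀, map_one,
          map_one, Complex.conj_natCast, ← hvF, map_sub, map_one]
        field_simp
        linear_combination (1 - (N : ℂ)) * h4
      rw [Complex.mul_conj, Complex.normSq_eq_norm_sq] at h5
      have h7 : ((‖1 - hvF F v * (N : ℂ) ^ (-(1 : ℂ))‖ ^ 2 : ℝ) : ℂ) = (((M : ℝ) / N : ℝ) : ℂ) := by
        rw [h5]
        push_cast
        rfl
      rw [Complex.ofReal_inj] at h7
      rw [h7]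
      push_cast
      rfl

theorem factors_unit (hC : Cls F) (T : Finset (HeightOneSpectrum (𝓞 F))) (hgood : ∀ v ∈ T, GP v) :
    ∃ r : ℚ, 0 < r ∧ padicValRat 2 r = 0 ∧
      ‖∏ v ∈ T, (1 - hvF F v * (Ideal.absNorm v.asIdeal : ℂ) ^ (-(1 : ℂ)))‖ ^ 2 = r := by
  choose! r h1 h2 h3 using fun v (hv : v ∈ T) => factor_unit hC v (hgood v hv)
  refine ⟨∏ v ∈ T, r v, Finset.prod_pos h1, ?_, ?_⟩
  · have : ∀ T' ⊆ T, padicValRat 2 (∏ v ∈ T', r v) = 0 := by
      intro T'
      induction T' using Finset.induction_on with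
      | empty =>
        intro _
        rw [Finset.prod_empty]
        simp
      | insert v T' hv ih =>
        intro h4
        rw [Finset.prod_insert hv]
        have h5 : T' ⊆ T := (Finset.subset_insert v T').trans h4
        have h6 : v ∈ T := h4 (Finset.mem_insert_self v T')
        exact padic_unit_mul (h1 v h6).ne' (Finset.prod_pos fun u hu => h1 u (h5 hu)).ne' (h2 v h6)
          (ih h5)
    exact this T Finset.Subset.rfl
  · rw [norm_prod, ← Finset.prod_pow, Finset.prod_congr rfl h3]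
    push_cast
    rfl

/-- **The value of the base `L`-function.** -/
theorem base_value (hC : Cls F) (hA : AN F) (n : ℕ) (hn : Module.finrank ℚ F = 2 * n)
    (m : 𝓞 F) (hm : m ≠ 0) (hgood : ∀ v : HeightOneSpectrum (𝓞 F), m ∈ v.asIdeal → GP v)
    (Φ : ℂ → ℂ) (hΦ : Differentiable ℂ Φ)
    (hs : ∀ s : ℂ, 3 / 2 < s.re → Φ s = LSeries (fun n => IL F (lamR F m) n) s) :
    ∃ q : ℚ, 0 < q ∧ padicValRat 2 q = 0 ∧
      ‖Φ 1‖ ^ 2 * √|(discr F : ℝ)| = q * (√3 ^ n * Om ^ (2 * n)) := by
  have hw := hC.tow.mem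
  obtain ⟨L, d1, s1, n1, q₁, hq₁, v₁, e₁⟩ := hA
  have h3 := hC.three
  set P : ℂ → ℂ := fun s => ∏ v ∈ pd F m, (1 - hvF F v * (Ideal.absNorm v.asIdeal : ℂ) ^ (-s)) with hP
  have dP : Differentiable ℂ P := by
    refine Differentiable.fun_finsetProd fun v _ => ?_
    refine (differentiable_const _).sub ((differentiable_const _).mul ?_)
    intro s
    refine DifferentiableAt.const_cpow differentiableAt_id.neg (Or.inl ?_)
    exact_mod_cast absNorm_ne_zero F v.ne_bot
  have hcm : ∀ I : Ideal (𝓞 F), I ≠ 0 → ‖cm (hvF F) I‖ ^ 2 ≤ Ideal.absNorm I :=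
    norm_cm_le F _ (norm_hv_le F hw)
  have key : ∀ s : ℂ, 3 / 2 < s.re → Φ s * conj (Φ (conj s)) = P s * conj (P (conj s)) * L s := by
    intro s h5
    have h5' : 3 / 2 < (conj s).re := by rw [Complex.conj_re]; exact h5
    have h6 : ∀ s : ℂ, 3 / 2 < s.re → Φ s = P s * LSeries (fun n => IL F (cm (hvF F)) n) s := by
      intro s h5
      rw [hs s h5, lamR_eq F m hm, LSeries_kill F (hvF F) (norm_hv_le F hw) (pd F m) s h5]
    have h7 : L s = LSeries (fun n => IL F (cm (hvF F)) n) s *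
        conj (LSeries (fun n => IL F (cm (hvF F)) n) (conj s)) := by
      rw [(s1 s h5).2, ← NAB.LSeries_conj]
      have t2 : (E F).LSeries s = LSeries (fun k => LC F k) s := rfl
      rw [t2, LC_lam F hw h3]
      refine ArithmeticFunction.LSeries_mul' (LSeriesSummable_IL F _ hcm s h5)
        (LSeriesSummable_IL F _ ?_ s h5)
      intro I hI
      rw [Complex.norm_conj]
      exact hcm I hI
    rw [h6 s h5, h6 _ h5', h7, map_mul]
    ring
  have hall : (fun s => Φ s * conj (Φ (conj s))) = fun s => P s * conj (P (conj s)) * L s := by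
    have cc : ∀ f : ℂ → ℂ, Differentiable ℂ f → Differentiable ℂ (fun s => conj (f (conj s))) :=
      fun f hf s => differentiableAt_conj_conj_iff.2 (hf (conj s))
    have a1 : AnalyticOnNhd ℂ (fun s => Φ s * conj (Φ (conj s))) Set.univ := fun z _ =>
      (hΦ.mul (cc Φ hΦ)).analyticAt z
    have a2 : AnalyticOnNhd ℂ (fun s => P s * conj (P (conj s)) * L s) Set.univ := fun z _ =>
      ((dP.mul (cc P dP)).mul d1).analyticAt z
    refine a1.eq_of_eventuallyEq a2 (z₀ := 2) ?_
    have hopen : IsOpen {s : ℂ | 3 / 2 < s.re} := isOpen_lt continuous_const Complex.continuous_re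
    exact Filter.eventually_of_mem (hopen.mem_nhds (by norm_num)) key
  have h1 := congrFun hall 1
  simp only [map_one] at h1
  obtain ⟨r, hr, vr, er⟩ := factors_unit hC (pd F m) (fun v hv => hgood v ((mem_pd F m hm v).1 hv))
  have er' : ‖P 1‖ ^ 2 = r := er
  rw [Complex.mul_conj, Complex.mul_conj, Complex.normSq_eq_norm_sq, Complex.normSq_eq_norm_sq,
    er'] at h1
  have hper := period_eq F hw n hn
  rw [hper] at e₁
  refine ⟨r * q₁, by positivity, padic_unit_mul hr.ne' hq₁.ne' vr v₁, ?_⟩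
  have h2 : ((‖Φ 1‖ ^ 2 * √|(discr F : ℝ)| : ℝ) : ℂ) = ((r * (q₁ * (√3 ^ n *
      Om ^ (2 * n))) : ℝ) : ℂ) := by
    push_cast
    push_cast at h1 e₁
    rw [h1]
    linear_combination (r : ℂ) * e₁
  rw [Complex.ofReal_inj] at h2
  rw [h2]
  push_cast
  ring

end

end TWR
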