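import Pool.Agent.MP_9ab903_nt.TWR.TW2
import Pool.Agent.MP_9ab903_nt.NAB.HG5
import Pool.Agent.MP_9ab903_nt.CF3.Fin3

set_option autoImplicit false

open NumberField IsDedekindDomain
open CM27 CMT CF NAB
open scoped Classical ComplexConjugate

namespace TWR

/-! ## [TWR-TW3] the Galois action on the square root of the norm of `d` (file TWR/TW3.lean) -/

/-- the square part -/
theorem sq_part (G : HeightOneSpectrum (𝓞 KK) → Prop) (n : ℕ) : ∀ a : 𝓞 KK, a ≠ 0 →
    Ideal.absNorm (Ideal.span {a}) ≤ n → (∀ v, ¬ ev v (a : KK) → G v) →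
    ∃ μ ν : 𝓞 KK, μ ≠ 0 ∧ ν ≠ 0 ∧ a = μ ^ 2 * ν ∧
      ∀ v : HeightOneSpectrum (𝓞 KK), ν ∈ v.asIdeal → G v := by
  induction n with
  | zero =>
    intro a ha hn _
    exfalso
    have h1 := Nat.le_zero.1 hn
    rw [Ideal.absNorm_eq_zero_iff, Ideal.span_singleton_eq_bot] at h1
    exact ha h1
  | succ n ih =>
    intro a ha hn hG
    by_cases hall : ∀ v : HeightOneSpectrum (𝓞 KK), a ∈ v.asIdeal → G v
    · exact ⟨1, a, one_ne_zero, ha, by ring, hall⟩
    · push Not at hall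
      obtain ⟨v, hav, hGv⟩ := hall
      have hev : ev v (a : KK) := by
        by_contra h
        exact hGv (hG v h)
      haveI := KK_pid
      obtain ⟨π, hπ⟩ := (IsPrincipalIdealRing.principal v.asIdeal).principal
      have hπ' : v.asIdeal = Ideal.span {π} := hπ
      have hπ0 : π ≠ 0 := by
        rintro rfl
        apply v.ne_bot
        rw [hπ']
        simp
      have hcnt : 2 ≤ cnt v a := by
        have h1 := (ev_int v ha).1 hev
        have h2 : cnt v a ≠ 0 := by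
          intro h0
          have h3 := od_int v ha
          rw [h0] at h3
          have h4 := (v.valuation_lt_one_iff_mem (K := KK) a).2 hav
          change v.valuation KK (a : KK) < 1 at h4
          rw [val_eq_exp v (RingOfIntegers.coe_ne_zero_iff.2 ha), h3] at h4
          simp at h4
        obtain ⟨k, hk⟩ := h1
        omega
      have hmem : a ∈ v.asIdeal ^ 2 := by
        rw [← HeightOneSpectrum.intValuation_le_pow_iff_mem, HeightOneSpectrum.intValuation_if_neg _ ha,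
          WithZero.exp_le_exp]
        have : (cnt v a : ℤ) = (Associates.mk v.asIdeal).count
          (Associates.mk (Ideal.span {a})).factors := rfl
        rw [← this]
        push_cast
        omega
      rw [hπ', Ideal.span_singleton_pow, Ideal.mem_span_singleton] at hmem
      obtain ⟨a', ha'⟩ := hmem
      have ha'0 : a' ≠ 0 := by
        rintro rfl
        exact ha (by rw [ha', mul_zero])
      have hlt : Ideal.absNorm (Ideal.span {a'}) < Ideal.absNorm (Ideal.span {a}) := by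
        have h1 : Ideal.span {a} = Ideal.span {π} * Ideal.span {π} * Ideal.span {a'} := by
          rw [Ideal.span_singleton_mul_span_singleton, Ideal.span_singleton_mul_span_singleton, ha',
            pow_two]
        rw [h1, map_mul, map_mul, ← hπ']
        have h2 : 1 < Ideal.absNorm v.asIdeal := by
          have h3 : Ideal.absNorm v.asIdeal ≠ 0 := by
            rw [Ne, Ideal.absNorm_eq_zero_iff]
            exact v.ne_bot
          have h4 : Ideal.absNorm v.asIdeal ≠ 1 := by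
            rw [Ne, Ideal.absNorm_eq_one_iff]
            exact v.isPrime.ne_top
          omega
        have h5 : 0 < Ideal.absNorm (Ideal.span {a'}) := by
          rw [Nat.pos_iff_ne_zero, Ne, Ideal.absNorm_eq_zero_iff, Ideal.span_singleton_eq_bot]
          exact ha'0
        have h6 : 2 * 2 * Ideal.absNorm (Ideal.span {a'}) ≤
            Ideal.absNorm v.asIdeal * Ideal.absNorm v.asIdeal * Ideal.absNorm (Ideal.span {a'}) :=
          Nat.mul_le_mul_right _ (Nat.mul_le_mul h2 h2)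
        omega
      obtain ⟨μ, ν, h1, h2, h3, h4⟩ := ih a' ha'0 (by omega) (fun u hu => hG u fun h => hu (by
        have h5 : (a : KK) = (a' : KK) * (π : KK) ^ 2 := by
          have := congrArg (fun t : 𝓞 KK => (t : KK)) ha'
          change (a : KK) = ((π ^ 2 * a' : 𝓞 KK) : KK) at this
          rw [this]
          change algebraMap (𝓞 KK) KK (π ^ 2 * a') = _
          rw [map_mul, map_pow]
          ring
        rw [h5, ev_mul_sq u (RingOfIntegers.coe_ne_zero_iff.2 ha'0)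
          (RingOfIntegers.coe_ne_zero_iff.2 hπ0)] at h
        exact h))
      exact ⟨π * μ, ν, mul_ne_zero hπ0 h1, h2, by rw [ha', h3]; ring, h4⟩

/-- squares -/
theorem SQ_sq (φ : Eis ≃+* 𝓞 KK) (σ : ℂ ≃+* ℂ) (u : Eis) (hfix : ∀ a : Eis, σ (emb a) = emb a)
    (μ : Eis) (hμ : μ ≠ 0) (hc : IsCoprime u μ) : SQ φ σ u (μ ^ 2) := by
  refine ⟨emb μ, μ, 1, 0, isUnit_one, ⟨0, by ring⟩, ?_, ?_⟩
  · rw [← map_pow]
    congr 1
    ring
  · have h1 : XE φ u (μ ^ 2) = 1 := by
      rw [pow_two, XE_mul, XE]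
      exact Xg_sq _ _ ((map_ne_zero_iff φ φ.injective).2 hμ)
        (Cop_of_isCoprime (hc.map (φ : Eis →+* 𝓞 KK)))
    rw [h1, hfix]
    simp

/-- the norm of `ℚ(ω)` -/
theorem norm_KK_sq (x : KK) : ((Algebra.norm ℚ x : ℚ) : ℝ) = ‖(x : ℂ)‖ ^ 2 := by
  have h1 := Algebra.norm_eq_prod_embeddings ℚ ℂ x
  let f : KK →ₐ[ℚ] ℂ := KK.val
  let g : KK →ₐ[ℚ] ℂ := ((starRingEnd ℂ).comp (KK.val : KK →+* ℂ)).toRatAlgHom
  have hwK : w ∈ KK := IntermediateField.mem_adjoin_simple_self ℚ w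
  have hfg : f ≠ g := by
    intro h
    have h2 := DFunLike.congr_fun h ⟨w, hwK⟩
    have h3 : w = conj w := h2
    have h4 : w.im = 0 := by
      have h5 := congrArg Complex.im h3
      rw [Complex.conj_im] at h5
      linarith
    have h6 := w_sq
    have h7 := congrArg Complex.re h6
    simp only [Complex.mul_re, Complex.one_re, Complex.neg_re, Complex.sub_re,
      h4, pow_two, mul_zero, sub_zero] at h7
    nlinarith [sq_nonneg (2 * w.re + 1)]
  have hcard : Fintype.card (KK →ₐ[ℚ] ℂ) = 2 := by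
    rw [AlgHom.card]
    exact d2_finrank_KK
  have huniv : (Finset.univ : Finset (KK →ₐ[ℚ] ℂ)) = {f, g} := by
    symm
    apply Finset.eq_univ_of_card
    rw [hcard, Finset.card_pair hfg]
  rw [huniv, Finset.prod_pair hfg] at h1
  have h2 : f x * g x = ((‖(x : ℂ)‖ ^ 2 : ℝ) : ℂ) := by
    change (x : ℂ) * conj (x : ℂ) = _
    rw [Complex.mul_conj, Complex.normSq_eq_norm_sq]
  rw [h2] at h1
  have h1' : ((Algebra.norm ℚ x : ℚ) : ℂ) = ((‖(x : ℂ)‖ ^ 2 : ℝ) : ℂ) := h1
  exact_mod_cast h1'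

/-- **The Galois action on the square root of the norm of `d`.** -/
theorem Tow.hgal2 {F : IntermediateField ℚ ℂ} (h : Tow F) [NumberField F] (hw : w ∈ F)
    (d : 𝓞 F) (hd : d ≠ 0) (h4 : (4 : 𝓞 F) ∣ d - 1)
    (hgood : ∀ v : HeightOneSpectrum (𝓞 F), ¬ ev v (d : F) → (3 : 𝓞 F) ∈ v.asIdeal ∨
      ∃ p : ℕ, GoodPrime p ∧ (p : 𝓞 F) ∈ v.asIdeal) :
    ∃ (N0 : ℕ) (ν : Eis), Odd N0 ∧ Odd ν.norm ∧ (ν.norm : ℤ) = ((Algebra.norm ℤ d).natAbs : ℤ) ∧
    (letI := algK F hw; emb ν = ((Algebra.norm KK (d : F) : KK) : ℂ)) ∧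
    ∀ N : ℕ, Odd N → 3 ∣ N → N0 ∣ N → ∀ σ : ℂ ≃+* ℂ, σ w = w → ∀ u : Eis,
      IsCoprime u (N : Eis) → (3 : Eis) ∣ u - 1 →
      (∀ c : Eis, ptMap (σ : ℂ →+* ℂ) (pt (emb c / N)) = pt (emb (c * u) / N)) →
      ∀ ρ : ℂ, ρ ^ 2 = emb ν →
        σ ρ = (chi (d : F) (Ideal.span {eF F hw u}) : ℂ) * ρ := by
  letI := algK F hw
  haveI := d2_finite F hw
  haveI := d2_tower F hw
  haveI := eis_isDomain
  haveI := eis_pid
  obtain ⟨φ, hφ⟩ := exists_KK
  have hio : ∀ u : Eis, io KK F (φ u) = eF F hw u := by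
    intro u
    ext
    exact hφ u
  have hadm : Adm d := adm_of_four h4
  have hdF : (d : F) ≠ 0 := RingOfIntegers.coe_ne_zero_iff.2 hd
  obtain ⟨-, -, hadmN, hN0, hN4⟩ := h.transfer hw d hd hadm 1 one_ne_zero (by
    intro v _ h1
    rw [map_one] at h1
    exact v.isPrime.ne_top ((Ideal.eq_top_iff_one _).2 h1))
  set a : Eis := φ.symm (Nm KK F d) with ha
  have hNm : Nm KK F d = φ a := by rw [ha, φ.apply_symm_apply]
  have ha0 : a ≠ 0 := by
    intro h0
    rw [h0, map_zero] at hNm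
    exact hN0 hNm
  -- the norm
  have hnorm : (a.norm : ℤ) = ((Algebra.norm ℤ d).natAbs : ℤ) := by
    have h1 : Algebra.norm ℚ (Algebra.norm KK (d : F)) = Algebra.norm ℚ (d : F) :=
      Algebra.norm_norm (R := ℚ) (S := KK)
    have h2 := norm_KK_sq (Algebra.norm KK (d : F))
    rw [h1, ← coe_Nm (k := KK) (F := F) d, hNm, hφ, norm_emb_sq] at h2
    have h3 : (Algebra.norm ℚ (d : F) : ℚ) = ((Algebra.norm ℤ d : ℤ) : ℚ) :=
      (Algebra.coe_norm_int d).symm
    rw [h3] at h2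
    have h5 : (Algebra.norm ℤ d : ℤ) = a.norm := by exact_mod_cast h2
    rw [h5, Int.natAbs_of_nonneg (norm_nonneg' a)]
  have hodd : Odd a.norm := by
    rw [hnorm]
    exact_mod_cast norm_odd F d h4 hd
  -- the square part
  obtain ⟨μ', ν', hμ0, hν0, hμν, hG⟩ := sq_part
    (fun v => (3 : 𝓞 KK) ∈ v.asIdeal ∨ ∃ p : ℕ, GoodPrime p ∧ (p : 𝓞 KK) ∈ v.asIdeal)
    _ (φ a) ((map_ne_zero_iff φ φ.injective).2 ha0) le_rfl (by
      intro v hv
      by_contra hcon
      push Not at hcon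
      apply hv
      rw [← hNm, coe_Nm]
      refine h.ev_norm hw (d : F) hdF v fun w' hw' => ?_
      by_contra h5
      rcases hgood w' h5 with h6 | ⟨p, hp, h6⟩
      · apply hcon.1
        rw [← hw', mem_und, map_ofNat]
        exact h6
      · apply hcon.2 p hp
        rw [← hw', mem_und, map_natCast]
        exact h6)
  obtain ⟨μ, rfl⟩ := φ.surjective μ'
  obtain ⟨ν, rfl⟩ := φ.surjective ν'
  have hμ0' : μ ≠ 0 := (map_ne_zero_iff φ φ.injective).1 hμ0
  have hν0' : ν ≠ 0 := (map_ne_zero_iff φ φ.injective).1 hν0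
  have haμν : a = μ ^ 2 * ν := by
    apply φ.injective
    rw [hμν, map_mul, map_pow]
  have hembN : emb a = ((Algebra.norm KK (d : F) : KK) : ℂ) := by
    rw [← coe_Nm (k := KK) (F := F) d, hNm, hφ]
  refine ⟨a.norm.natAbs, a, Int.natAbs_odd.2 hodd, hodd, hnorm, hembN,
    fun N hN h3N hN0 σ hσ u hu hu3 hact ρ hρ => ?_⟩
  have hNne : N ≠ 0 := by
    rintro rfl
    exact absurd hN (by decide)
  have haN : a ∣ (N : Eis) := by
    have h7 : a ∣ ((a.norm.natAbs : ℕ) : Eis) := by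
      refine ⟨star a, ?_⟩
      rw [a3_mul_star]
      have h8 : ((a.norm.natAbs : ℕ) : Eis) = ((a.norm.natAbs : ℤ) : Eis) := by simp
      rw [h8, Int.natAbs_of_nonneg (norm_nonneg' a)]
    exact h7.trans (Nat.cast_dvd_cast hN0)
  have hGD : GD N σ u := ⟨hσ, hu, hu3, hact⟩
  have hua : IsCoprime u a := hu.of_isCoprime_of_dvd_right haN
  have hu0 : u ≠ 0 := by
    rintro rfl
    have h7 := (eis_isUnit_iff _).1 (isCoprime_zero_left.1 hu)
    have h8 : ((N : Eis)).norm = (N : ℤ) ^ 2 := by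
      rw [norm_eq]; simp
    rw [h8] at h7
    have h9 : N = 1 := by
      have : N ^ 2 = 1 := by exact_mod_cast h7
      exact (Nat.pow_eq_one.1 this).resolve_right (by norm_num)
    rw [h9] at h3N
    norm_num at h3N
  have hφu : φ u ≠ 0 := (map_ne_zero_iff φ φ.injective).2 hu0
  have hc : Cop (φ a) (φ u) := (Cop_of_isCoprime (hua.map (φ : Eis →+* 𝓞 KK))).symm
  -- coprimality in `F`
  have hcd : Cop d (io KK F (φ u)) := by
    intro v hdv huv
    have h5 : Nm KK F d ∈ (und KK v).asIdeal := by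
      rw [mem_und]
      have h6 : d ∣ algebraMap (𝓞 KK) (𝓞 F) (Nm KK F d) :=
        Algebra.dvd_algebraMap_intNorm_self (𝓞 KK) (𝓞 F) d
      obtain ⟨c, hc⟩ := h6
      rw [hc]
      exact Ideal.mul_mem_right _ _ hdv
    rw [hNm] at h5
    exact hc (und KK v) h5 huv
  have key : chi (d : F) (Ideal.span {eF F hw u}) = XE φ u a := by
    obtain ⟨h1, -⟩ := h.transfer hw d hd hadm (φ u) hφu hcd
    rw [hio] at h1
    change chi (d : F) (Ideal.span {eF F hw u}) = _ at h1
    rw [h1, hNm, XE]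
    exact RA_KK (φ a) (φ u) ((map_ne_zero_iff φ φ.injective).2 ha0) hφu hc
      (by rw [← hNm]; exact hadmN) (Or.inl trivial)
  have ha4 : (4 : Eis) ∣ a - 1 := by
    obtain ⟨c, hc⟩ := hN4 h4
    refine ⟨φ.symm c, ?_⟩
    apply φ.injective
    have e4 : φ (4 : Eis) = 4 := map_ofNat _ 4
    rw [map_sub, ← hNm, map_one, map_mul, e4, φ.apply_symm_apply, hc]
  rw [key]
  refine SQ.final φ hGD ha0 ha4 ?_ ρ hρ
  rw [haμν]
  refine SQ.mul φ σ u (SQ_sq φ σ u hGD.fix_emb μ hμ0' ?_) (SQ_all φ hGD hNne ν hν0' fun b hb hbν => ?_)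
  · refine hua.of_isCoprime_of_dvd_right ?_
    rw [haμν]
    exact ⟨μ * ν, by ring⟩
  · have hbφ : Prime (φ b) := (MulEquiv.prime_iff φ.toMulEquiv).2 hb
    have hmem : ∀ x : Eis, φ x ∈ Ideal.span {φ b} ↔ b ∣ x := by
      intro x
      rw [Ideal.mem_span_singleton]
      exact map_dvd_iff φ.toMulEquiv
    let v : HeightOneSpectrum (𝓞 KK) := ⟨Ideal.span {φ b},
      (Ideal.span_singleton_prime hbφ.ne_zero).2 hbφ, by
        rw [Ne, Ideal.span_singleton_eq_bot]
        exact hbφ.ne_zero⟩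
    rcases hG v ((hmem ν).2 hbν) with h5 | ⟨p, hp, h5⟩
    · left
      have h6 : b ∣ 3 := by
        rw [← hmem]
        have : φ (3 : Eis) = 3 := map_ofNat _ 3
        rw [this]
        exact h5
      have h7 : b ∣ thE * thE := by
        have h8 : thE * thE = -3 := by rw [← pow_two, thE_sq]
        rw [h8]
        exact h6.neg_right
      have h9 : b ∣ thE := (hb.dvd_or_dvd h7).elim id id
      exact hb.irreducible.associated_of_dvd thE_prime.irreducible h9
    · right
      have h6 : b ∣ (p : Eis) := by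
        rw [← hmem, map_natCast]
        exact h5
      obtain ⟨c, -, hc⟩ := exists_primary_prime p hp.1 hp.2.1
      have hcs : c * star c = (p : Eis) := by
        rw [a3_mul_star, hc]
        simp
      rw [← hcs] at h6
      have hn : b.norm = p := by
        have key : ∀ e : Eis, e.norm = p → b ∣ e → b.norm = p := by
          intro e he hbe
          obtain ⟨x, hx⟩ := hb.irreducible.associated_of_dvd
            (a3_prime_of_norm p hp.1 e he).irreducible hbe
          rw [← he, ← hx, map_mul, (eis_isUnit_iff _).1 x.isUnit, mul_one]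
        rcases hb.dvd_or_dvd h6 with h7 | h7
        · exact key c hc h7
        · exact key (star c) (by rw [QuadraticAlgebra.norm_star, hc]) h7
      refine ⟨(hbν.trans ?_).trans haN, p, hp.1, ?_, hn⟩
      · rw [haμν]
        exact dvd_mul_left _ _
      · rintro rfl
        have := hp.2.1
        omega

/-- the same without the value of `ν` -/
theorem Tow.hgal {F : IntermediateField ℚ ℂ} (h : Tow F) [NumberField F] (hw : w ∈ F)
    (d : 𝓞 F) (hd : d ≠ 0) (h4 : (4 : 𝓞 F) ∣ d - 1)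
    (hgood : ∀ v : HeightOneSpectrum (𝓞 F), ¬ ev v (d : F) → (3 : 𝓞 F) ∈ v.asIdeal ∨
      ∃ p : ℕ, GoodPrime p ∧ (p : 𝓞 F) ∈ v.asIdeal) :
    ∃ (N0 : ℕ) (ν : Eis), Odd N0 ∧ Odd ν.norm ∧ (ν.norm : ℤ) = ((Algebra.norm ℤ d).natAbs : ℤ) ∧
    ∀ N : ℕ, Odd N → 3 ∣ N → N0 ∣ N → ∀ σ : ℂ ≃+* ℂ, σ w = w → ∀ u : Eis,
      IsCoprime u (N : Eis) → (3 : Eis) ∣ u - 1 →
      (∀ c : Eis, ptMap (σ : ℂ →+* ℂ) (pt (emb c / N)) = pt (emb (c * u) / N)) →
      ∀ ρ : ℂ, ρ ^ 2 = emb ν →
        σ ρ = (chi (d : F) (Ideal.span {eF F hw u}) : ℂ) * ρ := by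
  obtain ⟨N0, ν, h1, h2, h3, -, h5⟩ := h.hgal2 hw d hd h4 hgood
  exact ⟨N0, ν, h1, h2, h3, h5⟩

end TWR
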