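import Pool.Agent.MP_9ab903_nt.TWR.AN2
import Pool.Agent.MP_9ab903_nt.TWR.TW3
import Pool.Agent.MP_9ab903_nt.NG.H8
import Pool.Agent.MP_9ab903_nt.NG.SM

set_option autoImplicit false

open NumberField IsDedekindDomain
open CM27 CMT CF NAB
open scoped Classical ComplexConjugate

namespace TWR

/-! ## [TWR-AN3] the value of the `L`-function of the twist (file TWR/AN3.lean) -/

section
variable {F : IntermediateField ℚ ℂ} [NumberField F]

theorem Cls.not_two {F : IntermediateField ℚ ℂ} [NumberField F] (hC : Cls F) :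
    ¬ (2 : ℤ) ∣ discr F := by
  have hodd := hC.tow.odd
  intro h
  have h1 : 2 ∣ (discr F).natAbs := by
    have := Int.natAbs_dvd_natAbs.2 h
    simpa using this
  rw [Nat.odd_iff] at hodd
  omega

theorem Cls.smooth {F : IntermediateField ℚ ℂ} [NumberField F] (hC : Cls F) (r : ℕ)
    (hn : Module.finrank ℚ F = 2 * (r + 1)) : NG.Smooth F hC.tow.mem := by
  refine NG.smooth_all F hC.tow.mem hn ?_
  obtain ⟨k, hk⟩ := hC.tow.rank
  intro h3
  rw [hk, pow_succ, mul_comm] at hn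
  have h4 : 2 ^ k = r + 1 := by omega
  rw [← h4] at h3
  have h5 := Nat.prime_three.dvd_of_dvd_pow h3
  omega

/-- integrality of the value -/
theorem value_int (hC : Cls F) (r : ℕ) (hn : Module.finrank ℚ F = 2 * (r + 1))
    (m : 𝓞 F) (hm0 : m ≠ 0) (h3 : (3 : 𝓞 F) ∣ m) (hm2 : IsCoprime m 2)
    (χ : Ideal (𝓞 F) → ℤ) (hχ : NG.IsRC F m χ) :
    ∃ Φ : ℂ → ℂ, NG.IsL F χ Φ ∧ ∀ A : ValuationSubring ℂ, A.valuation 2 < 1 →
      A.valuation (Φ 1 / OmC ^ (r + 1)) ≤ 1 := by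
  obtain ⟨C, N, T, δ, Q, hNodd, hN3, hNN0, hdis, hδ, hS, hCC, hQ0, hQm, hQ2, hTint, hTgal, hall⟩ :=
    NG.hecke_final F hC.tow.mem hn hC.not_two (hC.smooth r hn) m hm0 h3 hm2 1 odd_one
  obtain ⟨Φ, hΦd, hΦs, hΦv⟩ := hall χ hχ
  refine ⟨Φ, ⟨hΦd, hΦs⟩, fun A hA => ?_⟩
  have hO : OmC ^ (r + 1) ≠ 0 := pow_ne_zero _ OmC_ne
  have hone : χ (Ideal.span {eF F hC.tow.mem 1}) = 1 := by
    rw [map_one]
    exact hχ.one 1 one_ne_zero (by rw [sub_self]; exact dvd_zero _)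
  have hc1 : IsCoprime (1 : Eis) (N : Eis) := isCoprime_one_left
  have h31 : (3 : Eis) ∣ 1 - 1 := by rw [sub_self]; exact dvd_zero _
  have e1 := hΦv 1 hc1 h31
  rw [hone, Int.cast_one, mul_one] at e1
  set K : ℂ := (χ Q : ℂ) * conj (emb (psi F Q)) - 1 with hK
  have f1 : K * (Φ 1 / OmC ^ (r + 1)) = ∑ b ∈ C, (χ b : ℂ) * T b 1 := by
    rw [← mul_div_assoc, e1, mul_div_cancel_left₀ _ hO]
  have v1 : A.valuation K = 1 := NG.h7_unit _ hQ2 _ (hχ.pm Q hQ0 hQm) A hA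
  have v2 := congrArg A.valuation f1
  rw [map_mul, v1, one_mul] at v2
  rw [v2]
  refine c1_sum_le A C _ fun b hb => ?_
  rw [map_mul]
  obtain ⟨hb0, hbm⟩ := hCC b hb
  have h5 : A.valuation ((χ b : ℂ)) ≤ 1 := by
    rcases hχ.pm b hb0 hbm with h | h <;> rw [h]
    · simp
    · push_cast
      rw [Valuation.map_neg, map_one]
  exact mul_le_one' h5 (hTint A hA b hb)

/-- **the base value is a unit** -/
theorem base_unit (hC : Cls F) (hA : AN F) (r : ℕ) (hn : Module.finrank ℚ F = 2 * (r + 1))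
    (m : 𝓞 F) (hm0 : m ≠ 0) (h3 : (3 : 𝓞 F) ∣ m) (hm2 : IsCoprime m 2)
    (hgood : ∀ v : HeightOneSpectrum (𝓞 F), m ∈ v.asIdeal → GP v) :
    ∃ Φ : ℂ → ℂ, NG.IsL F (c1_one F m) Φ ∧ ∀ A : ValuationSubring ℂ, A.valuation 2 < 1 →
      A.valuation (Φ 1 / OmC ^ (r + 1)) = 1 := by
  have hw := hC.tow.mem
  obtain ⟨Φ₁, hΦ₁, hint⟩ := value_int hC r hn m hm0 h3 hm2 _ (one_RC F m)
  refine ⟨Φ₁, hΦ₁, ?_⟩
  have hO := OmC_ne
  have hLs : ∀ s : ℂ, 3 / 2 < s.re → conj (Φ₁ (conj s)) = LSeries (fun n => IL F (lamR F m) n) s := by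
    intro s hs
    have hs' : 3 / 2 < (conj s).re := by rw [Complex.conj_re]; exact hs
    have h5 := c1_LSeries F (fun I => conj (lamR F m I)) (by
      intro I hI
      rw [Complex.norm_conj, lamR_eq F m hm0]
      exact norm_cm_le F _ (norm_kill_le F (pd F m) (hvF F) (norm_hv_le F hw)) I hI)
      (c1_one F m) (by
      intro I hI
      rw [c1_one, lamR]
      split_ifs with h6
      · rw [Int.cast_one, one_mul]
      · rw [Int.cast_zero, zero_mul, map_zero]) (conj s) hs' _ (hΦ₁.sum _ hs')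
    rw [h5, NAB.LSeries_conj, Complex.conj_conj, Complex.conj_conj]
  have hdiff : Differentiable ℂ (fun s => conj (Φ₁ (conj s))) := fun s =>
    differentiableAt_conj_conj_iff.2 (hΦ₁.diff (conj s))
  obtain ⟨q, hq, vq, eq⟩ := base_value hC hA (r + 1) hn m hm0 hgood _ hdiff hLs
  simp only [map_one, Complex.norm_conj] at eq
  have hOm : ‖OmC‖ = |Om| := by
    rw [OmC, norm_mul, Complex.norm_I, one_mul, Complex.norm_real, Real.norm_eq_abs]
  have hOmp := Om_pos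
  -- the product `t₁ conj t₁`
  have hprod : ((Φ₁ 1 / OmC ^ (r + 1)) * conj (Φ₁ 1 / OmC ^ (r + 1))) ^ 2 *
      ((discr F : ℤ) : ℂ) ^ 2 =
      ((q : ℚ) : ℂ) ^ 2 * ((3 ^ (r + 1) : ℤ) : ℂ) * ((|discr F| : ℤ) : ℂ) := by
    have h5 : (Φ₁ 1 / OmC ^ (r + 1)) * conj (Φ₁ 1 / OmC ^ (r + 1)) =
        ((‖Φ₁ 1‖ ^ 2 / Om ^ (2 * (r + 1)) : ℝ) : ℂ) := by
      rw [Complex.mul_conj, Complex.normSq_eq_norm_sq, norm_div, norm_pow, hOm, div_pow, ← pow_mul,
        mul_comm (r + 1) 2, pow_mul |Om|, sq_abs, ← pow_mul]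
    have h6 : ‖Φ₁ 1‖ ^ 2 / Om ^ (2 * (r + 1)) * √|(discr F : ℝ)| = q * √3 ^ (r + 1) := by
      rw [div_mul_eq_mul_div, eq]
      field_simp
    have h33 : (√3 ^ (r + 1)) ^ 2 = (3 : ℝ) ^ (r + 1) := by
      rw [← pow_mul, mul_comm (r + 1) 2, pow_mul, Real.sq_sqrt (by norm_num)]
    have h7 : (‖Φ₁ 1‖ ^ 2 / Om ^ (2 * (r + 1))) ^ 2 * |(discr F : ℝ)| =
        (q : ℝ) ^ 2 * 3 ^ (r + 1) := by
      have h8 := congrArg (fun t : ℝ => t ^ 2) h6
      simp only [mul_pow] at h8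
      rw [Real.sq_sqrt (abs_nonneg _), h33] at h8
      exact h8
    have h8 : (‖Φ₁ 1‖ ^ 2 / Om ^ (2 * (r + 1))) ^ 2 * (discr F : ℝ) ^ 2 =
        (q : ℝ) ^ 2 * 3 ^ (r + 1) * |(discr F : ℝ)| := by
      rw [← h7, ← sq_abs (discr F : ℝ)]
      ring
    rw [h5]
    have h9 : (((‖Φ₁ 1‖ ^ 2 / Om ^ (2 * (r + 1))) ^ 2 * (discr F : ℝ) ^ 2 : ℝ) : ℂ) =
        (((q : ℝ) ^ 2 * (((3 ^ (r + 1) : ℤ)) : ℝ) * ((|discr F| : ℤ) : ℝ) : ℝ) : ℂ) := by
      rw [h8, Int.cast_abs]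
      push_cast
      rfl
    rw [Complex.ofReal_mul, Complex.ofReal_mul, Complex.ofReal_mul, Complex.ofReal_pow,
      Complex.ofReal_pow, Complex.ofReal_pow, Complex.ofReal_intCast, Complex.ofReal_ratCast,
      Complex.ofReal_intCast, Complex.ofReal_intCast] at h9
    exact h9
  intro A hA
  have h5 := hint A hA
  have h6 := c1_conj _ hint A hA
  have hdo : Odd (discr F) := by
    rw [← Int.not_even_iff_odd, even_iff_two_dvd]
    exact hC.not_two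
  have h8 := congrArg A.valuation hprod
  rw [map_mul, map_pow, map_mul, map_pow, val_odd A hA _ hdo, map_mul, map_mul, map_pow,
    c1_val_rat q hq.ne' vq A hA, val_odd A hA _ (Odd.pow (by decide)), val_odd A hA _ (by
      rcases abs_choice (discr F) with h9 | h9 <;> rw [h9]
      · exact hdo
      · exact hdo.neg), one_pow, mul_one, mul_one, mul_one] at h8
  refine le_antisymm h5 (not_lt.1 fun h9 => ?_)
  have h10 : A.valuation (Φ₁ 1 / OmC ^ (r + 1)) * A.valuation (conj (Φ₁ 1 / OmC ^ (r + 1))) < 1 :=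
    mul_lt_one_of_lt_of_le h9 h6
  have h11 := pow_lt_one₀ zero_le h10 two_ne_zero
  rw [h8] at h11
  exact lt_irrefl _ h11

theorem vanish (m d : 𝓞 F) (hw : w ∈ F)
    (hm : ∀ v : HeightOneSpectrum (𝓞 F), m ∈ v.asIdeal → (3 : 𝓞 F) ∈ v.asIdeal ∨ ¬ ev v (d : F))
    (hd : d ≠ 0) (I : Ideal (𝓞 F)) (hI : I ≠ 0)
    (hc : ¬ IsCoprime I (Ideal.span {m})) : chi (d : F) I = 0 ∨ psi F I = 0 := by
  rw [Ideal.isCoprime_iff_sup_eq] at hc
  obtain ⟨M, hM, hle⟩ := Ideal.exists_le_maximal _ hc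
  have hMI : I ≤ M := le_sup_left.trans hle
  have hMm : m ∈ M := hle (Ideal.mem_sup_right (Ideal.mem_span_singleton_self _))
  have hM0 : M ≠ ⊥ := by
    rintro rfl
    exact hI (le_bot_iff.1 hMI)
  set v : HeightOneSpectrum (𝓞 F) := ⟨M, hM.isPrime, hM0⟩ with hv
  obtain ⟨J, hJ⟩ : v.asIdeal ∣ I := Ideal.dvd_iff_le.2 hMI
  have h1 : chi (d : F) I = symb (d : F) v * chi (d : F) J := by
    rw [hJ, chi, chi, cm_mul, cm_prime]
  have h2 : psi F I = psiv F v * psi F J := by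
    rw [hJ, NAB.psi, NAB.psi, cm_mul, cm_prime]
  rcases hm v hMm with h3 | h3
  · right
    rw [h2, psiv_three F hw v h3, zero_mul]
  · left
    rw [h1, (symb_eq_zero v (RingOfIntegers.coe_ne_zero_iff.2 hd)).2 h3, zero_mul]

/-- **The value of the `L`-function of the twist, with its rationality.** -/
theorem adata2 (hC : Cls F) (hA : AN F) (hw : w ∈ F) (r : ℕ)
    (hn : Module.finrank ℚ F = 2 * (r + 1))
    (d : 𝓞 F) (hd : d ≠ 0) (h4 : (4 : 𝓞 F) ∣ d - 1)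
    (hgood : ∀ v : HeightOneSpectrum (𝓞 F), ¬ ev v (d : F) → GP v) :
    ∃ Φ : ℂ → ℂ, Differentiable ℂ Φ ∧
      (∀ s : ℂ, 3 / 2 < s.re → Φ s = LSeries (fun k => IL F (lam F d) k) s) ∧
      (∃ q : ℚ, 0 < q ∧ padicValRat 2 q = 0 ∧
        ‖Φ 1‖ ^ 2 * √|(discr F : ℝ)| * √((Algebra.norm ℤ d).natAbs : ℝ) =
          q * (√3 ^ (r + 1) * Om ^ (2 * (r + 1)))) ∧
      ∃ (s : Fin (r + 1) → F →+* ℂ) (δ : ℂ), NG.IsS F hw s ∧ NG.IsDel F hw s δ ∧
        |(discr F : ℝ)| = 3 ^ (r + 1) * ‖δ‖ ^ 4 ∧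
        ∀ ρ : ℂ, (letI := algK F hw; ρ ^ 2 = ((Algebra.norm KK (d : F) : KK) : ℂ)) →
          ∃ x : KK, (x : ℂ) = conj (Φ 1) / OmC ^ (r + 1) * δ * ρ := by
  obtain ⟨m, hm0, h3m, hm2, hm⟩ := exists_modulus d hd h4
  have hgm : ∀ v : HeightOneSpectrum (𝓞 F), m ∈ v.asIdeal → GP v := by
    intro v hv
    rcases (hm v).1 hv with h | h
    · exact Or.inl h
    · exact hgood v h
  have hmd : ∀ v : HeightOneSpectrum (𝓞 F), ¬ ev v (d : F) → m ∈ v.asIdeal := fun v hv =>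
    (hm v).2 (Or.inr hv)
  obtain ⟨Φ', hΦ', hbase⟩ := base_unit hC hA r hn m hm0 h3m hm2 hgm
  have hRC := hC.tow.chi_RC m d hd h4 hm2 hmd
  obtain ⟨N0, ν, hN0, hν, hνn, hνe, hgal⟩ := hC.tow.hgal2 hw d hd h4 hgood
  have hmne : Ideal.span {m} ≠ 0 := by
    rw [Ne, Ideal.zero_eq_bot, Ideal.span_singleton_eq_bot]
    exact hm0
  have hNm : Odd (Ideal.absNorm (Ideal.span {m})) := by
    apply b5_odd F _ hmne
    rw [Ideal.isCoprime_span_singleton_iff]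
    exact hm2
  have hgal' : ∀ N : ℕ, Odd N → 3 ∣ N → (N0 * Ideal.absNorm (Ideal.span {m})) ∣ N →
      ∀ σ : ℂ ≃+* ℂ, σ w = w → ∀ u : Eis,
      IsCoprime u (N : Eis) → (3 : Eis) ∣ u - 1 →
      (∀ c : Eis, ptMap (σ : ℂ →+* ℂ) (pt (emb c / N)) = pt (emb (c * u) / N)) →
      ∀ ρ : ℂ, ρ ^ 2 = emb ν → σ ρ = (c1_chi F m d (Ideal.span {eF F hw u}) : ℂ) * ρ := by
    intro N hN h3N hNN σ hσ u hu hu3 hact ρ hρ
    rw [hgal N hN h3N ((dvd_mul_right _ _).trans hNN) σ hσ u hu hu3 hact ρ hρ]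
    have hmN : m ∣ (N : 𝓞 F) := by
      have h5 : m ∣ ((Ideal.absNorm (Ideal.span {m}) : ℕ) : 𝓞 F) := by
        rw [← Ideal.mem_span_singleton]
        exact Ideal.absNorm_mem _
      obtain ⟨k, hk⟩ := hNN
      rw [hk, Nat.cast_mul, Nat.cast_mul]
      exact (h5.mul_left _).mul_right _
    have hcop : IsCoprime (Ideal.span {eF F hw u}) (Ideal.span {m}) := by
      have h5 := hu.map (eF F hw)
      rw [map_natCast] at h5
      rw [Ideal.isCoprime_span_singleton_iff]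
      exact h5.of_isCoprime_of_dvd_right hmN
    rw [c1_chi, if_pos hcop]
  obtain ⟨Φ, hΦ, -, q, hq, vq, eq⟩ := NG.value_rat F hw hn hC.not_two (hC.smooth r hn) m hm0 h3m hm2
    _ (one_RC F m) Φ' hΦ' hbase _ hRC (N0 * Ideal.absNorm (Ideal.span {m})) (hN0.mul hNm) ν hν hgal'
  -- rationality
  have hrat : ∃ (s : Fin (r + 1) → F →+* ℂ) (δ : ℂ), NG.IsS F hw s ∧ NG.IsDel F hw s δ ∧
        |(discr F : ℝ)| = 3 ^ (r + 1) * ‖δ‖ ^ 4 ∧
        ∀ ρ : ℂ, ρ ^ 2 = emb ν → ∃ x : KK, (x : ℂ) = Φ 1 / OmC ^ (r + 1) * δ * ρ := by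
    obtain ⟨Φ₂, N, δ, hΦ₂, hval, hNodd, hN3, hNN0, hdis, hδ, ⟨s, hs, hδs⟩, hσ⟩ :=
      NG.value_unit F hw hn hC.not_two (hC.smooth r hn) m hm0 h3m hm2 _ (one_RC F m) Φ' hΦ' hbase _
        hRC (N0 * Ideal.absNorm (Ideal.span {m})) (hN0.mul hNm)
    have hΦe : Φ₂ = Φ := NG.h7_unique hΦ₂ hΦ
    subst hΦe
    refine ⟨s, δ, hs, hδs, hdis, fun ρ hρ => ?_⟩
    have hρ0 : ρ ≠ 0 := by
      intro h0
      rw [h0, zero_pow two_ne_zero] at hρ
      have h1 := norm_emb_sq ν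
      rw [← hρ, norm_zero, zero_pow two_ne_zero] at h1
      have h2 : ν.norm = 0 := by exact_mod_cast h1.symm
      rw [h2] at hν
      exact absurd hν (by decide)
    set t : ℂ := Φ₂ 1 / OmC ^ (r + 1) with ht
    have hNpos : 0 < N := hNodd.pos
    have hfix : ∀ σ : ℂ ≃+* ℂ, σ w = w → σ (t * δ * ρ) = t * δ * ρ := by
      intro σ hσw
      obtain ⟨u, u', hu1, hu2, hu3⟩ := gal_fix N hNpos hN3 σ hσw
      have hcop : IsCoprime u (N : Eis) := by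
        obtain ⟨c, hc⟩ := hu1
        refine ⟨u', -c, ?_⟩
        linear_combination hc
      have e1 := hσ σ hσw u hcop hu2 hu3
      have e2 := hgal' N hNodd hN3 hNN0 σ hσw u hcop hu2 hu3 ρ hρ
      set k : ℤ := c1_chi F m d (Ideal.span {eF F hw u}) with hk
      have hk0 : k ≠ 0 := by
        intro h0
        rw [h0, Int.cast_zero, zero_mul] at e2
        exact hρ0 ((map_eq_zero σ).1 e2)
      have hk2 : ((k : ℤ) : ℂ) * k = 1 := by
        rcases NG.h7_cases hRC (Ideal.span {eF F hw u}) with h1 | h1 | h1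
        · exact absurd h1 hk0
        · rw [hk, h1]; norm_num
        · rw [hk, h1]; norm_num
      rw [map_mul, map_mul, e1, e2]
      linear_combination (t * δ * ρ) * hk2
    obtain ⟨x, hx⟩ := c2_fixed KK (t * δ * ρ) fun σ hσ' => hfix σ (hσ' ⟨w, d2_w_mem⟩)
    exact ⟨x, hx⟩
  refine ⟨fun s => conj (Φ (conj s)), fun s => differentiableAt_conj_conj_iff.2 (hΦ.diff (conj s)),
    ?_, ⟨q, hq, vq, ?_⟩, ?_⟩
  · intro s hs
    have hs' : 3 / 2 < (conj s).re := by rw [Complex.conj_re]; exact hs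
    have h5 := c1_LSeries F (fun I => conj (lam F d I)) (by
      intro I hI
      rw [Complex.norm_conj]
      exact norm_lam_le F hw d I hI) (c1_chi F m d) (by
      intro I hI
      rw [c1_chi, NAB.lam, map_mul, map_intCast]
      split_ifs with h6
      · rfl
      · rcases vanish m d hw (fun v hv => (hm v).1 hv) hd I hI h6 with h7 | h7
        · rw [h7]
        · rw [h7, map_zero, map_zero, mul_zero, mul_zero]) (conj s) hs' _ (hΦ.sum _ hs')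
    change conj (Φ (conj s)) = _
    rw [h5, NAB.LSeries_conj, Complex.conj_conj, Complex.conj_conj]
  · change ‖conj (Φ (conj 1))‖ ^ 2 * _ * _ = _
    rw [map_one, Complex.norm_conj]
    have h1 : ((Algebra.norm ℤ d).natAbs : ℝ) = (ν.norm : ℝ) := by
      have := congrArg (fun t : ℤ => (t : ℝ)) hνn
      rw [this]
      exact (Int.cast_natCast _).symm
    rw [h1, eq]
    ring
  · obtain ⟨s, δ, hs, hδs, hdis, hx⟩ := hrat
    refine ⟨s, δ, hs, hδs, hdis, fun ρ hρ => ?_⟩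
    have hρ' : ρ ^ 2 = emb ν := hρ.trans hνe.symm
    change ∃ x : KK, (x : ℂ) = conj (conj (Φ (conj 1))) / _ * _ * _
    rw [map_one, Complex.conj_conj]
    exact hx ρ hρ'

/-- **The value of the `L`-function of the twist.** -/
theorem adata (hC : Cls F) (hA : AN F) (r : ℕ) (hn : Module.finrank ℚ F = 2 * (r + 1))
    (d : 𝓞 F) (hd : d ≠ 0) (h4 : (4 : 𝓞 F) ∣ d - 1)
    (hgood : ∀ v : HeightOneSpectrum (𝓞 F), ¬ ev v (d : F) → GP v) :
    ∃ Φ : ℂ → ℂ, Differentiable ℂ Φ ∧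
      (∀ s : ℂ, 3 / 2 < s.re → Φ s = LSeries (fun k => IL F (lam F d) k) s) ∧
      ∃ q : ℚ, 0 < q ∧ padicValRat 2 q = 0 ∧
        ‖Φ 1‖ ^ 2 * √|(discr F : ℝ)| * √((Algebra.norm ℤ d).natAbs : ℝ) =
          q * (√3 ^ (r + 1) * Om ^ (2 * (r + 1))) := by
  obtain ⟨Φ, h1, h2, h3, -⟩ := adata2 hC hA hC.tow.mem r hn d hd h4 hgood
  exact ⟨Φ, h1, h2, h3⟩

end

end TWR
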