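import Pool.Agent.MP_9ab903_nt.TWR.AN3
import Pool.Agent.MP_9ab903_nt.TWR.TD

set_option autoImplicit false

open NumberField IsDedekindDomain
open CM27 CMT CF NAB
open scoped Classical ComplexConjugate

namespace TWR

/-! ## [TWR-AN4] the twists (file TWR/AN4.lean) -/

section
variable {F : IntermediateField ℚ ℂ} [NumberField F] (hC : Cls F) (hA : AN F)
  (d : 𝓞 F) (hd : d ≠ 0) (h4 : (4 : 𝓞 F) ∣ d - 1)
  (hgood : ∀ v : HeightOneSpectrum (𝓞 F), ¬ ev v (d : F) → GP v)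
include hC hA hd h4 hgood

theorem analytic_tw (e : F) (he : 4 * e + 1 = (d : F) ^ 3) : ∃ L : ℂ → ℂ, Differentiable ℂ L ∧
    (∀ s : ℂ, 3 / 2 < s.re → LSeriesSummable (fun k => ((Wt e).LFunction k : ℂ)) s ∧
      L s = (Wt e).LSeries s) ∧ L 1 ≠ 0 ∧
    ∃ q : ℚ, 0 < q ∧ padicValRat 2 q = 0 ∧ L 1 * ((√|(discr F : ℝ)| : ℝ) : ℂ) =
      q * ((period F / √((Algebra.norm ℤ d).natAbs : ℝ) : ℝ) : ℂ) := by
  have hw := hC.tow.mem
  obtain ⟨k, hk⟩ := hC.tow.rank
  obtain ⟨r, hr⟩ : ∃ r : ℕ, Module.finrank ℚ F = 2 * (r + 1) := by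
    refine ⟨2 ^ k - 1, ?_⟩
    have : 0 < 2 ^ k := by positivity
    rw [hk, pow_succ]
    omega
  obtain ⟨Φ, hΦ, hs, q, hq, vq, eq⟩ := adata hC hA r hr d hd h4 hgood
  have h3 := hC.three
  have hlam := norm_lam_le F hw (d : F)
  have hlam' : ∀ I : Ideal (𝓞 F), I ≠ 0 → ‖conj (NAB.lam F (d : F) I)‖ ^ 2 ≤ Ideal.absNorm I := by
    intro I hI
    rw [Complex.norm_conj]
    exact hlam I hI
  have cc : Differentiable ℂ (fun s => conj (Φ (conj s))) :=
    fun s => differentiableAt_conj_conj_iff.2 (hΦ (conj s))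
  have hNodd : Odd (Algebra.norm ℤ d).natAbs := norm_odd F d h4 hd
  set N : ℕ := (Algebra.norm ℤ d).natAbs with hN
  have hL : (fun k => ((Wt e).LFunction k : ℂ)) =
      fun k => (IL F (NAB.lam F (d : F)) * IL F (fun I => conj (NAB.lam F (d : F) I))) k := by
    rw [← LCW_lam F hw h3 d hd h4 e he]
    rfl
  have hOm : (0 : ℝ) < Om := Om_pos
  have hN0 : (0 : ℝ) < √(N : ℝ) := by
    rw [Real.sqrt_pos]
    exact_mod_cast hNodd.pos
  have hΦ1 : ‖Φ 1‖ ^ 2 ≠ 0 := by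
    intro h0
    rw [h0, zero_mul, zero_mul] at eq
    have hqR : (0 : ℝ) < q := by exact_mod_cast hq
    have : (0 : ℝ) < q * (√3 ^ (r + 1) * Om ^ (2 * (r + 1))) := by positivity
    rw [← eq] at this
    exact lt_irrefl _ this
  have hL1 : Φ 1 * conj (Φ (conj 1)) = ((‖Φ 1‖ ^ 2 : ℝ) : ℂ) := by
    rw [map_one, Complex.mul_conj, Complex.normSq_eq_norm_sq]
  refine ⟨fun s => Φ s * conj (Φ (conj s)), hΦ.mul cc, ?_, ?_, q, hq, vq, ?_⟩
  · intro s h5
    have t1 := LSeriesSummable_IL F _ hlam s h5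
    have t2 := LSeriesSummable_IL F _ hlam' s h5
    have t3 : (Wt e).LSeries s = LSeries (fun k => ((Wt e).LFunction k : ℂ)) s := rfl
    rw [t3, hL]
    refine ⟨ArithmeticFunction.LSeriesSummable_mul t1 t2, ?_⟩
    change Φ s * conj (Φ (conj s)) = _
    rw [ArithmeticFunction.LSeries_mul' t1 t2, NAB.LSeries_conj, hs s h5, hs (conj s) (by
      rw [Complex.conj_re]; exact h5)]
  · change Φ 1 * conj (Φ (conj 1)) ≠ 0
    rw [hL1]
    exact_mod_cast hΦ1
  · change Φ 1 * conj (Φ (conj 1)) * _ = _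
    have hper := period_eq F hw (r + 1) hr
    rw [hL1, hper]
    have h6 : ‖Φ 1‖ ^ 2 * √|(discr F : ℝ)| =
        q * (√3 ^ (r + 1) * Om ^ (2 * (r + 1)) / √(N : ℝ)) := by
      field_simp
      rw [eq]
      ring
    have h7 := congrArg (fun t : ℝ => (t : ℂ)) h6
    push_cast at h7 ⊢
    exact h7

/-- **The 2-part of the formula for the twists.** -/
theorem strong_tw (hT : TTd F hC.tow.mem d) (e : F) (he : 4 * e + 1 = (d : F) ^ 3) :
    SBSD.TwoPartFormula (Wt e) := by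
  have hw := hC.tow.mem
  letI := algK F hw
  obtain ⟨M, _, _, _, _, _, _, m, hm, huM, δ, hδ⟩ := hT
  have hfin := sub_finite KK F M m hm huM d hd δ hδ h4 e he
  have hodd := sub_odd KK F M m hm huM d hd δ hδ h4 e he
  have hsha := fun k x => sub_sha KK F M m hm huM d hd δ hδ e he k x
  obtain ⟨L, hL1, hL2, hL3, q, hq1, hq2, hq3⟩ := analytic_tw hC hA d hd h4 hgood e he
  have hd0' : (d : F) ≠ 0 := by exact_mod_cast hd
  have hell : (Wt e).IsElliptic := by
    rw [WeierstrassCurve.isElliptic_iff, tc1_Δ, he, isUnit_iff_ne_zero]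
    exact mul_ne_zero (by norm_num) (pow_ne_zero _ (pow_ne_zero _ hd0'))
  have h1 : analyticOrderAt L 1 = 0 := (hL1.analyticAt 1).analyticOrderAt_eq_zero.2 hL3
  have h3 := hC.three
  have hom : ∃ om : F, om ^ 2 + om + 1 = 0 := ⟨⟨w, hw⟩, by
    ext
    change w ^ 2 + w + 1 = 0
    linear_combination w_sq⟩
  have hbad : ∀ v : HeightOneSpectrum (𝓞 F), (3 : 𝓞 F) ∉ v.asIdeal →
      ¬ IsSquare (v.valuation F (d : F)) → ∀ x : 𝓞 F, x ^ 3 - 2 ∉ v.asIdeal := by
    intro v hv3 hns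
    rw [isSquare_val v hd0'] at hns
    obtain ⟨p, hp, hpv⟩ := (hgood v hns).resolve_left hv3
    exact hC.cube p hp v hpv
  have htam := tam_odd_tw F h3 d hd h4 e he hbad
  obtain ⟨q3, hq3pos, hq3v, hner⟩ := neron_unit_tw F d hd h4 e he
  have harch := arch_tw F hom (d : F) e hd0' he
  set T : ℕ := ∏ᶠ v : HeightOneSpectrum (𝓞 F), SBSD.tam (Wt e) v with hT
  set N : ℕ := (Algebra.norm ℤ d).natAbs with hN
  have hNodd : Odd N := norm_odd F d h4 hd
  have hNabs : |((Algebra.norm ℚ (d : F) : ℚ) : ℝ)| = (N : ℝ) := by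
    have h5 : (Algebra.norm ℚ (d : F) : ℚ) = ((Algebra.norm ℤ d : ℤ) : ℚ) :=
      (Algebra.coe_norm_int d).symm
    rw [h5, hN, Rat.cast_intCast, Nat.cast_natAbs, Int.cast_abs]
  have hC' : (Nat.card (Wt e).toAffine.Point : ℚ) ≠ 0 := by exact_mod_cast hodd.pos.ne'
  have hT0 : (T : ℚ) ≠ 0 := by exact_mod_cast htam.pos.ne'
  have hper : SBSD.period (Wt e) = CM27.period F / √(N : ℝ) * q3 := by
    rw [SBSD.period, hner, harch, hNabs]
  have hcard : (0 : ℚ) < (Nat.card (Wt e).toAffine.Point : ℚ) := by exact_mod_cast hodd.pos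
  have hTpos : (0 : ℚ) < (T : ℚ) := by exact_mod_cast htam.pos
  refine ⟨hell, hfin, L, ⟨hL1, hL2⟩, CF.order_eq (Wt e) h1, hL3, fun x k => hsha k x,
    q * (Nat.card (Wt e).toAffine.Point : ℚ) ^ 2 * (q3 * T)⁻¹, ?_, ?_, ?_⟩
  · positivity
  · have h4' : padicValRat 2 ((Nat.card (Wt e).toAffine.Point : ℚ) ^ 2) = 0 := by
      rw [padicValRat.pow, padic_unit_odd hodd]
      simp
    have h5 : padicValRat 2 ((q3 * T)⁻¹) = 0 := by
      rw [padicValRat.inv, padic_unit_mul hq3pos.ne' hT0 hq3v (padic_unit_odd htam)]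
      simp
    exact padic_unit_mul (mul_ne_zero hq1.ne' (pow_ne_zero _ hC'))
      (inv_ne_zero (mul_ne_zero hq3pos.ne' hT0)) (padic_unit_mul hq1.ne' (pow_ne_zero _ hC') hq2 h4')
      h5
  · rw [SBSD.bsdQuotient, hper, CF.card_tors]
    have hP : (CM27.period F : ℂ) ≠ 0 := by
      intro h0
      have h0' : (CM27.period F : ℝ) = 0 := by exact_mod_cast h0
      rw [h0', zero_div, Complex.ofReal_zero, mul_zero] at hq3
      rcases mul_eq_zero.1 hq3 with h5 | h5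
      · exact hL3 h5
      · have h6 : (√|(discr F : ℝ)| : ℝ) = 0 := by exact_mod_cast h5
        rw [Real.sqrt_eq_zero (abs_nonneg _), abs_eq_zero] at h6
        exact NumberField.discr_ne_zero F (by exact_mod_cast h6)
    have hq3C : (q3 : ℂ) ≠ 0 := by exact_mod_cast hq3pos.ne'
    have hTC : (T : ℂ) ≠ 0 := by exact_mod_cast hT0
    have hBC : ((√(N : ℝ) : ℝ) : ℂ) ≠ 0 := by
      have : (0 : ℝ) < √(N : ℝ) := by
        rw [Real.sqrt_pos]
        exact_mod_cast hNodd.pos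
      exact_mod_cast this.ne'
    rw [hq3, ← hT]
    push_cast
    field_simp

end

/-- **The 2-part of the formula for `E`.** -/
theorem strong_E {F : IntermediateField ℚ ℂ} [NumberField F] (hC : Cls F) (hA : AN F)
    (hT : TTd F hC.tow.mem 1) : SBSD.TwoPartFormula (E F) := by
  have hw := hC.tow.mem
  letI := algK F hw
  obtain ⟨M, _, _, _, _, _, _, m, hm, huM, δ', hδ'⟩ := hT
  have he : 4 * (0 : F) + 1 = ((1 : 𝓞 F) : F) ^ 3 := by
    rw [mul_zero, zero_add]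
    norm_cast
  have h4' : (4 : 𝓞 F) ∣ 1 - 1 := by rw [sub_self]; exact dvd_zero 4
  have hone : (1 : M) ^ 2 = algebraMap F M ((1 : 𝓞 F) : F) := by
    rw [one_pow]
    norm_cast
  have hfin : Finite (E F).toAffine.Point :=
    sub_finite KK F M m hm huM 1 one_ne_zero 1 hone h4' 0 he
  have hodd : Odd (Nat.card (E F).toAffine.Point) :=
    sub_odd KK F M m hm huM 1 one_ne_zero 1 hone h4' 0 he
  have hsha : ∀ (k : ℕ) (x : SBSD.Sha (E F)), 2 ^ k • x = 0 → x = 0 :=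
    fun k x => sub_sha KK F M m hm huM 1 one_ne_zero 1 hone 0 he k x
  obtain ⟨Λ, hL1, hL2, hL3, q, hq1, hq2, hq3⟩ := hA
  have hell : (E F).IsElliptic := by
    rw [WeierstrassCurve.isElliptic_iff]
    have : (E F).Δ = -27 := by
      simp only [E, WeierstrassCurve.Δ, WeierstrassCurve.b₂, WeierstrassCurve.b₄,
        WeierstrassCurve.b₆, WeierstrassCurve.b₈]
      norm_num
    rw [this]
    norm_num
  have h1 : analyticOrderAt Λ 1 = 0 := by
    have han : AnalyticAt ℂ Λ 1 := hL1.analyticAt 1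
    exact han.analyticOrderAt_eq_zero.2 hL3
  have h3 := hC.three
  have htam := tam_odd F h3 ⟨⟨w, hw⟩, by
    ext
    change w ^ 2 + w + 1 = 0
    linear_combination w_sq⟩
  obtain ⟨q3, hq3pos, hq3v, hner⟩ := neron_unit F h3
  set T : ℕ := ∏ᶠ v : HeightOneSpectrum (𝓞 F), SBSD.tam (E F) v with hT
  have hN : (Nat.card (E F).toAffine.Point : ℚ) ≠ 0 := by exact_mod_cast hodd.pos.ne'
  have hT0 : (T : ℚ) ≠ 0 := by exact_mod_cast htam.pos.ne'
  have hper : SBSD.period (E F) = CM27.period F * q3 := by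
    rw [SBSD.period, hner, CM27.period]
    congr 1
    refine Finset.prod_congr rfl fun v _ => ?_
    rw [SBSD.archPeriod_eq]
    rfl
  have hqC : (q : ℂ) ≠ 0 := by exact_mod_cast hq1.ne'
  have hcard : (0 : ℚ) < (Nat.card (E F).toAffine.Point : ℚ) := by exact_mod_cast hodd.pos
  have hTpos : (0 : ℚ) < (T : ℚ) := by exact_mod_cast htam.pos
  refine ⟨hell, hfin, Λ, ⟨hL1, hL2⟩, CF.order_eq (E F) h1, hL3, fun x k => hsha k x,
    q * (Nat.card (E F).toAffine.Point : ℚ) ^ 2 * (q3 * T)⁻¹, ?_, ?_, ?_⟩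
  · positivity
  · have h4 : padicValRat 2 ((Nat.card (E F).toAffine.Point : ℚ) ^ 2) = 0 := by
      rw [padicValRat.pow, padic_unit_odd hodd]
      simp
    have h5 : padicValRat 2 ((q3 * T)⁻¹) = 0 := by
      rw [padicValRat.inv, padic_unit_mul hq3pos.ne' hT0 hq3v (padic_unit_odd htam)]
      simp
    exact padic_unit_mul (mul_ne_zero hq1.ne' (pow_ne_zero _ hN))
      (inv_ne_zero (mul_ne_zero hq3pos.ne' hT0)) (padic_unit_mul hq1.ne' (pow_ne_zero _ hN) hq2 h4)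
      h5
  · rw [SBSD.bsdQuotient, hper, CF.card_tors]
    have hP : (CM27.period F : ℂ) ≠ 0 := by
      intro h0
      rw [h0, mul_zero] at hq3
      rcases mul_eq_zero.1 hq3 with h5 | h5
      · exact hL3 h5
      · have h6 : (√|(discr F : ℝ)| : ℝ) = 0 := by exact_mod_cast h5
        rw [Real.sqrt_eq_zero (abs_nonneg _), abs_eq_zero] at h6
        exact NumberField.discr_ne_zero F (by exact_mod_cast h6)
    have hq3C : (q3 : ℂ) ≠ 0 := by exact_mod_cast hq3pos.ne'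
    have hTC : (T : ℂ) ≠ 0 := by exact_mod_cast hT0
    rw [hq3, ← hT]
    push_cast
    field_simp

end TWR
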