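import Pool.Agent.MP_9ab903_nt.TWR.AN4

set_option autoImplicit false

open NumberField IsDedekindDomain
open CM27 CMT CF NAB
open scoped Classical ComplexConjugate

namespace TWR

/-! ## [TWR-AN5] the induction step (file TWR/AN5.lean) -/

theorem fv_three {F : IntermediateField ℚ ℂ} [NumberField F] (hC : Cls F)
    (v : HeightOneSpectrum (𝓞 F)) (hv : (3 : 𝓞 F) ∈ v.asIdeal) : fv F v = 1 := by
  obtain ⟨k, ϖ, u, hk, hϖ, hu, h3⟩ := hC.three v hv
  have : CharZero (v.adicCompletion F) :=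
    charZero_of_injective_algebraMap (algebraMap F (v.adicCompletion F)).injective
  apply fW_one F (E F) v
  rw [baseChange_E']
  exact localPoly_three' _ _ k hk ϖ u hϖ hu h3

section
variable {F L : IntermediateField ℚ ℂ} [NumberField F] [NumberField L] (hC : Cls F) (hCL : Cls L)
  (hFL : F ≤ L) (hL : Module.finrank ℚ L = 2 * Module.finrank ℚ F)
  (d : 𝓞 F) (hd : d ≠ 0) (h4 : (4 : 𝓞 F) ∣ d - 1)
  (hgood : ∀ v : HeightOneSpectrum (𝓞 F), ¬ ev v (d : F) → GP v)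
  (δ : ℂ) (hδ : δ ^ 2 = ((d : F) : ℂ)) (hδF : δ ∉ F) (hδL : δ ∈ L)
include hC hCL hFL hL hd h4 hδ hδF hδL

theorem LC_step (e : F) (he : 4 * e + 1 = (d : F) ^ 3) : LC L = LC F * LCW F (Wt e) := by
  letI : Algebra F L := algI hFL
  haveI := quadI hFL hL
  have hd0 : (d : F) ≠ 0 := RingOfIntegers.coe_ne_zero_iff.2 hd
  refine artin_quad F L (Algebra.IsQuadraticExtension.finrank_eq_two F L) d h4 ⟨δ, hδL⟩ ?_ ?_ e he
    ?_ ?_ ?_
  · ext
    exact hδ
  · rintro ⟨x, hx⟩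
    apply hδF
    have h1 : ((algebraMap F L x : L) : ℂ) = δ := by rw [hx]
    rw [← h1]
    exact x.2
  · intro v hv
    exact fv_three hC v hv
  · intro v hv
    obtain ⟨k, ϖ, u, hk, hϖ, hu, h3⟩ := hC.three v hv
    have : CharZero (v.adicCompletion F) :=
      charZero_of_injective_algebraMap (algebraMap F (v.adicCompletion F)).injective
    apply fW_one F (Wt e) v
    rw [baseChange_Wt']
    refine localPoly_three_tw _ _ k hk ϖ u hϖ hu h3 (algebraMap F (v.adicCompletion F) (d : F)) _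
      ?_ ?_
    · exact (map_ne_zero_iff _ (algebraMap F (v.adicCompletion F)).injective).2 hd0
    · have h9 := congrArg (algebraMap F (v.adicCompletion F)) he
      rw [map_add, map_mul, map_pow, map_one, map_ofNat] at h9
      exact h9
  · intro v hv
    exact fv_three hCL v hv

include hgood

/-- **The induction step.** -/
theorem AN_step (hA : AN F) : AN L := by
  obtain ⟨e, he⟩ : ∃ e : F, 4 * e + 1 = (d : F) ^ 3 := ⟨((d : F) ^ 3 - 1) / 4, by ring⟩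
  obtain ⟨L₂, d2, s2, n2, q₂, hq₂, v₂, e₂⟩ := analytic_tw hC hA d hd h4 hgood e he
  have hA' := hA
  obtain ⟨L₁, d1, s1, n1, q₁, hq₁, v₁, e₁⟩ := hA'
  have hLC := LC_step hC hCL hFL hL d hd h4 δ hδ hδF hδL e he
  -- the discriminants
  obtain ⟨r, hr, hr'⟩ : ∃ r : ℚ, 0 < r ∧ |(discr L : ℚ)| * r ^ 2 =
      (discr F : ℚ) ^ 2 * |Algebra.norm ℚ (d : F)| := by
    letI : Algebra F L := algI hFL
    haveI := quadI hFL hL
    refine discr_quad F L (Algebra.IsQuadraticExtension.finrank_eq_two F L) (d : F) ⟨δ, hδL⟩ ?_ ?_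
    · ext
      exact hδ
    · rintro ⟨x, hx⟩
      apply hδF
      have h1 : ((algebraMap F L x : L) : ℂ) = δ := by rw [hx]
      rw [← h1]
      exact x.2
  set N : ℕ := (Algebra.norm ℤ d).natAbs with hN
  have hNodd : Odd N := norm_odd F d h4 hd
  have hNabs : |(Algebra.norm ℚ (d : F) : ℚ)| = (N : ℚ) := by
    have h5 : (Algebra.norm ℚ (d : F) : ℚ) = ((Algebra.norm ℤ d : ℤ) : ℚ) :=
      (Algebra.coe_norm_int d).symm
    rw [h5, hN, Nat.cast_natAbs, Int.cast_abs]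
  have hodd₁ : Odd (discr F).natAbs := hC.tow.odd
  have hodd₂ : Odd (discr L).natAbs := hCL.tow.odd
  have hNQ : (N : ℚ) ≠ 0 := by exact_mod_cast hNodd.pos.ne'
  have hD₁ : ((discr F).natAbs : ℚ) ≠ 0 := by exact_mod_cast hodd₁.pos.ne'
  have hD₂ : ((discr L).natAbs : ℚ) ≠ 0 := by exact_mod_cast hodd₂.pos.ne'
  have hr'' : ((discr L).natAbs : ℚ) * r ^ 2 = ((discr F).natAbs : ℚ) ^ 2 * N := by
    have h8 : (((discr F).natAbs : ℕ) : ℚ) ^ 2 = (discr F : ℚ) ^ 2 := by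
      rw [Nat.cast_natAbs, Int.cast_abs, sq_abs]
    have h9 : (((discr L).natAbs : ℕ) : ℚ) = |(discr L : ℚ)| := by
      rw [Nat.cast_natAbs, Int.cast_abs]
    rw [h8, h9, hr', hNabs]
  have vr : padicValRat 2 r = 0 := by
    haveI : Fact (Nat.Prime 2) := ⟨Nat.prime_two⟩
    have h6 := congrArg (padicValRat 2) hr''
    rw [padicValRat.mul hD₂ (pow_ne_zero 2 hr.ne'), padicValRat.mul (pow_ne_zero 2 hD₁) hNQ,
      padicValRat.pow, padicValRat.pow, padic_unit_odd hNodd, padic_unit_odd hodd₁,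
      padic_unit_odd hodd₂] at h6
    push_cast at h6
    omega
  have hrC : (r : ℂ) ≠ 0 := by exact_mod_cast hr.ne'
  -- square roots: `√|disc L| r = √|disc F|² √N`
  set A₁ : ℝ := √|(discr F : ℝ)| with hA₁
  set A₂ : ℝ := √|(discr L : ℝ)| with hA₂
  set B : ℝ := √(N : ℝ) with hB
  have hA₁pos : 0 < A₁ := by
    rw [hA₁, Real.sqrt_pos, abs_pos]
    exact_mod_cast NumberField.discr_ne_zero F
  have hA₂pos : 0 < A₂ := by
    rw [hA₂, Real.sqrt_pos, abs_pos]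
    exact_mod_cast NumberField.discr_ne_zero L
  have hBpos : 0 < B := by
    rw [hB, Real.sqrt_pos]
    exact_mod_cast hNodd.pos
  have hsq : A₂ * r = A₁ ^ 2 * B := by
    have h6 : (A₂ * r) ^ 2 = (A₁ ^ 2 * B) ^ 2 := by
      rw [mul_pow, mul_pow, hA₂, Real.sq_sqrt (abs_nonneg _), hA₁, Real.sq_sqrt (abs_nonneg _), hB,
        Real.sq_sqrt (by positivity)]
      have h7 : ((((discr L).natAbs : ℚ) * r ^ 2 : ℚ) : ℝ) =
          ((((discr F).natAbs : ℚ) ^ 2 * N : ℚ) : ℝ) := by rw [hr'']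
      push_cast at h7
      rw [Nat.cast_natAbs, Nat.cast_natAbs, Int.cast_abs, Int.cast_abs] at h7
      exact h7
    have hrR : (0 : ℝ) < r := by exact_mod_cast hr
    exact (pow_left_inj₀ (by positivity) (by positivity) two_ne_zero).1 h6
  have hsqC : (A₂ : ℂ) * r = (A₁ : ℂ) ^ 2 * B := by
    exact_mod_cast congrArg (fun t : ℝ => (t : ℂ)) hsq
  have hBC : (B : ℂ) ≠ 0 := by exact_mod_cast hBpos.ne'
  refine ⟨fun s => L₁ s * L₂ s, d1.mul d2, ?_, mul_ne_zero n1 n2, q₁ * q₂ * r⁻¹, by positivity,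
    ?_, ?_⟩
  · intro s hs
    have t1 : (E L).LSeries s = LSeries (fun k => LC L k) s := rfl
    have t2 : (fun k => ((E L).LFunction k : ℂ)) = fun k => LC L k := rfl
    rw [t1, t2, hLC]
    have u1 : LSeriesSummable (fun k => LC F k) s := (s1 s hs).1
    have u2 : LSeriesSummable (fun k => LCW F (Wt e) k) s := (s2 s hs).1
    refine ⟨ArithmeticFunction.LSeriesSummable_mul u1 u2, ?_⟩
    rw [ArithmeticFunction.LSeries_mul' u1 u2]
    change L₁ s * L₂ s = _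
    rw [(s1 s hs).2, (s2 s hs).2]
    rfl
  · have vr' : padicValRat 2 (r⁻¹) = 0 := by rw [padicValRat.inv, vr]; simp
    exact padic_unit_mul (mul_ne_zero hq₁.ne' hq₂.ne') (inv_ne_zero hr.ne')
      (padic_unit_mul hq₁.ne' hq₂.ne' v₁ v₂) vr'
  · change L₁ 1 * L₂ 1 * (A₂ : ℂ) = _
    obtain ⟨k, hk⟩ := hC.tow.rank
    have hpF := period_eq F hC.tow.mem (2 ^ k) (by rw [hk]; ring)
    have hpL := period_eq L hCL.tow.mem (2 * 2 ^ k) (by rw [hL, hk]; ring)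
    rw [hpF] at e₁ e₂
    rw [hpL]
    have h7 : (A₂ : ℂ) = (A₁ : ℂ) ^ 2 * B * (r : ℂ)⁻¹ := by
      rw [← hsqC]
      field_simp
    rw [h7]
    push_cast at e₁ e₂ ⊢
    set X : ℂ := ((√3 : ℝ) : ℂ) ^ 2 ^ k * (Om : ℂ) ^ (2 * 2 ^ k) with hX
    have h8 : L₂ 1 * (A₁ : ℂ) * B = q₂ * X := by
      rw [e₂]
      field_simp
    have h9 : ((√3 : ℝ) : ℂ) ^ (2 * 2 ^ k) * (Om : ℂ) ^ (2 * (2 * 2 ^ k)) = X ^ 2 := by
      rw [hX, mul_pow, ← pow_mul, ← pow_mul]
      congr 1 <;> ring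
    rw [h9]
    calc L₁ 1 * L₂ 1 * ((A₁ : ℂ) ^ 2 * B * (r : ℂ)⁻¹)
        = (L₁ 1 * (A₁ : ℂ)) * (L₂ 1 * (A₁ : ℂ) * B) * (r : ℂ)⁻¹ := by ring
      _ = (q₁ * X) * (q₂ * X) * (r : ℂ)⁻¹ := by rw [e₁, h8]
      _ = _ := by ring

end

end TWR
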