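import Pool.Agent.MP_9ab903_nt.TWR.AN5
import Pool.Agent.MP_9ab903_nt.TWR.T1

set_option autoImplicit false

open NumberField IsDedekindDomain
open CM27 CMT CF NAB
open scoped Classical ComplexConjugate

namespace TWR

/-! ## [TWR-AN6] the induction (file TWR/AN6.lean) -/

section
variable {k F : Type} [Field k] [NumberField k] [Field F] [NumberField F] [Algebra k F]
  (S : Sig k F) [Algebra.IsQuadraticExtension k F]

include S in
/-- `2` is not a cube in the residue fields -/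
theorem cube_step (w : HeightOneSpectrum (𝓞 F)) (h2 : (2 : 𝓞 F) ∉ w.asIdeal)
    (h : ∀ x : 𝓞 k, x ^ 3 - 2 ∉ (und k w).asIdeal) (x : 𝓞 F) : x ^ 3 - 2 ∉ w.asIdeal := by
  intro hx
  have hdeg1 : Nat.card (𝓞 F ⧸ w.asIdeal) = Nat.card (𝓞 k ⧸ (und k w).asIdeal) → False := by
    intro hc
    obtain ⟨r, hr⟩ := rmap_surjective w hc (Ideal.Quotient.mk _ x)
    obtain ⟨r, rfl⟩ := Ideal.Quotient.mk_surjective r
    rw [rmap_mk] at hr
    apply h r
    rw [mem_und, map_sub, map_pow, map_ofNat, ← Ideal.Quotient.eq_zero_iff_mem, map_sub, map_pow, hr,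
      ← map_pow, ← map_sub, Ideal.Quotient.eq_zero_iff_mem]
    exact hx
  rcases kinds S w with ⟨-, hc, -⟩ | ⟨-, hc, -, -⟩ | ⟨hsw, -, -, -⟩
  · exact hdeg1 hc
  · exact hdeg1 hc
  · -- inert
    have hsx : S.sg x ^ 3 - 2 ∈ w.asIdeal := by
      have h3 : x ^ 3 - 2 ∈ (S.sw w).asIdeal := by rw [hsw]; exact hx
      rw [S.mem_sw, map_sub, map_pow, map_ofNat] at h3
      exact h3
    have hN : Nm k F x ^ 3 - 4 ∈ (und k w).asIdeal := by
      rw [mem_und, map_sub, map_pow, map_ofNat]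
      have h4 : algebraMap (𝓞 k) (𝓞 F) (Nm k F x) = x * S.sg x := S.norm x
      rw [h4]
      have h5 : (x * S.sg x) ^ 3 - 4 = (x ^ 3 - 2) * S.sg x ^ 3 + 2 * (S.sg x ^ 3 - 2) := by ring
      rw [h5]
      exact Ideal.add_mem _ (Ideal.mul_mem_right _ _ hx) (Ideal.mul_mem_left _ _ hsx)
    -- `c³ = 4`, so `2 / c` is a cube root of `2`
    have h2k : (2 : 𝓞 k) ∉ (und k w).asIdeal := (two_und' w).2 h2
    have hmax := (und k w).isMaximal
    have hcn : Nm k F x ∉ (und k w).asIdeal := by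
      intro h5
      have h6 : (2 : 𝓞 k) * 2 ∈ (und k w).asIdeal := by
        have h7 : (2 : 𝓞 k) * 2 = Nm k F x ^ 3 - (Nm k F x ^ 3 - 4) := by ring
        rw [h7]
        exact Ideal.sub_mem _ (Ideal.pow_mem_of_mem _ h5 3 (by norm_num)) hN
      rcases (und k w).isPrime.mem_or_mem h6 with h7 | h7 <;> exact h2k h7
    obtain ⟨e, he⟩ : ∃ e : 𝓞 k, e * Nm k F x - 1 ∈ (und k w).asIdeal := by
      letI := Ideal.Quotient.field (und k w).asIdeal
      have hne : Ideal.Quotient.mk (und k w).asIdeal (Nm k F x) ≠ 0 := fun h0 =>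
        hcn (Ideal.Quotient.eq_zero_iff_mem.1 h0)
      obtain ⟨e, he⟩ := Ideal.Quotient.mk_surjective
        ((Ideal.Quotient.mk (und k w).asIdeal (Nm k F x))⁻¹)
      refine ⟨e, ?_⟩
      rw [← Ideal.Quotient.eq_zero_iff_mem, map_sub, map_mul, he, inv_mul_cancel₀ hne, map_one,
        sub_self]
    set c := Nm k F x with hc
    have h6 : 4 * ((2 * e) ^ 3 - 2) ∈ (und k w).asIdeal := by
      have h7 : 4 * ((2 * e) ^ 3 - 2) = -(8 * e ^ 3 * (c ^ 3 - 4)) +
          8 * ((e * c - 1) * ((e * c) ^ 2 + e * c + 1)) := by ring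
      rw [h7]
      exact Ideal.add_mem _ ((Ideal.neg_mem_iff _).2 (Ideal.mul_mem_left _ _ hN))
        (Ideal.mul_mem_left _ _ (Ideal.mul_mem_right _ _ he))
    rcases (und k w).isPrime.mem_or_mem h6 with h7 | h7
    · have h8 : (2 : 𝓞 k) * 2 ∈ (und k w).asIdeal := by
        have : (2 : 𝓞 k) * 2 = 4 := by norm_num
        rw [this]
        exact h7
      rcases (und k w).isPrime.mem_or_mem h8 with h9 | h9 <;> exact h2k h9
    · exact h (2 * e) h7

end

theorem KK_le_LS : KK ≤ LS ∅ := by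
  apply KK_le
  rw [LS]
  exact IntermediateField.subset_adjoin _ _ (Or.inl rfl)

theorem Tow.cube {F : IntermediateField ℚ ℂ} (h : Tow F) [NumberField F] (p : ℕ)
    (hp : GoodPrime p) : ∀ v : HeightOneSpectrum (𝓞 F), (p : 𝓞 F) ∈ v.asIdeal →
      ∀ x : 𝓞 F, x ^ 3 - 2 ∉ v.asIdeal := by
  revert ‹NumberField F›
  induction h with
  | base =>
    intro hN v hv x
    exact two_not_cube' ∅ (by simp) KK d2_w_mem KK_le_LS 0 (by rw [d2_finrank_KK]; norm_num) p hp v
      hv x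
  | step F₀ F h hle h2 hodd ih =>
    intro hN v hv x
    haveI := h.numberField
    letI := algI hle
    haveI := quadI hle h2
    obtain ⟨S⟩ := exists_Sig F₀ F
    refine cube_step S v ?_ (fun y => ih (und F₀ v) ?_ y) x
    · intro h5
      have hpodd : Odd p := by
        rcases hp.1.eq_two_or_odd' with h5 | h5
        · exfalso
          have h6 := hp.2.1
          rw [h5] at h6
          norm_num at h6
        · exact h5
      obtain ⟨k, hk⟩ := hpodd
      apply v.isPrime.ne_top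
      rw [Ideal.eq_top_iff_one]
      have h6 : (1 : 𝓞 F) = p - k * 2 := by
        rw [hk]
        push_cast
        ring
      rw [h6]
      exact Ideal.sub_mem _ hv (Ideal.mul_mem_left _ _ h5)
    · rw [mem_und, map_natCast]
      exact hv

section
variable {F : IntermediateField ℚ ℂ} [NumberField F]

theorem TTd.one {hw : w ∈ F} {d : 𝓞 F} (h : TTd F hw d) : TTd F hw 1 := by
  obtain ⟨M, i1, i2, i3, i4, i5, i6, m, hm, hu, -⟩ := h
  exact ⟨M, i1, i2, i3, i4, i5, i6, m, hm, hu, 1, by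
    rw [one_pow]
    have : ((1 : 𝓞 F) : F) = 1 := map_one (algebraMap (𝓞 F) F)
    rw [this, map_one]⟩

theorem Cls.of_TT {hw : w ∈ F} (hT : TTd F hw 1) (htow : Tow F) : Cls F := by
  refine ⟨htow, fun v hv => ?_, fun p hp => htow.cube p hp⟩
  letI := algK F hw
  obtain ⟨M, _, _, _, _, _, _, m, hm, huM, -⟩ := hT
  obtain ⟨k, hk, hkv⟩ := three_sub F M (fun Q hQ => l0_core KK M m hm Q hQ) v hv
  obtain ⟨ϖ, u, h1, h2, h3⟩ := l0_comp F v k hkv
  exact ⟨k, ϖ, u, hk, h1, h2, h3⟩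

theorem TTd.unr {hw : w ∈ F} {d : 𝓞 F} (hT : TTd F hw d) : letI := algK F hw; Unr KK F := by
  letI := algK F hw
  obtain ⟨M, _, _, _, _, _, _, m, hm, huM, -⟩ := hT
  exact unr_sub KK F M huM

theorem TTd.rank {hw : w ∈ F} {d : 𝓞 F} (hT : TTd F hw d) :
    ∃ n : ℕ, Module.finrank ℚ F = 2 ^ (n + 1) := by
  letI := algK F hw
  obtain ⟨M, _, _, _, _, _, _, m, hm, huM, -⟩ := hT
  obtain ⟨k, hk⟩ := finrank_sub KK F M m hm
  refine ⟨k, ?_⟩
  rw [← d2_finrank F hw, hk]
  ring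

end

theorem AN_KK : AN KK :=
  analytic_Fq ∅ (by simp) KK d2_w_mem KK_le_LS 0 (by rw [d2_finrank_KK]; norm_num)

/-- **The analytic half for all fields of the class.** -/
theorem main (n : ℕ) : ∀ (F : IntermediateField ℚ ℂ) [NumberField F] (hw : w ∈ F),
    TTd F hw 1 → Module.finrank ℚ F = 2 ^ (n + 1) → Tow F ∧ AN F := by
  induction n with
  | zero =>
    intro F hN hw hT hn
    have h1 : KK = F := by
      refine IntermediateField.eq_of_le_of_finrank_eq (KK_le F hw) ?_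
      rw [d2_finrank_KK, hn]
      norm_num
    subst h1
    exact ⟨Tow.base, AN_KK⟩
  | succ n ih =>
    intro F hN hw hT hn
    have hne : Module.finrank ℚ F ≠ 2 := by
      rw [hn, pow_succ, pow_succ]
      have : 0 < 2 ^ n := by positivity
      omega
    obtain ⟨F₀, hN₀, hw₀, d, δ, hle, h2, hTd, hd, h4, hδ, hδF, hδF₀⟩ := exists_step F hw hT hne
    have hn₀ : Module.finrank ℚ F₀ = 2 ^ (n + 1) := by
      rw [hn, pow_succ] at h2
      omega
    obtain ⟨htow₀, hA₀⟩ := ih F₀ hw₀ hTd.one hn₀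
    have htow : Tow F := Tow.step F₀ F htow₀ hle h2 (odd_discr_unr F hw hT.unr)
    refine ⟨htow, AN_step (Cls.of_TT hTd.one htow₀) (Cls.of_TT hT htow) hle h2 d hd h4
      (fun v hv => odd_val F₀ hw₀ d hTd v ?_) δ hδ hδF₀ hδF hA₀⟩
    rw [isSquare_val v (RingOfIntegers.coe_ne_zero_iff.2 hd)]
    exact hv

/-- **Main theorem, the curve.** -/
theorem final_E (F : IntermediateField ℚ ℂ) [NumberField F] (hw : w ∈ F) (hT : TTd F hw 1) :
    SBSD.TwoPartFormula (E F) := by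
  obtain ⟨n, hn⟩ := hT.rank
  obtain ⟨htow, hA⟩ := main n F hw hT hn
  exact strong_E (Cls.of_TT hT htow) hA hT

/-- **Main theorem, the twists.** -/
theorem final_tw (F : IntermediateField ℚ ℂ) [NumberField F] (hw : w ∈ F) (d : 𝓞 F) (hd : d ≠ 0)
    (h4 : (4 : 𝓞 F) ∣ d - 1) (hT : TTd F hw d) (e : F) (he : 4 * e + 1 = (d : F) ^ 3) :
    SBSD.TwoPartFormula (Wt e) := by
  obtain ⟨n, hn⟩ := hT.rank
  obtain ⟨htow, hA⟩ := main n F hw hT.one hn
  refine strong_tw (Cls.of_TT hT.one htow) hA d hd h4 (fun v hv => odd_val F hw d hT v ?_) hT e he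
  rw [isSquare_val v (RingOfIntegers.coe_ne_zero_iff.2 hd)]
  exact hv

end TWR
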