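import Pool.Agent.MP_9ab903_nt.NAB.QR14

set_option autoImplicit false

open NumberField IsDedekindDomain
open CM27 CMT NAB
open scoped Classical

namespace TWR

/-! ## [TWR-PF1] parity of valuations and the symbol (file TWR/PF1.lean) -/

section
variable {F : Type} [Field F] [NumberField F]

/-- minus the order -/
noncomputable def od (v : HeightOneSpectrum (𝓞 F)) (x : F) : ℤ := WithZero.log (v.valuation F x)

/-- even order -/
def ev (v : HeightOneSpectrum (𝓞 F)) (x : F) : Prop := Even (od v x)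

variable (v : HeightOneSpectrum (𝓞 F))

theorem val_ne {x : F} (hx : x ≠ 0) : v.valuation F x ≠ 0 := (Valuation.ne_zero_iff _).2 hx

theorem od_mul {x y : F} (hx : x ≠ 0) (hy : y ≠ 0) : od v (x * y) = od v x + od v y := by
  rw [od, map_mul, WithZero.log_mul (val_ne v hx) (val_ne v hy)]
  rfl

theorem od_pow (x : F) (n : ℕ) : od v (x ^ n) = n * od v x := by
  rw [od, map_pow, WithZero.log_pow, nsmul_eq_mul]
  rfl

theorem od_inv (x : F) : od v x⁻¹ = -od v x := by
  rw [od, map_inv₀, WithZero.log_inv]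
  rfl

theorem od_neg (x : F) : od v (-x) = od v x := by
  rw [od, Valuation.map_neg]
  rfl

theorem ev_neg (x : F) : ev v (-x) ↔ ev v x := by rw [ev, ev, od_neg]

theorem ev_mul {x y : F} (hx : x ≠ 0) (hy : y ≠ 0) : ev v (x * y) ↔ (ev v x ↔ ev v y) := by
  rw [ev, ev, ev, od_mul v hx hy, Int.even_add]

theorem ev_sq {x : F} (hx : x ≠ 0) : ev v (x ^ 2) := by
  rw [pow_two, ev_mul v hx hx]

theorem ev_mul_sq {x y : F} (hx : x ≠ 0) (hy : y ≠ 0) : ev v (x * y ^ 2) ↔ ev v x := by
  rw [ev_mul v hx (pow_ne_zero 2 hy)]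
  have := ev_sq v hy
  tauto

theorem val_eq_exp {x : F} (hx : x ≠ 0) : v.valuation F x = WithZero.exp (od v x) :=
  (WithZero.exp_log (val_ne v hx)).symm

theorem isSquare_val {x : F} (hx : x ≠ 0) : IsSquare (v.valuation F x) ↔ ev v x := by
  constructor
  · rintro ⟨b, hb⟩
    have hb0 : b ≠ 0 := by
      rintro rfl
      rw [zero_mul] at hb
      exact val_ne v hx hb
    rw [ev, od, hb, WithZero.log_mul hb0 hb0]
    exact ⟨_, rfl⟩
  · rintro ⟨k, hk⟩
    refine ⟨WithZero.exp k, ?_⟩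
    rw [val_eq_exp v hx, hk, WithZero.exp_add]

theorem od_eq_of_val {x y : F} (h : v.valuation F x = v.valuation F y) : od v x = od v y := by
  rw [od, od, h]

theorem ev_of_val_eq {x y : F} (h : v.valuation F x = v.valuation F y) : ev v x ↔ ev v y := by
  rw [ev, ev, od_eq_of_val v h]

theorem ev_unit {a : 𝓞 F} (ha : a ∉ v.asIdeal) : ev v (a : F) := by
  rw [ev, od, val_unit a v ha]
  exact ⟨0, rfl⟩

theorem ev_one : ev v (1 : F) := by
  rw [ev, od, map_one]
  exact ⟨0, rfl⟩

theorem symb_eq_zero {x : F} (hx : x ≠ 0) : symb x v = 0 ↔ ¬ ev v x := by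
  rw [← isSquare_val v hx, symb]
  by_cases h : IsSquare (v.valuation F x)
  · rw [if_pos h]
    split_ifs <;> simp [h]
  · rw [if_neg h]
    simp [h]

theorem symb_pm {x : F} (hx : x ≠ 0) (h : ev v x) : symb x v = 1 ∨ symb x v = -1 := by
  rw [symb, if_pos ((isSquare_val v hx).2 h)]
  split_ifs
  · exact Or.inl rfl
  · exact Or.inr rfl

theorem symb_self {x : F} (hx : x ≠ 0) (h : ev v x) : symb x v * symb x v = 1 := by
  rcases symb_pm v hx h with h | h <;> rw [h] <;> norm_num

theorem symb_eq_one_of {x : F} (hx : x ≠ 0) (s : F)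
    (h : v.valuation F (s ^ 2 - x) < v.valuation F (4 * x)) : symb x v = 1 ∧ ev v x := by
  have h4 : v.valuation F (4 * x) ≤ v.valuation F x := by
    rw [map_mul]
    have h5 : v.valuation F (4 : F) ≤ 1 := by
      have e4 : (4 : F) = ((4 : 𝓞 F) : F) := (map_ofNat (algebraMap (𝓞 F) F) 4).symm
      rw [e4]
      exact v.valuation_le_one _
    calc v.valuation F 4 * v.valuation F x ≤ 1 * v.valuation F x := mul_le_mul_left h5 _
      _ = _ := one_mul _
  have h6 : v.valuation F (s ^ 2) = v.valuation F x := by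
    have h7 : s ^ 2 = x + (s ^ 2 - x) := by ring
    rw [h7]
    exact Valuation.map_add_eq_of_lt_left _ (h.trans_le h4)
  have hev : ev v x := by
    rw [← isSquare_val v hx, ← h6, map_pow]
    exact ⟨_, pow_two _⟩
  refine ⟨?_, hev⟩
  rw [symb, if_pos ((isSquare_val v hx).2 hev), if_pos ⟨s, h⟩]

/-- representation by an integral unit -/
theorem unit_rep {x : F} (hx : x ≠ 0) (h : ev v x) :
    ∃ (a : 𝓞 F) (s : F), a ∉ v.asIdeal ∧ s ≠ 0 ∧ x * s ^ 2 = a := by
  obtain ⟨k, hk⟩ := h
  obtain ⟨z, hz⟩ := v.valuation_surjective F (WithZero.exp k)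
  have hz0 : z ≠ 0 := by
    rintro rfl
    rw [map_zero] at hz
    exact WithZero.exp_ne_zero hz.symm
  set y : F := x / z ^ 2 with hy
  have hy0 : y ≠ 0 := div_ne_zero hx (pow_ne_zero 2 hz0)
  have hyv : v.valuation F y = 1 := by
    rw [hy, map_div₀, map_pow, hz, val_eq_exp v hx, hk, WithZero.exp_add, pow_two]
    exact div_self (mul_ne_zero WithZero.exp_ne_zero WithZero.exp_ne_zero)
  -- `y = a / b`
  obtain ⟨a, b, hb, hab⟩ := IsFractionRing.div_surjective (A := 𝓞 F) y
  have hb0 : b ≠ 0 := nonZeroDivisors.ne_zero hb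
  have hbF : (b : F) ≠ 0 := RingOfIntegers.coe_ne_zero_iff.2 hb0
  have hab' : (a : F) = y * b := by
    rw [← hab]
    field_simp
  have ha0 : a ≠ 0 := by
    rintro rfl
    apply mul_ne_zero hy0 hbF
    rw [← hab']
    rfl
  have hval : v.intValuation a = v.intValuation b := by
    have h1 : v.valuation F (a : F) = v.valuation F (b : F) := by
      rw [hab', map_mul, hyv, one_mul]
    rwa [HeightOneSpectrum.valuation_of_algebraMap, HeightOneSpectrum.valuation_of_algebraMap] at h1
  -- `(b) = v ^ n J`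
  obtain ⟨n, hn⟩ : ∃ n : ℕ, v.intValuation b = WithZero.exp (-(n : ℤ)) :=
    ⟨_, HeightOneSpectrum.intValuation_eq_exp_neg_multiplicity v hb0⟩
  have hbn : b ∈ v.asIdeal ^ n := by
    rw [← HeightOneSpectrum.intValuation_le_pow_iff_mem, hn]
  obtain ⟨J, hJ⟩ : v.asIdeal ^ n ∣ Ideal.span {b} := Ideal.dvd_span_singleton.2 hbn
  have hJv : ¬ J ≤ v.asIdeal := by
    intro hle
    have h1 : b ∈ v.asIdeal ^ (n + 1) := by
      rw [← Ideal.dvd_span_singleton, hJ, pow_succ]
      exact mul_dvd_mul_left _ (Ideal.dvd_iff_le.2 hle)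
    rw [← HeightOneSpectrum.intValuation_le_pow_iff_mem, hn, WithZero.exp_le_exp] at h1
    push_cast at h1
    omega
  obtain ⟨t, htJ, htv⟩ := SetLike.not_le_iff_exists.1 hJv
  have ht0 : t ≠ 0 := by
    rintro rfl
    exact htv (Ideal.zero_mem _)
  have htF : (t : F) ≠ 0 := RingOfIntegers.coe_ne_zero_iff.2 ht0
  have han : a ∈ v.asIdeal ^ n := by
    rw [← HeightOneSpectrum.intValuation_le_pow_iff_mem, hval, hn]
  -- `a t = b c`
  have hmem : a * t ∈ Ideal.span {b} := by
    rw [hJ]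
    exact Ideal.mul_mem_mul han htJ
  obtain ⟨c, hc⟩ := Ideal.mem_span_singleton.1 hmem
  have hcF : (c : F) = y * t := by
    have h1 : (a : F) * t = b * c := by
      have := congrArg (fun r : 𝓞 F => (r : F)) hc
      exact this
    rw [hab'] at h1
    apply mul_left_cancel₀ hbF
    rw [← h1]
    ring
  refine ⟨c * t, t / z, ?_, div_ne_zero htF hz0, ?_⟩
  · intro hmem'
    have h1 := (val_lt_iff (c * t) v).2 hmem'
    have h2 : (((c * t : 𝓞 F) : 𝓞 F) : F) = y * (t : F) ^ 2 := by
      change (c : F) * (t : F) = _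
      rw [hcF]
      ring
    rw [h2, map_mul, hyv, one_mul, map_pow, val_unit t v htv, one_pow] at h1
    exact lt_irrefl _ h1
  · change x * (t / z) ^ 2 = (c : F) * (t : F)
    rw [hcF, hy]
    field_simp

end

end TWR
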