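import Pool.Agent.MP_9ab903_nt.TWR.PF1

set_option autoImplicit false

open NumberField IsDedekindDomain
open CM27 CMT NAB
open scoped Classical

namespace TWR

/-! ## [TWR-PF2] multiplicativity of the symbol (file TWR/PF2.lean) -/

section
variable {F : Type} [Field F] [NumberField F]

/-- integral above `2` -/
def I2 (τ : F) : Prop := ∀ v : HeightOneSpectrum (𝓞 F), (2 : 𝓞 F) ∈ v.asIdeal → v.valuation F τ ≤ 1

/-- up to squares congruent to `1` modulo `4` -/
def AdG (x : F) : Prop := ∃ u τ : F, u ≠ 0 ∧ x * u ^ 2 = 1 - 4 * τ ∧ I2 τ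

variable (v : HeightOneSpectrum (𝓞 F))

theorem val_int (a : 𝓞 F) : v.valuation F (a : F) ≤ 1 := v.valuation_le_one a

theorem val_two_le : v.valuation F (2 : F) ≤ 1 := by
  have e4 : (2 : F) = ((2 : 𝓞 F) : F) := (map_ofNat (algebraMap (𝓞 F) F) 2).symm
  rw [e4]
  exact val_int v _

theorem val_four_le : v.valuation F (4 : F) ≤ 1 := by
  have e4 : (4 : F) = ((4 : 𝓞 F) : F) := (map_ofNat (algebraMap (𝓞 F) F) 4).symm
  rw [e4]
  exact val_int v _

theorem val_four : v.valuation F (4 : F) = v.valuation F 2 ^ 2 := by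
  rw [← map_pow]
  norm_num

theorem val_four_pos : 0 < v.valuation F (4 : F) := zero_lt_iff.2 (val_ne v (by norm_num))

theorem val_two_pos : 0 < v.valuation F (2 : F) := zero_lt_iff.2 (val_ne v (by norm_num))

theorem val_two_lt {v : HeightOneSpectrum (𝓞 F)} (h : (2 : 𝓞 F) ∈ v.asIdeal) :
    v.valuation F (2 : F) < 1 := by
  have e4 : (2 : F) = ((2 : 𝓞 F) : F) := (map_ofNat (algebraMap (𝓞 F) F) 2).symm
  rw [e4]
  exact (val_lt_iff _ v).2 h

theorem val_four_lt {v : HeightOneSpectrum (𝓞 F)} (h : (2 : 𝓞 F) ∈ v.asIdeal) :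
    v.valuation F (4 : F) < 1 := by
  rw [val_four]
  exact pow_lt_one₀ zero_le (val_two_lt h) two_ne_zero

theorem val_four_one {v : HeightOneSpectrum (𝓞 F)} (h : (2 : 𝓞 F) ∉ v.asIdeal) :
    v.valuation F (4 : F) = 1 := by
  have e4 : (2 : F) = ((2 : 𝓞 F) : F) := (map_ofNat (algebraMap (𝓞 F) F) 2).symm
  rw [val_four, e4, val_unit _ v h, one_pow]

theorem val_two_one {v : HeightOneSpectrum (𝓞 F)} (h : (2 : 𝓞 F) ∉ v.asIdeal) :
    v.valuation F (2 : F) = 1 := by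
  have e4 : (2 : F) = ((2 : 𝓞 F) : F) := (map_ofNat (algebraMap (𝓞 F) F) 2).symm
  rw [e4, val_unit _ v h]

theorem I2.int (a : 𝓞 F) : I2 (a : F) := fun v _ => val_int v a

theorem I2_zero : I2 (0 : F) := fun v _ => by rw [map_zero]; exact zero_le

theorem I2_one : I2 (1 : F) := fun v _ => by rw [map_one]

theorem I2.add {x y : F} (hx : I2 x) (hy : I2 y) : I2 (x + y) := fun v hv =>
  (Valuation.map_add _ _ _).trans (max_le (hx v hv) (hy v hv))

theorem I2.mul {x y : F} (hx : I2 x) (hy : I2 y) : I2 (x * y) := fun v hv => by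
  rw [map_mul]
  exact mul_le_one' (hx v hv) (hy v hv)

theorem I2.neg {x : F} (hx : I2 x) : I2 (-x) := fun v hv => by
  rw [Valuation.map_neg]
  exact hx v hv

theorem I2.sub {x y : F} (hx : I2 x) (hy : I2 y) : I2 (x - y) := by
  rw [sub_eq_add_neg]
  exact hx.add hy.neg

theorem I2_four : I2 (4 : F) := fun v _ => val_four_le v

theorem AdG.mul {x y : F} (hx : AdG x) (hy : AdG y) : AdG (x * y) := by
  obtain ⟨u, τ, hu, h1, h2⟩ := hx
  obtain ⟨u', τ', hu', h1', h2'⟩ := hy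
  refine ⟨u * u', τ + τ' - 4 * (τ * τ'), mul_ne_zero hu hu', ?_, (h2.add h2').sub
    (I2_four.mul (h2.mul h2'))⟩
  calc x * y * (u * u') ^ 2 = (x * u ^ 2) * (y * u' ^ 2) := by ring
    _ = (1 - 4 * τ) * (1 - 4 * τ') := by rw [h1, h1']
    _ = _ := by ring

theorem AdG_sq {x : F} (hx : x ≠ 0) : AdG (x ^ 2) :=
  ⟨x⁻¹, 0, inv_ne_zero hx, by field_simp; ring, I2_zero⟩

theorem AdG.mul_sq {x s : F} (hx : AdG x) (hs : s ≠ 0) : AdG (x * s ^ 2) := hx.mul (AdG_sq hs)

theorem AdG_one : AdG (1 : F) := ⟨1, 0, one_ne_zero, by ring, I2_zero⟩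

theorem AdG_of_four {a : 𝓞 F} (h : (4 : 𝓞 F) ∣ a - 1) : AdG (a : F) := by
  obtain ⟨c, hc⟩ := h
  refine ⟨1, ((-c : 𝓞 F) : F), one_ne_zero, ?_, I2.int _⟩
  have h1 : a = 1 - 4 * (-c) := by linear_combination hc
  have h2 : (a : F) = 1 - 4 * ((-c : 𝓞 F) : F) := by
    conv_lhs => rw [h1]
    change algebraMap (𝓞 F) F (1 - 4 * -c) = _
    rw [map_sub, map_mul, map_one, map_ofNat]
  rw [h2]
  ring

/-- the symbol of `1 - 4 τ` at an even place -/
theorem val_one_sub {v : HeightOneSpectrum (𝓞 F)} (h : (2 : 𝓞 F) ∈ v.asIdeal) {τ : F}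
    (hτ : v.valuation F τ ≤ 1) : v.valuation F (1 - 4 * τ) = 1 := by
  have h1 : v.valuation F (4 * τ) < v.valuation F (1 : F) := by
    rw [map_mul, map_one]
    calc v.valuation F 4 * v.valuation F τ ≤ v.valuation F 4 * 1 := mul_le_mul_right hτ _
      _ < 1 := by rw [mul_one]; exact val_four_lt h
  rw [Valuation.map_sub_eq_of_lt_left _ h1, map_one]

theorem one_sub_ne {v : HeightOneSpectrum (𝓞 F)} (h : (2 : 𝓞 F) ∈ v.asIdeal) {τ : F}
    (hτ : v.valuation F τ ≤ 1) : 1 - 4 * τ ≠ 0 := by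
  intro h0
  have h1 := val_one_sub h hτ
  rw [h0, map_zero] at h1
  exact zero_ne_one h1

theorem symb_one_sub {v : HeightOneSpectrum (𝓞 F)} (h : (2 : 𝓞 F) ∈ v.asIdeal) {τ : F}
    (hτ : v.valuation F τ ≤ 1) : symb (1 - 4 * τ) v =
      if ∃ x : F, v.valuation F (x ^ 2 - (1 - 4 * τ)) < v.valuation F 4 then 1 else -1 := by
  rw [symb, val_one_sub h hτ, if_pos ⟨1, (mul_one 1).symm⟩, map_mul (v.valuation F) 4,
    val_one_sub h hτ, mul_one]

theorem symb_congr_even {v : HeightOneSpectrum (𝓞 F)} (h : (2 : 𝓞 F) ∈ v.asIdeal) {τ τ' : F}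
    (hτ : v.valuation F τ ≤ 1) (hτ' : v.valuation F τ' ≤ 1) (hd : v.valuation F (τ - τ') < 1) :
    symb (1 - 4 * τ) v = symb (1 - 4 * τ') v := by
  have h4 : v.valuation F (4 * (τ - τ')) < v.valuation F 4 := by
    rw [map_mul]
    calc v.valuation F 4 * v.valuation F (τ - τ') < v.valuation F 4 * 1 :=
          mul_lt_mul_of_pos_left hd (val_four_pos v)
      _ = _ := mul_one _
  rw [symb_one_sub h hτ, symb_one_sub h hτ']
  congr 1
  apply propext
  constructor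
  · rintro ⟨x, hx⟩
    refine ⟨x, ?_⟩
    have e : x ^ 2 - (1 - 4 * τ') = (x ^ 2 - (1 - 4 * τ)) - 4 * (τ - τ') := by ring
    rw [e]
    exact (Valuation.map_sub _ _ _).trans_lt (max_lt hx h4)
  · rintro ⟨x, hx⟩
    refine ⟨x, ?_⟩
    have e : x ^ 2 - (1 - 4 * τ) = (x ^ 2 - (1 - 4 * τ')) + 4 * (τ - τ') := by ring
    rw [e]
    exact (Valuation.map_add _ _ _).trans_lt (max_lt hx h4)

theorem AdG.at {v : HeightOneSpectrum (𝓞 F)} (h : (2 : 𝓞 F) ∈ v.asIdeal) {x : F} (hx : AdG x) :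
    ∃ (c : 𝓞 F) (u : F), u ≠ 0 ∧ ev v x ∧ symb x v = symb ((1 - 4 * c : 𝓞 F) : F) v ∧
      ∃ τ : F, x * u ^ 2 = 1 - 4 * τ ∧ v.valuation F τ ≤ 1 ∧ v.valuation F (τ - c) < 1 := by
  obtain ⟨u, τ, hu, h1, h2⟩ := hx
  have h3 := h2 v h
  obtain ⟨c, hc⟩ := approx_int τ v h3
  have hx0 : x ≠ 0 := by
    rintro rfl
    rw [zero_mul] at h1
    exact one_sub_ne h h3 h1.symm
  refine ⟨c, u, hu, ?_, ?_, τ, h1, h3, hc⟩
  · rw [← ev_mul_sq v hx0 hu, h1, ev, od, val_one_sub h h3]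
    exact ⟨0, rfl⟩
  · rw [← symb_mul_sq x u hu v, h1]
    have e : ((1 - 4 * c : 𝓞 F) : F) = 1 - 4 * (c : F) := by
      change algebraMap (𝓞 F) F (1 - 4 * c) = _
      rw [map_sub, map_mul, map_one, map_ofNat]
    rw [e]
    exact symb_congr_even h h3 (val_int v c) hc

theorem AdG.ne_zero {x : F} (hx : AdG x) : x ≠ 0 := by
  obtain ⟨v, hv⟩ := exists_even (F := F)
  obtain ⟨u, τ, hu, h1, h2⟩ := hx
  rintro rfl
  rw [zero_mul] at h1
  exact one_sub_ne hv (h2 v hv) h1.symm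

/-- **Multiplicativity.** -/
theorem symb_mulF {x y : F} (hx : x ≠ 0) (hy : y ≠ 0) (ex : ev v x) (ey : ev v y)
    (h : (2 : 𝓞 F) ∉ v.asIdeal ∨ (AdG x ∧ AdG y)) : symb (x * y) v = symb x v * symb y v := by
  by_cases h2 : (2 : 𝓞 F) ∈ v.asIdeal
  · obtain ⟨ax, ay⟩ := h.resolve_left (fun h => h h2)
    obtain ⟨c, u, hu, -, e1, τ, t1, t2, t3⟩ := ax.at h2
    obtain ⟨c', u', hu', -, e1', τ', t1', t2', t3'⟩ := ay.at h2
    have key : symb (x * y) v = symb (((1 - 4 * c) * (1 - 4 * c') : 𝓞 F) : F) v := by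
      rw [← symb_mul_sq (x * y) (u * u') (mul_ne_zero hu hu') v]
      have e2 : x * y * (u * u') ^ 2 = 1 - 4 * (τ + τ' - 4 * (τ * τ')) := by
        calc x * y * (u * u') ^ 2 = (x * u ^ 2) * (y * u' ^ 2) := by ring
          _ = (1 - 4 * τ) * (1 - 4 * τ') := by rw [t1, t1']
          _ = _ := by ring
      have e3 : (((1 - 4 * c) * (1 - 4 * c') : 𝓞 F) : F) =
          1 - 4 * ((c : F) + c' - 4 * ((c : F) * c')) := by
        change algebraMap (𝓞 F) F ((1 - 4 * c) * (1 - 4 * c')) = _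
        rw [map_mul, map_sub, map_mul, map_one, map_ofNat, map_sub, map_mul, map_one, map_ofNat]
        change (1 - 4 * (c : F)) * (1 - 4 * (c' : F)) = _
        ring
      rw [e2, e3]
      have hc := val_int v c
      have hc' := val_int v c'
      have h4 := val_four_le v
      refine symb_congr_even h2 ?_ ?_ ?_
      · refine (Valuation.map_sub _ _ _).trans (max_le ((Valuation.map_add _ _ _).trans
          (max_le t2 t2')) ?_)
        rw [map_mul, map_mul]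
        exact mul_le_one' h4 (mul_le_one' t2 t2')
      · refine (Valuation.map_sub _ _ _).trans (max_le ((Valuation.map_add _ _ _).trans
          (max_le hc hc')) ?_)
        rw [map_mul, map_mul]
        exact mul_le_one' h4 (mul_le_one' hc hc')
      · have e4 : τ + τ' - 4 * (τ * τ') - ((c : F) + c' - 4 * ((c : F) * c')) =
            (τ - c) * (1 - 4 * τ') + (τ' - c') * (1 - 4 * c) := by ring
        rw [e4]
        refine (Valuation.map_add _ _ _).trans_lt (max_lt ?_ ?_)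
        · rw [map_mul, val_one_sub h2 t2', mul_one]
          exact t3
        · rw [map_mul, val_one_sub h2 hc, mul_one]
          exact t3'
    have hadm : ∀ c : 𝓞 F, Adm (1 - 4 * c) := fun c => ⟨1, c, one_ne_zero, by ring⟩
    rw [key, e1, e1']
    exact symb_mul _ _ v (one_sub_not_mem h2) (one_sub_not_mem h2) (fun _ => ⟨hadm c, hadm c'⟩)
  · obtain ⟨a, s, ha, hs, h1⟩ := unit_rep v hx ex
    obtain ⟨b, t, hb, ht, h3⟩ := unit_rep v hy ey
    rw [← symb_mul_sq x s hs v, ← symb_mul_sq y t ht v, h1, h3,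
      ← symb_mul a b v ha hb (fun h => absurd h h2),
      ← symb_mul_sq (x * y) (s * t) (mul_ne_zero hs ht) v]
    have e : x * y * (s * t) ^ 2 = ((a * b : 𝓞 F) : F) := by
      calc x * y * (s * t) ^ 2 = (x * s ^ 2) * (y * t ^ 2) := by ring
        _ = (a : F) * (b : F) := by rw [h1, h3]
        _ = _ := rfl
    rw [e]

theorem symb_sqF {x : F} (hx : x ≠ 0) : symb (x ^ 2) v = 1 := by
  have h := symb_mul_sq (1 : F) x hx v
  rw [one_mul] at h
  rw [h]
  have h1 : v.valuation F ((1 : F) ^ 2 - 1) < v.valuation F (4 * 1) := by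
    rw [one_pow, sub_self, map_zero, mul_one]
    exact val_four_pos v
  exact (symb_eq_one_of v one_ne_zero 1 h1).1

end

end TWR
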