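import Pool.Agent.MP_9ab903_nt.TWR.PF2

set_option autoImplicit false

open NumberField IsDedekindDomain
open CM27 CMT NAB
open scoped Classical

namespace TWR

/-! ## [TWR-PF3] the tame symbol (file TWR/PF3.lean) -/

section
variable {F : Type} [Field F] [NumberField F] (v : HeightOneSpectrum (𝓞 F))

/-- the tame symbol at an odd place, the unramified symbol at an even place (`x` admissible) -/
noncomputable def T (x y : F) : ℤ :=
  if ev v x then (if ev v y then 1 else symb x v)
  else (if ev v y then symb y v else symb (-(x * y)) v)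

theorem T_comm (x y : F) : T v x y = T v y x := by
  unfold T
  by_cases h1 : ev v x <;> by_cases h2 : ev v y <;> simp only [h1, h2, if_true, if_false]
  rw [mul_comm]

theorem T_ev_ev {x y : F} (hx : ev v x) (hy : ev v y) : T v x y = 1 := by
  rw [T, if_pos hx, if_pos hy]

theorem T_ev {x y : F} (hx : ev v x) (hy : ¬ ev v y) : T v x y = symb x v := by
  rw [T, if_pos hx, if_neg hy]

theorem T_odd_ev {x y : F} (hx : ¬ ev v x) (hy : ev v y) : T v x y = symb y v := by
  rw [T, if_neg hx, if_pos hy]

theorem T_odd_odd {x y : F} (hx : ¬ ev v x) (hy : ¬ ev v y) : T v x y = symb (-(x * y)) v := by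
  rw [T, if_neg hx, if_neg hy]

theorem T_mul_right {x y z : F} (hx : x ≠ 0) (hy : y ≠ 0) (hz : z ≠ 0)
    (h : (2 : 𝓞 F) ∉ v.asIdeal ∨ AdG x) : T v x (y * z) = T v x y * T v x z := by
  have hyz : ev v (y * z) ↔ (ev v y ↔ ev v z) := ev_mul v hy hz
  by_cases ex : ev v x
  · by_cases ey : ev v y <;> by_cases ez : ev v z
    · have : ev v (y * z) := by tauto
      rw [T_ev_ev v ex this, T_ev_ev v ex ey, T_ev_ev v ex ez, one_mul]
    · have : ¬ ev v (y * z) := by tauto
      rw [T_ev v ex this, T_ev_ev v ex ey, T_ev v ex ez, one_mul]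
    · have : ¬ ev v (y * z) := by tauto
      rw [T_ev v ex this, T_ev v ex ey, T_ev_ev v ex ez, mul_one]
    · have : ev v (y * z) := by tauto
      rw [T_ev_ev v ex this, T_ev v ex ey, T_ev v ex ez, symb_self v hx ex]
  · have h2 : (2 : 𝓞 F) ∉ v.asIdeal := by
      rcases h with h | h
      · exact h
      · intro h2
        obtain ⟨-, -, -, h3, -⟩ := h.at h2
        exact ex h3
    have hxy : ∀ {a b : F}, a ≠ 0 → b ≠ 0 → ev v a → ev v b → symb (a * b) v = symb a v * symb b v :=
      fun ha hb ea eb => symb_mulF v ha hb ea eb (Or.inl h2)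
    by_cases ey : ev v y <;> by_cases ez : ev v z
    · have : ev v (y * z) := by tauto
      rw [T_odd_ev v ex this, T_odd_ev v ex ey, T_odd_ev v ex ez, hxy hy hz ey ez]
    · have h3 : ¬ ev v (y * z) := by tauto
      rw [T_odd_odd v ex h3, T_odd_ev v ex ey, T_odd_odd v ex ez]
      have e1 : -(x * (y * z)) = y * -(x * z) := by ring
      have e2 : ev v (-(x * z)) := by
        rw [ev_neg, ev_mul v hx hz]
        tauto
      rw [e1, hxy hy (neg_ne_zero.2 (mul_ne_zero hx hz)) ey e2]
    · have h3 : ¬ ev v (y * z) := by tauto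
      rw [T_odd_odd v ex h3, T_odd_odd v ex ey, T_odd_ev v ex ez]
      have e1 : -(x * (y * z)) = -(x * y) * z := by ring
      have e2 : ev v (-(x * y)) := by
        rw [ev_neg, ev_mul v hx hy]
        tauto
      rw [e1, hxy (neg_ne_zero.2 (mul_ne_zero hx hy)) hz e2 ez]
    · have h3 : ev v (y * z) := by tauto
      rw [T_odd_ev v ex h3, T_odd_odd v ex ey, T_odd_odd v ex ez]
      have e2 : ev v (-(x * y)) := by
        rw [ev_neg, ev_mul v hx hy]
        tauto
      have e3 : ev v (-(x * z)) := by
        rw [ev_neg, ev_mul v hx hz]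
        tauto
      rw [← hxy (neg_ne_zero.2 (mul_ne_zero hx hy)) (neg_ne_zero.2 (mul_ne_zero hx hz)) e2 e3]
      have e1 : -(x * y) * -(x * z) = (y * z) * x ^ 2 := by ring
      rw [e1, symb_mul_sq _ _ hx]

theorem T_mul_left {x x' y : F} (hx : x ≠ 0) (hx' : x' ≠ 0) (hy : y ≠ 0)
    (h : (2 : 𝓞 F) ∉ v.asIdeal ∨ (AdG x ∧ AdG x')) : T v (x * x') y = T v x y * T v x' y := by
  by_cases h2 : (2 : 𝓞 F) ∈ v.asIdeal
  · obtain ⟨ax, ax'⟩ := h.resolve_left (fun h => h h2)
    obtain ⟨-, -, -, ex, -⟩ := ax.at h2
    obtain ⟨-, -, -, ex', -⟩ := ax'.at h2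
    have exx : ev v (x * x') := by
      rw [ev_mul v hx hx']
      tauto
    by_cases ey : ev v y
    · rw [T_ev_ev v exx ey, T_ev_ev v ex ey, T_ev_ev v ex' ey, one_mul]
    · rw [T_ev v exx ey, T_ev v ex ey, T_ev v ex' ey, symb_mulF v hx hx' ex ex' (Or.inr ⟨ax, ax'⟩)]
  · rw [T_comm v, T_comm v x, T_comm v x', T_mul_right v hy hx hx' (Or.inl h2)]

theorem T_mul_sq_right {x y s : F} (hy : y ≠ 0) (hs : s ≠ 0) :
    T v x (y * s ^ 2) = T v x y := by
  have h1 := ev_mul_sq v hy hs
  have h2 := symb_mul_sq y s hs v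
  have h3 : symb (-(x * (y * s ^ 2))) v = symb (-(x * y)) v := by
    rw [← symb_mul_sq (-(x * y)) s hs v]
    congr 1
    ring
  unfold T
  simp only [h1, h2, h3]

theorem T_mul_sq_left {x y s : F} (hx : x ≠ 0) (hs : s ≠ 0) :
    T v (x * s ^ 2) y = T v x y := by
  rw [T_comm v, T_mul_sq_right v hx hs, T_comm v]

theorem T_pm {x y : F} (hx : x ≠ 0) (hy : y ≠ 0) : T v x y = 1 ∨ T v x y = -1 := by
  by_cases ex : ev v x <;> by_cases ey : ev v y
  · exact Or.inl (T_ev_ev v ex ey)
  · rw [T_ev v ex ey]
    exact symb_pm v hx ex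
  · rw [T_odd_ev v ex ey]
    exact symb_pm v hy ey
  · rw [T_odd_odd v ex ey]
    refine symb_pm v (neg_ne_zero.2 (mul_ne_zero hx hy)) ?_
    rw [ev_neg, ev_mul v hx hy]
    tauto

theorem T_self {x y : F} (hx : x ≠ 0) (hy : y ≠ 0) : T v x y * T v x y = 1 := by
  rcases T_pm v hx hy with h | h <;> rw [h] <;> norm_num

theorem T_neg_self {x : F} (hx : x ≠ 0) : T v x (-x) = 1 := by
  by_cases ex : ev v x
  · exact T_ev_ev v ex ((ev_neg v x).2 ex)
  · rw [T_odd_odd v ex (fun h => ex ((ev_neg v x).1 h))]
    have e1 : -(x * -x) = x ^ 2 := by ring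
    rw [e1, symb_sqF v hx]

/-- **Steinberg relation.** -/
theorem T_steinberg {a b c : F} (ha : a ≠ 0) (hb : b ≠ 0) (hc : c ≠ 0) (habc : a + b = c)
    (h : (2 : 𝓞 F) ∉ v.asIdeal ∨ AdG (a * c)) : T v (a * c) (b * c) = 1 := by
  by_cases h2 : (2 : 𝓞 F) ∈ v.asIdeal
  · -- even place
    have had := h.resolve_left (fun h => h h2)
    obtain ⟨-, -, -, eac, -⟩ := had.at h2
    obtain ⟨u, τ, hu, h3, h4⟩ := had
    have hτ := h4 v h2
    by_cases ebc : ev v (b * c)
    · exact T_ev_ev v eac ebc
    · rw [T_ev v eac ebc, ← symb_mul_sq (a * c) u hu v, h3, symb_one_sub h2 hτ]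
      rw [if_pos]
      -- `X = a / c`, `X S² = 1 - 4 τ`, `S = u c`
      set S : F := u * c with hS
      have hS0 : S ≠ 0 := mul_ne_zero hu hc
      refine ⟨S, ?_⟩
      by_contra hcon
      push Not at hcon
      apply ebc
      -- `b c = ... `
      have e1 : b * c * u ^ 2 = S ^ 2 - (1 - 4 * τ) := by
        rw [← h3, hS, ← habc]
        ring
      rw [← ev_mul_sq v (mul_ne_zero hb hc) hu, e1]
      have hne : S ^ 2 - (1 - 4 * τ) ≠ 0 := by
        rw [← e1]
        exact mul_ne_zero (mul_ne_zero hb hc) (pow_ne_zero 2 hu)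
      rcases hcon.eq_or_lt with h5 | h5
      · rw [← isSquare_val v hne, ← h5, val_four]
        exact ⟨_, pow_two _⟩
      · have h6 : v.valuation F (4 * τ) < v.valuation F (S ^ 2 - (1 - 4 * τ)) := by
          rw [map_mul]
          calc v.valuation F 4 * v.valuation F τ ≤ v.valuation F 4 * 1 := mul_le_mul_right hτ _
            _ = v.valuation F 4 := mul_one _
            _ < _ := h5
        have h7 : v.valuation F (S ^ 2 - (1 - 4 * τ)) = v.valuation F (S ^ 2 - 1) := by
          have e2 : S ^ 2 - 1 = (S ^ 2 - (1 - 4 * τ)) - 4 * τ := by ring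
          rw [e2, Valuation.map_sub_eq_of_lt_left _ h6]
        have hne1 : S ^ 2 - 1 ≠ 0 := by
          rw [← Valuation.ne_zero_iff (v.valuation F), ← h7]
          exact val_ne v hne
        rw [ev_of_val_eq v h7]
        have e3 : S ^ 2 - 1 = (S - 1) * (S + 1) := by ring
        have hm : S - 1 ≠ 0 := fun h0 => hne1 (by rw [e3, h0, zero_mul])
        have hp : S + 1 ≠ 0 := fun h0 => hne1 (by rw [e3, h0, mul_zero])
        rw [e3, ev_mul v hm hp]
        by_cases h8 : v.valuation F 2 < v.valuation F (S - 1)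
        · have h9 : v.valuation F (S + 1) = v.valuation F (S - 1) := by
            have e4 : S + 1 = (S - 1) + 2 := by ring
            rw [e4, Valuation.map_add_eq_of_lt_left _ h8]
          rw [ev_of_val_eq v h9]
        · exfalso
          push Not at h8
          have h9 : v.valuation F (S + 1) ≤ v.valuation F 2 := by
            have e4 : S + 1 = (S - 1) + 2 := by ring
            rw [e4]
            exact (Valuation.map_add _ _ _).trans (max_le h8 le_rfl)
          have h10 : v.valuation F (S ^ 2 - 1) ≤ v.valuation F 4 := by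
            rw [e3, map_mul, val_four, pow_two]
            exact mul_le_mul' h8 h9
          rw [h7] at h5
          exact absurd h10 (not_le.2 h5)
  · -- odd place
    have h4 : v.valuation F (4 : F) = 1 := val_four_one h2
    have near : ∀ {x y : F}, x ≠ 0 → y ≠ 0 → v.valuation F (y - x) < v.valuation F x →
        symb (x * y) v = 1 ∧ ev v (x * y) := by
      intro x y hx hy hxy
      refine symb_eq_one_of v (mul_ne_zero hx hy) x ?_
      have hyx : v.valuation F y = v.valuation F x := by
        have e : y = x + (y - x) := by ring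
        rw [e]
        exact Valuation.map_add_eq_of_lt_left _ hxy
      have e : x ^ 2 - x * y = -(x * (y - x)) := by ring
      rw [e, Valuation.map_neg, map_mul, map_mul, map_mul, h4, one_mul, hyx]
      exact mul_lt_mul_of_pos_left hxy (zero_lt_iff.2 (val_ne v hx))
    have hac0 := mul_ne_zero ha hc
    have hbc0 := mul_ne_zero hb hc
    rcases lt_trichotomy (v.valuation F a) (v.valuation F b) with h5 | h5 | h5
    · obtain ⟨h6, h7⟩ := near hb hc (by
        have e : c - b = a := by rw [← habc]; ring
        rw [e]; exact h5)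
      by_cases h8 : ev v (a * c)
      · exact T_ev_ev v h8 h7
      · rw [T_odd_ev v h8 h7, h6]
    · -- equal valuations
      by_cases h6 : v.valuation F c < v.valuation F a
      · have h7 : ev v (a * c) ↔ ev v (b * c) := by
          apply ev_of_val_eq
          rw [map_mul, map_mul, h5]
        by_cases h8 : ev v (a * c)
        · exact T_ev_ev v h8 (h7.1 h8)
        · rw [T_odd_odd v h8 (fun h => h8 (h7.2 h))]
          have e1 : -(a * c * (b * c)) = (a * (-b)) * c ^ 2 := by ring
          rw [e1, symb_mul_sq _ _ hc]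
          have e2 : v.valuation F (-b - a) < v.valuation F a := by
            have e3 : -b - a = -c := by rw [← habc]; ring
            rw [e3, Valuation.map_neg]
            exact h6
          exact (near ha (neg_ne_zero.2 hb) e2).1
      · have h7 : v.valuation F c = v.valuation F a := by
          apply le_antisymm _ (not_lt.1 h6)
          rw [← habc]
          exact (Valuation.map_add _ _ _).trans (max_le le_rfl h5.ge)
        have e1 : ev v (a * c) := by
          have : v.valuation F (a * c) = v.valuation F (a ^ 2) := by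
            rw [map_mul, h7, map_pow, pow_two]
          rw [ev_of_val_eq v this]
          exact ev_sq v ha
        have e2 : ev v (b * c) := by
          have : v.valuation F (b * c) = v.valuation F (a ^ 2) := by
            rw [map_mul, h7, ← h5, map_pow, pow_two]
          rw [ev_of_val_eq v this]
          exact ev_sq v ha
        exact T_ev_ev v e1 e2
    · obtain ⟨h6, h7⟩ := near ha hc (by
        have e : c - a = b := by rw [← habc]; ring
        rw [e]; exact h5)
      by_cases h8 : ev v (b * c)
      · exact T_ev_ev v h7 h8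
      · rw [T_ev v h7 h8, h6]

end

end TWR
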