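import Pool.Agent.MP_9ab903_nt.TWR.PF3

set_option autoImplicit false

open NumberField IsDedekindDomain
open CM27 CMT NAB
open scoped Classical

namespace TWR

/-! ## [TWR-PF4] the product of the symbols (file TWR/PF4.lean) -/

section
variable {F : Type} [Field F] [NumberField F]

/-- the product of the symbols -/
noncomputable def HH (x y : F) : ℤ := ∏ᶠ v : HeightOneSpectrum (𝓞 F), T v x y

theorem val_support {x : F} (hx : x ≠ 0) :
    {v : HeightOneSpectrum (𝓞 F) | v.valuation F x ≠ 1}.Finite := by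
  have h1 := HeightOneSpectrum.Support.finite (𝓞 F) x
  have h2 := HeightOneSpectrum.Support.finite (𝓞 F) x⁻¹
  refine (h1.union h2).subset fun v hv => ?_
  rcases lt_or_gt_of_ne hv with h3 | h3
  · right
    change 1 < v.valuation F x⁻¹
    rw [map_inv₀]
    exact (one_lt_inv₀ (zero_lt_iff.2 (val_ne v hx))).2 h3
  · left
    exact h3

theorem T_units {v : HeightOneSpectrum (𝓞 F)} {x y : F} (hx : v.valuation F x = 1)
    (hy : v.valuation F y = 1) : T v x y = 1 := by
  apply T_ev_ev
  · rw [ev, od, hx]; exact ⟨0, rfl⟩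
  · rw [ev, od, hy]; exact ⟨0, rfl⟩

/-- a finite set outside which `x` and `y` are units -/
theorem T_support {x y : F} (hx : x ≠ 0) (hy : y ≠ 0) :
    (Function.mulSupport fun v : HeightOneSpectrum (𝓞 F) => T v x y).Finite := by
  refine ((val_support hx).union (val_support hy)).subset fun v hv => ?_
  by_contra hcon
  rw [Set.mem_union, not_or] at hcon
  apply hv
  exact T_units (not_not.1 hcon.1) (not_not.1 hcon.2)

theorem HH_mul_right {x y z : F} (hx : AdG x) (hy : y ≠ 0) (hz : z ≠ 0) :
    HH x (y * z) = HH x y * HH x z := by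
  rw [HH, HH, HH, ← finprod_mul_distrib (T_support hx.ne_zero hy) (T_support hx.ne_zero hz)]
  exact finprod_congr fun v => T_mul_right v hx.ne_zero hy hz (Or.inr hx)

theorem HH_mul_left {x x' y : F} (hx : AdG x) (hx' : AdG x') (hy : y ≠ 0) :
    HH (x * x') y = HH x y * HH x' y := by
  rw [HH, HH, HH, ← finprod_mul_distrib (T_support hx.ne_zero hy) (T_support hx'.ne_zero hy)]
  exact finprod_congr fun v => T_mul_left v hx.ne_zero hx'.ne_zero hy (Or.inr ⟨hx, hx'⟩)

theorem HH_comm (x y : F) : HH x y = HH y x := finprod_congr fun v => T_comm v x y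

theorem HH_sq_right {x y s : F} (hy : y ≠ 0) (hs : s ≠ 0) : HH x (y * s ^ 2) = HH x y :=
  finprod_congr fun v => T_mul_sq_right v hy hs

theorem HH_sq_left {x y s : F} (hx : x ≠ 0) (hs : s ≠ 0) : HH (x * s ^ 2) y = HH x y :=
  finprod_congr fun v => T_mul_sq_left v hx hs

theorem HH_neg_self {x : F} (hx : x ≠ 0) : HH x (-x) = 1 := by
  rw [HH]
  exact finprod_eq_one_of_forall_eq_one fun v => T_neg_self v hx

theorem HH_steinberg {a b c : F} (ha : a ≠ 0) (hb : b ≠ 0) (hc : c ≠ 0) (habc : a + b = c)
    (h : AdG (a * c)) : HH (a * c) (b * c) = 1 := by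
  rw [HH]
  exact finprod_eq_one_of_forall_eq_one fun v => T_steinberg v ha hb hc habc (Or.inr h)

theorem HH_pm {x y : F} (hx : x ≠ 0) (hy : y ≠ 0) : HH x y = 1 ∨ HH x y = -1 := by
  rw [HH, finprod_eq_prod _ (T_support hx hy)]
  generalize (T_support hx hy).toFinset = s
  induction s using Finset.induction_on with
  | empty => left; rfl
  | insert v s hv ih =>
    rw [Finset.prod_insert hv]
    rcases T_pm v hx hy with h | h <;> rcases ih with h' | h' <;> rw [h, h'] <;> norm_num

theorem HH_self {x y : F} (hx : x ≠ 0) (hy : y ≠ 0) : HH x y * HH x y = 1 := by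
  rcases HH_pm hx hy with h | h <;> rw [h] <;> norm_num

/-- **The product formula.** -/
def PF (F : Type) [Field F] [NumberField F] (P : F → Prop) : Prop :=
  ∀ x y : F, AdG x → y ≠ 0 → (P x ∨ P y) → HH x y = 1

end

end TWR
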