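import Pool.Agent.MP_9ab903_nt.TWR.PF4

set_option autoImplicit false

open NumberField IsDedekindDomain
open CM27 CMT NAB
open scoped Classical

namespace TWR

/-! ## [TWR-PF5] valuations in quadratic extensions (file TWR/PF5.lean) -/

section
variable {k F : Type} [Field k] [NumberField k] [Field F] [NumberField F] [Algebra k F]
  (S : Sig k F)

/-- the conjugation on `F` -/
noncomputable def sF : F ≃+* F := IsFractionRing.ringEquivOfRingEquiv (K := F) (L := F) S.sg

theorem sF_coe (β : 𝓞 F) : sF S (β : F) = ((S.sg β : 𝓞 F) : F) :=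
  IsFractionRing.ringEquivOfRingEquiv_algebraMap (K := F) (L := F) S.sg β

theorem exists_div (x : F) : ∃ a b : 𝓞 F, b ≠ 0 ∧ x = (a : F) / b := by
  obtain ⟨a, b, hb, hab⟩ := IsFractionRing.div_surjective (A := 𝓞 F) x
  exact ⟨a, b, nonZeroDivisors.ne_zero hb, hab.symm⟩

theorem io_coe (x : 𝓞 k) : ((io k F x : 𝓞 F) : F) = algebraMap k F (x : k) := rfl

theorem sF_map (x : k) : sF S (algebraMap k F x) = algebraMap k F x := by
  obtain ⟨a, b, hb, rfl⟩ := exists_div x
  rw [map_div₀, ← io_coe, ← io_coe, map_div₀, sF_coe, sF_coe]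
  rw [show S.sg (io k F a) = io k F a from S.fix a, show S.sg (io k F b) = io k F b from S.fix b]

theorem sF_sF (x : F) : sF S (sF S x) = x := by
  obtain ⟨a, b, hb, rfl⟩ := exists_div x
  rw [map_div₀, map_div₀, sF_coe, sF_coe, sF_coe, sF_coe, S.inv, S.inv]

theorem sF_ne {x : F} (hx : x ≠ 0) : sF S x ≠ 0 := (map_ne_zero_iff _ (sF S).injective).2 hx

theorem norm_sF (x : F) : algebraMap k F (Algebra.norm k x) = x * sF S x := by
  have hint : ∀ β : 𝓞 F, algebraMap k F (Algebra.norm k (β : F)) = (β : F) * sF S (β : F) := by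
    intro β
    rw [← coe_Nm, ← io_coe, sF_coe]
    have h := congrArg (fun t : 𝓞 F => (t : F)) (S.norm β)
    exact h
  obtain ⟨a, b, hb, rfl⟩ := exists_div x
  have hbF : (b : F) ≠ 0 := RingOfIntegers.coe_ne_zero_iff.2 hb
  have hsb := sF_ne S hbF
  have h1 : algebraMap k F (Algebra.norm k ((a : F) / b)) * ((b : F) * sF S b) =
      (a : F) * sF S a := by
    rw [← hint b, ← map_mul, ← map_mul (Algebra.norm k), div_mul_cancel₀ _ hbF, hint]
  rw [map_div₀ (sF S), div_mul_div_comm, ← h1, mul_div_cancel_right₀ _ (mul_ne_zero hbF hsb)]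

theorem tr_sF (x : F) : ∃ t : k, algebraMap k F t = x + sF S x := by
  obtain ⟨a, b, hb, rfl⟩ := exists_div x
  obtain ⟨t, ht⟩ := S.tr (a * S.sg b)
  have hbF : (b : F) ≠ 0 := RingOfIntegers.coe_ne_zero_iff.2 hb
  have hsb := sF_ne S hbF
  refine ⟨(t : k) / Algebra.norm k (b : F), ?_⟩
  rw [map_div₀, norm_sF, ← io_coe]
  have h1 : ((io k F t : 𝓞 F) : F) = (a : F) * sF S (b : F) + sF S (a : F) * b := by
    have h2 := congrArg (fun t : 𝓞 F => (t : F)) ht
    have h3 : ((io k F t : 𝓞 F) : F) = ((a * S.sg b + S.sg (a * S.sg b) : 𝓞 F) : F) := h2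
    rw [h3, map_mul S.sg, S.inv, sF_coe, sF_coe]
    rfl
  rw [h1, map_div₀]
  field_simp

/-- the valuation of the conjugate -/
theorem val_sF (w : HeightOneSpectrum (𝓞 F)) (x : F) :
    w.valuation F (sF S x) = (S.sw w).valuation F x := by
  have hpow : ∀ n : ℕ, ∀ β : 𝓞 F, S.sg β ∈ w.asIdeal ^ n ↔ β ∈ (S.sw w).asIdeal ^ n := by
    intro n β
    have e1 : (S.sw w).asIdeal = w.asIdeal.map (S.sg.symm : 𝓞 F ≃+* 𝓞 F) := by
      change w.asIdeal.comap S.sg = _
      exact (Ideal.map_symm S.sg).symm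
    rw [e1, ← Ideal.map_pow, Ideal.map_symm S.sg]
    rfl
  have hint : ∀ β : 𝓞 F, w.intValuation (S.sg β) = (S.sw w).intValuation β := by
    intro β
    by_cases hβ : β = 0
    · rw [hβ, map_zero, map_zero, map_zero]
    · have hβ' : S.sg β ≠ 0 := fun h => hβ ((map_eq_zero_iff S.sg S.sg.injective).1 h)
      obtain ⟨n, hn⟩ : ∃ n : ℕ, w.intValuation (S.sg β) = WithZero.exp (-(n : ℤ)) :=
        ⟨_, HeightOneSpectrum.intValuation_eq_exp_neg_multiplicity w hβ'⟩
      obtain ⟨m, hm⟩ : ∃ m : ℕ, (S.sw w).intValuation β = WithZero.exp (-(m : ℤ)) :=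
        ⟨_, HeightOneSpectrum.intValuation_eq_exp_neg_multiplicity (S.sw w) hβ⟩
      apply le_antisymm
      · rw [hm, HeightOneSpectrum.intValuation_le_pow_iff_mem, hpow,
          ← HeightOneSpectrum.intValuation_le_pow_iff_mem, hm]
      · rw [hn, HeightOneSpectrum.intValuation_le_pow_iff_mem, ← hpow,
          ← HeightOneSpectrum.intValuation_le_pow_iff_mem, hn]
  obtain ⟨a, b, hb, rfl⟩ := exists_div x
  rw [map_div₀, map_div₀, map_div₀, sF_coe, sF_coe, HeightOneSpectrum.valuation_of_algebraMap,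
    HeightOneSpectrum.valuation_of_algebraMap, HeightOneSpectrum.valuation_of_algebraMap,
    HeightOneSpectrum.valuation_of_algebraMap, hint, hint]

theorem ev_sF (w : HeightOneSpectrum (𝓞 F)) (x : F) : ev w (sF S x) ↔ ev (S.sw w) x := by
  rw [ev, ev, od, od, val_sF]

theorem symb_sF (w : HeightOneSpectrum (𝓞 F)) (x : F) : symb (sF S x) w = symb x (S.sw w) := by
  have h1 : (∃ y : F, w.valuation F (y ^ 2 - sF S x) < w.valuation F (4 * sF S x)) ↔
      ∃ y : F, (S.sw w).valuation F (y ^ 2 - x) < (S.sw w).valuation F (4 * x) := by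
    have h4 : w.valuation F (4 * sF S x) = (S.sw w).valuation F (4 * x) := by
      rw [← val_sF, map_mul (sF S), map_ofNat]
    constructor
    · rintro ⟨y, hy⟩
      refine ⟨sF S y, ?_⟩
      rw [← h4, ← val_sF, map_sub, map_pow, sF_sF]
      exact hy
    · rintro ⟨y, hy⟩
      refine ⟨sF S y, ?_⟩
      rw [h4, ← map_pow, ← map_sub, val_sF]
      exact hy
  unfold symb
  rw [val_sF]
  simp only [h1]

theorem T_sF (w : HeightOneSpectrum (𝓞 F)) (x y : F) : T w (sF S x) (sF S y) = T (S.sw w) x y := by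
  have h : sF S (-(x * y)) = -(sF S x * sF S y) := by rw [map_neg, map_mul]
  unfold T
  simp only [ev_sF, symb_sF, ← h]

variable [Algebra.IsQuadraticExtension k F]

/-- the three kinds of primes -/
theorem kinds (w : HeightOneSpectrum (𝓞 F)) :
    (S.sw w ≠ w ∧ Nat.card (𝓞 F ⧸ w.asIdeal) = Nat.card (𝓞 k ⧸ (und k w).asIdeal) ∧
      ∀ x : k, w.valuation F (algebraMap k F x) = (und k w).valuation k x) ∨
    (S.sw w = w ∧ Nat.card (𝓞 F ⧸ w.asIdeal) = Nat.card (𝓞 k ⧸ (und k w).asIdeal) ∧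
      Ideal.map (algebraMap (𝓞 k) (𝓞 F)) (und k w).asIdeal = w.asIdeal ^ 2 ∧
      ∀ x : k, w.valuation F (algebraMap k F x) = (und k w).valuation k x ^ 2) ∨
    (S.sw w = w ∧ Nat.card (𝓞 F ⧸ w.asIdeal) = Nat.card (𝓞 k ⧸ (und k w).asIdeal) ^ 2 ∧
      Ideal.map (algebraMap (𝓞 k) (𝓞 F)) (und k w).asIdeal = w.asIdeal ∧
      ∀ x : k, w.valuation F (algebraMap k F x) = (und k w).valuation k x) := by
  haveI : w.asIdeal.LiesOver (und k w).asIdeal := ⟨rfl⟩
  have hval := fun x : k => HeightOneSpectrum.valuation_liesOver F (und k w) w x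
  have hw0 : w.asIdeal ≠ 0 := w.ne_bot
  have hstrict : ∀ n : ℕ, ¬ w.asIdeal ^ n ≤ w.asIdeal ^ (n + 1) := by
    intro n h
    have h1 := Ideal.dvd_iff_le.2 h
    have h2 := (pow_dvd_pow_iff hw0 w.prime.not_unit).1 h1
    omega
  rcases prime_data S w with ⟨h1, -, h3⟩ | ⟨h1, -, h3⟩
  · by_cases hsw : S.sw w = w
    · right; left
      have h4 : Ideal.map (algebraMap (𝓞 k) (𝓞 F)) (und k w).asIdeal = w.asIdeal ^ 2 := by
        rw [h3, hsw, pow_two]
      have he : (und k w).asIdeal.ramificationIdx' w.asIdeal = 2 :=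
        Ideal.ramificationIdx'_spec h4.le (by rw [h4]; exact hstrict 2)
      refine ⟨hsw, h1, h4, fun x => ?_⟩
      rw [← hval x, he]
    · left
      have he : (und k w).asIdeal.ramificationIdx' w.asIdeal = 1 := by
        refine Ideal.ramificationIdx'_spec ?_ ?_
        · rw [h3, pow_one]
          exact Ideal.mul_le_left
        · rw [h3]
          intro h5
          have h6 := Ideal.dvd_iff_le.2 h5
          rw [pow_succ, pow_one] at h6
          have h7 := (mul_dvd_mul_iff_left hw0).1 h6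
          have h8 : (S.sw w).asIdeal ≤ w.asIdeal := Ideal.dvd_iff_le.1 h7
          exact hsw (HeightOneSpectrum.ext ((S.sw w).isMaximal.eq_of_le w.isPrime.ne_top h8))
      refine ⟨hsw, h1, fun x => ?_⟩
      rw [← hval x, he, pow_one]
  · right; right
    have he : (und k w).asIdeal.ramificationIdx' w.asIdeal = 1 := by
      refine Ideal.ramificationIdx'_spec ?_ ?_
      · rw [h3, pow_one]
      · rw [h3]
        have := hstrict 1
        rwa [pow_one] at this
    have hsw : S.sw w = w := by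
      apply HeightOneSpectrum.ext
      have h5 : w.asIdeal ≤ (S.sw w).asIdeal := by
        conv_lhs => rw [← h3, ← S.und_sw w]
        exact Ideal.map_comap_le
      exact (w.isMaximal.eq_of_le (S.sw w).isPrime.ne_top h5).symm
    refine ⟨hsw, h1, h3, fun x => ?_⟩
    rw [← hval x, he, pow_one]

end

end TWR
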