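import Pool.Agent.MP_9ab903_nt.TWR.PF5

set_option autoImplicit false

open NumberField IsDedekindDomain
open CM27 CMT NAB
open scoped Classical

namespace TWR

/-! ## [TWR-PF6] the symbol and the norm (file TWR/PF6.lean) -/

section
variable {k F : Type} [Field k] [NumberField k] [Field F] [NumberField F] [Algebra k F]
  (S : Sig k F) (w : HeightOneSpectrum (𝓞 F))

theorem alg_ne {x : k} (hx : x ≠ 0) : algebraMap k F x ≠ 0 :=
  (map_ne_zero_iff _ (algebraMap k F).injective).2 hx

theorem norm_neF {x : F} (hx : x ≠ 0) : Algebra.norm k x ≠ 0 := by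
  haveI : FiniteDimensional k F := Module.Finite.of_restrictScalars_finite ℚ k F
  rwa [Ne, Algebra.norm_eq_zero_iff]

theorem one_sub_coe (c : 𝓞 F) : ((1 - 4 * c : 𝓞 F) : F) = 1 - 4 * (c : F) := by
  change algebraMap (𝓞 F) F (1 - 4 * c) = _
  rw [map_sub, map_mul, map_one, map_ofNat]

theorem adm_one_sub (c : 𝓞 F) : Adm (1 - 4 * c) := ⟨1, c, one_ne_zero, by ring⟩

/-- the valuation above is a power of the valuation below -/
theorem val_alg_pow : ∃ e : ℕ, e ≠ 0 ∧ ∀ x : k,
    w.valuation F (algebraMap k F x) = (und k w).valuation k x ^ e := by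
  haveI : w.asIdeal.LiesOver (und k w).asIdeal := ⟨rfl⟩
  have hval := fun x : k => HeightOneSpectrum.valuation_liesOver F (und k w) w x
  exact ⟨_, Ideal.IsDedekindDomain.ramificationIdx'_ne_zero_of_liesOver w.asIdeal (und k w).ne_bot,
    fun x => (hval x).symm⟩

theorem val_alg_le {x : k} : w.valuation F (algebraMap k F x) ≤ 1 ↔ (und k w).valuation k x ≤ 1 := by
  obtain ⟨e, he, h⟩ := val_alg_pow (k := k) w
  rw [h]
  exact pow_le_one_iff he

theorem val_alg_lt {x : k} : w.valuation F (algebraMap k F x) < 1 ↔ (und k w).valuation k x < 1 := by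
  obtain ⟨e, he, h⟩ := val_alg_pow (k := k) w
  rw [h]
  exact pow_lt_one_iff he

theorem I2.alg {τ : k} (h : I2 τ) : I2 (algebraMap k F τ) := fun w hw =>
  (val_alg_le w).2 (h (und k w) ((two_und w).2 hw))

theorem I2.of_alg {τ : k} (h : I2 (algebraMap k F τ)) : I2 τ := by
  intro v hv
  obtain ⟨w, rfl⟩ := exists_above (F := F) v
  exact (val_alg_le w).1 (h w ((two_und w).1 hv))

theorem I2.conj {τ : F} (h : I2 τ) : I2 (sF S τ) := by
  intro w hw
  rw [val_sF]
  exact h _ ((S.two_sw w).2 hw)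

theorem AdG.alg {x : k} (h : AdG x) : AdG (algebraMap k F x) := by
  obtain ⟨u, τ, hu, h1, h2⟩ := h
  refine ⟨algebraMap k F u, algebraMap k F τ, alg_ne hu, ?_, h2.alg⟩
  rw [← map_pow, ← map_mul, h1, map_sub, map_mul, map_one, map_ofNat]

theorem AdG.conj {x : F} (h : AdG x) : AdG (sF S x) := by
  obtain ⟨u, τ, hu, h1, h2⟩ := h
  refine ⟨sF S u, sF S τ, sF_ne S hu, ?_, h2.conj S⟩
  rw [← map_pow, ← map_mul, h1, map_sub, map_mul, map_one, map_ofNat]

theorem norm_one_sub (τ : F) (t : k) (ht : algebraMap k F t = τ + sF S τ) :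
    algebraMap k F (Algebra.norm k (1 - 4 * τ)) =
      algebraMap k F (1 - 4 * (t - 4 * Algebra.norm k τ)) := by
  have e1 : sF S (1 - 4 * τ) = 1 - 4 * sF S τ := by
    rw [map_sub, map_mul, map_one, map_ofNat]
  have e2 : algebraMap k F (1 - 4 * (t - 4 * Algebra.norm k τ)) =
      1 - 4 * ((τ + sF S τ) - 4 * (τ * sF S τ)) := by
    rw [map_sub, map_mul, map_sub, map_mul, norm_sF S, ht, map_one, map_ofNat]
  rw [e2, norm_sF S, e1]
  ring

include S in
theorem AdG.norm {x : F} (h : AdG x) : AdG (Algebra.norm k x) := by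
  obtain ⟨u, τ, hu, h1, h2⟩ := h
  obtain ⟨t, ht⟩ := tr_sF S τ
  refine ⟨Algebra.norm k u, t - 4 * Algebra.norm k τ, norm_neF hu, ?_, ?_⟩
  · apply (algebraMap k F).injective
    rw [← map_pow, ← map_mul, h1]
    exact norm_one_sub S τ t ht
  · refine I2.sub ?_ (I2_four.mul ?_)
    · apply I2.of_alg (F := F)
      rw [ht]
      exact h2.add (h2.conj S)
    · apply I2.of_alg (F := F)
      rw [norm_sF S]
      exact h2.mul (h2.conj S)

/-- places of degree one, elements of `k` -/
theorem symb_deg1 (h : Nat.card (𝓞 F ⧸ w.asIdeal) = Nat.card (𝓞 k ⧸ (und k w).asIdeal)) {x : k}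
    (hx : x ≠ 0) (ex : ev (und k w) x) (ha : (2 : 𝓞 F) ∉ w.asIdeal ∨ AdG x) :
    symb (algebraMap k F x) w = symb x (und k w) := by
  by_cases h2 : (2 : 𝓞 F) ∈ w.asIdeal
  · have h2' := (two_und (k := k) w).2 h2
    obtain ⟨c, u, hu, -, e1, τ, t1, t2, t3⟩ := (ha.resolve_left (fun h => h h2)).at h2'
    rw [e1, ← symb_mul_sq (algebraMap k F x) (algebraMap k F u) (alg_ne hu) w, ← map_pow,
      ← map_mul, t1, map_sub, map_mul, map_one, map_ofNat]
    have h3 : symb (1 - 4 * algebraMap k F τ) w = symb (1 - 4 * ((io k F c : 𝓞 F) : F)) w := by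
      refine symb_congr_even h2 ((val_alg_le w).2 t2) (val_int w _) ?_
      rw [io_coe, ← map_sub]
      exact (val_alg_lt w).2 t3
    rw [h3, ← one_sub_coe]
    have h4 := symb_io_one w h (1 - 4 * c) (one_sub_not_mem h2') (fun _ => adm_one_sub c)
    rw [← h4]
    congr 2
    rw [map_sub, map_mul, map_one, map_ofNat]
  · obtain ⟨a, s, ha', hs, h3⟩ := unit_rep (und k w) hx ex
    rw [← symb_mul_sq x s hs, ← symb_mul_sq (algebraMap k F x) (algebraMap k F s) (alg_ne hs) w,
      ← map_pow, ← map_mul, h3, ← io_coe]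
    exact symb_io_one w h a ha' (fun h => absurd h h2)

section inert
variable (hsw : S.sw w = w)
  (hc : Nat.card (𝓞 F ⧸ w.asIdeal) = Nat.card (𝓞 k ⧸ (und k w).asIdeal) ^ 2)
  (hm : Ideal.map (algebraMap (𝓞 k) (𝓞 F)) (und k w).asIdeal = w.asIdeal)
include hsw hc hm

/-- inert places, elements of `F` -/
theorem symb_inert {y : F} (hy : y ≠ 0) (ey : ev w y) (ha : (2 : 𝓞 F) ∉ w.asIdeal ∨ AdG y) :
    symb y w = symb (Algebra.norm k y) (und k w) := by
  by_cases h2 : (2 : 𝓞 F) ∈ w.asIdeal
  · have h2' := (two_und (k := k) w).2 h2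
    obtain ⟨c, u, hu, -, e1, τ, t1, t2, t3⟩ := (ha.resolve_left (fun h => h h2)).at h2
    obtain ⟨r, hr⟩ := tr_sF S τ
    obtain ⟨t, ht⟩ := S.tr c
    have h3 := symb_two S w hc hm (1 - 4 * c) (one_sub_not_mem h2) (fun _ => adm_one_sub c)
    rw [e1, h3, ← symb_mul_sq (Algebra.norm k y) (Algebra.norm k u) (norm_neF hu), ← map_pow,
      ← map_mul, t1, Nm_one_sub S c t ht]
    have h4 : Algebra.norm k (1 - 4 * τ) = 1 - 4 * (r - 4 * Algebra.norm k τ) := by
      apply (algebraMap k F).injective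
      exact norm_one_sub S τ r hr
    have hτ' : w.valuation F (sF S τ) ≤ 1 := by
      rw [val_sF, hsw]
      exact t2
    have hδ : w.valuation F (sF S τ - sF S (c : F)) < 1 := by
      rw [← map_sub, val_sF, hsw]
      exact t3
    have hcc : w.valuation F (sF S (c : F)) ≤ 1 := by
      rw [sF_coe]
      exact val_int w _
    rw [h4, one_sub_coe]
    symm
    refine symb_congr_even h2' ?_ (val_int _ _) ?_
    · rw [← val_alg_le (F := F) w, map_sub, hr, map_mul, norm_sF S, map_ofNat]
      refine (Valuation.map_sub _ _ _).trans (max_le ((Valuation.map_add _ _ _).trans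
        (max_le t2 hτ')) ?_)
      rw [map_mul, map_mul]
      exact mul_le_one' (val_four_le w) (mul_le_one' t2 hτ')
    · rw [← val_alg_lt (F := F) w]
      have e5 : algebraMap k F (r - 4 * Algebra.norm k τ - ((t - 4 * Nm k F c : 𝓞 k) : k)) =
          (τ - c) * (1 - 4 * sF S τ) + (sF S τ - sF S (c : F)) * (1 - 4 * c) := by
        have e6 : ((t - 4 * Nm k F c : 𝓞 k) : k) = (t : k) - 4 * Algebra.norm k (c : F) := by
          rw [← coe_Nm]
          change algebraMap (𝓞 k) k (t - 4 * Nm k F c) = _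
          rw [map_sub, map_mul, map_ofNat]
        have e7 : algebraMap k F (t : k) = (c : F) + sF S (c : F) := by
          rw [← io_coe, sF_coe]
          have := congrArg (fun z : 𝓞 F => (z : F)) ht
          exact this
        rw [e6, map_sub, map_sub, map_sub, map_mul, map_mul, norm_sF S, norm_sF S, map_ofNat, hr, e7]
        ring
      rw [e5]
      refine (Valuation.map_add _ _ _).trans_lt (max_lt ?_ ?_)
      · rw [map_mul, val_one_sub h2 hτ', mul_one]
        exact t3
      · rw [map_mul, val_one_sub h2 (val_int w c), mul_one]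
        exact hδ
  · obtain ⟨b, s, hb, hs, h3⟩ := unit_rep w hy ey
    rw [← symb_mul_sq y s hs, h3, symb_two S w hc hm b hb (fun h => absurd h h2), coe_Nm, ← h3,
      map_mul, map_pow, symb_mul_sq _ _ (norm_neF hs)]

/-- inert places, elements of `k` -/
theorem symb_inert_k {x : k} (hx : x ≠ 0) (ex : ev w (algebraMap k F x))
    (ha : (2 : 𝓞 F) ∉ w.asIdeal ∨ AdG x) : symb (algebraMap k F x) w = 1 := by
  rw [symb_inert S w hsw hc hm (alg_ne hx) ex (ha.imp_right fun h => h.alg)]
  have h1 : Algebra.norm k (algebraMap k F x) = x ^ 2 := by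
    apply (algebraMap k F).injective
    rw [norm_sF S, sF_map, map_pow, pow_two]
  rw [h1, symb_sqF _ hx]

end inert

section ram
variable (hsw : S.sw w = w)
  (hc : Nat.card (𝓞 F ⧸ w.asIdeal) = Nat.card (𝓞 k ⧸ (und k w).asIdeal))
  (hv : ∀ x : k, w.valuation F (algebraMap k F x) = (und k w).valuation k x ^ 2)
  (h2 : (2 : 𝓞 F) ∉ w.asIdeal)
include hsw hv

theorem ev_alg_ram {x : k} (hx : x ≠ 0) : ev w (algebraMap k F x) := by
  rw [← isSquare_val w (alg_ne hx), hv]
  exact ⟨_, pow_two _⟩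

theorem val_norm_ram (y : F) : (und k w).valuation k (Algebra.norm k y) = w.valuation F y := by
  have h1 := hv (Algebra.norm k y)
  rw [norm_sF S, map_mul, val_sF, hsw, ← pow_two] at h1
  exact ((pow_left_inj₀ zero_le zero_le two_ne_zero).1 h1).symm

include h2

/-- ramified places, odd valuation -/
theorem symb_ram_odd {y : F} (hy : y ≠ 0) (ey : ¬ ev w y) : symb (-(y * sF S y)) w = 1 := by
  have hsy := sF_ne S hy
  have hvs : w.valuation F (sF S y) = w.valuation F y := by rw [val_sF, hsw]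
  have hlt : w.valuation F (y + sF S y) < w.valuation F y := by
    obtain ⟨t, ht⟩ := tr_sF S y
    have hle : w.valuation F (y + sF S y) ≤ w.valuation F y :=
      (Valuation.map_add _ _ _).trans (max_le le_rfl hvs.le)
    refine lt_of_le_of_ne hle fun heq => ?_
    rw [← ht] at heq
    have ht0 : t ≠ 0 := by
      rintro rfl
      rw [map_zero, map_zero] at heq
      exact val_ne w hy heq.symm
    exact ey ((ev_of_val_eq w heq).1 (ev_alg_ram S w hsw hv ht0))
  refine (symb_eq_one_of w (neg_ne_zero.2 (mul_ne_zero hy hsy)) y ?_).1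
  have e : y ^ 2 - -(y * sF S y) = y * (y + sF S y) := by ring
  rw [e, map_mul, map_mul, val_four_one h2, one_mul, Valuation.map_neg, map_mul, hvs]
  exact mul_lt_mul_of_pos_left hlt (zero_lt_iff.2 (val_ne w hy))

include hc

/-- ramified places, even valuation -/
theorem symb_ram_even {y : F} (hy : y ≠ 0) (ey : ev w y) :
    symb (Algebra.norm k y) (und k w) = 1 := by
  obtain ⟨b, s, hb, hs, h3⟩ := unit_rep w hy ey
  have h4 : symb (Algebra.norm k y) (und k w) = symb ((Nm k F b : 𝓞 k) : k) (und k w) := by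
    rw [← symb_mul_sq _ _ (norm_neF (k := k) hs), coe_Nm, ← map_pow, ← map_mul, h3]
  have hsb : S.sg b ∉ w.asIdeal := by
    rw [← S.mem_sw, hsw]
    exact hb
  have hNb : Nm k F b ∉ (und k w).asIdeal := by
    intro h5
    rcases S.mem_or w b h5 with h6 | h6
    · exact hb h6
    · rw [hsw] at h6
      exact hb h6
  rw [h4, ← symb_io_one w hc (Nm k F b) hNb (fun h => absurd h h2), show io k F (Nm k F b) =
    b * S.sg b from S.norm b]
  -- `sg b ≡ b`
  obtain ⟨r, hr⟩ := rmap_surjective w hc (Ideal.Quotient.mk _ b)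
  obtain ⟨r, rfl⟩ := Ideal.Quotient.mk_surjective r
  rw [rmap_mk, Ideal.Quotient.eq] at hr
  have hr' : io k F r - S.sg b ∈ w.asIdeal := by
    rw [← S.fix r, ← map_sub, ← S.mem_sw, hsw]
    exact hr
  have hd : b * S.sg b - b ^ 2 ∈ w.asIdeal := by
    have e : b * S.sg b - b ^ 2 = b * ((io k F r - b) - (io k F r - S.sg b)) := by ring
    rw [e]
    exact Ideal.mul_mem_left _ _ (Ideal.sub_mem _ hr hr')
  rw [symb_congr_odd (b * S.sg b) (b ^ 2) w h2 (fun h => (w.isPrime.mem_or_mem h).elim hb hsb) hd]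
  exact symb_sqF w (RingOfIntegers.coe_ne_zero_iff.2 (fun h => hb (by rw [h]; exact Ideal.zero_mem _)))

end ram

end

end TWR
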