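import Pool.Agent.MP_9ab903_nt.TWR.PF6

set_option autoImplicit false

open NumberField IsDedekindDomain
open CM27 CMT NAB
open scoped Classical

namespace TWR

/-! ## [TWR-PF7] the product of the symbols and the norm (file TWR/PF7.lean) -/

section
variable {k F : Type} [Field k] [NumberField k] [Field F] [NumberField F] [Algebra k F]
  (S : Sig k F)

/-- `F / k` is unramified at two -/
def Ur2 (k F : Type) [Field k] [NumberField k] [Field F] [NumberField F] [Algebra k F] : Prop :=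
  ∀ w : HeightOneSpectrum (𝓞 F), (2 : 𝓞 F) ∈ w.asIdeal →
    Ideal.map (algebraMap (𝓞 k) (𝓞 F)) (und k w).asIdeal ≠ w.asIdeal ^ 2

theorem sw_sw (w : HeightOneSpectrum (𝓞 F)) : S.sw (S.sw w) = w := by
  apply HeightOneSpectrum.ext
  ext β
  change S.sg (S.sg β) ∈ w.asIdeal ↔ _
  rw [S.inv]

/-- the local factor at `w` and its conjugate -/
noncomputable def lf (f : HeightOneSpectrum (𝓞 F) → ℤ) (w : HeightOneSpectrum (𝓞 F)) : ℤ :=
  if S.sw w = w then f w else f w * f (S.sw w)

section fib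
variable [Algebra.IsQuadraticExtension k F]

theorem above_eq (w w' : HeightOneSpectrum (𝓞 F)) (h : und k w' = und k w) :
    w' = w ∨ w' = S.sw w := by
  have h1 : Ideal.map (algebraMap (𝓞 k) (𝓞 F)) (und k w).asIdeal ≤ w'.asIdeal := by
    rw [← h]
    exact Ideal.map_comap_le
  have h2 : w.asIdeal * (S.sw w).asIdeal ≤ w'.asIdeal := by
    rcases prime_data S w with ⟨-, -, h3⟩ | ⟨-, -, h3⟩
    · rwa [h3] at h1
    · rw [h3] at h1
      exact Ideal.mul_le_left.trans h1
  rcases (w'.isPrime.mul_le).1 h2 with h3 | h3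
  · exact Or.inl (HeightOneSpectrum.ext (w.isMaximal.eq_of_le w'.isPrime.ne_top h3)).symm
  · exact Or.inr (HeightOneSpectrum.ext ((S.sw w).isMaximal.eq_of_le w'.isPrime.ne_top h3)).symm

theorem prod_above (f : HeightOneSpectrum (𝓞 F) → ℤ) (g : HeightOneSpectrum (𝓞 k) → ℤ)
    (hf : (Function.mulSupport f).Finite) (hg : (Function.mulSupport g).Finite)
    (h : ∀ w, lf S f w = g (und k w)) : ∏ᶠ w, f w = ∏ᶠ v, g v := by
  choose up hup using fun v : HeightOneSpectrum (𝓞 k) => exists_above (F := F) v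
  set t : Finset (HeightOneSpectrum (𝓞 k)) := hf.toFinset.image (und k) ∪ hg.toFinset with ht
  set s : Finset (HeightOneSpectrum (𝓞 F)) := t.image up ∪ t.image (fun v => S.sw (up v)) with hs
  have hst : ∀ w, w ∈ s ↔ und k w ∈ t := by
    intro w
    rw [hs, Finset.mem_union, Finset.mem_image, Finset.mem_image]
    constructor
    · rintro (⟨v, hv, rfl⟩ | ⟨v, hv, rfl⟩)
      · rwa [hup]
      · rwa [S.und_sw, hup]
    · intro hw
      rcases above_eq S (up (und k w)) w (by rw [hup]) with h1 | h1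
      · exact Or.inl ⟨_, hw, h1.symm⟩
      · exact Or.inr ⟨_, hw, h1.symm⟩
  rw [finprod_eq_prod_of_mulSupport_subset f (s := s), finprod_eq_prod_of_mulSupport_subset g (s := t)]
  · rw [← Finset.prod_fiberwise_of_maps_to (s := s) (t := t) (g := und k) (fun w hw => (hst w).1 hw)]
    refine Finset.prod_congr rfl fun v hv => ?_
    have h2 := h (up v)
    rw [hup] at h2
    rw [← h2, lf]
    have h3 : s.filter (fun w => und k w = v) = {up v, S.sw (up v)} := by
      ext w
      rw [Finset.mem_filter, hst, Finset.mem_insert, Finset.mem_singleton]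
      constructor
      · rintro ⟨-, h4⟩
        exact above_eq S (up v) w (by rw [hup, h4])
      · rintro (rfl | rfl)
        · rw [hup]; exact ⟨hv, rfl⟩
        · rw [S.und_sw, hup]; exact ⟨hv, rfl⟩
    rw [h3]
    split_ifs with h4
    · rw [h4, Finset.pair_eq_singleton, Finset.prod_singleton]
    · rw [Finset.prod_pair (Ne.symm h4)]
  · intro v hv
    rw [ht, Finset.coe_union]
    right
    simpa using hv
  · intro w hw
    rw [Finset.mem_coe, hst, ht, Finset.mem_union, Finset.mem_image]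
    left
    exact ⟨w, by simpa using hw, rfl⟩

end fib

section loc
variable (w : HeightOneSpectrum (𝓞 F))

theorem two_und' : (2 : 𝓞 k) ∉ (und k w).asIdeal ↔ (2 : 𝓞 F) ∉ w.asIdeal := by
  rw [two_und]

/-- degree one places, unramified -/
theorem T_split (hc : Nat.card (𝓞 F ⧸ w.asIdeal) = Nat.card (𝓞 k ⧸ (und k w).asIdeal))
    (hv : ∀ x : k, w.valuation F (algebraMap k F x) = (und k w).valuation k x) {x z : k}
    (hx : x ≠ 0) (hz : z ≠ 0) (h : (2 : 𝓞 F) ∉ w.asIdeal ∨ AdG x) :
    T w (algebraMap k F x) (algebraMap k F z) = T (und k w) x z := by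
  have hev : ∀ a : k, ev w (algebraMap k F a) ↔ ev (und k w) a := fun a => by
    rw [ev, ev, od, od, hv]
  have hodd : ¬ ev (und k w) x → (2 : 𝓞 F) ∉ w.asIdeal := by
    intro h1 h2
    have h3 := h.resolve_left (fun h => h h2)
    obtain ⟨-, -, -, h4, -⟩ := h3.at ((two_und (k := k) w).2 h2)
    exact h1 h4
  by_cases ex : ev (und k w) x <;> by_cases ez : ev (und k w) z
  · rw [T_ev_ev _ ex ez, T_ev_ev _ ((hev x).2 ex) ((hev z).2 ez)]
  · rw [T_ev _ ex ez, T_ev _ ((hev x).2 ex) (fun h => ez ((hev z).1 h))]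
    exact symb_deg1 w hc hx ex h
  · rw [T_odd_ev _ ex ez, T_odd_ev _ (fun h => ex ((hev x).1 h)) ((hev z).2 ez)]
    exact symb_deg1 w hc hz ez (Or.inl (hodd ex))
  · rw [T_odd_odd _ ex ez, T_odd_odd _ (fun h => ex ((hev x).1 h)) (fun h => ez ((hev z).1 h)),
      ← map_mul, ← map_neg]
    refine symb_deg1 w hc (neg_ne_zero.2 (mul_ne_zero hx hz)) ?_ (Or.inl (hodd ex))
    rw [ev_neg, ev_mul _ hx hz]
    tauto

variable [Algebra.IsQuadraticExtension k F]

/-- (N1) -/
theorem lf_T_alg {x : k} {y : F} (hx : x ≠ 0) (hy : y ≠ 0) (h : (2 : 𝓞 F) ∉ w.asIdeal ∨ AdG x)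
    (hr : (2 : 𝓞 F) ∈ w.asIdeal →
      Ideal.map (algebraMap (𝓞 k) (𝓞 F)) (und k w).asIdeal ≠ w.asIdeal ^ 2) :
    lf S (fun w => T w (algebraMap k F x) y) w = T (und k w) x (Algebra.norm k y) := by
  have hxF : algebraMap k F x ≠ 0 := alg_ne hx
  have hN : Algebra.norm k y ≠ 0 := norm_neF hy
  have hsy := sF_ne S hy
  have hodd : ¬ ev (und k w) x → (2 : 𝓞 F) ∉ w.asIdeal := by
    intro h1 h2
    have h3 := h.resolve_left (fun h => h h2)
    obtain ⟨-, -, -, h4, -⟩ := h3.at ((two_und (k := k) w).2 h2)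
    exact h1 h4
  rw [lf]
  rcases kinds S w with ⟨hsw, hc, hv⟩ | ⟨hsw, hc, hm, hv⟩ | ⟨hsw, hc, hm, hv⟩
  · rw [if_neg hsw]
    change T w (algebraMap k F x) y * T (S.sw w) (algebraMap k F x) y = _
    rw [← T_sF, sF_map, ← T_mul_right w hxF hy hsy (h.imp_right fun h => h.alg), ← norm_sF S]
    exact T_split w hc hv hx hN h
  · rw [if_pos hsw]
    have h2 : (2 : 𝓞 F) ∉ w.asIdeal := fun h2 => hr h2 hm
    have hexF : ev w (algebraMap k F x) := ev_alg_ram S w hsw hv hx
    have hvN := val_norm_ram S w hsw hv y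
    have heN : ev (und k w) (Algebra.norm k y) ↔ ev w y := by
      rw [ev, ev, od, od, hvN]
    change T w (algebraMap k F x) y = _
    by_cases ex : ev (und k w) x <;> by_cases ey : ev w y
    · rw [T_ev_ev _ hexF ey, T_ev_ev _ ex (heN.2 ey)]
    · rw [T_ev _ hexF ey, T_ev _ ex (fun h => ey (heN.1 h))]
      exact symb_deg1 w hc hx ex (Or.inl h2)
    · rw [T_ev_ev _ hexF ey, T_odd_ev _ ex (heN.2 ey)]
      exact (symb_ram_even S w hsw hc hv h2 hy ey).symm
    · rw [T_ev _ hexF ey, T_odd_odd _ ex (fun h => ey (heN.1 h)),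
        ← symb_deg1 w hc (neg_ne_zero.2 (mul_ne_zero hx hN)) ?_ (Or.inl h2)]
      · have e1 : algebraMap k F (-(x * Algebra.norm k y)) =
            algebraMap k F x * -(y * sF S y) := by
          rw [map_neg, map_mul, norm_sF S]
          ring
        have h3 : ev w (-(y * sF S y)) := by
          rw [ev_neg, ev_mul w hy hsy, ev_sF, hsw]
        rw [e1, symb_mulF w hxF (neg_ne_zero.2 (mul_ne_zero hy hsy)) hexF h3 (Or.inl h2),
          symb_ram_odd S w hsw hv h2 hy ey, mul_one]
      · rw [ev_neg, ev_mul _ hx hN]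
        have := heN
        tauto
  · rw [if_pos hsw]
    change T w (algebraMap k F x) y = _
    have hexF : ev w (algebraMap k F x) ↔ ev (und k w) x := by rw [ev, ev, od, od, hv]
    have heN : ev (und k w) (Algebra.norm k y) := by
      have h1 := hv (Algebra.norm k y)
      rw [norm_sF S, map_mul, val_sF, hsw, ← pow_two] at h1
      rw [← isSquare_val _ hN, ← h1]
      exact ⟨_, pow_two _⟩
    by_cases ex : ev (und k w) x <;> by_cases ey : ev w y
    · rw [T_ev_ev _ (hexF.2 ex) ey, T_ev_ev _ ex heN]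
    · rw [T_ev _ (hexF.2 ex) ey, T_ev_ev _ ex heN]
      exact symb_inert_k S w hsw hc hm hx (hexF.2 ex) h
    · rw [T_odd_ev _ (fun h => ex (hexF.1 h)) ey, T_odd_ev _ ex heN]
      exact symb_inert S w hsw hc hm hy ey (Or.inl (hodd ex))
    · rw [T_odd_odd _ (fun h => ex (hexF.1 h)) ey, T_odd_ev _ ex heN]
      have h3 : ev w (-(algebraMap k F x * y)) := by
        rw [ev_neg, ev_mul w hxF hy]
        tauto
      have h4 : algebraMap k F (Algebra.norm k (-(algebraMap k F x * y))) =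
          algebraMap k F (Algebra.norm k y * x ^ 2) := by
        rw [norm_sF S, map_neg, map_mul (sF S), sF_map, map_mul (algebraMap k F), norm_sF S, map_pow]
        ring
      rw [symb_inert S w hsw hc hm (neg_ne_zero.2 (mul_ne_zero hxF hy)) h3 (Or.inl (hodd ex)),
        (algebraMap k F).injective h4, symb_mul_sq _ _ hx]

/-- (N3) -/
theorem lf_T_norm {x : F} {y : k} (hx : AdG x) (hy : y ≠ 0)
    (hr : (2 : 𝓞 F) ∈ w.asIdeal →
      Ideal.map (algebraMap (𝓞 k) (𝓞 F)) (und k w).asIdeal ≠ w.asIdeal ^ 2) :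
    lf S (fun w => T w x (algebraMap k F y)) w = T (und k w) (Algebra.norm k x) y := by
  have hx0 := hx.ne_zero
  have hN : Algebra.norm k x ≠ 0 := norm_neF hx0
  have hsx := sF_ne S hx0
  have hyF : algebraMap k F y ≠ 0 := alg_ne hy
  by_cases h2 : (2 : 𝓞 F) ∈ w.asIdeal
  · rw [lf]
    rcases kinds S w with ⟨hsw, hc, hv⟩ | ⟨hsw, hc, hm, hv⟩ | ⟨hsw, hc, hm, hv⟩
    · rw [if_neg hsw]
      change T w x (algebraMap k F y) * T (S.sw w) x (algebraMap k F y) = _
      rw [← T_sF, sF_map, ← T_mul_left w hx0 hsx hyF (Or.inr ⟨hx, hx.conj S⟩), ← norm_sF S]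
      exact T_split w hc hv hN hy (Or.inr (hx.norm S))
    · exact absurd hm (hr h2)
    · rw [if_pos hsw]
      change T w x (algebraMap k F y) = _
      obtain ⟨-, -, -, ex, -⟩ := hx.at h2
      obtain ⟨-, -, -, eN, -⟩ := (hx.norm S).at ((two_und (k := k) w).2 h2)
      have heyF : ev w (algebraMap k F y) ↔ ev (und k w) y := by rw [ev, ev, od, od, hv]
      by_cases ey : ev (und k w) y
      · rw [T_ev_ev _ ex (heyF.2 ey), T_ev_ev _ eN ey]
      · rw [T_ev _ ex (fun h => ey (heyF.1 h)), T_ev _ eN ey]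
        exact symb_inert S w hsw hc hm hx0 ex (Or.inr hx)
  · rw [T_comm, ← lf_T_alg S w hy hx0 (Or.inl h2) hr]
    congr 1
    funext w
    exact T_comm _ _ _

include S in
theorem HH_alg (hr : Ur2 k F) {x : k} {y : F} (hx : AdG x) (hy : y ≠ 0) :
    HH (algebraMap k F x) y = HH x (Algebra.norm k y) :=
  prod_above S _ _ (T_support (alg_ne hx.ne_zero) hy) (T_support hx.ne_zero (norm_neF hy))
    fun w => lf_T_alg S w hx.ne_zero hy (Or.inr hx) (hr w)

include S in
theorem HH_norm (hr : Ur2 k F) {x : F} {y : k} (hx : AdG x) (hy : y ≠ 0) :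
    HH x (algebraMap k F y) = HH (Algebra.norm k x) y :=
  prod_above S _ _ (T_support hx.ne_zero (alg_ne hy)) (T_support (norm_neF hx.ne_zero) hy)
    fun w => lf_T_norm S w hx hy (hr w)

end loc

end

end TWR
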