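import Pool.Agent.MP_9ab903_nt.TWR.PF7

set_option autoImplicit false

open NumberField IsDedekindDomain
open CM27 CMT NAB
open scoped Classical

namespace TWR

/-! ## [TWR-PF8] the product formula in quadratic extensions (file TWR/PF8.lean) -/

section
variable {F : Type} [Field F] [NumberField F]

theorem two_sq_root (w : HeightOneSpectrum (𝓞 F)) (h2 : (2 : 𝓞 F) ∈ w.asIdeal) (c : 𝓞 F) :
    ∃ z : 𝓞 F, z ^ 2 - c ∈ w.asIdeal := by
  haveI hfin : Finite (𝓞 F ⧸ w.asIdeal) := Ideal.finiteQuotientOfFreeOfNeBot _ w.ne_bot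
  have hinj : Function.Injective (fun y : 𝓞 F ⧸ w.asIdeal => y ^ 2) := by
    intro a b hab
    obtain ⟨a, rfl⟩ := Ideal.Quotient.mk_surjective a
    obtain ⟨b, rfl⟩ := Ideal.Quotient.mk_surjective b
    simp only at hab
    rw [← map_pow, ← map_pow, Ideal.Quotient.eq] at hab
    rw [Ideal.Quotient.eq]
    apply w.isPrime.mem_of_pow_mem 2
    have h3 : (a - b) ^ 2 = (a ^ 2 - b ^ 2) - (b * (a - b)) * 2 := by ring
    rw [h3]
    exact Ideal.sub_mem _ hab (Ideal.mul_mem_left _ _ h2)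
  obtain ⟨y, hy⟩ := (Finite.surjective_of_injective hinj) (Ideal.Quotient.mk _ c)
  obtain ⟨x, rfl⟩ := Ideal.Quotient.mk_surjective y
  simp only at hy
  rw [← map_pow, Ideal.Quotient.eq] at hy
  exact ⟨x, hy⟩

theorem finite_two : {w : HeightOneSpectrum (𝓞 F) | (2 : 𝓞 F) ∈ w.asIdeal}.Finite :=
  finite_primes 2 two_ne_zero

theorem crt_two (f : HeightOneSpectrum (𝓞 F) → 𝓞 F) :
    ∃ z : 𝓞 F, ∀ w : HeightOneSpectrum (𝓞 F), (2 : 𝓞 F) ∈ w.asIdeal → z - f w ∈ w.asIdeal := by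
  obtain ⟨z, hz⟩ := Ideal.exists_forall_sub_mem_ideal (ι := (finite_two (F := F)).toFinset)
    (I := fun w => (w : HeightOneSpectrum (𝓞 F)).asIdeal)
    (fun p q hpq => isCoprime_of_not_le _ _ fun h => hpq (Subtype.ext
      (HeightOneSpectrum.ext (p.1.isMaximal.eq_of_le q.1.isPrime.ne_top h)))) (fun w => f w)
  exact ⟨z, fun w hw => hz ⟨w, by rw [Set.Finite.mem_toFinset]; exact hw⟩⟩

end

section
variable {k F : Type} [Field k] [NumberField k] [Field F] [NumberField F] [Algebra k F]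
  (S : Sig k F)

theorem exists_eta [Algebra.IsQuadraticExtension k F] : ∃ η : F, η ≠ 0 ∧ sF S η = -η := by
  by_contra hcon
  push Not at hcon
  have h1 : ∀ x : F, sF S x = x := by
    intro x
    by_contra hx
    apply hcon (x - sF S x) (sub_ne_zero.2 (Ne.symm hx))
    rw [map_sub, sF_sF]
    ring
  have h3 : Module.finrank k F = 2 := Algebra.IsQuadraticExtension.finrank_eq_two k F
  have h4 : Module.finrank k F ≤ 1 := by
    refine finrank_le_one (1 : F) fun x => ?_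
    obtain ⟨t, ht⟩ := tr_sF S x
    refine ⟨t / 2, ?_⟩
    rw [Algebra.smul_def, mul_one, map_div₀, ht, h1, map_ofNat]
    ring
  omega

/-- the trace -/
noncomputable def tr0 (x : F) : k := (tr_sF S x).choose

theorem tr0_spec (x : F) : algebraMap k F (tr0 S x) = x + sF S x := (tr_sF S x).choose_spec

theorem tr0_add (x y : F) : tr0 S (x + y) = tr0 S x + tr0 S y := by
  apply (algebraMap k F).injective
  rw [map_add, tr0_spec, tr0_spec, tr0_spec, map_add]
  ring

theorem tr0_smul (a : k) (x : F) : tr0 S (algebraMap k F a * x) = a * tr0 S x := by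
  apply (algebraMap k F).injective
  rw [map_mul, tr0_spec, tr0_spec, map_mul (sF S), sF_map]
  ring

/-- integral above `v` -/
def Iv (v : HeightOneSpectrum (𝓞 k)) (γ : F) : Prop :=
  ∀ w : HeightOneSpectrum (𝓞 F), und k w = v → w.valuation F γ ≤ 1

/-- **maximal valuation of the trace** -/
theorem exists_max (v : HeightOneSpectrum (𝓞 k))
    (hv : ∀ w : HeightOneSpectrum (𝓞 F), und k w = v →
      ∀ x : k, w.valuation F (algebraMap k F x) = v.valuation k x) (g : F) (hg : g ≠ 0) :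
    ∃ γ : F, Iv v γ ∧ tr0 S (g * γ) ≠ 0 ∧
      ∀ γ' : F, Iv v γ' → v.valuation k (tr0 S (g * γ')) ≤ v.valuation k (tr0 S (g * γ)) := by
  obtain ⟨w, hw⟩ := exists_above (F := F) v
  -- bound
  have hb : ∀ γ : F, Iv v γ → v.valuation k (tr0 S (g * γ)) ≤
      max (w.valuation F g) (w.valuation F (sF S g)) := by
    intro γ hγ
    rw [← hv w hw, tr0_spec, map_mul (sF S)]
    refine (Valuation.map_add _ _ _).trans (max_le_max ?_ ?_)
    · rw [map_mul]
      exact (mul_le_mul_right (hγ w hw) _).trans (mul_one _).le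
    · rw [map_mul, val_sF S w γ]
      exact (mul_le_mul_right (hγ _ (by rw [S.und_sw, hw])) _).trans (mul_one _).le
  -- a nonzero value
  obtain ⟨a, b, hb0, hab⟩ := exists_div g⁻¹
  have hbF : (b : F) ≠ 0 := RingOfIntegers.coe_ne_zero_iff.2 hb0
  have h1 : ∃ γ : F, Iv v γ ∧ tr0 S (g * γ) ≠ 0 := by
    refine ⟨g⁻¹ * algebraMap k F (Algebra.norm k (b : F)), fun w' _ => ?_, fun h => ?_⟩
    · have e1 : g⁻¹ * algebraMap k F (Algebra.norm k (b : F)) = ((a * S.sg b : 𝓞 F) : F) := by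
        rw [norm_sF S, hab, sF_coe]
        have e2 : ((a * S.sg b : 𝓞 F) : F) = (a : F) * ((S.sg b : 𝓞 F) : F) := rfl
        rw [e2]
        field_simp
      rw [e1]
      exact val_int w' _
    · have e1 : g * (g⁻¹ * algebraMap k F (Algebra.norm k (b : F))) =
          algebraMap k F (Algebra.norm k (b : F)) * 1 := by field_simp
      rw [e1, tr0_smul] at h
      rcases mul_eq_zero.1 h with h | h
      · exact norm_neF hbF h
      · have h2 := tr0_spec S (1 : F)
        rw [h, map_zero, map_one] at h2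
        norm_num at h2
  -- the greatest value
  have hne : max (w.valuation F g) (w.valuation F (sF S g)) ≠ 0 := by
    apply ne_of_gt
    exact lt_of_lt_of_le (zero_lt_iff.2 (val_ne w hg)) (le_max_left _ _)
  obtain ⟨m, ⟨γ, h2, h3, h4⟩, h5⟩ := Int.exists_greatest_of_bdd
    (P := fun n : ℤ => ∃ γ : F, Iv v γ ∧ tr0 S (g * γ) ≠ 0 ∧ od v (tr0 S (g * γ)) = n)
    ⟨WithZero.log (max (w.valuation F g) (w.valuation F (sF S g))), by
      rintro z ⟨γ, h2, h3, rfl⟩
      exact (WithZero.log_le_log (val_ne v h3) hne).2 (hb γ h2)⟩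
    (by obtain ⟨γ, h2, h3⟩ := h1; exact ⟨_, γ, h2, h3, rfl⟩)
  refine ⟨γ, h2, h3, fun γ' h6 => ?_⟩
  by_cases h7 : tr0 S (g * γ') = 0
  · rw [h7, map_zero]
    exact zero_le
  · have h8 := h5 _ ⟨γ', h6, h7, rfl⟩
    rw [← h4] at h8
    rw [val_eq_exp v h7, val_eq_exp v h3]
    exact WithZero.exp_le_exp.2 h8

variable [Algebra.IsQuadraticExtension k F]

include S in
theorem val_unram (hr : Ur2 k F) (v : HeightOneSpectrum (𝓞 k)) (hv : (2 : 𝓞 k) ∈ v.asIdeal)
    (w : HeightOneSpectrum (𝓞 F)) (hw : und k w = v) (x : k) :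
    w.valuation F (algebraMap k F x) = v.valuation k x := by
  subst hw
  rcases kinds S w with ⟨-, -, h⟩ | ⟨-, -, hm, h⟩ | ⟨-, -, -, h⟩
  · exact h x
  · exact absurd hm (hr w ((two_und (k := k) w).1 hv))
  · exact h x

/-- **the square** -/
theorem exists_square (hr : Ur2 k F) (g : F) (hg : g ≠ 0) : ∃ z : 𝓞 F,
    ∀ v : HeightOneSpectrum (𝓞 k), (2 : 𝓞 k) ∈ v.asIdeal → tr0 S (g * (z : F) ^ 2) ≠ 0 ∧
      ∀ γ : F, Iv v γ → v.valuation k (tr0 S (g * γ)) ≤ v.valuation k (tr0 S (g * (z : F) ^ 2)) := by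
  have h1 : ∀ v : HeightOneSpectrum (𝓞 k), ∃ γ : F, (2 : 𝓞 k) ∈ v.asIdeal →
      Iv v γ ∧ tr0 S (g * γ) ≠ 0 ∧
      ∀ γ' : F, Iv v γ' → v.valuation k (tr0 S (g * γ')) ≤ v.valuation k (tr0 S (g * γ)) := by
    intro v
    by_cases hv : (2 : 𝓞 k) ∈ v.asIdeal
    · obtain ⟨γ, h⟩ := exists_max S v (val_unram S hr v hv) g hg
      exact ⟨γ, fun _ => h⟩
    · exact ⟨0, fun h => absurd h hv⟩
  choose γ hγ using h1
  have h2 : ∀ w : HeightOneSpectrum (𝓞 F), ∃ z : 𝓞 F, (2 : 𝓞 F) ∈ w.asIdeal →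
      w.valuation F ((z : F) ^ 2 - γ (und k w)) < 1 := by
    intro w
    by_cases hw : (2 : 𝓞 F) ∈ w.asIdeal
    · obtain ⟨h3, -, -⟩ := hγ (und k w) ((two_und w).2 hw)
      obtain ⟨c, hc⟩ := approx_int (γ (und k w)) w (h3 w rfl)
      obtain ⟨z, hz⟩ := two_sq_root w hw c
      refine ⟨z, fun _ => ?_⟩
      have e1 : (z : F) ^ 2 - γ (und k w) = ((z ^ 2 - c : 𝓞 F) : F) - (γ (und k w) - c) := by
        have e2 : ((z ^ 2 - c : 𝓞 F) : F) = (z : F) ^ 2 - c := by
          change algebraMap (𝓞 F) F (z ^ 2 - c) = _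
          rw [map_sub, map_pow]
        rw [e2]
        ring
      rw [e1]
      exact (Valuation.map_sub _ _ _).trans_lt (max_lt ((w.valuation_lt_one_iff_mem _).2 hz) hc)
    · exact ⟨0, fun h => absurd h hw⟩
  choose f hf using h2
  obtain ⟨z, hz⟩ := crt_two f
  refine ⟨z, fun v hv => ?_⟩
  obtain ⟨h3, h4, h5⟩ := hγ v hv
  -- a uniformizer
  obtain ⟨ϖ, hϖ⟩ := v.valuation_exists_uniformizer k
  have hϖ0 : ϖ ≠ 0 := by
    rintro rfl
    rw [map_zero] at hϖ
    exact WithZero.exp_ne_zero hϖ.symm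
  have h6 : Iv v (((z : F) ^ 2 - γ v) * (algebraMap k F ϖ)⁻¹) := by
    intro w hw
    have hw2 : (2 : 𝓞 F) ∈ w.asIdeal := by
      rw [← two_und (k := k), hw]
      exact hv
    have h7 : w.valuation F ((z : F) ^ 2 - γ v) < 1 := by
      have h8 := hf w hw2
      rw [hw] at h8
      have e1 : (z : F) ^ 2 - γ v = ((z ^ 2 - f w ^ 2 : 𝓞 F) : F) + ((f w : F) ^ 2 - γ v) := by
        have e2 : ((z ^ 2 - f w ^ 2 : 𝓞 F) : F) = (z : F) ^ 2 - (f w : F) ^ 2 := by
          change algebraMap (𝓞 F) F (z ^ 2 - f w ^ 2) = _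
          rw [map_sub, map_pow, map_pow]
        rw [e2]
        ring
      rw [e1]
      refine (Valuation.map_add _ _ _).trans_lt (max_lt ((w.valuation_lt_one_iff_mem _).2 ?_) h8)
      have e3 : z ^ 2 - f w ^ 2 = (z + f w) * (z - f w) := by ring
      rw [e3]
      exact Ideal.mul_mem_left _ _ (hz w hw2)
    rw [map_mul, map_inv₀, val_unram S hr v hv w hw, hϖ]
    by_cases h9 : (z : F) ^ 2 - γ v = 0
    · rw [h9, map_zero, zero_mul]
      exact zero_le
    · rw [val_eq_exp w h9] at h7 ⊢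
      rw [← WithZero.exp_neg, ← WithZero.exp_add, ← WithZero.exp_zero, WithZero.exp_le_exp]
      rw [← WithZero.exp_zero, WithZero.exp_lt_exp] at h7
      omega
  have h10 : v.valuation k (tr0 S (g * ((z : F) ^ 2 - γ v))) < v.valuation k (tr0 S (g * γ v)) := by
    have e1 : g * ((z : F) ^ 2 - γ v) =
        algebraMap k F ϖ * (g * (((z : F) ^ 2 - γ v) * (algebraMap k F ϖ)⁻¹)) := by
      have := alg_ne (F := F) hϖ0
      field_simp
    rw [e1, tr0_smul, map_mul]
    refine lt_of_le_of_lt (mul_le_mul_right (h5 _ h6) _) ?_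
    refine (mul_lt_mul_of_pos_right ?_ (zero_lt_iff.2 (val_ne v h4))).trans_eq (one_mul _)
    rw [hϖ, ← WithZero.exp_zero, WithZero.exp_lt_exp]
    norm_num
  have h11 : v.valuation k (tr0 S (g * (z : F) ^ 2)) = v.valuation k (tr0 S (g * γ v)) := by
    have e1 : g * (z : F) ^ 2 = g * γ v + g * ((z : F) ^ 2 - γ v) := by ring
    rw [e1, tr0_add]
    exact Valuation.map_add_eq_of_lt_left _ h10
  refine ⟨fun h => ?_, fun γ' h12 => ?_⟩
  · rw [h, map_zero] at h11
    exact val_ne v h4 h11.symm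
  · rw [h11]
    exact h5 γ' h12

end

end TWR
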