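import Pool.Agent.MP_9ab903_nt.TWR.PF8

set_option autoImplicit false

open NumberField IsDedekindDomain
open CM27 CMT NAB
open scoped Classical

namespace TWR

/-! ## [TWR-PF9] the product formula in quadratic extensions (file TWR/PF9.lean) -/

section
variable {k F : Type} [Field k] [NumberField k] [Field F] [NumberField F] [Algebra k F]
  (S : Sig k F) [Algebra.IsQuadraticExtension k F]

theorem AdG_one_sub {τ : F} (h : I2 τ) : AdG (1 - 4 * τ) :=
  ⟨1, τ, one_ne_zero, by ring, h⟩

include S in
/-- **the product formula in a quadratic extension** -/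
theorem PF_ext (hr : Ur2 k F) {P : k → Prop} (hPF : PF k P)
    (hP : ∀ x : F, x ≠ 0 → P (Algebra.norm k x)) : PF F (fun _ => True) := by
  intro x y hx hy _
  obtain ⟨u, τ, hu, h1, h2⟩ := hx
  have hx0 : x ≠ 0 := by
    have h3 : AdG x := ⟨u, τ, hu, h1, h2⟩
    exact h3.ne_zero
  rw [← HH_sq_left hx0 hu, h1]
  have hα : AdG (1 - 4 * τ) := AdG_one_sub h2
  set α := 1 - 4 * τ with hαd
  have hα0 := hα.ne_zero
  obtain ⟨η, hη, hsη⟩ := exists_eta S
  by_cases hB : sF S α = α
  · -- the element is in `k`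
    have h3 : algebraMap k F (tr0 S α / 2) = α := by
      rw [map_div₀, tr0_spec, hB, map_ofNat]
      ring
    have h4 : AdG (tr0 S α / 2) := by
      refine ⟨1, (1 - tr0 S α / 2) / 4, one_ne_zero, by ring, ?_⟩
      apply I2.of_alg (F := F)
      have e1 : algebraMap k F ((1 - tr0 S α / 2) / 4) = τ := by
        rw [map_div₀, map_sub, h3, map_one, map_ofNat, hαd]
        ring
      rw [e1]
      exact h2
    rw [← h3, HH_alg S hr h4 hy]
    exact hPF _ _ h4 (norm_neF hy) (Or.inr (hP y hy))
  · obtain ⟨z, hz⟩ := exists_square S hr (η * y) (mul_ne_zero hη hy)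
    obtain ⟨v₀, hv₀⟩ := exists_even (F := k)
    have hBg : tr0 S (η * y * (z : F) ^ 2) ≠ 0 := (hz v₀ hv₀).1
    have hz0 : (z : F) ≠ 0 := by
      intro h
      apply hBg
      apply (algebraMap k F).injective
      rw [tr0_spec, h, map_zero]
      simp
    rw [← HH_sq_right hy hz0]
    set g := y * (z : F) ^ 2 with hg
    have hg0 : g ≠ 0 := mul_ne_zero hy (pow_ne_zero 2 hz0)
    have eg : η * y * (z : F) ^ 2 = η * g := by rw [hg]; ring
    rw [eg] at hBg
    set Bg := tr0 S (η * g) with hBgd
    set Δ := tr0 S (η * (g * sF S α)) with hΔd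
    have s1 : algebraMap k F Bg = η * (g - sF S g) := by
      rw [hBgd, tr0_spec, map_mul, hsη]
      ring
    have s2 : algebraMap k F Δ = η * (g * sF S α - sF S g * α) := by
      rw [hΔd, tr0_spec, map_mul, map_mul, hsη, sF_sF]
      ring
    have s3 : algebraMap k F (tr0 S (η * α)) = η * (α - sF S α) := by
      rw [tr0_spec, map_mul, hsη]
      ring
    have hΔ : Δ = Bg - 4 * tr0 S (η * (g * sF S τ)) := by
      apply (algebraMap k F).injective
      have e1 : sF S α = 1 - 4 * sF S τ := by
        rw [hαd, map_sub, map_mul, map_one, map_ofNat]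
      have e2 : algebraMap k F (Bg - 4 * tr0 S (η * (g * sF S τ))) =
          η * (g - sF S g) - 4 * (η * (g * sF S τ) - η * (sF S g * τ)) := by
        have e3 : sF S (η * (g * sF S τ)) = -η * (sF S g * τ) := by
          rw [map_mul (sF S) η, map_mul (sF S) g, hsη, sF_sF]
        rw [map_sub, map_mul, s1, tr0_spec, e3, map_ofNat]
        ring
      rw [s2, e1, e2, hαd]
      ring
    have hD : AdG (Bg * Δ) := by
      refine ⟨Bg⁻¹, tr0 S (η * (g * sF S τ)) / Bg, inv_ne_zero hBg, ?_, ?_⟩
      · rw [hΔ]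
        field_simp
      · intro v hv
        have h3 := (hz v hv).2 ((z : F) ^ 2 * sF S τ) ?_
        · have e1 : η * y * ((z : F) ^ 2 * sF S τ) = η * (g * sF S τ) := by rw [hg]; ring
          rw [e1, eg] at h3
          rw [map_div₀]
          exact div_le_one_of_le₀ h3 zero_le
        · intro w hw
          have h2w : (2 : 𝓞 F) ∈ w.asIdeal := by
            rw [← two_und (k := k), hw]
            exact hv
          rw [map_mul, map_pow, val_sF]
          exact mul_le_one' (pow_le_one' (val_int w z) 2) (h2 _ ((S.two_sw w).2 h2w))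
    have hΔ0 : Δ ≠ 0 := right_ne_zero_of_mul hD.ne_zero
    have hE0 : -(tr0 S (η * α) * Δ) ≠ 0 := by
      refine neg_ne_zero.2 (mul_ne_zero (fun h => ?_) hΔ0)
      rw [h, map_zero] at s3
      rcases mul_eq_zero.1 s3.symm with h3 | h3
      · exact hη h3
      · exact hB (sub_eq_zero.1 h3).symm
    have habc : algebraMap k F Bg * α + -(algebraMap k F (tr0 S (η * α)) * g) =
        algebraMap k F Δ := by
      rw [s1, s2, s3]
      ring
    have e1 : algebraMap k F Bg * α * algebraMap k F Δ = α * algebraMap k F (Bg * Δ) := by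
      rw [map_mul]
      ring
    have e2 : -(algebraMap k F (tr0 S (η * α)) * g) * algebraMap k F Δ =
        g * algebraMap k F (-(tr0 S (η * α) * Δ)) := by
      rw [map_neg, map_mul]
      ring
    have hb0 : -(algebraMap k F (tr0 S (η * α)) * g) ≠ 0 := by
      refine neg_ne_zero.2 (mul_ne_zero (alg_ne fun h => hE0 ?_) hg0)
      rw [h, zero_mul, neg_zero]
    have h4 := HH_steinberg (mul_ne_zero (alg_ne hBg) hα0) hb0 (alg_ne hΔ0) habc
      (by rw [e1]; exact hα.mul hD.alg)
    have hE0' : algebraMap k F (-(tr0 S (η * α) * Δ)) ≠ 0 := alg_ne hE0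
    have hgE : g * algebraMap k F (-(tr0 S (η * α) * Δ)) ≠ 0 := mul_ne_zero hg0 hE0'
    rw [e1, e2, HH_mul_left hα hD.alg hgE, HH_alg S hr hD hgE,
      hPF _ _ hD (norm_neF hgE) (Or.inr (hP _ hgE)), mul_one, HH_mul_right hα hg0 hE0',
      HH_norm S hr hα hE0,
      hPF _ _ (hα.norm S) hE0 (Or.inl (hP _ hα0)), mul_one] at h4
    exact h4

end

end TWR
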