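import Pool.Agent.MP_9ab903_nt.TWR.PG1
import Pool.Agent.MP_9ab903_nt.NAB.QR16

set_option autoImplicit false

open NumberField IsDedekindDomain
open CM27 CMT NAB
open scoped Classical

namespace TWR

/-! ## [TWR-PG2] the product formula over the rationals (file TWR/PG2.lean) -/

theorem rat_coe (a : ℤ) : ((a : 𝓞 ℚ) : ℚ) = (a : ℚ) := map_intCast (algebraMap (𝓞 ℚ) ℚ) a

theorem exists_sqfree (r : ℚ) (hr : r ≠ 0) :
    ∃ (a : ℤ) (s : ℚ), Squarefree a ∧ s ≠ 0 ∧ r = a * s ^ 2 := by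
  have hn : r.num ≠ 0 := Rat.num_ne_zero.2 hr
  have hd : (r.den : ℚ) ≠ 0 := by exact_mod_cast r.den_nz
  obtain ⟨a, b, hab, hsq⟩ := Nat.sq_mul_squarefree (r.num * r.den).natAbs
  have hb0 : b ≠ 0 := by
    rintro rfl
    rw [zero_pow two_ne_zero, zero_mul] at hab
    have h1 := Int.natAbs_eq_zero.1 hab.symm
    rcases mul_eq_zero.1 h1 with h2 | h2
    · exact hn h2
    · exact r.den_nz (by exact_mod_cast h2)
  have hsqZ : Squarefree (a : ℤ) := Int.squarefree_natCast.2 hsq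
  have hr' : r = (r.num * r.den : ℤ) / (r.den : ℚ) ^ 2 := by
    push_cast
    rw [pow_two, mul_div_mul_right _ _ hd, Rat.num_div_den]
  have hb : (b : ℚ) / r.den ≠ 0 := div_ne_zero (by exact_mod_cast hb0) hd
  have habZ : (((r.num * r.den).natAbs : ℤ) : ℚ) = (b : ℚ) ^ 2 * a := by
    rw [← hab]
    push_cast
    ring
  rcases Int.natAbs_eq (r.num * r.den) with h | h
  · refine ⟨a, b / r.den, hsqZ, hb, ?_⟩
    rw [h, habZ] at hr'
    refine hr'.trans ?_
    push_cast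
    field_simp
  · refine ⟨-a, b / r.den, ?_, hb, ?_⟩
    · rw [← Int.squarefree_natAbs, Int.natAbs_neg, Int.natAbs_natCast]
      exact hsq
    · rw [h] at hr'
      have h2 : ((-((r.num * r.den).natAbs : ℤ) : ℤ) : ℚ) = -((b : ℚ) ^ 2 * a) := by
        rw [Int.cast_neg, habZ]
      rw [h2] at hr'
      refine hr'.trans ?_
      push_cast
      field_simp

/-- squarefree integers -/
theorem AdG.mod_four {a : ℤ} (ha : AdG (a : ℚ)) (hs : Squarefree a) : a % 4 = 1 := by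
  obtain ⟨u, τ, hu, h1, h2⟩ := ha
  have hp2 : Nat.Prime 2 := Nat.prime_two
  have h2v : (2 : 𝓞 ℚ) ∈ (rw' 2 hp2).asIdeal := by
    have h3 : (2 : 𝓞 ℚ) = ((2 : ℤ) : 𝓞 ℚ) := by norm_num
    rw [h3, mem_rw]
    norm_num
  have h3 := h2 _ h2v
  set v := rw' 2 hp2 with hv
  have hd : (u.den : ℚ) ≠ 0 := by exact_mod_cast u.den_nz
  have h4 : (((u.den : ℤ) ^ 2 - a * u.num ^ 2 : ℤ) : ℚ) = 4 * ((u.den : ℚ) ^ 2 * τ) := by
    push_cast
    have h5 : u * u.den = u.num := Rat.mul_den_eq_num u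
    rw [← h5]
    linear_combination (-(u.den : ℚ) ^ 2) * h1
  have h5 : (4 : ℤ) ∣ (u.den : ℤ) ^ 2 - a * u.num ^ 2 := by
    have h6 : v.valuation ℚ (((((u.den : ℤ) ^ 2 - a * u.num ^ 2 : ℤ) : 𝓞 ℚ)) : ℚ) ≤
        WithZero.exp (-((2 : ℕ) : ℤ)) := by
      rw [rat_coe, h4, map_mul, map_mul]
      have h7 : v.valuation ℚ (4 : ℚ) ≤ WithZero.exp (-((2 : ℕ) : ℤ)) := by
        have e1 : (4 : ℚ) = ((4 : 𝓞 ℚ) : ℚ) := (map_ofNat (algebraMap (𝓞 ℚ) ℚ) 4).symm
        rw [e1, HeightOneSpectrum.valuation_of_algebraMap,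
          HeightOneSpectrum.intValuation_le_pow_iff_mem]
        have e2 : (4 : 𝓞 ℚ) = 2 ^ 2 := by norm_num
        rw [e2]
        exact Ideal.pow_mem_pow h2v 2
      have h8 : v.valuation ℚ ((u.den : ℚ) ^ 2) ≤ 1 := by
        have e1 : ((u.den : ℚ)) = (((u.den : ℤ) : 𝓞 ℚ) : ℚ) := by rw [rat_coe]; norm_num
        rw [map_pow, e1]
        exact pow_le_one' (val_int v _) 2
      calc v.valuation ℚ 4 * (v.valuation ℚ ((u.den : ℚ) ^ 2) * v.valuation ℚ τ)
          ≤ WithZero.exp (-((2 : ℕ) : ℤ)) * 1 := mul_le_mul' h7 (mul_le_one' h8 h3)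
        _ = _ := mul_one _
    rw [HeightOneSpectrum.valuation_of_algebraMap,
      HeightOneSpectrum.intValuation_le_pow_iff_mem] at h6
    have h7 : v.asIdeal ^ 2 = Ideal.span {((4 : ℤ) : 𝓞 ℚ)} := by
      rw [hv]
      change Ideal.span {(((2 : ℕ) : ℤ) : 𝓞 ℚ)} ^ 2 = _
      rw [Ideal.span_singleton_pow]
      norm_num
    rw [h7, Ideal.mem_span_singleton, rat_dvd] at h6
    exact h6
  have hcop : Nat.Coprime u.num.natAbs u.den := u.reduced
  have ha4 : ¬ (4 : ℤ) ∣ a := by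
    intro h
    have h6 := hs 2 (by norm_num; exact h)
    rw [Int.isUnit_iff] at h6
    omega
  rcases Int.even_or_odd a with ⟨b, hb⟩ | ⟨b, hb⟩
  · exfalso
    have hb1 : b % 2 = 1 := by omega
    obtain ⟨c, hc⟩ := h5
    have hde : Even ((u.den : ℤ)) := by
      have h6 : Even ((u.den : ℤ) ^ 2) := by
        refine ⟨2 * c + b * u.num ^ 2, ?_⟩
        rw [hb] at hc
        linear_combination hc
      exact (Int.even_pow.1 h6).1
    have hne : Even u.num := by
      obtain ⟨e, he⟩ := hde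
      have h6 : Even (b * u.num ^ 2) := by
        refine ⟨e ^ 2 - c, ?_⟩
        rw [hb, he] at hc
        have h8 : 2 * (b * u.num ^ 2) = 2 * (e ^ 2 - c + (e ^ 2 - c)) := by
          linear_combination (-1 : ℤ) * hc
        exact mul_left_cancel₀ two_ne_zero h8
      rcases Int.even_mul.1 h6 with h7 | h7
      · rw [Int.even_iff] at h7; omega
      · exact (Int.even_pow.1 h7).1
    have h6 : 2 ∣ Nat.gcd u.num.natAbs u.den := Nat.dvd_gcd
      (by rw [← Int.natCast_dvd]; exact_mod_cast hne.two_dvd) (by exact_mod_cast hde.two_dvd)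
    rw [hcop] at h6
    omega
  · rcases Int.even_or_odd u.num with ⟨e, he⟩ | ⟨e, he⟩
    · exfalso
      obtain ⟨c, hc⟩ := h5
      have hde : Even ((u.den : ℤ)) := by
        have h6 : Even ((u.den : ℤ) ^ 2) := by
          refine ⟨2 * c + 2 * a * e ^ 2, ?_⟩
          rw [he] at hc
          linear_combination hc
        exact (Int.even_pow.1 h6).1
      have h6 : 2 ∣ Nat.gcd u.num.natAbs u.den := Nat.dvd_gcd
        (by rw [← Int.natCast_dvd]; exact ⟨e, by omega⟩) (by exact_mod_cast hde.two_dvd)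
      rw [hcop] at h6
      omega
    · rcases Int.even_or_odd (u.den : ℤ) with ⟨f, hf⟩ | ⟨f, hf⟩
      · exfalso
        obtain ⟨c, hc⟩ := h5
        rw [hf, hb, he] at hc
        have h6 : (f + f) ^ 2 - (2 * b + 1) * (2 * e + 1) ^ 2 =
            2 * (2 * f ^ 2 - b * (2 * e + 1) ^ 2 - 2 * e ^ 2 - 2 * e) - 1 := by ring
        omega
      · rw [hf, he] at h5
        obtain ⟨c, hc⟩ := h5
        have h6 : (2 * f + 1) ^ 2 - a * (2 * e + 1) ^ 2 =
            4 * (f ^ 2 + f - a * (e ^ 2 + e)) + 1 - a := by ring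
        omega

theorem cop_rat {a b : ℤ} (h : IsCoprime a b) : Cop (a : 𝓞 ℚ) (b : 𝓞 ℚ) := by
  intro v ha hb
  obtain ⟨x, y, hxy⟩ := h
  apply v.isPrime.ne_top
  rw [Ideal.eq_top_iff_one]
  have h1 : (1 : 𝓞 ℚ) = (x : 𝓞 ℚ) * a + y * b := by exact_mod_cast hxy.symm
  rw [h1]
  exact Ideal.add_mem _ (Ideal.mul_mem_left _ _ ha) (Ideal.mul_mem_left _ _ hb)

/-- coprime integers -/
theorem HH_rat_cop {a b : ℤ} (ha : a % 4 = 1) (hb : b ≠ 0) (hab : IsCoprime a b)
    (hpos : 0 < a ∨ 0 < b) : HH (a : ℚ) (b : ℚ) = 1 := by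
  have ha0 : a ≠ 0 := by omega
  have ha' : (a : 𝓞 ℚ) ≠ 0 := by exact_mod_cast ha0
  have hb' : (b : 𝓞 ℚ) ≠ 0 := by exact_mod_cast hb
  have hA : Adm (a : 𝓞 ℚ) := by
    refine ⟨1, ((-(a / 4) : ℤ) : 𝓞 ℚ), one_ne_zero, ?_⟩
    have h1 : a * 1 ^ 2 = 1 - 4 * (-(a / 4)) := by omega
    exact_mod_cast congrArg (fun t : ℤ => (t : 𝓞 ℚ)) h1
  rw [← rat_coe a, ← rat_coe b, HH_cop ha' hb' (cop_rat hab),
    RA_rat _ _ ha' hb' (cop_rat hab) hA (by
      change 0 < ((a : 𝓞 ℚ) : ℚ) ∨ 0 < ((b : 𝓞 ℚ) : ℚ)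
      rw [rat_coe, rat_coe]
      exact_mod_cast hpos)]
  exact Xg_sq _ _ ha' (cop_rat hab).symm

theorem HH_one (y : ℚ) : HH (1 : ℚ) y = 1 := by
  rw [HH]
  refine finprod_eq_one_of_forall_eq_one fun v => ?_
  have h1 : ev v (1 : ℚ) := ev_one v
  by_cases h2 : ev v y
  · exact T_ev_ev v h1 h2
  · rw [T_ev v h1 h2]
    have := symb_sqF v (one_ne_zero (α := ℚ))
    rwa [one_pow] at this

theorem AdG_rat {a : ℤ} (ha : a % 4 = 1) : AdG (a : ℚ) := by
  rw [← rat_coe]
  apply AdG_of_four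
  refine ⟨((a / 4 : ℤ) : 𝓞 ℚ), ?_⟩
  have h1 : a - 1 = 4 * (a / 4) := by omega
  exact_mod_cast congrArg (fun t : ℤ => (t : 𝓞 ℚ)) h1

/-- **The product formula over the rationals.** -/
theorem PF_rat : PF ℚ (fun x => 0 < x) := by
  intro x y hx hy hpos
  obtain ⟨a, s, hsa, hs, rfl⟩ := exists_sqfree x hx.ne_zero
  obtain ⟨b, t, hsb, ht, rfl⟩ := exists_sqfree y hy
  have ha0 : a ≠ 0 := hsa.ne_zero
  have hb0 : b ≠ 0 := hsb.ne_zero
  have haQ : (a : ℚ) ≠ 0 := by exact_mod_cast ha0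
  have hbQ : (b : ℚ) ≠ 0 := by exact_mod_cast hb0
  have hpos' : 0 < a ∨ 0 < b := by
    rcases hpos with h | h
    · left
      exact_mod_cast (mul_pos_iff_of_pos_right (by positivity)).1 h
    · right
      exact_mod_cast (mul_pos_iff_of_pos_right (by positivity)).1 h
  have hA : AdG (a : ℚ) := by
    have h1 := hx.mul_sq (inv_ne_zero hs)
    have h2 : (a : ℚ) * s ^ 2 * s⁻¹ ^ 2 = a := by field_simp
    rwa [h2] at h1
  have ha4 := hA.mod_four hsa
  rw [HH_sq_left haQ hs, HH_sq_right hbQ ht]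
  -- the common divisor
  set d : ℤ := ((Int.gcd a b : ℕ) : ℤ) with hd
  have hd0 : 0 < d := by
    have := Int.gcd_pos_of_ne_zero_left b ha0
    omega
  obtain ⟨a', ha'⟩ : d ∣ a := Int.gcd_dvd_left ..
  obtain ⟨b', hb'⟩ : d ∣ b := Int.gcd_dvd_right ..
  have ha'0 : a' ≠ 0 := by
    rintro rfl
    exact ha0 (by rw [ha', mul_zero])
  have hb'0 : b' ≠ 0 := by
    rintro rfl
    exact hb0 (by rw [hb', mul_zero])
  have hab' : IsCoprime a' b' := by
    rw [Int.isCoprime_iff_gcd_eq_one]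
    have h1 : Int.gcd a b = d.natAbs * Int.gcd a' b' := by
      conv_lhs => rw [ha', hb']
      exact Int.gcd_mul_left ..
    have h2 : (Int.gcd a b : ℤ) = d := rfl
    have h3 : d.natAbs = Int.gcd a b := by omega
    rw [h3] at h1
    have h4 : 0 < Int.gcd a b := Int.gcd_pos_of_ne_zero_left b ha0
    exact (Nat.eq_of_mul_eq_mul_left h4 (by rw [mul_one]; exact h1)).symm
  have hda' : IsCoprime d a' := by
    have h1 : IsRelPrime d a' := by
      intro e he he'
      refine hsa e ?_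
      rw [ha']
      exact mul_dvd_mul he he'
    exact h1.isCoprime
  have hdb' : IsCoprime d b' := by
    have h1 : IsRelPrime d b' := by
      intro e he he'
      refine hsb e ?_
      rw [hb']
      exact mul_dvd_mul he he'
    exact h1.isCoprime
  have hab2 : IsCoprime a b' := by
    rw [ha']
    exact hdb'.mul_left hab'
  have hdQ : (d : ℚ) ≠ 0 := by exact_mod_cast hd0.ne'
  have hb'Q : (b' : ℚ) ≠ 0 := by exact_mod_cast hb'0
  have e1 : (b : ℚ) = (d : ℚ) * b' := by exact_mod_cast hb'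
  have hpos1 : 0 < a ∨ 0 < b' := by
    rcases hpos' with h | h
    · exact Or.inl h
    · right
      rw [hb'] at h
      exact (mul_pos_iff_of_pos_left hd0).1 h
  rw [e1, HH_mul_right hA hdQ hb'Q, HH_rat_cop ha4 hb'0 hab2 hpos1, mul_one]
  by_cases hda : d = a'
  · have h1 : IsUnit d := by
      have h2 := hda'
      rw [← hda] at h2
      exact isCoprime_self.1 h2
    have h3 : a = 1 := by
      rw [ha', ← hda]
      rcases Int.isUnit_iff.1 h1 with h | h <;> rw [h] <;> norm_num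
    rw [h3, Int.cast_one]
    exact HH_one _
  · have hne : d - a' ≠ 0 := sub_ne_zero.2 hda
    have hneQ : ((d - a' : ℤ) : ℚ) ≠ 0 := by exact_mod_cast hne
    have hcop : IsCoprime a (d - a') := by
      rw [ha']
      refine IsCoprime.mul_left ?_ ?_
      · have := hda'.neg_right.add_mul_left_right 1
        rwa [mul_one, neg_add_eq_sub] at this
      · have := (hda'.symm).add_mul_left_right (-1)
        rwa [mul_neg_one, ← sub_eq_add_neg] at this
    have hpos2 : 0 < a ∨ 0 < d - a' := by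
      by_cases h : 0 < a
      · exact Or.inl h
      · right
        have h1 : a' < 0 := by
          rcases lt_trichotomy a' 0 with h2 | h2 | h2
          · exact h2
          · exact absurd h2 ha'0
          · exact absurd (by rw [ha']; exact mul_pos hd0 h2) h
        omega
    -- Steinberg
    have h2 : (a : ℚ) + (((d * (d - a')) : ℤ) : ℚ) = (d : ℚ) ^ 2 := by
      rw [ha']
      push_cast
      ring
    have h3 := HH_steinberg haQ (b := (((d * (d - a')) : ℤ) : ℚ)) (by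
      rw [Int.cast_mul]
      exact mul_ne_zero hdQ hneQ) (pow_ne_zero 2 hdQ) h2 (hA.mul_sq hdQ)
    rw [HH_sq_left haQ hdQ, HH_sq_right (by
      rw [Int.cast_mul]
      exact mul_ne_zero hdQ hneQ) hdQ, Int.cast_mul, HH_mul_right hA hdQ hneQ,
      HH_rat_cop ha4 hne hcop hpos2, mul_one] at h3
    exact h3

end TWR
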