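import Pool.Agent.MP_9ab903_nt.TWR.AN6

set_option autoImplicit false

open NumberField IsDedekindDomain
open CM27 CMT CF NAB
open scoped Classical ComplexConjugate

namespace TWR

/-! ## [TWR-QA1] fields without cube roots of unity: the primes of `F = k(ω)` (file TWR/QA1.lean) -/

section
variable {k F : IntermediateField ℚ ℂ} [NumberField k] [NumberField F] [Algebra k F]
  (hal : ∀ x : k, ((algebraMap k F x : F) : ℂ) = (x : ℂ)) [Algebra.IsQuadraticExtension k F]
  (hw : w ∈ F) (hwk : w ∉ k) (S : Sig k F)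
include hal hw hwk

/-- the conjugate of `ω` -/
theorem sg_om : S.sg (eF F hw ⟨0, 1⟩) = -1 - eF F hw ⟨0, 1⟩ := by
  set om : 𝓞 F := eF F hw ⟨0, 1⟩ with hom
  have homC : ((om : F) : ℂ) = w := by
    rw [hom, eF_apply, emb_apply]
    push_cast
    ring
  have e1 : om ^ 2 + om + 1 = 0 := by
    ext
    change ((om : F) : ℂ) ^ 2 + ((om : F) : ℂ) + 1 = 0
    rw [homC]
    linear_combination w_sq
  have e2 : S.sg om ^ 2 + S.sg om + 1 = 0 := by
    have := congrArg S.sg e1
    rw [map_add, map_add, map_pow, map_one, _root_.map_zero] at this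
    exact this
  have e3 : (S.sg om - om) * (S.sg om - (-1 - om)) = 0 := by linear_combination e2 - e1
  rcases mul_eq_zero.1 e3 with h | h
  · exfalso
    apply hwk
    have h1 : S.sg om = om := sub_eq_zero.1 h
    obtain ⟨t, ht⟩ := S.tr om
    rw [h1] at ht
    have h3 : ((algebraMap (𝓞 k) (𝓞 F) t : 𝓞 F) : F) = algebraMap k F (t : k) := rfl
    have h4 : ((t : k) : ℂ) = 2 * w := by
      rw [← hal, ← h3, ht]
      change ((om : F) : ℂ) + ((om : F) : ℂ) = 2 * w
      rw [homC]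
      ring
    have h5 : (((t : k) / 2 : k) : ℂ) = w := by
      have : (((t : k) / 2 : k) : ℂ) = ((t : k) : ℂ) / 2 := rfl
      rw [this, h4]
      ring
    rw [← h5]
    exact ((t : k) / 2).2
  · exact sub_eq_zero.1 h

/-- the conjugation on `ℤ[ω]` -/
theorem sg_eF (a : Eis) : S.sg (eF F hw a) = eF F hw (star a) := by
  have h1 : ∀ a : Eis, eF F hw a = (a.re : 𝓞 F) + (a.im : 𝓞 F) * eF F hw ⟨0, 1⟩ := by
    intro a
    ext
    change emb a = (((a.re : 𝓞 F) : F) : ℂ) + (((a.im : 𝓞 F) : F) : ℂ) * emb ⟨0, 1⟩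
    rw [emb_apply, emb_apply]
    simp
  rw [h1 a, map_add, map_mul, sg_om hal hw hwk S, map_intCast, map_intCast, h1 (star a)]
  have e1 : (star a).re = a.re - a.im := by
    change a.re + -1 * a.im = _
    ring
  have e2 : (star a).im = -a.im := rfl
  rw [e1, e2]
  push_cast
  ring

/-- the generators of conjugate primes are conjugate -/
theorem psiv_sw (v : HeightOneSpectrum (𝓞 F)) : psiv F (S.sw v) = star (psiv F v) := by
  by_cases h3 : (3 : 𝓞 F) ∈ v.asIdeal
  · have h3' : (3 : 𝓞 F) ∈ (S.sw v).asIdeal := by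
      rw [S.mem_sw, map_ofNat]
      exact h3
    rw [psiv_three F hw v h3, psiv_three F hw _ h3', star_zero]
  · obtain ⟨b, f, hb, hbp, hvb, hf, hc, he⟩ := psiv_spec F hw v h3
    rw [he, star_pow]
    have hbs : Prime (star b) := by
      haveI := eis_isDomain
      exact (MulEquiv.prime_iff (starMulAut : MulAut Eis)).2 hbp
    refine psiv_eq F hw (S.sw v) (star b) f hb.star hbs ?_ hf ?_
    · rw [mem_above F hw, S.mem_sw, sg_eF hal hw hwk S, star_star]
      exact (mem_above F hw v b).1 hvb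
    · have h1 : Nat.card (𝓞 F ⧸ (S.sw v).asIdeal) = Nat.card (𝓞 F ⧸ v.asIdeal) := by
        refine Nat.card_congr (Ideal.quotientEquiv _ _ S.sg ?_).toEquiv
        ext x
        constructor
        · intro hx
          have : S.sg x ∈ (S.sw v).asIdeal := by
            rw [S.mem_sw, S.inv]
            exact hx
          have h2 := Ideal.mem_map_of_mem (S.sg : 𝓞 F →+* 𝓞 F) this
          change S.sg (S.sg x) ∈ _ at h2
          rw [S.inv] at h2
          exact h2
        · intro hx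
          rw [Ideal.mem_map_iff_of_surjective (S.sg : 𝓞 F →+* 𝓞 F) S.sg.surjective] at hx
          obtain ⟨y, hy, rfl⟩ := hx
          exact hy
      rw [h1, hc, QuadraticAlgebra.norm_star]

/-- the ramified primes are above `3` -/
theorem ram_three (v : HeightOneSpectrum (𝓞 F)) (hsw : S.sw v = v)
    (hc : Nat.card (𝓞 F ⧸ v.asIdeal) = Nat.card (𝓞 k ⧸ (und k v).asIdeal)) :
    (3 : 𝓞 F) ∈ v.asIdeal := by
  set om : 𝓞 F := eF F hw ⟨0, 1⟩ with hom
  have e1 : om ^ 2 + om + 1 = 0 := by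
    ext
    change ((om : F) : ℂ) ^ 2 + ((om : F) : ℂ) + 1 = 0
    rw [hom, eF_apply, emb_apply]
    push_cast
    linear_combination w_sq
  obtain ⟨r, hr⟩ := rmap_surjective v hc (Ideal.Quotient.mk _ om)
  obtain ⟨r, rfl⟩ := Ideal.Quotient.mk_surjective r
  rw [rmap_mk, Ideal.Quotient.eq] at hr
  have h1 : S.sg (algebraMap (𝓞 k) (𝓞 F) r - om) ∈ v.asIdeal := by
    have : algebraMap (𝓞 k) (𝓞 F) r - om ∈ (S.sw v).asIdeal := by rw [hsw]; exact hr
    exact this
  rw [map_sub, S.fix, sg_om hal hw hwk S, ← hom] at h1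
  have h2 : (2 * om + 1) ∈ v.asIdeal := by
    have e : 2 * om + 1 = (algebraMap (𝓞 k) (𝓞 F) r - (-1 - om)) -
        (algebraMap (𝓞 k) (𝓞 F) r - om) := by ring
    rw [e]
    exact Ideal.sub_mem _ h1 hr
  have e3 : (3 : 𝓞 F) = -((2 * om + 1) * (2 * om + 1)) := by linear_combination 4 * e1
  rw [e3]
  exact (Ideal.neg_mem_iff _).2 (Ideal.mul_mem_left _ _ h2)

include S in
/-- if `ω` is congruent to an element of `k` then the degree is one -/
theorem deg_one_of_root (v : HeightOneSpectrum (𝓞 F)) (h3 : (3 : 𝓞 F) ∉ v.asIdeal) (r : 𝓞 k)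
    (hr : r ^ 2 + r + 1 ∈ (und k v).asIdeal) :
    Nat.card (𝓞 F ⧸ v.asIdeal) = Nat.card (𝓞 k ⧸ (und k v).asIdeal) := by
  set om : 𝓞 F := eF F hw ⟨0, 1⟩ with hom
  have e1 : om ^ 2 + om + 1 = 0 := by
    ext
    change ((om : F) : ℂ) ^ 2 + ((om : F) : ℂ) + 1 = 0
    rw [hom, eF_apply, emb_apply]
    push_cast
    linear_combination w_sq
  have hsom := sg_om hal hw hwk S
  rw [← hom] at hsom
  -- an element of `k` congruent to `ω`
  obtain ⟨s, hs⟩ : ∃ s : 𝓞 k, om - algebraMap (𝓞 k) (𝓞 F) s ∈ v.asIdeal := by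
    have h1 : (om - algebraMap (𝓞 k) (𝓞 F) r) * (om - algebraMap (𝓞 k) (𝓞 F) (-1 - r)) ∈
        v.asIdeal := by
      rw [mem_und] at hr
      have e : (om - algebraMap (𝓞 k) (𝓞 F) r) * (om - algebraMap (𝓞 k) (𝓞 F) (-1 - r)) =
          -algebraMap (𝓞 k) (𝓞 F) (r ^ 2 + r + 1) := by
        simp only [map_add, map_sub, map_neg, map_pow, map_one]
        linear_combination e1
      rw [e]
      exact (Ideal.neg_mem_iff _).2 hr
    rcases v.isPrime.mem_or_mem h1 with h | h
    · exact ⟨_, h⟩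
    · exact ⟨_, h⟩
  have hsurj : Function.Surjective (rmap k v) := by
    intro y
    obtain ⟨x, rfl⟩ := Ideal.Quotient.mk_surjective y
    -- `3 x ∈ 𝓞 k + 𝓞 k ω`
    obtain ⟨t₁, ht₁⟩ := S.tr x
    obtain ⟨t₂, ht₂⟩ := S.tr (x * om)
    rw [map_mul, hsom] at ht₂
    -- `x + x' = t₁`, `x ω + x' ω' = t₂`; `x (ω - ω') = t₂ - t₁ ω'`, `(ω - ω')² = -3`
    have e2 : 3 * x = -((algebraMap (𝓞 k) (𝓞 F) t₂ - algebraMap (𝓞 k) (𝓞 F) t₁ * (-1 - om)) *
        (2 * om + 1)) := by
      rw [ht₁, ht₂]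
      linear_combination 4 * x * e1
    have h3k : (3 : 𝓞 k) ∉ (und k v).asIdeal := by
      rw [mem_und, map_ofNat]
      exact h3
    obtain ⟨i, hi⟩ : ∃ i : 𝓞 k, i * 3 - 1 ∈ (und k v).asIdeal := by
      haveI := (und k v).isMaximal
      letI := Ideal.Quotient.field (und k v).asIdeal
      have hne : Ideal.Quotient.mk (und k v).asIdeal 3 ≠ 0 := fun h0 =>
        h3k (Ideal.Quotient.eq_zero_iff_mem.1 h0)
      obtain ⟨i, hi⟩ := Ideal.Quotient.mk_surjective ((Ideal.Quotient.mk (und k v).asIdeal 3)⁻¹)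
      refine ⟨i, ?_⟩
      rw [← Ideal.Quotient.eq_zero_iff_mem, map_sub, map_mul, hi, inv_mul_cancel₀ hne, map_one,
        sub_self]
    refine ⟨Ideal.Quotient.mk _ (-(i * ((t₂ - t₁ * (-1 - s)) * (2 * s + 1)))), ?_⟩
    rw [rmap_mk, Ideal.Quotient.eq]
    rw [mem_und] at hi
    set A := algebraMap (𝓞 k) (𝓞 F) with hA
    have e3 : A (-(i * ((t₂ - t₁ * (-1 - s)) * (2 * s + 1)))) - x =
        (A (i * 3 - 1)) * x + (om - A s) * (A i *
          (A t₁ * (2 * om + 1) + 2 * (A t₂ - A t₁ * (-1 - A s)))) := by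
      have e4 : A i * (3 * x) = A i * (-((A t₂ - A t₁ * (-1 - om)) * (2 * om + 1))) := by rw [e2]
      simp only [map_neg, map_mul, map_sub, map_add, map_one, map_ofNat]
      linear_combination -e4
    rw [e3]
    exact Ideal.add_mem _ (Ideal.mul_mem_right _ _ hi) (Ideal.mul_mem_right _ _ hs)
  haveI := finite_quot v
  haveI := finite_quot (und k v)
  exact (Nat.card_eq_of_bijective _ ⟨rmap_injective v, hsurj⟩).symm

end

end TWR
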