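import Pool.Agent.MP_9ab903_nt.TWR.QA1

set_option autoImplicit false

open NumberField IsDedekindDomain
open CM27 CMT CF NAB
open scoped Classical ComplexConjugate

namespace TWR

/-! ## [TWR-QA2] fields without cube roots of unity: the local factors (file TWR/QA2.lean) -/

/-- a finite field with `q ≡ 1 mod 3` contains a primitive cube root of unity -/
theorem exists_root_of_card {R : Type} [Field R] [Finite R] (h : Nat.card R % 3 = 1) :
    ∃ x : R, x ^ 2 + x + 1 = 0 := by
  haveI := Fintype.ofFinite R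
  haveI : Fact (Nat.Prime 3) := ⟨Nat.prime_three⟩
  have h1 : 3 ∣ Fintype.card Rˣ := by
    rw [Fintype.card_units, ← Nat.card_eq_fintype_card]
    omega
  obtain ⟨x, hx⟩ := exists_prime_orderOf_dvd_card 3 h1
  have h2 : (x : R) ^ 3 = 1 := by
    rw [← Units.val_pow_eq_pow_val, ← hx, pow_orderOf_eq_one, Units.val_one]
  have h3 : (x : R) ≠ 1 := by
    intro h
    have : x = 1 := Units.ext h
    rw [this, orderOf_one] at hx
    omega
  refine ⟨x, ?_⟩
  have h4 : ((x : R) - 1) * ((x : R) ^ 2 + x + 1) = 0 := by linear_combination h2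
  exact (mul_eq_zero.1 h4).resolve_left (sub_ne_zero.2 h3)

section
variable {k F : IntermediateField ℚ ℂ} [NumberField k] [NumberField F] [Algebra k F]
  (hal : ∀ x : k, ((algebraMap k F x : F) : ℂ) = (x : ℂ)) [Algebra.IsQuadraticExtension k F]
  (hw : w ∈ F) (hwk : w ∉ k) (S : Sig k F)
include hal hw hwk

theorem card_sw {K L : Type} [Field K] [NumberField K] [Field L] [NumberField L] [Algebra K L]
    (S : Sig K L) (v : HeightOneSpectrum (𝓞 L)) :
    Nat.card (𝓞 L ⧸ (S.sw v).asIdeal) = Nat.card (𝓞 L ⧸ v.asIdeal) := by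
  refine Nat.card_congr (Ideal.quotientEquiv _ _ S.sg ?_).toEquiv
  ext x
  constructor
  · intro hx
    have : S.sg x ∈ (S.sw v).asIdeal := by
      rw [S.mem_sw, S.inv]
      exact hx
    have h2 := Ideal.mem_map_of_mem (S.sg : 𝓞 L →+* 𝓞 L) this
    change S.sg (S.sg x) ∈ _ at h2
    rw [S.inv] at h2
    exact h2
  · intro hx
    rw [Ideal.mem_map_iff_of_surjective (S.sg : 𝓞 L →+* 𝓞 L) S.sg.surjective] at hx
    obtain ⟨y, hy, rfl⟩ := hx
    exact hy

/-- the residue degree and characteristic at an inert prime -/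
theorem inert_data (v : HeightOneSpectrum (𝓞 F)) (h3 : (3 : 𝓞 F) ∉ v.asIdeal)
    (hc : Nat.card (𝓞 F ⧸ v.asIdeal) = Nat.card (𝓞 k ⧸ (und k v).asIdeal) ^ 2)
    (p f : ℕ) (hp : p.Prime) (hf : Nat.card (𝓞 k ⧸ (und k v).asIdeal) = p ^ f) :
    p % 3 = 2 ∧ Odd f := by
  have h1 : p ^ f % 3 ≠ 1 := by
    intro h
    haveI := finite_quot (und k v)
    haveI := (und k v).isMaximal
    letI := Ideal.Quotient.field (und k v).asIdeal
    obtain ⟨x, hx⟩ := exists_root_of_card (R := 𝓞 k ⧸ (und k v).asIdeal) (by rw [hf]; exact h)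
    obtain ⟨r, rfl⟩ := Ideal.Quotient.mk_surjective x
    have hr : r ^ 2 + r + 1 ∈ (und k v).asIdeal := by
      rw [← Ideal.Quotient.eq_zero_iff_mem, map_add, map_add, map_pow, map_one]
      exact hx
    obtain ⟨S⟩ := exists_Sig k F
    have h4 := deg_one_of_root hal hw hwk S v h3 r hr
    rw [h4, hf] at hc
    have h5 : 1 < p ^ f := by
      have h6 : Nontrivial (𝓞 k ⧸ (und k v).asIdeal) :=
        Ideal.Quotient.nontrivial_iff.2 (und k v).isPrime.ne_top
      rw [← hf]
      exact Finite.one_lt_card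
    nlinarith
  have hp3 : p % 3 ≠ 0 := by
    intro h
    have h5 : 3 = p := (Nat.prime_dvd_prime_iff_eq Nat.prime_three hp).1 (Nat.dvd_of_mod_eq_zero h)
    subst h5
    apply h3
    haveI := finite_quot (und k v)
    have h6 : ((3 ^ f : ℕ) : 𝓞 k) ∈ (und k v).asIdeal := by
      rw [← hf, ← Submodule.cardQuot_apply, ← Ideal.absNorm_apply]
      exact Ideal.absNorm_mem _
    rw [Nat.cast_pow] at h6
    have h7 := (und k v).isPrime.mem_of_pow_mem _ h6
    rw [mem_und, map_natCast] at h7
    exact_mod_cast h7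
  have h2 : p % 3 = 1 ∨ p % 3 = 2 := by omega
  rcases h2 with h2 | h2
  · exfalso
    apply h1
    rw [Nat.pow_mod, h2, one_pow]
    rfl
  · refine ⟨h2, ?_⟩
    rw [← Nat.not_even_iff_odd]
    rintro ⟨j, hj⟩
    apply h1
    rw [hj, ← two_mul, pow_mul, Nat.pow_mod, Nat.pow_mod p, h2]
    norm_num

include S in
/-- **the local factors** -/
theorem local_fac (d : 𝓞 k) (hd : d ≠ 0) (h4 : (4 : 𝓞 k) ∣ d - 1) (e : k)
    (he : 4 * e + 1 = (d : k) ^ 3) (u : HeightOneSpectrum (𝓞 F)) (h3 : (3 : 𝓞 F) ∉ u.asIdeal) :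
    ∃ a b : ℤ, ((Wt e).baseChange ((und k u).adicCompletion k)).localPolynomial
        ((und k u).adicCompletionIntegers k) =
        1 - Polynomial.C a * Polynomial.X + Polynomial.C b * Polynomial.X ^ 2 ∧
      ((S.sw u ≠ u ∧ Nat.card (𝓞 F ⧸ u.asIdeal) = Nat.card (𝓞 k ⧸ (und k u).asIdeal) ∧
        (a : ℂ) = lam F (algebraMap k F d) u.asIdeal + lam F (algebraMap k F d) (S.sw u).asIdeal ∧
        (b : ℂ) = lam F (algebraMap k F d) u.asIdeal * lam F (algebraMap k F d) (S.sw u).asIdeal) ∨
      (S.sw u = u ∧ Nat.card (𝓞 F ⧸ u.asIdeal) = Nat.card (𝓞 k ⧸ (und k u).asIdeal) ^ 2 ∧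
        a = 0 ∧ (b : ℂ) = -lam F (algebraMap k F d) u.asIdeal)) := by
  have h3k : (3 : 𝓞 k) ∉ (und k u).asIdeal := by
    rw [mem_und, map_ofNat]
    exact h3
  have hd0 : (d : k) ≠ 0 := RingOfIntegers.coe_ne_zero_iff.2 hd
  have hAd : AdG (d : k) := AdG_of_four h4
  have hdF0 : algebraMap k F (d : k) ≠ 0 := alg_ne hd0
  obtain ⟨hcr, hfin⟩ := card_residue k (und k u)
  refine ⟨_, _, local_poly k d h4 hd e he (und k u) h3k, ?_⟩
  have hevv : (∀ x : k, u.valuation F (algebraMap k F x) = (und k u).valuation k x) →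
      (ev u (algebraMap k F (d : k)) ↔ ev (und k u) (d : k)) := by
    intro hval
    rw [← isSquare_val u hdF0, ← isSquare_val (und k u) hd0, hval]
  rcases kinds S u with ⟨hne, hc, hval⟩ | ⟨hsw, hc, -, -⟩ | ⟨hsw, hc, hm, hval⟩
  · -- split
    left
    refine ⟨hne, hc, ?_⟩
    replace hevv := hevv hval
    have hs1 : symb (algebraMap k F (d : k)) u = symb (d : k) (und k u) := by
      by_cases hev : ev (und k u) (d : k)
      · exact symb_deg1 u hc hd0 hev (Or.inr hAd)
      · rw [(symb_eq_zero _ hd0).2 hev, symb_eq_zero _ hdF0, hevv]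
        exact hev
    have hs2 : symb (algebraMap k F (d : k)) (S.sw u) = symb (d : k) (und k u) := by
      rw [← symb_sF, sF_map, hs1]
    obtain ⟨b, f, hb, hbp, hvb, hf, hcard, hpsi⟩ := psiv_spec F hw u h3
    have h5 := card_E_prime b hb hbp f hf
      (IsLocalRing.ResidueField ((und k u).adicCompletionIntegers k)) (by rw [hcr, ← hc, hcard])
    have hl1 : lam F (algebraMap k F (d : k)) u.asIdeal =
        symb (d : k) (und k u) * emb b ^ f := by
      rw [lam_prime, hs1, hpsi, map_pow]
    have hl2 : lam F (algebraMap k F (d : k)) (S.sw u).asIdeal =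
        symb (d : k) (und k u) * conj (emb b) ^ f := by
      rw [lam_prime, hs2, psiv_sw hal hw hwk S, CM27.emb_star, hpsi, map_pow, map_pow]
    rw [hl1, hl2]
    constructor
    · push_cast
      rw [h5, hcr, ← hc, hcard]
      push_cast
      ring
    · have h6 : emb b * conj (emb b) = ((b.norm.natAbs : ℕ) : ℂ) := by
        rw [Complex.mul_conj, normSq_emb, Nat.cast_natAbs, abs_of_nonneg (CM27.norm_nonneg' _)]
        push_cast
        rfl
      rw [hcr, ← hc, hcard]
      have h7 : (((symb (d : k) (und k u) ^ 2 * ((b.norm.natAbs ^ f : ℕ) : ℤ)) : ℤ) : ℂ) =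
          (symb (d : k) (und k u) : ℂ) ^ 2 * ((b.norm.natAbs : ℕ) : ℂ) ^ f := by
        rw [Int.cast_mul, Int.cast_pow, Int.cast_natCast, Nat.cast_pow]
      rw [h7, ← h6, mul_pow]
      ring
  · -- ramified
    exact absurd (ram_three hal hw hwk S u hsw hc) h3
  · -- inert
    right
    refine ⟨hsw, hc, ?_⟩
    obtain ⟨p, hp, hpu⟩ : ∃ p : ℕ, p.Prime ∧ (p : 𝓞 k) ∈ (und k u).asIdeal := by
      haveI := (und k u).isPrime
      haveI : Finite (𝓞 k ⧸ (und k u).asIdeal) := finite_quot (und k u)
      haveI : Nontrivial (𝓞 k ⧸ (und k u).asIdeal) :=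
        Ideal.Quotient.nontrivial_iff.2 (und k u).isPrime.ne_top
      obtain ⟨p, hp⟩ := CharP.exists (𝓞 k ⧸ (und k u).asIdeal)
      rcases CharP.char_is_prime_or_zero (𝓞 k ⧸ (und k u).asIdeal) p with h | h
      · refine ⟨p, h, ?_⟩
        rw [← Ideal.Quotient.eq_zero_iff_mem, map_natCast]
        exact CharP.cast_eq_zero _ p
      · exfalso
        subst h
        haveI := CharP.charP_to_charZero (𝓞 k ⧸ (und k u).asIdeal)
        exact not_finite (𝓞 k ⧸ (und k u).asIdeal)
    obtain ⟨f, hf, hq⟩ := ar_card k (und k u) p hp hpu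
    obtain ⟨hp2, hfo⟩ := inert_data hal hw hwk u h3 hc p f hp hq
    have hp3 : p ≠ 3 := by rintro rfl; norm_num at hp2
    -- the number of points
    have hcardE : (Nat.card (E (IsLocalRing.ResidueField
        ((und k u).adicCompletionIntegers k))).toAffine.Point : ℤ) = (p : ℤ) ^ f + 1 := by
      obtain ⟨α, β, hαβ, hpsi, hpts⟩ := local_data p hp hp3
      have h2 := hpsi 1
      rw [Finset.sum_range_succ, Finset.sum_range_succ, Finset.sum_range_zero] at h2
      simp only [pow_zero, pow_one, zero_add, one_mul, mul_one, Nat.sub_self, Nat.sub_zero] at h2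
      have h4 := psi_inert p hp hp2 1
      rw [pow_one] at h4
      norm_num at h4
      have h5 : β = -α := by linear_combination h4 - h2
      have h6 := hpts f (IsLocalRing.ResidueField ((und k u).adicCompletionIntegers k)) hf
        (by rw [hcr, hq])
      rw [h5, hfo.neg_pow] at h6
      have h7 : ((Nat.card (E (IsLocalRing.ResidueField
        ((und k u).adicCompletionIntegers k))).toAffine.Point : ℕ) : ℂ) =
          (((p ^ f + 1 : ℕ)) : ℂ) := by
        rw [h6]
        push_cast
        ring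
      exact_mod_cast h7
    have hpsi : psiv F u = -((p : Eis) ^ f) := by
      have h1 := psiv_eq F hw u (-(p : Eis)) f (primary_neg_cast hp2) (a3_prime_inert p hp hp2).neg
        ((mem_above_neg F hw p u).2 (by rw [mem_und, map_natCast] at hpu; exact hpu)) hf (by
          have hnorm : (-(p : Eis)).norm.natAbs = p ^ 2 := by
            have h1 : (-(p : Eis)).norm = (p : ℤ) ^ 2 := by
              rw [norm_eq]
              simp
            rw [h1, Int.natAbs_pow, Int.natAbs_natCast]
          rw [hc, hq, hnorm]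
          ring)
      rw [h1, hfo.neg_pow]
    have hs : symb (algebraMap k F (d : k)) u = symb (d : k) (und k u) ^ 2 := by
      by_cases hev : ev (und k u) (d : k)
      · rw [symb_inert_k S u hsw hc hm hd0 ((hevv hval).2 hev) (Or.inr hAd),
          pow_two, symb_self _ hd0 hev]
      · rw [(symb_eq_zero _ hd0).2 hev, (symb_eq_zero _ hdF0).2 (by
          rw [hevv hval]
          exact hev)]
        rfl
    constructor
    · rw [hcardE, hcr, hq]
      push_cast
      ring
    · rw [lam_prime, hs, hpsi, hcr, hq, map_neg, map_pow, map_natCast]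
      push_cast
      ring

end

end TWR
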