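import Pool.Agent.MP_9ab903_nt.TWR.QA2

set_option autoImplicit false

open NumberField IsDedekindDomain ArithmeticFunction
open CM27 CMT CF NAB
open scoped Classical ComplexConjugate

namespace TWR

/-! ## [TWR-QA3] fields without cube roots of unity: the `L`-series (file TWR/QA3.lean) -/

section
variable {k F : IntermediateField ℚ ℂ} [NumberField k] [NumberField F] [Algebra k F]
  (hal : ∀ x : k, ((algebraMap k F x : F) : ℂ) = (x : ℂ)) [Algebra.IsQuadraticExtension k F]
  (hw : w ∈ F) (hwk : w ∉ k)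
include hal hw hwk

/-- **`L(E_d / k, s) = L(λ, s)` if `k` does not contain `ω`, `F = k(ω)`** -/
theorem LCW_down (h3 : ∀ v : HeightOneSpectrum (𝓞 k), (3 : 𝓞 k) ∈ v.asIdeal →
      ∃ (m : ℕ) (ϖ u : v.adicCompletionIntegers k), ¬ 3 ∣ m ∧ Irreducible ϖ ∧ IsUnit u ∧
      (3 : v.adicCompletionIntegers k) = u * ϖ ^ m)
    (d : 𝓞 k) (hd : d ≠ 0) (h4 : (4 : 𝓞 k) ∣ d - 1) (e : k) (he : 4 * e + 1 = (d : k) ^ 3) :
    LCW k (Wt e) = IL F (lam F (algebraMap k F d)) := by
  obtain ⟨S⟩ := exists_Sig k F
  have hd0 : (d : k) ≠ 0 := RingOfIntegers.coe_ne_zero_iff.2 hd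
  set f : Ideal (𝓞 F) → ℂ := lam F (algebraMap k F d) with hf
  have f1 : f 1 = 1 := lam_one F _
  have fmul : ∀ I J, f (I * J) = f I * f J := lam_mul F _
  rw [ArithmeticFunction.IsMultiplicative.eq_iff_eq_on_prime_powers _ (isMultiplicative_LCW k _) _
    (isMultiplicative_IL F f f1 fmul)]
  intro p i hp
  rw [← coeff_loc, ← coeff_loc]
  congr 1
  -- the primes above `p`
  have hfink : {v : HeightOneSpectrum (𝓞 k) | (p : 𝓞 k) ∈ v.asIdeal}.Finite := by
    have h30 : Ideal.span {(p : 𝓞 k)} ≠ 0 := by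
      rw [Ne, Ideal.zero_eq_bot, Ideal.span_singleton_eq_bot]
      exact_mod_cast hp.ne_zero
    refine (Ideal.finite_factors h30).subset ?_
    intro v hv
    exact Ideal.dvd_span_singleton.2 hv
  set t := hfink.toFinset with ht
  have hmemt : ∀ v : HeightOneSpectrum (𝓞 k), v ∈ t ↔ (p : 𝓞 k) ∈ v.asIdeal := fun v => by
    simp [ht]
  choose up hup using fun v : HeightOneSpectrum (𝓞 k) => exists_above (F := F) v
  set s : Finset (HeightOneSpectrum (𝓞 F)) := t.image up ∪ t.image (fun v => S.sw (up v)) with hs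
  have hst : ∀ u, u ∈ s ↔ und k u ∈ t := by
    intro u
    rw [hs, Finset.mem_union, Finset.mem_image, Finset.mem_image]
    constructor
    · rintro (⟨v, hv, rfl⟩ | ⟨v, hv, rfl⟩)
      · rwa [hup]
      · rwa [S.und_sw, hup]
    · intro hu
      rcases above_eq S (up (und k u)) u (by rw [hup]) with h1 | h1
      · exact Or.inl ⟨_, hu, h1.symm⟩
      · exact Or.inr ⟨_, hu, h1.symm⟩
  have hmems : ∀ u : HeightOneSpectrum (𝓞 F), u ∈ s ↔ (p : 𝓞 F) ∈ u.asIdeal := fun u => by
    rw [hst, hmemt, mem_und, map_natCast]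
  -- residue degrees
  have hdd : ∀ u : HeightOneSpectrum (𝓞 F), ∃ j : ℕ, u ∈ s → 0 < j ∧
      Ideal.absNorm u.asIdeal = p ^ j := by
    intro u
    by_cases hu : u ∈ s
    · obtain ⟨j, h1, h2⟩ := CF.ar_card F u p hp ((hmems u).1 hu)
      exact ⟨j, fun _ => ⟨h1, by rw [Ideal.absNorm_apply, Submodule.cardQuot_apply, h2]⟩⟩
    · exact ⟨0, fun h => absurd h hu⟩
  choose D hD using hdd
  have hfl := loc_IL F f f1 fmul hp s hmems D hD
  refine CF.ar_uniq (d := ∏ u ∈ s, (1 - PowerSeries.C (f u.asIdeal) * PowerSeries.X ^ D u)) ?_ hfl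
  rw [← Finset.prod_fiberwise_of_maps_to (s := s) (t := t) (g := und k) (fun u hu => (hst u).1 hu),
    loc_LCW, loc_LFunctionW k _ hp t (fun v hv => (hmemt v).2 hv), map_prod,
    ← Finset.prod_mul_distrib]
  refine Finset.prod_eq_one fun v hv => ?_
  have hfib : s.filter (fun u => und k u = v) = {up v, S.sw (up v)} := by
    ext u
    rw [Finset.mem_filter, hst, Finset.mem_insert, Finset.mem_singleton]
    constructor
    · rintro ⟨-, h4⟩
      exact above_eq S (up v) u (by rw [hup, h4])
    · rintro (rfl | rfl)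
      · rw [hup]; exact ⟨hv, rfl⟩
      · rw [S.und_sw, hup]; exact ⟨hv, rfl⟩
  rw [hfib]
  have hus : up v ∈ s := by rw [hst, hup]; exact hv
  have hus' : S.sw (up v) ∈ s := by rw [hst, S.und_sw, hup]; exact hv
  have hpv := (hmemt v).1 hv
  by_cases hv3 : (3 : 𝓞 k) ∈ v.asIdeal
  · -- above `3`
    obtain ⟨m, ϖ, u, hm, hϖ, hu, h⟩ := h3 v hv3
    have hchar : CharZero (v.adicCompletion k) :=
      charZero_of_injective_algebraMap (algebraMap k (v.adicCompletion k)).injective
    have h5 : fW k (Wt e) v = 1 := by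
      apply fW_one k (Wt e) v
      rw [baseChange_Wt']
      refine localPoly_three_tw _ _ m hm ϖ u hϖ hu h (algebraMap k (v.adicCompletion k) (d : k)) _
        ?_ ?_
      · exact (map_ne_zero_iff _ (algebraMap k (v.adicCompletion k)).injective).2 hd0
      · have h9 := congrArg (algebraMap k (v.adicCompletion k)) he
        rw [map_add, map_mul, map_pow, map_one, map_ofNat] at h9
        exact h9
    have hz : ∀ u : HeightOneSpectrum (𝓞 F), und k u = v → f u.asIdeal = 0 := by
      intro u hu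
      have h6 : (3 : 𝓞 F) ∈ u.asIdeal := by
        rw [← hu, mem_und, map_ofNat] at hv3
        exact hv3
      rw [hf, lam_prime, psiv_three F hw u h6, _root_.map_zero, mul_zero]
    rw [h5, loc_one hp, map_one, one_mul]
    refine Finset.prod_eq_one fun u hu => ?_
    have h7 : und k u = v := by
      rw [← hfib, Finset.mem_filter] at hu
      exact hu.2
    rw [hz u h7, _root_.map_zero, zero_mul, sub_zero]
  · have h3u : (3 : 𝓞 F) ∉ (up v).asIdeal := by
      intro h
      apply hv3
      rw [← hup v, mem_und, map_ofNat]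
      exact h
    obtain ⟨a, b, hab, hcase⟩ := local_fac hal hw hwk S d hd h4 e he (up v) h3u
    rw [hup v] at hab hcase
    obtain ⟨j, hj, hq⟩ := ar_card k v p hp hpv
    have hq' : Nat.card (IsLocalRing.ResidueField (v.adicCompletionIntegers k)) = p ^ j := by
      rw [(card_residue k v).1, hq]
    have h1 := loc_fW k (Wt e) v hp hj a b hq' hab
    have hDu := (hD _ hus).2
    have hDu' := (hD _ hus').2
    rw [Ideal.absNorm_apply, Submodule.cardQuot_apply] at hDu hDu'
    rcases hcase with ⟨hne, hc, ha, hb⟩ | ⟨hsw, hc, ha, hb⟩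
    · have hD1 : D (up v) = j := by
        rw [hc, hq] at hDu
        exact (Nat.pow_right_injective hp.two_le hDu).symm
      have hD2 : D (S.sw (up v)) = j := by
        rw [card_sw hal hw hwk S, hc, hq] at hDu'
        exact (Nat.pow_right_injective hp.two_le hDu').symm
      rw [Finset.prod_pair (Ne.symm hne), hD1, hD2]
      rw [ha, hb] at h1
      refine Eq.trans ?_ h1
      congr 1
      simp only [map_add, map_mul]
      ring
    · have hD1 : D (up v) = 2 * j := by
        rw [hc, hq, ← pow_mul, mul_comm] at hDu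
        exact (Nat.pow_right_injective hp.two_le hDu).symm
      rw [hsw, Finset.pair_eq_singleton, Finset.prod_singleton, hD1]
      rw [ha, hb] at h1
      refine Eq.trans ?_ h1
      congr 1
      simp only [Int.cast_zero, _root_.map_zero, map_neg]
      ring

end

end TWR
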