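import Pool.Agent.MP_9ab903_nt.TWR.QA3

set_option autoImplicit false

open NumberField IsDedekindDomain
open CM27 CMT CF NAB
open scoped Classical ComplexConjugate

namespace TWR

/-! ## [TWR-QA4] fields without cube roots of unity: norms and rationality (file TWR/QA4.lean) -/

theorem KK_fix (σ : ℂ ≃+* ℂ) (hσ : σ w = w) (x : ℂ) (hx : x ∈ KK) : σ x = x :=
  d2_AutK_fix ⟨σ, hσ⟩ x hx

/-- a real element of `ℚ(ω)` is rational -/
theorem KK_real (x : ℂ) (hx : x ∈ KK) (hr : conj x = x) : ∃ q : ℚ, (q : ℂ) = x := by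
  have halg : IsAlgebraic ℚ x := by
    have h1 : IsAlgebraic ℚ (⟨x, hx⟩ : KK) := Algebra.IsAlgebraic.isAlgebraic _
    exact h1.algebraMap
  refine fixed_rat x halg fun σ => ?_
  have h1 : σ w * σ w = -1 - σ w := by
    rw [← map_mul, w_sq, map_sub, map_neg, map_one]
  rcases a7_w_cases (σ w) h1 with h2 | h2
  · exact KK_fix σ h2 x hx
  · set σ' : ℂ ≃+* ℂ := σ.trans (starRingAut : ℂ ≃+* ℂ) with hσ'
    have h3 : ∀ x, σ' x = conj (σ x) := fun x => rfl
    have h4 : σ' w = w := by rw [h3, h2, Complex.conj_conj]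
    have h5 := KK_fix σ' h4 x hx
    rw [h3] at h5
    rw [← Complex.conj_conj (σ x), h5, hr]

section
variable {k F : IntermediateField ℚ ℂ} [NumberField k] [NumberField F] [Algebra k F]
  (hal : ∀ x : k, ((algebraMap k F x : F) : ℂ) = (x : ℂ)) [Algebra.IsQuadraticExtension k F]
  (hw : w ∈ F) (hwk : w ∉ k) (h2 : Module.finrank ℚ F = 2 * Module.finrank ℚ k)
include hal hw hwk h2

/-- the norm to `ℚ(ω)` of an element of `k` -/
theorem norm_down (x : k) : letI := algK F hw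
    ((Algebra.norm KK (algebraMap k F x) : KK) : ℂ) = ((Algebra.norm ℚ x : ℚ) : ℂ) := by
  letI := algK F hw
  haveI := d2_tower F hw
  haveI := d2_finite F hw
  obtain ⟨S⟩ := exists_Sig k F
  have h1 := Algebra.norm_eq_prod_embeddings KK ℂ (algebraMap k F x)
  have h3 := Algebra.norm_eq_prod_embeddings ℚ ℂ x
  let R : (F →ₐ[KK] ℂ) → (k →ₐ[ℚ] ℂ) := fun σ =>
    ((σ : F →+* ℂ).comp (algebraMap k F)).toRatAlgHom
  have hR : ∀ (σ : F →ₐ[KK] ℂ) (y : k), R σ y = σ (algebraMap k F y) := fun σ y => rfl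
  set om : F := ⟨w, hw⟩ with hom
  have homi : ((eF F hw ⟨0, 1⟩ : 𝓞 F) : F) = om := by
    ext
    rw [eF_apply, emb_apply]
    push_cast
    change (0 : ℂ) + 1 * w = w
    ring
  have hsom : sF S om = -1 - om := by
    have h4 := sg_om hal hw hwk S
    have h5 := congrArg (fun z : 𝓞 F => (z : F)) h4
    change ((S.sg (eF F hw ⟨0, 1⟩) : 𝓞 F) : F) = ((-1 - eF F hw ⟨0, 1⟩ : 𝓞 F) : F) at h5
    rw [← sF_coe, homi] at h5
    rw [h5]
    change -(1 : F) - ((eF F hw ⟨0, 1⟩ : 𝓞 F) : F) = _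
    rw [homi]
  have hσom : ∀ σ : F →ₐ[KK] ℂ, σ om = w := fun σ => σ.commutes ⟨w, d2_w_mem⟩
  have hinj : Function.Injective R := by
    intro σ τ h
    have hk : ∀ y : k, σ (algebraMap k F y) = τ (algebraMap k F y) := fun y => by
      rw [← hR, ← hR, h]
    ext z
    obtain ⟨t₁, ht₁⟩ := tr_sF S z
    obtain ⟨t₂, ht₂⟩ := tr_sF S (z * om)
    rw [map_mul, hsom] at ht₂
    have hne : 2 * w + 1 ≠ 0 := by
      intro h0
      have h5 : (2 * w + 1) ^ 2 = -3 := by linear_combination 4 * w_sq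
      rw [h0] at h5
      norm_num at h5
    have key : ∀ ρ : F →ₐ[KK] ℂ, ρ z * (2 * w + 1) =
        ρ (algebraMap k F t₂) - ρ (algebraMap k F t₁) * (-1 - w) := by
      intro ρ
      rw [ht₁, ht₂]
      simp only [map_add, map_mul, map_sub, map_neg, map_one, hσom]
      ring
    have e1 := key σ
    rw [hk, hk, ← key τ] at e1
    exact mul_right_cancel₀ hne e1
  have hbij : Function.Bijective R := by
    rw [Fintype.bijective_iff_injective_and_card]
    refine ⟨hinj, ?_⟩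
    rw [AlgHom.card, AlgHom.card]
    have h4 := d2_finrank F hw
    omega
  have h4 : ((Algebra.norm KK (algebraMap k F x) : KK) : ℂ) =
      ∏ σ : F →ₐ[KK] ℂ, σ (algebraMap k F x) := h1
  have h5 : ((Algebra.norm ℚ x : ℚ) : ℂ) = ∏ σ : k →ₐ[ℚ] ℂ, σ x := h3
  rw [h4, h5]
  exact Fintype.prod_bijective R hbij _ _ fun σ => (hR σ x).symm

omit hal hw hwk h2 in
/-- the norm to `ℚ` of an element of `k` -/
theorem norm_sq_down (x : k) : Algebra.norm ℚ (algebraMap k F x) = Algebra.norm ℚ x ^ 2 := by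
  haveI : IsScalarTower ℚ k F := IsScalarTower.of_algebraMap_eq' (Subsingleton.elim _ _)
  haveI : FiniteDimensional k F := Module.Finite.of_restrictScalars_finite ℚ k F
  have h1 : Algebra.norm ℚ (Algebra.norm k (algebraMap k F x)) =
      Algebra.norm ℚ (algebraMap k F x) := Algebra.norm_norm (R := ℚ) (S := k)
  rw [← h1, Algebra.norm_algebraMap, Algebra.IsQuadraticExtension.finrank_eq_two k F, map_pow]

omit hal hw hwk h2 in
theorem natAbs_norm_down (d : 𝓞 k) : (Algebra.norm ℤ (algebraMap (𝓞 k) (𝓞 F) d)).natAbs =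
    (Algebra.norm ℤ d).natAbs ^ 2 := by
  have h1 := norm_sq_down (F := F) (d : k)
  have h2 : Algebra.norm ℚ (algebraMap k F (d : k)) =
      ((Algebra.norm ℤ (algebraMap (𝓞 k) (𝓞 F) d) : ℤ) : ℚ) :=
    (Algebra.coe_norm_int (algebraMap (𝓞 k) (𝓞 F) d)).symm
  have h3 : Algebra.norm ℚ (d : k) = ((Algebra.norm ℤ d : ℤ) : ℚ) :=
    (Algebra.coe_norm_int d).symm
  rw [h2, h3] at h1
  have h4 : Algebra.norm ℤ (algebraMap (𝓞 k) (𝓞 F) d) = Algebra.norm ℤ d ^ 2 := by exact_mod_cast h1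
  rw [h4, Int.natAbs_pow]

end

/-- an entire function with real Dirichlet coefficients is real at `1` -/
theorem real_at_one (Φ : ℂ → ℂ) (hΦ : Differentiable ℂ Φ) (f : ℕ → ℂ) (hf : ∀ n, conj (f n) = f n)
    (h : ∀ s : ℂ, 3 / 2 < s.re → Φ s = LSeries f s) : conj (Φ 1) = Φ 1 := by
  set Ψ : ℂ → ℂ := fun s => conj (Φ (conj s)) with hΨ
  have cc : Differentiable ℂ Ψ := fun s => differentiableAt_conj_conj_iff.2 (hΦ (conj s))
  have h1 : AnalyticOnNhd ℂ Φ Set.univ := Complex.analyticOnNhd_univ_iff_differentiable.2 hΦ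
  have h2 : AnalyticOnNhd ℂ Ψ Set.univ := Complex.analyticOnNhd_univ_iff_differentiable.2 cc
  have hev : Ψ =ᶠ[nhds 2] Φ := by
    have hopen : IsOpen {s : ℂ | 3 / 2 < s.re} := isOpen_lt continuous_const Complex.continuous_re
    filter_upwards [hopen.mem_nhds (show (2 : ℂ) ∈ {s : ℂ | 3 / 2 < s.re} by
      simp only [Set.mem_setOf_eq, Complex.re_ofNat]
      norm_num)] with s hs
    have hs' : 3 / 2 < (conj s).re := by rw [Complex.conj_re]; exact hs
    change conj (Φ (conj s)) = Φ s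
    rw [h (conj s) hs', h s hs, ← CMT.LSeries_conj]
    congr 1
    funext n
    exact hf n
  have h3 := h2.eq_of_eventuallyEq h1 hev
  have h4 := congrFun h3 1
  rw [hΨ] at h4
  simpa using h4

end TWR
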