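import Pool.Agent.MP_9ab903_nt.TWR.QA4
import Pool.Agent.MP_9ab903_nt.TWQ.P2
import Pool.Agent.MP_9ab903_nt.TWQ.D1

set_option autoImplicit false

open NumberField IsDedekindDomain
open CM27 CMT CF NAB
open scoped Classical ComplexConjugate

namespace TWR

/-! ## [TWR-QA5] fields without cube roots of unity: the value (file TWR/QA5.lean) -/

/-- algebra of the value -/
theorem value_alg {n j : ℕ} {P D M X A δ ρ O T : ℂ} (hO : O ^ 2 = -M)
    (hM : M ≠ 0) (hρ : ρ ^ 2 = X) (hδ : (δ * A) ^ 2 = D) (hT : T ^ 2 = -3) :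
    (P / O ^ n * δ * ρ * A / T ^ j) ^ 2 =
      P ^ 2 * ((-1) ^ (n + j) * (D * X)) / (3 ^ j * M ^ n) := by
  have hO0 : O ≠ 0 := by
    rintro rfl
    apply hM
    linear_combination hO
  have hT0 : T ≠ 0 := by
    rintro rfl
    norm_num at hT
  have e1 : (O ^ n) ^ 2 = (-1) ^ n * M ^ n := by
    rw [← pow_mul, mul_comm n 2, pow_mul, hO, ← mul_pow]
    ring
  have e2 : (T ^ j) ^ 2 = (-1) ^ j * 3 ^ j := by
    rw [← pow_mul, mul_comm j 2, pow_mul, hT, ← mul_pow]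
    norm_num
  have e3 : (P / O ^ n * δ * ρ * A / T ^ j) ^ 2 =
      P ^ 2 * (ρ ^ 2 * (δ * A) ^ 2) / ((O ^ n) ^ 2 * (T ^ j) ^ 2) := by
    field_simp
  rw [e3, e1, e2, hρ, hδ]
  have e4 : ((-1 : ℂ)) ^ n * (-1) ^ n = 1 := by rw [← mul_pow]; norm_num
  have e5 : ((-1 : ℂ)) ^ j * (-1) ^ j = 1 := by rw [← mul_pow]; norm_num
  have hM' := pow_ne_zero n hM
  have h3 : (3 : ℂ) ^ j ≠ 0 := pow_ne_zero _ (by norm_num)
  have h1n : ((-1 : ℂ)) ^ n ≠ 0 := pow_ne_zero _ (by norm_num)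
  have h1j : ((-1 : ℂ)) ^ j ≠ 0 := pow_ne_zero _ (by norm_num)
  rw [div_eq_div_iff (mul_ne_zero (mul_ne_zero h1n hM') (mul_ne_zero h1j h3)) (mul_ne_zero h3 hM'),
    pow_add]
  linear_combination (-(P ^ 2 * X * D * 3 ^ j * M ^ n) * ((-1) ^ j * (-1) ^ j)) * e4 -
    (P ^ 2 * X * D * 3 ^ j * M ^ n) * e5

section
variable {k F : IntermediateField ℚ ℂ} [NumberField k] [NumberField F]
  (hkF : k ≤ F) (hwk : w ∉ k) (h2 : Module.finrank ℚ F = 2 * Module.finrank ℚ k)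
  (hC : Cls F) (hA : AN F)
include hkF hwk h2 hC hA

/-- **The value of the `L`-function of `E_d / k`, `k` without cube roots of unity.** -/
theorem analytic_down (d : 𝓞 k) (hd : d ≠ 0) (h4 : (4 : 𝓞 k) ∣ d - 1)
    (hgood : ∀ v : HeightOneSpectrum (𝓞 F),
      ¬ ev v (⟨((d : k) : ℂ), hkF (d : k).2⟩ : F) → GP v)
    (h3 : ∀ v : HeightOneSpectrum (𝓞 k), (3 : 𝓞 k) ∈ v.asIdeal →
      ∃ (m : ℕ) (ϖ u : v.adicCompletionIntegers k), ¬ 3 ∣ m ∧ Irreducible ϖ ∧ IsUnit u ∧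
      (3 : v.adicCompletionIntegers k) = u * ϖ ^ m)
    (e : k) (he : 4 * e + 1 = (d : k) ^ 3) : ∃ L : ℂ → ℂ, Differentiable ℂ L ∧
    (∀ s : ℂ, 3 / 2 < s.re → LSeriesSummable (fun n => ((Wt e).LFunction n : ℂ)) s ∧
      L s = (Wt e).LSeries s) ∧ L 1 ≠ 0 ∧
    ∃ q : ℚ, q ≠ 0 ∧ padicValRat 2 q = 0 ∧ L 1 * ((√|(discr k : ℝ)| : ℝ) : ℂ) =
      q * ((∏ v : InfinitePlace k, SBSD.archPeriod (Wt e) v : ℝ) : ℂ) := by
  have hw := hC.tow.mem
  letI : Algebra k F := algI hkF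
  haveI := quadI hkF h2
  have hal : ∀ x : k, ((algebraMap k F x : F) : ℂ) = (x : ℂ) := fun _ => rfl
  have hd0 : (d : k) ≠ 0 := RingOfIntegers.coe_ne_zero_iff.2 hd
  obtain ⟨r, hr⟩ : ∃ r : ℕ, Module.finrank ℚ k = r + 1 :=
    ⟨Module.finrank ℚ k - 1, (Nat.sub_add_cancel Module.finrank_pos).symm⟩
  have hn : Module.finrank ℚ F = 2 * (r + 1) := by rw [h2, hr]
  set dF : 𝓞 F := algebraMap (𝓞 k) (𝓞 F) d with hdF
  have hdFc : (dF : F) = algebraMap k F (d : k) := rfl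
  have hdF0 : dF ≠ 0 := by
    rw [hdF]
    exact (map_ne_zero_iff _ (RingOfIntegers.algebraMap.injective k F)).2 hd
  have h4F : (4 : 𝓞 F) ∣ dF - 1 := by
    obtain ⟨c, hc⟩ := h4
    refine ⟨algebraMap (𝓞 k) (𝓞 F) c, ?_⟩
    rw [hdF, ← map_one (algebraMap (𝓞 k) (𝓞 F)), ← map_sub, hc, map_mul, map_ofNat]
  obtain ⟨Φ, hΦ, hs, ⟨q₀, hq₀, vq₀, eq₀⟩, s, δ, hS, hδ, hdis, hx⟩ :=
    adata2 hC hA hw r hn dF hdF0 h4F hgood
  have hL : LCW k (Wt e) = IL F (NAB.lam F (algebraMap k F d)) :=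
    LCW_down hal hw hwk h3 d hd h4 e he
  have hLs : ∀ t : ℂ, 3 / 2 < t.re → Φ t = LSeries (fun n => LCW k (Wt e) n) t := by
    intro t ht
    rw [hs t ht, hL]
    rfl
  -- reality
  have hreal : conj (Φ 1) = Φ 1 := by
    refine real_at_one Φ hΦ (fun n => LCW k (Wt e) n) (fun n => ?_) hLs
    rw [LCW_apply]
    exact map_intCast (starRingEnd ℂ) _
  -- the norm of `d`
  set X : ℚ := Algebra.norm ℚ (d : k) with hX
  have hXZ : X = ((Algebra.norm ℤ d : ℤ) : ℚ) := (Algebra.coe_norm_int d).symm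
  have hX0 : X ≠ 0 := by
    rw [hX]
    exact (Algebra.norm_ne_zero_iff).2 hd0
  obtain ⟨ρ, hρ⟩ := IsAlgClosed.exists_pow_nat_eq ((X : ℚ) : ℂ) (by norm_num : 0 < 2)
  obtain ⟨x, hx⟩ := hx ρ (by
    letI := algK F hw
    rw [hρ, hdFc, norm_down hal hw hwk h2])
  rw [hreal] at hx
  obtain ⟨a, ha⟩ := TWQ.det_rel k F hkF hw hwk hr h2 s hS δ hδ
  obtain ⟨j, hprod, hsign⟩ := TWQ.arch_prod k (d : k) e hd0 he
  rw [hr] at hprod hsign
  -- the element of `ℚ(ω)`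
  have hT : (2 * w + 1) ^ 2 = -3 := by linear_combination 4 * w_sq
  have hOmp := Om_pos
  have hOm0 : ((Om : ℝ) : ℂ) ^ 2 ≠ 0 := by
    apply pow_ne_zero
    exact_mod_cast hOmp.ne'
  have hO2 : OmC ^ 2 = -(((Om : ℝ) : ℂ) ^ 2) := by
    rw [OmC, mul_pow, Complex.I_sq]
    ring
  have hval := value_alg (n := r + 1) (j := j) (P := Φ 1) hO2 hOm0 hρ ha hT
  set κ : ℂ := Φ 1 / OmC ^ (r + 1) * δ * ρ * emb a / (2 * w + 1) ^ j with hκ
  have hκK : κ ∈ KK := by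
    rw [hκ, ← hx]
    refine KK.div_mem (KK.mul_mem x.2 (d2_emb_mem a)) (KK.pow_mem ?_ j)
    exact KK.add_mem (KK.mul_mem (by exact_mod_cast (natCast_mem KK 2)) d2_w_mem) KK.one_mem
  -- the sign
  set D : ℤ := discr k with hD
  have hD0 : D ≠ 0 := NumberField.discr_ne_zero k
  have habs : (-1 : ℚ) ^ (r + 1 + j) * (D : ℚ) * X = |(D : ℚ)| * |X| := by
    rw [← abs_of_pos hsign, abs_mul, abs_mul, abs_pow, abs_neg, abs_one, one_pow, one_mul]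
  -- the real number
  set y : ℝ := (Φ 1).re * √|(D : ℝ)| * √|(X : ℝ)| / (√3 ^ j * Om ^ (r + 1)) with hy
  have hΦr : (((Φ 1).re : ℝ) : ℂ) = Φ 1 := Complex.conj_eq_iff_re.1 hreal
  have h3j : (√3 ^ j) ^ 2 = (3 : ℝ) ^ j := by
    rw [← pow_mul, mul_comm j 2, pow_mul, Real.sq_sqrt (by norm_num)]
  have hden : (0 : ℝ) < √3 ^ j * Om ^ (r + 1) := by positivity
  have hy2 : y ^ 2 = (Φ 1).re ^ 2 * (|(D : ℝ)| * |(X : ℝ)|) / (3 ^ j * (Om ^ 2) ^ (r + 1)) := by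
    rw [hy, div_pow, mul_pow, mul_pow, mul_pow, Real.sq_sqrt (abs_nonneg _),
      Real.sq_sqrt (abs_nonneg _), h3j, ← pow_mul Om (r + 1) 2, mul_comm (r + 1) 2, pow_mul]
    ring
  have hyκ : ((y : ℝ) : ℂ) ^ 2 = κ ^ 2 := by
    rw [hval]
    have h5 : (((-1 : ℚ) ^ (r + 1 + j) * (D : ℚ) * X : ℚ) : ℂ) = ((|(D : ℝ)| * |(X : ℝ)| : ℝ) : ℂ) := by
      have h5R : (((-1 : ℚ) ^ (r + 1 + j) * (D : ℚ) * X : ℚ) : ℝ) = |(D : ℝ)| * |(X : ℝ)| := by
        rw [habs, Rat.cast_mul, Rat.cast_abs, Rat.cast_abs, Rat.cast_intCast]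
      rw [← h5R, Complex.ofReal_ratCast]
    have h6 : ((y ^ 2 : ℝ) : ℂ) = Φ 1 ^ 2 * ((|(D : ℝ)| * |(X : ℝ)| : ℝ) : ℂ) /
        (3 ^ j * (((Om : ℝ) : ℂ) ^ 2) ^ (r + 1)) := by
      rw [hy2, ← hΦr]
      push_cast
      rfl
    rw [← h5] at h6
    push_cast at h6 ⊢
    rw [h6]
    ring
  have hyK : ((y : ℝ) : ℂ) ∈ KK := by
    rcases sq_eq_sq_iff_eq_or_eq_neg.1 hyκ with h | h
    · rw [h]; exact hκK
    · rw [h]; exact KK.neg_mem hκK
  obtain ⟨q, hq⟩ := KK_real _ hyK (Complex.conj_ofReal y)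
  have hqy : (q : ℝ) = y := by exact_mod_cast hq
  -- the norm relation
  have hδn : √|(discr F : ℝ)| = √3 ^ (r + 1) * ‖δ‖ ^ 2 := by
    have h3k : (3 : ℝ) ^ (r + 1) = (√3 ^ (r + 1)) ^ 2 := by
      rw [← pow_mul, mul_comm (r + 1) 2, pow_mul, Real.sq_sqrt (by norm_num)]
    rw [hdis, h3k]
    have : (√3 ^ (r + 1)) ^ 2 * ‖δ‖ ^ 4 = (√3 ^ (r + 1) * ‖δ‖ ^ 2) ^ 2 := by ring
    rw [this, Real.sqrt_sq (by positivity)]
  have hXn : √((Algebra.norm ℤ dF).natAbs : ℝ) = |(X : ℝ)| := by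
    rw [hdF, natAbs_norm_down, hXZ]
    push_cast
    rw [Nat.cast_natAbs, Real.sqrt_sq (by positivity)]
    push_cast
    rfl
  have hΦn : ‖Φ 1‖ ^ 2 = (Φ 1).re ^ 2 := by
    rw [← hΦr, Complex.norm_real, Real.norm_eq_abs, sq_abs, Complex.ofReal_re]
  have hDn : |(D : ℝ)| = ‖δ‖ ^ 2 * (a.norm : ℝ) := by
    have h5 := congrArg (fun z : ℂ => ‖z‖) ha
    simp only [norm_pow, norm_mul] at h5
    rw [mul_pow, norm_emb_sq] at h5
    rw [h5, Complex.norm_intCast]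
  have hΩ : (Φ 1).re ^ 2 * ‖δ‖ ^ 2 * |(X : ℝ)| = q₀ * (Om ^ 2) ^ (r + 1) := by
    rw [hΦn, hδn, hXn, pow_mul Om 2 (r + 1)] at eq₀
    have h3 : (0 : ℝ) < √3 ^ (r + 1) := by positivity
    have h5 : √3 ^ (r + 1) * ((Φ 1).re ^ 2 * ‖δ‖ ^ 2 * |(X : ℝ)|) =
        √3 ^ (r + 1) * (q₀ * (Om ^ 2) ^ (r + 1)) := by
      linear_combination eq₀
    exact mul_left_cancel₀ h3.ne' h5
  have hq2 : q ^ 2 * 3 ^ j = q₀ * (a.norm : ℚ) := by
    have h5 : (q : ℝ) ^ 2 * 3 ^ j = q₀ * (a.norm : ℝ) := by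
      rw [hqy, hy2, hDn]
      have h6 : (0 : ℝ) < (Om ^ 2) ^ (r + 1) := by positivity
      field_simp
      linear_combination (a.norm : ℝ) * hΩ
    exact_mod_cast h5
  -- the norm of `a` is odd
  have hoddF : Odd (discr F) := by
    have := hC.not_two
    rw [← Int.not_even_iff_odd, even_iff_two_dvd]
    exact this
  have hoddk : Odd D := by
    rw [← Int.not_even_iff_odd, even_iff_two_dvd]
    intro h
    exact hC.not_two (h.trans (NumberField.discr_dvd_discr k F))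
  have hanorm : Odd a.norm := by
    have h5 : |(discr F : ℝ)| * (a.norm : ℝ) ^ 2 = 3 ^ (r + 1) * |(D : ℝ)| ^ 2 := by
      rw [hdis, hDn]
      ring
    have h6 : |discr F| * a.norm ^ 2 = 3 ^ (r + 1) * |D| ^ 2 := by exact_mod_cast h5
    have h7 : Odd (|discr F| * a.norm ^ 2) := by
      rw [h6]
      exact (Odd.pow (by decide)).mul ((odd_abs.2 hoddk).pow)
    exact (Int.odd_pow' two_ne_zero).1 (Int.odd_mul.1 h7).2
  have ha0 : (a.norm : ℚ) ≠ 0 := by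
    intro h
    have : a.norm = 0 := by exact_mod_cast h
    rw [this] at hanorm
    exact absurd hanorm (by decide)
  have hq0 : q ≠ 0 := by
    intro h
    rw [h, zero_pow two_ne_zero, zero_mul] at hq2
    exact mul_ne_zero hq₀.ne' ha0 hq2.symm
  have hqv : padicValRat 2 q = 0 := by
    haveI : Fact (Nat.Prime 2) := ⟨Nat.prime_two⟩
    have h5 := congrArg (padicValRat 2) hq2
    have h6 : padicValRat 2 ((a.norm : ℤ) : ℚ) = 0 := by
      rw [padicValRat.of_int, padicValInt.eq_zero_of_not_dvd]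
      · rfl
      · intro h
        rw [← Int.not_even_iff_odd, even_iff_two_dvd] at hanorm
        exact hanorm (by exact_mod_cast h)
    have h7 : padicValRat 2 ((3 : ℚ) ^ j) = 0 := by
      have h8 : ((3 : ℚ) ^ j) = ((3 ^ j : ℕ) : ℚ) := by push_cast; rfl
      rw [h8]
      exact padic_unit_odd (Odd.pow (by decide))
    rw [padicValRat.mul (pow_ne_zero 2 hq0) (by positivity), padicValRat.mul hq₀.ne' ha0,
      padicValRat.pow, vq₀, h6, h7] at h5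
    push_cast at h5
    omega
  have hΦ1 : Φ 1 ≠ 0 := by
    intro h0
    apply hq0
    have h5 : (q : ℝ) = 0 := by
      rw [hqy, hy, h0, Complex.zero_re, zero_mul, zero_mul, zero_div]
    exact_mod_cast h5
  refine ⟨Φ, hΦ, ?_, hΦ1, q, hq0, hqv, ?_⟩
  · intro t ht
    have hlam := norm_lam_le F hw (algebraMap k F (d : k))
    have t1 := LSeriesSummable_IL F _ hlam t ht
    rw [← hL] at t1
    exact ⟨t1, hLs t ht⟩
  · rw [hprod, hq, hy, ← hΦr, ← hX]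
    have hXpos : (0 : ℝ) < √|(X : ℝ)| := by
      rw [Real.sqrt_pos, abs_pos]
      exact_mod_cast hX0
    rw [Complex.ofReal_re, ← Complex.ofReal_mul, ← Complex.ofReal_mul]
    congr 1
    field_simp

end

end TWR
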