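import Pool.Agent.MP_9ab903_nt.TWR.QA5
import Pool.Agent.MP_9ab903_nt.FinalDefs2

set_option autoImplicit false

open NumberField IsDedekindDomain
open CM27 CMT CF NAB
open scoped Classical ComplexConjugate

namespace TWR

/-! ## [TWR-QA6] fields without cube roots of unity: the formula (file TWR/QA6.lean) -/

section
variable {k F : IntermediateField ℚ ℂ} [NumberField k] [NumberField F]
  (hkF : k ≤ F) (hwk : w ∉ k) (h2 : Module.finrank ℚ F = 2 * Module.finrank ℚ k)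
  (hC : Cls F) (hA : AN F)
include hkF hwk h2 hC hA

/-- **The 2-part of the formula over a field without cube roots of unity.** -/
theorem strong_down (d : 𝓞 k) (hd : d ≠ 0) (h4 : (4 : 𝓞 k) ∣ d - 1)
    (hT : letI : Algebra k F := algI hkF; TTd F hC.tow.mem (algebraMap (𝓞 k) (𝓞 F) d))
    (e : k) (he : 4 * e + 1 = (d : k) ^ 3)
    (halg : Finite (Wt e).toAffine.Point ∧ Odd (Nat.card (Wt e).toAffine.Point) ∧
      ∀ (j : ℕ) (x : SBSD.Sha (Wt e)), 2 ^ j • x = 0 → x = 0) :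
    SBSD2.TwoPartRankZero (Wt e) := by
  have hw := hC.tow.mem
  letI : Algebra k F := algI hkF
  haveI := quadI hkF h2
  have hal : ∀ x : k, ((algebraMap k F x : F) : ℂ) = (x : ℂ) := fun _ => rfl
  have hd0 : (d : k) ≠ 0 := RingOfIntegers.coe_ne_zero_iff.2 hd
  set dF : 𝓞 F := algebraMap (𝓞 k) (𝓞 F) d with hdF
  have hdFc : (dF : F) = algebraMap k F (d : k) := rfl
  have hdF0 : dF ≠ 0 := by
    rw [hdF]
    exact (map_ne_zero_iff _ (RingOfIntegers.algebraMap.injective k F)).2 hd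
  have h4F : (4 : 𝓞 F) ∣ dF - 1 := by
    obtain ⟨c, hc⟩ := h4
    refine ⟨algebraMap (𝓞 k) (𝓞 F) c, ?_⟩
    rw [hdF, ← map_one (algebraMap (𝓞 k) (𝓞 F)), ← map_sub, hc, map_mul, map_ofNat]
  have hgood : ∀ v : HeightOneSpectrum (𝓞 F), ¬ ev v (dF : F) → GP v := fun v hv =>
    odd_val F hw dF hT v (by
      rw [isSquare_val v (RingOfIntegers.coe_ne_zero_iff.2 hdF0)]
      exact hv)
  have heF : 4 * algebraMap k F e + 1 = (dF : F) ^ 3 := by
    rw [hdFc, ← map_pow, ← he, map_add, map_mul, map_one, map_ofNat]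
  letI := algK F hw
  obtain ⟨M, _, _, _, _, _, _, m, hm, huM, δ, hδ⟩ := hT
  -- the primes above `3`
  have h3 : ∀ v : HeightOneSpectrum (𝓞 k), (3 : 𝓞 k) ∈ v.asIdeal →
      ∃ (m : ℕ) (ϖ u : v.adicCompletionIntegers k), ¬ 3 ∣ m ∧ Irreducible ϖ ∧ IsUnit u ∧
      (3 : v.adicCompletionIntegers k) = u * ϖ ^ m := by
    intro v hv
    letI algkM : Algebra k M := ((algebraMap F M).comp (algebraMap k F)).toAlgebra
    obtain ⟨j, hj, hjv⟩ := three_sub k M (fun Q hQ => l0_core KK M m hm Q hQ) v hv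
    obtain ⟨ϖ, u, h1, h2, h3⟩ := l0_comp k v j hjv
    exact ⟨j, ϖ, u, hj, h1, h2, h3⟩
  obtain ⟨hfin, hodd, hsha⟩ := halg
  -- the analytic half
  obtain ⟨L, hL1, hL2, hL3, q, hq1, hq2, hq3⟩ :=
    analytic_down hkF hwk h2 hC hA d hd h4 hgood h3 e he
  have hell : (Wt e).IsElliptic := by
    rw [WeierstrassCurve.isElliptic_iff, tc1_Δ, he, isUnit_iff_ne_zero]
    exact mul_ne_zero (by norm_num) (pow_ne_zero _ (pow_ne_zero _ hd0))
  have h1 : analyticOrderAt L 1 = 0 := (hL1.analyticAt 1).analyticOrderAt_eq_zero.2 hL3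
  have hbad : ∀ v : HeightOneSpectrum (𝓞 k), (3 : 𝓞 k) ∉ v.asIdeal →
      ¬ IsSquare (v.valuation k (d : k)) → ∀ x : 𝓞 k, x ^ 3 - 2 ∉ v.asIdeal := by
    intro v hv3 hns x hx
    obtain ⟨S⟩ := exists_Sig k F
    obtain ⟨u, hu⟩ := exists_above (F := F) v
    subst hu
    have h3u : (3 : 𝓞 F) ∉ u.asIdeal := by
      intro h
      apply hv3
      rw [mem_und, map_ofNat]
      exact h
    have hval : ∀ x : k, u.valuation F (algebraMap k F x) = (und k u).valuation k x := by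
      rcases kinds S u with ⟨-, -, hval⟩ | ⟨hsw, hc, -, -⟩ | ⟨-, -, -, hval⟩
      · exact hval
      · exact absurd (ram_three hal hw hwk S u hsw hc) h3u
      · exact hval
    have hodd' : ¬ ev u (dF : F) := by
      rw [← isSquare_val u (RingOfIntegers.coe_ne_zero_iff.2 hdF0)]
      change ¬ IsSquare (u.valuation F (algebraMap k F (d : k)))
      rw [hval]
      exact hns
    obtain ⟨p, hp, hpu⟩ := (hgood u hodd').resolve_left h3u
    refine hC.cube p hp u hpu (algebraMap (𝓞 k) (𝓞 F) x) ?_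
    rw [mem_und, map_sub, map_pow, map_ofNat] at hx
    exact hx
  have htam := tam_odd_tw k h3 d hd h4 e he hbad
  obtain ⟨q3, hq3pos, hq3v, hner⟩ := neron_unit_tw k d hd h4 e he
  set T : ℕ := ∏ᶠ v : HeightOneSpectrum (𝓞 k), SBSD.tam (Wt e) v with hTdef
  have hC' : (Nat.card (Wt e).toAffine.Point : ℚ) ≠ 0 := by exact_mod_cast hodd.pos.ne'
  have hT0 : (T : ℚ) ≠ 0 := by exact_mod_cast htam.pos.ne'
  set A : ℝ := ∏ v : InfinitePlace k, SBSD.archPeriod (Wt e) v with hAdef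
  have hper : SBSD.period (Wt e) = A * q3 := by
    rw [SBSD.period, hner]
  refine ⟨hell, hfin, L, ⟨hL1, hL2⟩, CF.order_eq (Wt e) h1, hL3, fun x j => hsha j x,
    q * (Nat.card (Wt e).toAffine.Point : ℚ) ^ 2 * (q3 * T)⁻¹, ?_, ?_, ?_⟩
  · exact mul_ne_zero (mul_ne_zero hq1 (pow_ne_zero _ hC')) (inv_ne_zero (mul_ne_zero hq3pos.ne' hT0))
  · have h4' : padicValRat 2 ((Nat.card (Wt e).toAffine.Point : ℚ) ^ 2) = 0 := by
      rw [padicValRat.pow, padic_unit_odd hodd]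
      simp
    have h5 : padicValRat 2 ((q3 * T)⁻¹) = 0 := by
      rw [padicValRat.inv, padic_unit_mul hq3pos.ne' hT0 hq3v (padic_unit_odd htam)]
      simp
    exact padic_unit_mul (mul_ne_zero hq1 (pow_ne_zero _ hC'))
      (inv_ne_zero (mul_ne_zero hq3pos.ne' hT0)) (padic_unit_mul hq1 (pow_ne_zero _ hC') hq2 h4')
      h5
  · rw [SBSD2.bsdQuotient, hper, CF.card_tors]
    have hA0 : (A : ℂ) ≠ 0 := by
      intro h0
      rw [h0, mul_zero] at hq3
      rcases mul_eq_zero.1 hq3 with h5 | h5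
      · exact hL3 h5
      · have h6 : (√|(discr k : ℝ)| : ℝ) = 0 := by exact_mod_cast h5
        rw [Real.sqrt_eq_zero (abs_nonneg _), abs_eq_zero] at h6
        exact NumberField.discr_ne_zero k (by exact_mod_cast h6)
    have hq3C : (q3 : ℂ) ≠ 0 := by exact_mod_cast hq3pos.ne'
    have hTC : (T : ℂ) ≠ 0 := by exact_mod_cast hT0
    rw [hq3, ← hTdef]
    push_cast
    field_simp

end

end TWR
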