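import Pool.Agent.MP_9ab903_nt.TWR.RS1
import Pool.Agent.MP_9ab903_nt.NAB.DS
import Pool.Agent.MP_9ab903_nt.NAB.UR

set_option autoImplicit false

open NumberField IsDedekindDomain
open CM27 CMT CF NAB
open scoped Classical

namespace TWR

/-! ## [TWR-QB] the algebraic half over fields which need not contain `ω` (file TWR/QB.lean)

`M` is a Galois extension of `K = ℚ(ω)` of degree a power of two, unramified outside `3` and the good
primes; `k` is a number field such that `M` is a Galois extension of `k` (in the applications `M / ℚ`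
is Galois and `k` is a subfield of `M`). -/

section
variable (K k M : Type) [Field K] [NumberField K] [IsCyclotomicExtension {3} ℚ K] [Field k]
  [NumberField k] [Field M] [NumberField M] [Algebra K M] [IsGalois K M] [Algebra k M]
  [IsGalois k M] (n : ℕ) (hn : Module.finrank K M = 2 ^ n) (hu : Unr K M)

include hn in
omit [IsGalois K M] [IsGalois k M] [NumberField k] in
theorem irr_down : Irreducible (cubPoly k) := by
  have hirrM := sg_irreducible K M n hn
  have hmap : (cubPoly k).map (algebraMap k M) = cubPoly M := by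
    simp [cubPoly]
    exact map_ofNat _ 2
  rw [← hmap] at hirrM
  exact Polynomial.Monic.irreducible_of_irreducible_map (algebraMap k M) _ (by
    unfold cubPoly; monicity!) hirrM

variable (d : 𝓞 k) (hd : d ≠ 0) (δ : M) (hδ : δ ^ 2 = algebraMap k M (d : k))
include hn hu hd hδ

/-- The Selmer group is trivial. -/
theorem selmer_down (z : R k) (hz : z ≠ 0) (hN : ∃ y : k, Algebra.norm k z = y ^ 2)
    (hloc : ∀ v : HeightOneSpectrum (𝓞 k), LocD (d : k) z (v.adicCompletion k)) :
    ∃ t : R k, z = t ^ 2 := by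
  have hirrF : Fact (Irreducible (cubPoly k)) := ⟨irr_down K k M n hn⟩
  have hirrM : Fact (Irreducible (cubPoly M)) := ⟨sg_irreducible K M n hn⟩
  have hd0 : (d : k) ≠ 0 := RingOfIntegers.coe_ne_zero_iff.2 hd
  have hδ0 : δ ≠ 0 := by
    rintro rfl
    rw [zero_pow two_ne_zero] at hδ
    exact hd0 ((algebraMap k M).injective (by rw [← hδ, map_zero]))
  have hinj := sel_mapR_injective (algebraMap k M)
  obtain ⟨y, hy⟩ := hN
  have hyM : Algebra.norm M (mapR (algebraMap k M) z) = algebraMap k M y ^ 2 := by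
    rw [norm_mapR, hy, map_pow]
  have hz' : mapR (algebraMap k M) z ≠ 0 := by
    intro h0
    exact hz (hinj (by rw [h0, map_zero]))
  obtain ⟨t, ht⟩ := selmer_trivial_tw K M n hn hu (1 : 𝓞 M) one_ne_zero
    ⟨0, by rw [sub_self, mul_zero]⟩
    (fun σ => ⟨1, by
      change σ (algebraMap (𝓞 M) M 1) = algebraMap (𝓞 M) M 1 * 1 ^ 2
      rw [map_one, map_one, one_pow, one_mul]⟩)
    (fun v _ _ => by
      change IsSquare (v.valuation M (algebraMap (𝓞 M) M 1))
      rw [map_one, map_one]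
      exact IsSquare.one)
    (mapR (algebraMap k M) z) hz' ⟨algebraMap k M y, hyM⟩ (by
      intro W
      obtain ⟨v, -, φ, hφ⟩ := exists_below k M W
      have h1 := locD_scale (locD_map (algebraMap k M) φ hφ (hloc v)) δ⁻¹
      have h2 : algebraMap k M (d : k) * δ⁻¹ ^ 2 = 1 := by
        rw [← hδ, inv_pow, mul_inv_cancel₀ (pow_ne_zero 2 hδ0)]
      rw [h2] at h1
      have h3 : (((1 : 𝓞 M) : 𝓞 M) : M) = 1 := map_one (algebraMap (𝓞 M) M)
      rw [h3]
      exact h1)
  -- the square root is fixed by the Galois group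
  have hnt : Algebra.norm M t ^ 2 = algebraMap k M y ^ 2 := by
    rw [← hyM, ht, map_pow]
  have hNz : Algebra.norm M t ≠ 0 := by
    intro h0
    rw [h0, zero_pow two_ne_zero] at hnt
    apply hz
    have h1 : Algebra.norm k z = 0 := by
      apply (algebraMap k M).injective
      rw [hy, map_pow, ← hnt, map_zero]
    exact Algebra.norm_eq_zero_iff.mp h1
  have hfixN : ∀ σ : M ≃ₐ[k] M, σ (Algebra.norm M t) = Algebra.norm M t := by
    intro σ
    rcases sq_eq_sq_iff_eq_or_eq_neg.1 hnt with h | h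
    · rw [h, σ.commutes]
    · rw [h, map_neg, σ.commutes]
  have hfix : ∀ σ : M ≃ₐ[k] M, mapR (σ : M →+* M) t = t := by
    intro σ
    have h1 : mapR (σ : M →+* M) t ^ 2 = t ^ 2 := by
      rw [← map_pow, ← ht, sel_mapR_comp]
      congr 2
      ext x
      exact σ.commutes x
    rcases sq_eq_sq_iff_eq_or_eq_neg.1 h1 with h | h
    · exact h
    · exfalso
      have h2 : Algebra.norm M (mapR (σ : M →+* M) t) = Algebra.norm M t := by
        rw [norm_mapR]
        exact hfixN σ
      rw [h, r3_norm_neg] at h2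
      apply hNz
      have h3 : (2 : M) * Algebra.norm M t = 0 := by linear_combination -h2
      exact (mul_eq_zero.1 h3).resolve_left two_ne_zero
  obtain ⟨t0, ht0⟩ := fixed_mapR k M t hfix
  refine ⟨t0, hinj ?_⟩
  rw [map_pow, ht0, ht]

theorem divisible_down (e : k) (he : 4 * e + 1 = (d : k) ^ 3) (P : (Wt e).toAffine.Point) :
    ∃ Q, P = 2 • Q := by
  have hirrF : Fact (Irreducible (cubPoly k)) := ⟨irr_down K k M n hn⟩
  rcases P with _ | ⟨x, y, hxy⟩
  · exact ⟨0, by rw [smul_zero]; rfl⟩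
  · set D : k := (d : k) with hD
    have hD0 : D ≠ 0 := RingOfIntegers.coe_ne_zero_iff.2 hd
    have heq : y ^ 2 + y = x ^ 3 + e := by
      have h1 := (WeierstrassCurve.Affine.equation_iff _ _).1 hxy.1
      simp only [Wt] at h1
      linear_combination h1
    have hm : (2 * y + 1) ^ 2 = 4 * x ^ 3 + D ^ 3 := by
      rw [← he]
      linear_combination 4 * heq
    have hz0 : trip D 0 x ≠ 0 := by
      intro h0
      have h1 : trip D 0 x = trip 0 0 0 := by
        rw [h0]; simp [trip]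
      exact hD0 (trip_inj h1).1
    have hloc : ∀ v : HeightOneSpectrum (𝓞 k), LocD D (trip D 0 x) (v.adicCompletion k) := by
      intro v
      refine Or.inr ⟨algebraMap k _ x, algebraMap k _ (2 * y + 1),
          mapR (algebraMap k (v.adicCompletion k)) (trip D 0 x), ?_, ?_⟩
      · have h1 := congrArg (algebraMap k (v.adicCompletion k)) hm
        simp only [map_add, map_mul, map_pow, map_ofNat, map_one] at h1 ⊢
        exact h1
      · rw [mapR_trip, map_zero, pow_two]
    obtain ⟨t, ht⟩ := selmer_down K k M n hn hu d hd δ hδ (trip D 0 x) hz0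
      ⟨2 * y + 1, by rw [norm_trip, hm]; ring⟩ hloc
    exact CMT.exists_half e D hD0 he x y hxy t ht

theorem sha_down (e : k) (he : 4 * e + 1 = (d : k) ^ 3) (j : ℕ) (x : SBSD.Sha (Wt e))
    (h2 : 2 ^ j • x = 0) : x = 0 := by
  have hirrF : Fact (Irreducible (cubPoly k)) := ⟨irr_down K k M n hn⟩
  have hD0 : (d : k) ≠ 0 := RingOfIntegers.coe_ne_zero_iff.2 hd
  refine fin_two_pow (A := SBSD.Sha (Wt e)) (fun x hx => ?_) j x h2
  obtain ⟨c, rfl⟩ := QuotientAddGroup.mk_surjective x
  obtain ⟨hc1, hc2, -⟩ := c.2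
  have h3 : 2 • c ∈ (SBSD.coboundaries (Wt e)).addSubgroupOf (SBSD.locTrivial (Wt e)) := by
    rw [← QuotientAddGroup.eq_zero_iff]
    exact hx
  obtain ⟨P, hP⟩ := AddSubgroup.mem_addSubgroupOf.1 h3
  exact (QuotientAddGroup.eq_zero_iff _).2 (AddSubgroup.mem_addSubgroupOf.2
    (CMT.sha_two_of_selmer k e (d : k) hD0 he
      (fun z hz hn' hloc => selmer_down K k M n hn hu d hd δ hδ z hz hn' hloc) c.1 hc1 hc2
      ⟨P, fun σ => hP σ⟩))

end

/-- a number field in which `2` is unramified: finiteness -/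
theorem finite_down {k : Type} [Field k] [NumberField k] (v : HeightOneSpectrum (𝓞 k))
    (hv2 : (2 : 𝓞 k) ∈ v.asIdeal) (hv4 : (2 : 𝓞 k) ∉ v.asIdeal ^ 2) (d : 𝓞 k)
    (h4 : (4 : 𝓞 k) ∣ d - 1) (e : k) (he : 4 * e + 1 = (d : k) ^ 3)
    (hdiv : ∀ P : (Wt e).toAffine.Point, ∃ Q, P = 2 • Q) :
    Finite (Wt e).toAffine.Point ∧ Odd (Nat.card (Wt e).toAffine.Point) := by
  have hfin : Finite (Wt e).toAffine.Point := by
    refine CMT.finite_of_divisible v hv2 hv4 e ?_ hdiv
    obtain ⟨f, hf⟩ := h4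
    have h5 : (d : k) = 4 * (f : k) + 1 := by
      have h6 := congrArg (algebraMap (𝓞 k) k) hf
      rw [map_sub, map_one, map_mul, map_ofNat] at h6
      change (d : k) - 1 = 4 * (f : k) at h6
      linear_combination h6
    have h6 : e = ((16 * f ^ 3 + 12 * f ^ 2 + 3 * f : 𝓞 k) : k) := by
      have h7 : ((16 * f ^ 3 + 12 * f ^ 2 + 3 * f : 𝓞 k) : k) =
          16 * (f : k) ^ 3 + 12 * (f : k) ^ 2 + 3 * (f : k) := by
        change algebraMap (𝓞 k) k (16 * f ^ 3 + 12 * f ^ 2 + 3 * f) = _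
        simp only [map_add, map_mul, map_pow, map_ofNat]
      rw [h7]
      have h8 : (4 : k) * (e - (16 * (f : k) ^ 3 + 12 * (f : k) ^ 2 + 3 * (f : k))) = 0 := by
        rw [h5] at he
        linear_combination he
      rcases mul_eq_zero.1 h8 with h9 | h9
      · norm_num at h9
      · exact sub_eq_zero.1 h9
    rw [h6]
    exact v.valuation_le_one _
  refine ⟨hfin, ?_⟩
  have hsurj : Function.Surjective (fun P : (Wt e).toAffine.Point => 2 • P) := fun P => by
    obtain ⟨Q, hQ⟩ := hdiv P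
    exact ⟨Q, hQ.symm⟩
  have hinj := Finite.injective_iff_surjective.2 hsurj
  rw [← Nat.not_even_iff_odd]
  intro hev'
  obtain ⟨P, hP⟩ := exists_prime_addOrderOf_dvd_card' (G := (Wt e).toAffine.Point) 2 hev'.two_dvd
  have h2 : (fun P : (Wt e).toAffine.Point => 2 • P) P = (fun P => 2 • P) 0 := by
    change 2 • P = 2 • (0 : (Wt e).toAffine.Point)
    rw [smul_zero, ← hP, addOrderOf_nsmul_eq_zero]
  have h0 := hinj h2
  rw [h0, addOrderOf_zero] at hP
  norm_num at hP

/-- **The algebraic half for every subfield of `M`.** -/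
theorem Top.alg_down {M : IntermediateField ℚ ℂ} [NumberField M] (hM : Top M) (hwM : w ∈ M)
    {k : IntermediateField ℚ ℂ} [NumberField k] (hk : k ≤ M) (d : 𝓞 k) (hd : d ≠ 0)
    (h4 : (4 : 𝓞 k) ∣ d - 1) (hδ : ∃ δ ∈ M, δ ^ 2 = ((d : k) : ℂ)) (e : k)
    (he : 4 * e + 1 = (d : k) ^ 3) :
    Finite (Wt e).toAffine.Point ∧ Odd (Nat.card (Wt e).toAffine.Point) ∧
      ∀ (j : ℕ) (x : SBSD.Sha (Wt e)), 2 ^ j • x = 0 → x = 0 := by
  obtain ⟨δ, hδM, hδ⟩ := hδ
  letI algkM : Algebra k M := (IntermediateField.inclusion hk).toRingHom.toAlgebra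
  letI algKM : Algebra KK M := algK M hwM
  haveI := hM.gal
  haveI hSTQ : IsScalarTower ℚ KK M := IsScalarTower.of_algebraMap_eq' (Subsingleton.elim _ _)
  haveI hSTk : IsScalarTower ℚ k M := IsScalarTower.of_algebraMap_eq' (Subsingleton.elim _ _)
  haveI hgal : IsGalois KK M := IsGalois.tower_top_of_isGalois ℚ KK M
  haveI hgalk : IsGalois k M := IsGalois.tower_top_of_isGalois ℚ k M
  obtain ⟨n, hn⟩ := hM.deg
  have h1 : Module.finrank KK M ∣ 2 ^ n := by
    rw [← hn, ← Module.finrank_mul_finrank ℚ KK M]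
    exact dvd_mul_left _ _
  obtain ⟨m, -, hm⟩ := (Nat.dvd_prime_pow Nat.prime_two).1 h1
  have hδ' : (⟨δ, hδM⟩ : M) ^ 2 = algebraMap k M (d : k) := Subtype.ext hδ
  -- a place above `2`
  have hodd : Odd (discr k).natAbs := by
    rw [← Nat.not_even_iff_odd, even_iff_two_dvd]
    intro h2
    have h3 : (2 : ℤ) ∣ discr M := by
      have h4 : (2 : ℤ) ∣ discr k := Int.natCast_dvd.2 h2
      exact h4.trans (NumberField.discr_dvd_discr k M)
    rcases hM.disc 2 Nat.prime_two (by exact_mod_cast h3) with h5 | h5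
    · norm_num at h5
    · have := h5.2.1
      omega
  obtain ⟨v, hv⟩ := exists_even (F := k)
  have hv4 := two_unram_of_odd k hodd v hv
  obtain ⟨h6, h7⟩ := finite_down v hv hv4 d h4 e he
    (divisible_down KK k M m hm (hM.unr KK) d hd ⟨δ, hδM⟩ hδ' e he)
  exact ⟨h6, h7, sha_down KK k M m hm (hM.unr KK) d hd ⟨δ, hδM⟩ hδ' e he⟩

end TWR
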