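import Pool.Agent.MP_9ab903_nt.TWR.QA5
import Pool.Agent.MP_9ab903_nt.TWR.RS1

set_option autoImplicit false

open NumberField IsDedekindDomain
open CM27 CMT CF NAB
open scoped Classical ComplexConjugate

namespace TWR

/-! ## [TWR-QR] fields without `ω`: the rank form (file TWR/QR.lean) -/

/-- adjoining `ω` -/
theorem finrank_sup_KK (k : IntermediateField ℚ ℂ) [NumberField k] (hwk : w ∉ k) :
    Module.finrank ℚ (k ⊔ KK : IntermediateField ℚ ℂ) = 2 * Module.finrank ℚ k := by
  have hle : k ≤ k ⊔ KK := le_sup_left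
  haveI hfin : FiniteDimensional ℚ (k ⊔ KK : IntermediateField ℚ ℂ) :=
    IntermediateField.finiteDimensional_sup k KK
  have h1 := IntermediateField.finrank_sup_le k KK
  rw [d2_finrank_KK] at h1
  have h2 : Module.finrank ℚ k ∣ Module.finrank ℚ (k ⊔ KK : IntermediateField ℚ ℂ) :=
    IntermediateField.finrank_dvd_of_le_right hle
  have h3 : Module.finrank ℚ k ≠ Module.finrank ℚ (k ⊔ KK : IntermediateField ℚ ℂ) := by
    intro h
    apply hwk
    have h4 := IntermediateField.eq_of_le_of_finrank_eq hle h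
    rw [h4]
    exact (le_sup_right : KK ≤ k ⊔ KK) d2_w_mem
  obtain ⟨c, hc⟩ := h2
  have hpos : 0 < Module.finrank ℚ k := Module.finrank_pos
  rw [hc] at h1 h3 ⊢
  have hc2 : c ≤ 2 := by
    by_contra hcon
    push Not at hcon
    nlinarith
  interval_cases c
  · exfalso
    have h5 : 0 < Module.finrank ℚ (k ⊔ KK : IntermediateField ℚ ℂ) := Module.finrank_pos
    omega
  · omega
  · ring

/-- the ramification index is one if the valuations agree -/
theorem ram_one {k F : Type} [Field k] [NumberField k] [Field F] [NumberField F] [Algebra k F]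
    (P : HeightOneSpectrum (𝓞 F))
    (hval : ∀ x : k, P.valuation F (algebraMap k F x) = (und k P).valuation k x) :
    P.asIdeal.ramificationIdx (𝓞 k) = 1 := by
  have hlies : P.asIdeal.LiesOver (und k P).asIdeal := ⟨rfl⟩
  have h1 : (und k P).asIdeal.ramificationIdx' P.asIdeal = 1 := by
    refine Ideal.ramificationIdx'_spec ?_ ?_
    · rw [pow_one, Ideal.map_le_iff_le_comap]
      exact fun x hx => hx
    · intro hle
      obtain ⟨π, hπ⟩ := (und k P).intValuation_exists_uniformizer
      have hmem : π ∈ (und k P).asIdeal := by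
        rw [← HeightOneSpectrum.intValuation_lt_one_iff_mem, hπ]
        exact WithZero.exp_lt_exp.2 (by norm_num) |>.trans_eq WithZero.exp_zero
      have h2 := hle (Ideal.mem_map_of_mem (algebraMap (𝓞 k) (𝓞 F)) hmem)
      rw [← HeightOneSpectrum.intValuation_le_pow_iff_mem] at h2
      have h3 := hval (π : k)
      have h4 : algebraMap k F (π : k) = ((algebraMap (𝓞 k) (𝓞 F) π : 𝓞 F) : F) := rfl
      have h5 : P.valuation F ((algebraMap (𝓞 k) (𝓞 F) π : 𝓞 F) : F) =
          P.intValuation (algebraMap (𝓞 k) (𝓞 F) π) := P.valuation_of_algebraMap _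
      have h6 : (und k P).valuation k (π : k) = (und k P).intValuation π :=
        (und k P).valuation_of_algebraMap _
      rw [h4, h5, h6, hπ] at h3
      rw [h3, WithZero.exp_le_exp] at h2
      norm_num at h2
  rw [← h1, Ideal.ramificationIdx'_eq_ramificationIdx (und k P).asIdeal P.asIdeal (und k P).ne_bot]

/-- adjoining `ω` to `M` -/
theorem Top.sup {M : IntermediateField ℚ ℂ} [NumberField M] (hM : Top M)
    [NumberField (M ⊔ KK : IntermediateField ℚ ℂ)] : Top (M ⊔ KK) := by
  by_cases hw : w ∈ M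
  · have h1 : M = M ⊔ KK := (sup_eq_left.2 (KK_le M hw)).symm
    have key : ∀ (M' : IntermediateField ℚ ℂ) (i : NumberField M'), M = M' → Top M' := by
      rintro M' i rfl
      exact hM
    exact key _ _ h1
  · have hrank := finrank_sup_KK M hw
    have hle : M ≤ M ⊔ KK := le_sup_left
    letI : Algebra M (M ⊔ KK : IntermediateField ℚ ℂ) := algI hle
    haveI := quadI hle hrank
    have hal : ∀ x : M, ((algebraMap M (M ⊔ KK : IntermediateField ℚ ℂ) x :
      (M ⊔ KK : IntermediateField ℚ ℂ)) : ℂ) = (x : ℂ) := fun _ => rfl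
    have hwF : w ∈ M ⊔ KK := (le_sup_right : KK ≤ M ⊔ KK) d2_w_mem
    obtain ⟨S⟩ := exists_Sig M (M ⊔ KK : IntermediateField ℚ ℂ)
    haveI := hM.gal
    haveI : IsGalois ℚ KK := IsCyclotomicExtension.isGalois {3} ℚ KK
    have hgal : IsGalois ℚ (M ⊔ KK : IntermediateField ℚ ℂ) := by
      have hN : ∀ N : IntermediateField ℚ ℂ, Normal ℚ N → @Normal ℚ N _ _ N.algebra' := by
        intro N h
        have hsub : (N.algebra' : Algebra ℚ N) = DivisionRing.toRatAlgebra := Subsingleton.elim _ _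
        rw [hsub]
        exact h
      have hN' : ∀ N : IntermediateField ℚ ℂ, @Normal ℚ N _ _ N.algebra' → Normal ℚ N := by
        intro N h
        have hsub : (N.algebra' : Algebra ℚ N) = DivisionRing.toRatAlgebra := Subsingleton.elim _ _
        rw [hsub] at h
        exact h
      have h1 := hN M hM.gal.to_normal
      have h2 := hN KK (IsGalois.to_normal)
      have h3 := @IntermediateField.normal_sup ℚ ℂ _ _ _ M KK h1 h2
      haveI := hN' _ h3
      exact IsGalois.mk
    refine ⟨hgal, ?_, ?_⟩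
    · obtain ⟨n, hn⟩ := hM.deg
      exact ⟨n + 1, by rw [hrank, hn, pow_succ, mul_comm]⟩
    · intro p hp hpd
      by_contra hcon
      push Not at hcon
      revert hpd
      rw [imp_false, not_dvd_discr_iff_forall_mem (M ⊔ KK : IntermediateField ℚ ℂ)
        (𝓞 (M ⊔ KK : IntermediateField ℚ ℂ)) (Nat.prime_iff_prime_int.1 hp)]
      intro P hP hpP
      have hpP : (p : 𝓞 (M ⊔ KK : IntermediateField ℚ ℂ)) ∈ P := by exact_mod_cast hpP
      have hP0 : P ≠ ⊥ := by
        rintro rfl
        rw [Ideal.mem_bot] at hpP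
        exact hp.ne_zero (by exact_mod_cast hpP)
      let Q : HeightOneSpectrum (𝓞 (M ⊔ KK : IntermediateField ℚ ℂ)) := ⟨P, hP, hP0⟩
      have hnat : ∀ n : ℕ, ¬ p ∣ n → (n : 𝓞 (M ⊔ KK : IntermediateField ℚ ℂ)) ∉ P := by
        intro n hn h
        apply hP.ne_top
        rw [Ideal.eq_top_iff_one]
        obtain ⟨a, b, hab⟩ := (Nat.isCoprime_iff_coprime.2
          ((Nat.Prime.coprime_iff_not_dvd hp).2 hn) : IsCoprime (p : ℤ) (n : ℤ))
        have h5 : ((a : 𝓞 (M ⊔ KK : IntermediateField ℚ ℂ))) * p + b * n = 1 := by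
          exact_mod_cast congrArg (Int.cast : ℤ → 𝓞 (M ⊔ KK : IntermediateField ℚ ℂ)) hab
        rw [← h5]
        exact Ideal.add_mem _ (Ideal.mul_mem_left _ _ hpP) (Ideal.mul_mem_left _ _ h)
      have h3Q : (3 : 𝓞 (M ⊔ KK : IntermediateField ℚ ℂ)) ∉ Q.asIdeal := by
        have := hnat 3 (fun h => hcon.1 ((Nat.prime_dvd_prime_iff_eq hp Nat.prime_three).1 h))
        exact_mod_cast this
      have hval : ∀ x : M, Q.valuation (M ⊔ KK : IntermediateField ℚ ℂ)
          (algebraMap M (M ⊔ KK : IntermediateField ℚ ℂ) x) = (und M Q).valuation M x := by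
        rcases kinds S Q with ⟨-, -, hval⟩ | ⟨hsw, hc, -, -⟩ | ⟨-, -, -, hval⟩
        · exact hval
        · exact absurd (ram_three hal hwF hw S Q hsw hc) h3Q
        · exact hval
      have h1 := ram_one Q hval
      have h2 : (und M Q).asIdeal.ramificationIdx ℤ = 1 := by
        refine hM.unr_int (und M Q) ?_ ?_
        · rw [mem_und, map_ofNat]
          exact h3Q
        · intro q hq
          rw [mem_und, map_natCast]
          refine hnat q fun h => ?_
          have h6 := (Nat.prime_dvd_prime_iff_eq hp hq.1).1 h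
          rw [h6] at hcon
          exact hcon.2 hq
      have := Q.isMaximal
      have := (und M Q).isMaximal
      have hlies : Q.asIdeal.LiesOver (und M Q).asIdeal := ⟨rfl⟩
      have h5 := Ideal.ramificationIdx_tower (R := ℤ) (und M Q).asIdeal Q.asIdeal
      rw [h1, h2] at h5
      exact Ideal.ramificationIdx_eq_one_iff.1 h5

/-- finiteness of the points descends -/
theorem fin_down (k F : Type) [Field k] [Field F] [Algebra k F] (W : WeierstrassCurve k)
    (hfin : Finite (W.map (algebraMap k F)).toAffine.Point) : Finite W.toAffine.Point := by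
  have hid : W.map (algebraMap k k) = W := by
    rw [Algebra.algebraMap_self]
    exact W.map_id
  have h1 : Finite (W.map (algebraMap k k)).toAffine.Point := by
    haveI : Finite (W.toAffine.baseChange F).Point := hfin
    have hinj := WeierstrassCurve.Affine.Point.map_injective (W' := W.toAffine) (F := k) (K := F)
      (Algebra.ofId k F)
    exact Finite.of_injective _ hinj
  rw [hid] at h1
  exact h1

/-- `W` is an elliptic curve, its `L`-series converges absolutely for `Re s > 3/2` and extends to an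
entire function, whose order of vanishing at `1` is the rank of `W(K)`, and is `0` -/
def RankZ {K : Type} [Field K] [NumberField K] (W : WeierstrassCurve K) : Prop :=
  W.IsElliptic ∧ ∃ L : ℂ → ℂ, Differentiable ℂ L ∧
    (∀ s : ℂ, 3 / 2 < s.re → LSeriesSummable (fun k => (W.LFunction k : ℂ)) s ∧ L s = W.LSeries s) ∧
    analyticOrderAt L 1 = Module.finrank ℤ W.toAffine.Point ∧ L 1 ≠ 0 ∧ Finite W.toAffine.Point

section
variable {k F : IntermediateField ℚ ℂ} [NumberField k] [NumberField F]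
  (hkF : k ≤ F) (hwk : w ∉ k) (h2 : Module.finrank ℚ F = 2 * Module.finrank ℚ k)
  (hC : Cls F) (hA : AN F)
include hkF hwk h2 hC hA

/-- **The rank conjecture over a field without cube roots of unity.** -/
theorem rank_down (d : 𝓞 k) (hd : d ≠ 0) (h4 : (4 : 𝓞 k) ∣ d - 1)
    (hT : letI : Algebra k F := algI hkF; TTd F hC.tow.mem (algebraMap (𝓞 k) (𝓞 F) d))
    (e : k) (he : 4 * e + 1 = (d : k) ^ 3) : RankZ (Wt e) := by
  have hw := hC.tow.mem
  letI : Algebra k F := algI hkF
  haveI := quadI hkF h2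
  have hd0 : (d : k) ≠ 0 := RingOfIntegers.coe_ne_zero_iff.2 hd
  set dF : 𝓞 F := algebraMap (𝓞 k) (𝓞 F) d with hdF
  have hdFc : (dF : F) = algebraMap k F (d : k) := rfl
  have hdF0 : dF ≠ 0 := by
    rw [hdF]
    exact (map_ne_zero_iff _ (RingOfIntegers.algebraMap.injective k F)).2 hd
  have h4F : (4 : 𝓞 F) ∣ dF - 1 := by
    obtain ⟨c, hc⟩ := h4
    refine ⟨algebraMap (𝓞 k) (𝓞 F) c, ?_⟩
    rw [hdF, ← map_one (algebraMap (𝓞 k) (𝓞 F)), ← map_sub, hc, map_mul, map_ofNat]
  have hgood : ∀ v : HeightOneSpectrum (𝓞 F), ¬ ev v (dF : F) → GP v := fun v hv =>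
    odd_val F hw dF hT v (by
      rw [isSquare_val v (RingOfIntegers.coe_ne_zero_iff.2 hdF0)]
      exact hv)
  have heF : 4 * algebraMap k F e + 1 = (dF : F) ^ 3 := by
    rw [hdFc, ← map_pow, ← he, map_add, map_mul, map_one, map_ofNat]
  letI := algK F hw
  obtain ⟨M, _, _, _, _, _, _, m, hm, huM, δ, hδ⟩ := hT
  have h3 : ∀ v : HeightOneSpectrum (𝓞 k), (3 : 𝓞 k) ∈ v.asIdeal →
      ∃ (m : ℕ) (ϖ u : v.adicCompletionIntegers k), ¬ 3 ∣ m ∧ Irreducible ϖ ∧ IsUnit u ∧
      (3 : v.adicCompletionIntegers k) = u * ϖ ^ m := by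
    intro v hv
    letI algkM : Algebra k M := ((algebraMap F M).comp (algebraMap k F)).toAlgebra
    obtain ⟨j, hj, hjv⟩ := three_sub k M (fun Q hQ => l0_core KK M m hm Q hQ) v hv
    obtain ⟨ϖ, u, h1, h2, h3⟩ := l0_comp k v j hjv
    exact ⟨j, ϖ, u, hj, h1, h2, h3⟩
  have hmap : (Wt e).map (algebraMap k F) = Wt (algebraMap k F e) := tc1_map _ _
  have hfin : Finite (Wt e).toAffine.Point := fin_down k F (Wt e)
    (by rw [hmap]; exact sub_finite KK F M m hm huM dF hdF0 δ hδ h4F _ heF)
  obtain ⟨L, hL1, hL2, hL3, q, hq1, hq2, hq3⟩ :=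
    analytic_down hkF hwk h2 hC hA d hd h4 hgood h3 e he
  have hell : (Wt e).IsElliptic := by
    rw [WeierstrassCurve.isElliptic_iff, tc1_Δ, he, isUnit_iff_ne_zero]
    exact mul_ne_zero (by norm_num) (pow_ne_zero _ (pow_ne_zero _ hd0))
  have h1 : analyticOrderAt L 1 = 0 := (hL1.analyticAt 1).analyticOrderAt_eq_zero.2 hL3
  exact ⟨hell, L, hL1, hL2, CF.order_eq (Wt e) h1, hL3, hfin⟩

end

/-- the formula implies the rank form -/
theorem rankZ_of {K : Type} [Field K] [NumberField K] {W : WeierstrassCurve K}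
    (h : SBSD.TwoPartFormula W) : RankZ W := by
  obtain ⟨h1, h2, L, h3, h4, h5, -⟩ := h
  exact ⟨h1, L, h3.1, h3.2, h4, h5, h2⟩

/-- **The rank form of the general theorem.** -/
theorem rank_all {M : IntermediateField ℚ ℂ} [NumberField M] (hM : Top M)
    {k : IntermediateField ℚ ℂ} [NumberField k] (hk : k ≤ M) (d : 𝓞 k) (hd : d ≠ 0)
    (h4 : (4 : 𝓞 k) ∣ d - 1) (hδ : ∃ δ ∈ M, δ ^ 2 = ((d : k) : ℂ)) (e : k)
    (he : 4 * e + 1 = (d : k) ^ 3) : RankZ (Wt e) := by
  by_cases hwk : w ∈ k
  · exact rankZ_of (final_tw k hwk d hd h4 (TTd.of_top hM hwk hk d hδ) e he)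
  · haveI hfM : FiniteDimensional ℚ (M ⊔ KK : IntermediateField ℚ ℂ) :=
      IntermediateField.finiteDimensional_sup M KK
    haveI : NumberField (M ⊔ KK : IntermediateField ℚ ℂ) := ⟨⟩
    haveI hfk : FiniteDimensional ℚ (k ⊔ KK : IntermediateField ℚ ℂ) :=
      IntermediateField.finiteDimensional_sup k KK
    haveI : NumberField (k ⊔ KK : IntermediateField ℚ ℂ) := ⟨⟩
    have hM' := hM.sup
    have hkF : k ≤ k ⊔ KK := le_sup_left
    have hFM : k ⊔ KK ≤ M ⊔ KK := sup_le_sup_right hk _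
    have hrank := finrank_sup_KK k hwk
    have hwF : w ∈ k ⊔ KK := (le_sup_right : KK ≤ k ⊔ KK) d2_w_mem
    have hT : letI : Algebra k (k ⊔ KK : IntermediateField ℚ ℂ) := algI hkF
        TTd (k ⊔ KK) hwF (algebraMap (𝓞 k) (𝓞 (k ⊔ KK : IntermediateField ℚ ℂ)) d) := by
      letI : Algebra k (k ⊔ KK : IntermediateField ℚ ℂ) := algI hkF
      obtain ⟨δ, hδM, hδ2⟩ := hδ
      exact TTd.of_top hM' hwF hFM _ ⟨δ, (le_sup_left : M ≤ M ⊔ KK) hδM, hδ2⟩
    have hT1 : TTd (k ⊔ KK) hwF 1 := hT.one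
    obtain ⟨n, hn⟩ := hT1.rank
    obtain ⟨htow, hA⟩ := main n (k ⊔ KK) hwF hT1 hn
    exact rank_down hkF hwk hrank (Cls.of_TT hT1 htow) hA d hd h4 hT e he

end TWR
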