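import Pool.Agent.MP_9ab903_nt.TWR.QA6
import Pool.Agent.MP_9ab903_nt.TWR.QR
import Pool.Agent.MP_9ab903_nt.TWR.QB

set_option autoImplicit false

open NumberField IsDedekindDomain
open CM27 CMT CF NAB
open scoped Classical ComplexConjugate

namespace TWR

/-! ## [TWR-QA7] all subfields of the fields `M` (file TWR/QA7.lean) -/

/-- the positive form implies the general form -/
theorem two_of_formula {K : Type} [Field K] [NumberField K] {W : WeierstrassCurve K}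
    (h : SBSD.TwoPartFormula W) : SBSD2.TwoPartRankZero W := by
  obtain ⟨h1, h2, L, h3, h4, h5, h6, q, h7, h8, h9⟩ := h
  exact ⟨h1, h2, L, h3, h4, h5, h6, q, h7.ne', h8, h9⟩

/-- **The general theorem.** -/
theorem final_all {M : IntermediateField ℚ ℂ} [NumberField M] (hM : Top M)
    {k : IntermediateField ℚ ℂ} [NumberField k] (hk : k ≤ M) (d : 𝓞 k) (hd : d ≠ 0)
    (h4 : (4 : 𝓞 k) ∣ d - 1) (hδ : ∃ δ ∈ M, δ ^ 2 = ((d : k) : ℂ)) (e : k)
    (he : 4 * e + 1 = (d : k) ^ 3) :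
    SBSD2.TwoPartRankZero (Wt e) ∧ (w ∈ k → SBSD.TwoPartFormula (Wt e)) := by
  have hpos : w ∈ k → SBSD.TwoPartFormula (Wt e) := fun hw =>
    final_tw k hw d hd h4 (TTd.of_top hM hw hk d hδ) e he
  refine ⟨?_, hpos⟩
  by_cases hwk : w ∈ k
  · exact two_of_formula (hpos hwk)
  · haveI hfM : FiniteDimensional ℚ (M ⊔ KK : IntermediateField ℚ ℂ) :=
      IntermediateField.finiteDimensional_sup M KK
    haveI : NumberField (M ⊔ KK : IntermediateField ℚ ℂ) := ⟨⟩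
    haveI hfk : FiniteDimensional ℚ (k ⊔ KK : IntermediateField ℚ ℂ) :=
      IntermediateField.finiteDimensional_sup k KK
    haveI : NumberField (k ⊔ KK : IntermediateField ℚ ℂ) := ⟨⟩
    have hM' := hM.sup
    have hkF : k ≤ k ⊔ KK := le_sup_left
    have hFM : k ⊔ KK ≤ M ⊔ KK := sup_le_sup_right hk _
    have hrank := finrank_sup_KK k hwk
    have hwF : w ∈ k ⊔ KK := (le_sup_right : KK ≤ k ⊔ KK) d2_w_mem
    have hT : letI : Algebra k (k ⊔ KK : IntermediateField ℚ ℂ) := algI hkF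
        TTd (k ⊔ KK) hwF (algebraMap (𝓞 k) (𝓞 (k ⊔ KK : IntermediateField ℚ ℂ)) d) := by
      letI : Algebra k (k ⊔ KK : IntermediateField ℚ ℂ) := algI hkF
      obtain ⟨δ, hδM, hδ2⟩ := hδ
      exact TTd.of_top hM' hwF hFM _ ⟨δ, (le_sup_left : M ≤ M ⊔ KK) hδM, hδ2⟩
    have hT1 : TTd (k ⊔ KK) hwF 1 := hT.one
    obtain ⟨n, hn⟩ := hT1.rank
    obtain ⟨htow, hA⟩ := main n (k ⊔ KK) hwF hT1 hn
    refine strong_down hkF hwk hrank (Cls.of_TT hT1 htow) hA d hd h4 hT e he ?_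
    obtain ⟨δ, hδM, hδ2⟩ := hδ
    exact hM'.alg_down ((le_sup_right : KK ≤ M ⊔ KK) d2_w_mem) (hk.trans le_sup_left) d hd h4
      ⟨δ, (le_sup_left : M ≤ M ⊔ KK) hδM, hδ2⟩ e he

end TWR
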