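import Pool.Agent.MP_9ab903_nt.TWR.TD
import Pool.Agent.MP_9ab903_nt.TWR.PF8

set_option autoImplicit false

open NumberField IsDedekindDomain
open CM27 CMT CF NAB
open scoped Classical

namespace TWR

/-! ## [TWR-T0] general lemmas for the tower (file TWR/T0.lean) -/

/-- `δ² = d` in an extension unramified at the primes away from `3` and the good primes. -/
theorem odd_val_gen (K F M : Type) [Field K] [NumberField K] [Field F] [NumberField F] [Field M]
    [NumberField M] [Algebra K F] [Algebra F M] [Algebra K M] [IsScalarTower K F M]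
    (hu : Unr K M) (d : F) (δ : M) (hδ : δ ^ 2 = algebraMap F M d)
    (v : HeightOneSpectrum (𝓞 F)) (h3 : (3 : 𝓞 F) ∉ v.asIdeal)
    (hp : ∀ p : ℕ, GoodPrime p → (p : 𝓞 F) ∉ v.asIdeal) : IsSquare (v.valuation F d) := by
  obtain ⟨P, hP⟩ := exists_above (F := M) v
  have hlies : P.asIdeal.LiesOver v.asIdeal := ⟨by rw [← hP]; rfl⟩
  have hlies2 : v.asIdeal.LiesOver (und K v).asIdeal := ⟨rfl⟩
  have hlies3 : P.asIdeal.LiesOver (und K v).asIdeal :=
    Ideal.LiesOver.trans P.asIdeal v.asIdeal (und K v).asIdeal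
  have h1 : P.asIdeal.ramificationIdx (𝓞 K) = 1 := by
    refine hu (und K v) P hlies3 ?_ ?_
    · rw [mem_und, map_ofNat]
      exact h3
    · intro p hpg
      rw [mem_und, map_natCast]
      exact hp p hpg
  have := v.isMaximal
  have := P.isMaximal
  have := (und K v).isMaximal
  have h2 := Ideal.ramificationIdx_tower (R := 𝓞 K) v.asIdeal P.asIdeal
  rw [h1] at h2
  have h3' : P.asIdeal.ramificationIdx (𝓞 F) = 1 := by
    exact (Nat.eq_one_of_mul_eq_one_left h2.symm)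
  have h4 := HeightOneSpectrum.valuation_liesOver (K := F) M v P d
  have h5 : v.asIdeal.ramificationIdx' P.asIdeal = 1 := by
    rw [Ideal.ramificationIdx'_eq_ramificationIdx v.asIdeal P.asIdeal v.ne_bot, h3']
  rw [h5, pow_one] at h4
  rw [h4, ← hδ, map_pow]
  exact ⟨_, pow_two _⟩

section
variable {k F : Type} [Field k] [NumberField k] [Field F] [NumberField F] [Algebra k F]
  (S : Sig k F) [Algebra.IsQuadraticExtension k F]

/-- locally at a prime above two the conjugation is not congruent to the identity -/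
theorem exists_theta_local (hr : Ur2 k F) (v : HeightOneSpectrum (𝓞 k)) (hv : (2 : 𝓞 k) ∈ v.asIdeal) :
    ∃ θ : 𝓞 F, ∀ w : HeightOneSpectrum (𝓞 F), und k w = v → θ - S.sg θ ∉ w.asIdeal := by
  obtain ⟨w, hw⟩ := exists_above (F := F) v
  have hw2 : (2 : 𝓞 F) ∈ w.asIdeal := by
    rw [← two_und (k := k), hw]
    exact hv
  have habove : ∀ w' : HeightOneSpectrum (𝓞 F), und k w' = v → w' = w ∨ w' = S.sw w := by
    intro w' hw'
    exact above_eq S w w' (by rw [hw', hw])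
  rcases kinds S w with ⟨hne, -, -⟩ | ⟨-, -, hm, -⟩ | ⟨hsw, hcard, -, -⟩
  · -- split
    have hcop : IsCoprime w.asIdeal (S.sw w).asIdeal := by
      refine isCoprime_of_not_le _ _ fun h => ?_
      exact hne (HeightOneSpectrum.ext (w.isMaximal.eq_of_le (S.sw w).isPrime.ne_top h)).symm
    obtain ⟨a, ha, b, hb, hab⟩ := Ideal.isCoprime_iff_exists.1 hcop
    -- `b = 1 - a`, `b ≡ 1 mod w`, `b ≡ 0 mod sw w`
    have hsb : S.sg b ∈ w.asIdeal := hb
    have hsa : S.sg a ∈ (S.sw w).asIdeal := by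
      change S.sg (S.sg a) ∈ w.asIdeal
      rw [S.inv]
      exact ha
    refine ⟨b, fun w' hw' => ?_⟩
    rcases habove w' hw' with rfl | rfl
    · intro h
      apply w'.isPrime.ne_top
      rw [Ideal.eq_top_iff_one]
      have e : (1 : 𝓞 F) = (b - S.sg b) + S.sg b + a := by rw [← hab]; ring
      rw [e]
      exact Ideal.add_mem _ (Ideal.add_mem _ h hsb) ha
    · intro h
      apply (S.sw w).isPrime.ne_top
      rw [Ideal.eq_top_iff_one]
      have e2 : S.sg b = 1 - S.sg a := by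
        have h1 := congrArg S.sg hab
        rw [map_add, map_one] at h1
        linear_combination h1
      have e : (1 : 𝓞 F) = -(b - S.sg b) + b + S.sg a := by rw [e2]; ring
      rw [e]
      exact Ideal.add_mem _ (Ideal.add_mem _ (Ideal.neg_mem_iff _ |>.2 h) hb) hsa
  · exact absurd hm (hr w hw2)
  · -- inert
    by_contra hcon
    push Not at hcon
    have hall : ∀ θ : 𝓞 F, θ - S.sg θ ∈ w.asIdeal := by
      intro θ
      obtain ⟨w', hw', h⟩ := hcon θ
      rcases habove w' hw' with rfl | rfl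
      · exact h
      · rw [hsw] at h
        exact h
    -- then the residue fields are equal
    have hle : (und k w).asIdeal ≤ w.asIdeal.comap (algebraMap (𝓞 k) (𝓞 F)) := fun x hx => hx
    have hsurj : Function.Surjective
        (Ideal.quotientMap w.asIdeal (algebraMap (𝓞 k) (𝓞 F)) hle) := by
      intro y
      obtain ⟨θ, rfl⟩ := Ideal.Quotient.mk_surjective y
      obtain ⟨m, hm⟩ := two_sq_root (und k w) ((two_und w).2 hw2) (Nm k F θ)
      refine ⟨Ideal.Quotient.mk _ m, ?_⟩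
      rw [Ideal.quotientMap_mk, Ideal.Quotient.eq]
      apply w.isPrime.mem_of_pow_mem 2
      have h1 : algebraMap (𝓞 k) (𝓞 F) m ^ 2 - θ * S.sg θ ∈ w.asIdeal := by
        rw [mem_und, map_sub, map_pow, S.norm] at hm
        exact hm
      have h2 := hall θ
      have e : (algebraMap (𝓞 k) (𝓞 F) m - θ) ^ 2 = (algebraMap (𝓞 k) (𝓞 F) m ^ 2 - θ * S.sg θ)
          - θ * (θ - S.sg θ) - (algebraMap (𝓞 k) (𝓞 F) m - θ) * θ * 2 := by ring
      rw [e]
      exact Ideal.sub_mem _ (Ideal.sub_mem _ h1 (Ideal.mul_mem_left _ _ h2))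
        (Ideal.mul_mem_left _ _ hw2)
    have hfin : Finite (𝓞 k ⧸ (und k w).asIdeal) := finite_quot _
    have h1 := Nat.card_le_card_of_surjective _ hsurj
    rw [hcard] at h1
    have h2 := card_pos_quot (und k w)
    nlinarith

/-- `θ` with `θ - σ θ` prime to two -/
theorem exists_theta (hr : Ur2 k F) :
    ∃ θ : 𝓞 F, ∀ w : HeightOneSpectrum (𝓞 F), (2 : 𝓞 F) ∈ w.asIdeal → θ - S.sg θ ∉ w.asIdeal := by
  have h1 : ∀ v : HeightOneSpectrum (𝓞 k), ∃ θ : 𝓞 F, (2 : 𝓞 k) ∈ v.asIdeal →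
      ∀ w : HeightOneSpectrum (𝓞 F), und k w = v → θ - S.sg θ ∉ w.asIdeal := by
    intro v
    by_cases hv : (2 : 𝓞 k) ∈ v.asIdeal
    · obtain ⟨θ, hθ⟩ := exists_theta_local S hr v hv
      exact ⟨θ, fun _ => hθ⟩
    · exact ⟨0, fun h => absurd h hv⟩
  choose f hf using h1
  obtain ⟨z, hz⟩ := crt_two (fun w : HeightOneSpectrum (𝓞 F) => f (und k w))
  refine ⟨z, fun w hw h => ?_⟩
  have h2 := hf (und k w) ((two_und w).2 hw) w rfl
  apply h2
  have h3 := hz w hw
  have h4 : S.sg z - S.sg (f (und k w)) ∈ w.asIdeal := by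
    have h5 := hz (S.sw w) ((S.two_sw w).2 hw)
    rw [S.und_sw] at h5
    have h6 : S.sg (z - f (und k w)) ∈ w.asIdeal := h5
    rwa [map_sub] at h6
  have e : f (und k w) - S.sg (f (und k w)) = (z - S.sg z) - (z - f (und k w)) +
      (S.sg z - S.sg (f (und k w))) := by ring
  rw [e]
  exact Ideal.add_mem _ (Ideal.sub_mem _ h h3) h4

/-- a generator `δ = √d`, `d ≡ 1 mod 4`, of a quadratic extension unramified at two -/
theorem exists_sqrt (hr : Ur2 k F) : ∃ (d : 𝓞 k) (δ : 𝓞 F), d ≠ 0 ∧ (4 : 𝓞 k) ∣ d - 1 ∧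
    δ ^ 2 = algebraMap (𝓞 k) (𝓞 F) d ∧ S.sg δ = -δ ∧ δ ≠ 0 := by
  obtain ⟨θ, hθ⟩ := exists_theta S hr
  obtain ⟨t, ht⟩ := S.tr θ
  have hD : (θ - S.sg θ) ^ 2 = algebraMap (𝓞 k) (𝓞 F) (t ^ 2 - 4 * Nm k F θ) := by
    rw [map_sub, map_pow, map_mul, map_ofNat, ht, S.norm]
    ring
  have hcop2 : IsCoprime (Ideal.span {t}) (Ideal.span {(2 : 𝓞 k)}) := by
    rw [Ideal.isCoprime_iff_sup_eq]
    by_contra hne
    obtain ⟨Q, hQm, hQ⟩ := Ideal.exists_le_maximal _ hne
    have ht' : t ∈ Q := hQ (Ideal.mem_sup_left (Ideal.mem_span_singleton_self t))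
    have h2' : (2 : 𝓞 k) ∈ Q := hQ (Ideal.mem_sup_right (Ideal.mem_span_singleton_self 2))
    have hQ0 : Q ≠ ⊥ := by
      rintro rfl
      rw [Ideal.mem_bot] at h2'
      exact two_ne_zero h2'
    obtain ⟨w, hw⟩ := exists_above (F := F) ⟨Q, hQm.isPrime, hQ0⟩
    have h2w : (2 : 𝓞 F) ∈ w.asIdeal := by
      rw [← two_und (k := k), hw]
      exact h2'
    apply hθ w h2w
    apply w.isPrime.mem_of_pow_mem 2
    rw [hD, ← mem_und, hw]
    change t ^ 2 - 4 * Nm k F θ ∈ Q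
    have e : t ^ 2 - 4 * Nm k F θ = t * t - (2 * Nm k F θ) * 2 := by ring
    rw [e]
    exact Ideal.sub_mem _ (Ideal.mul_mem_left _ _ ht') (Ideal.mul_mem_left _ _ h2')
  have hcop : IsCoprime t (4 : 𝓞 k) := by
    have h1 : IsCoprime t (2 : 𝓞 k) := by
      rwa [Ideal.isCoprime_span_singleton_iff] at hcop2
    have e : (4 : 𝓞 k) = 2 * 2 := by norm_num
    rw [e]
    exact h1.mul_right h1
  obtain ⟨s, u, hsu⟩ := hcop
  have h4 : (4 : 𝓞 k) ∣ s ^ 2 * (t ^ 2 - 4 * Nm k F θ) - 1 := by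
    refine ⟨4 * u ^ 2 - 2 * u - s ^ 2 * Nm k F θ, ?_⟩
    have e : s * t = 1 - u * 4 := by linear_combination hsu
    linear_combination (s * t + (1 - u * 4)) * e
  have hd0 : s ^ 2 * (t ^ 2 - 4 * Nm k F θ) ≠ 0 := by
    intro h
    rw [h] at h4
    obtain ⟨c, hc⟩ := h4
    have hu : IsUnit (2 : 𝓞 k) := by
      refine IsUnit.of_mul_eq_one (-2 * c) ?_
      linear_combination hc
    obtain ⟨v, hv⟩ : ∃ v : HeightOneSpectrum (𝓞 k), (2 : 𝓞 k) ∈ v.asIdeal := by
      obtain ⟨Q, hQm, hQ⟩ := Ideal.exists_le_maximal (Ideal.span {(2 : 𝓞 ℚ)}) (by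
        intro h
        rw [Ideal.span_singleton_eq_top] at h
        have h1 := h.map (Rat.ringOfIntegersEquiv : 𝓞 ℚ →+* ℤ)
        rw [map_ofNat] at h1
        exact absurd (Int.isUnit_iff.1 h1) (by norm_num))
      have h2' : (2 : 𝓞 ℚ) ∈ Q := hQ (Ideal.mem_span_singleton_self 2)
      have hQ0 : Q ≠ ⊥ := by
        rintro rfl
        rw [Ideal.mem_bot] at h2'
        exact two_ne_zero h2'
      obtain ⟨v, hv⟩ := exists_above (k := ℚ) (F := k) ⟨Q, hQm.isPrime, hQ0⟩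
      refine ⟨v, ?_⟩
      rw [← two_und (k := ℚ), hv]
      exact h2'
    exact v.isPrime.ne_top (Ideal.eq_top_of_isUnit_mem _ hv hu)
  refine ⟨s ^ 2 * (t ^ 2 - 4 * Nm k F θ), algebraMap (𝓞 k) (𝓞 F) s * (θ - S.sg θ), hd0, h4,
    ?_, ?_, ?_⟩
  · rw [mul_pow, hD, map_mul, map_pow]
  · rw [map_mul, S.fix, map_sub, S.inv]
    ring
  · intro h
    have h1 : algebraMap (𝓞 k) (𝓞 F) (s ^ 2 * (t ^ 2 - 4 * Nm k F θ)) = 0 := by
      rw [map_mul, map_pow, ← hD, ← mul_pow, h]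
      ring
    exact hd0 ((map_eq_zero_iff _ (FaithfulSMul.algebraMap_injective (𝓞 k) (𝓞 F))).1 h1)

end

end TWR
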