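import Pool.Agent.MP_9ab903_nt.TWR.TW1

set_option autoImplicit false

open NumberField IsDedekindDomain
open CM27 CMT CF NAB
open scoped Classical

namespace TWR

/-! ## [TWR-TW2] transfer to `ℚ(ω)` (file TWR/TW2.lean) -/

section
variable {k F : Type} [Field k] [NumberField k] [Field F] [NumberField F] [Algebra k F]
  (S : Sig k F) [Algebra.IsQuadraticExtension k F]

include S in
/-- even valuations and the norm -/
theorem ev_norm (v : HeightOneSpectrum (𝓞 k)) {y : F} (hy : y ≠ 0)
    (h : ∀ w : HeightOneSpectrum (𝓞 F), und k w = v → ev w y) : ev v (Algebra.norm k y) := by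
  obtain ⟨w, rfl⟩ := exists_above (F := F) v
  have hsy := sF_ne S hy
  have e1 := h w rfl
  have e2 : ev w (sF S y) := (ev_sF S w y).2 (h _ (S.und_sw w))
  have hN : Algebra.norm k y ≠ 0 := norm_neF hy
  have h3 : ev w (algebraMap k F (Algebra.norm k y)) := by
    rw [norm_sF S, ev_mul w hy hsy]
    exact ⟨fun _ => e2, fun _ => e1⟩
  rcases kinds S w with ⟨-, -, hv⟩ | ⟨hsw, -, -, hv⟩ | ⟨-, -, -, hv⟩
  · rwa [ev, od, hv] at h3
  · have h4 := val_norm_ram S w hsw hv y
    rw [ev, od, h4]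
    exact e1
  · rwa [ev, od, hv] at h3

end

theorem KK_norm (x : KK) : letI := algK KK d2_w_mem; Algebra.norm KK x = x := by
  letI := algK KK d2_w_mem
  haveI := d2_finite KK d2_w_mem
  have h1 : algebraMap KK KK x = x := rfl
  have h2 := Algebra.norm_algebraMap (R := KK) (S := KK) x
  have h3 := d2_finrank KK d2_w_mem
  rw [d2_finrank_KK] at h3
  have h4 := Nat.eq_of_mul_eq_mul_left two_pos (h3.trans (mul_one 2).symm)
  rw [h4, pow_one, h1] at h2
  exact h2

/-- **Transfer of the character to `ℚ(ω)`.** -/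
theorem Tow.transfer {F : IntermediateField ℚ ℂ} (h : Tow F) [NumberField F] (hw : w ∈ F) :
    letI := algK F hw
    ∀ β : 𝓞 F, β ≠ 0 → Adm β → ∀ x : 𝓞 KK, x ≠ 0 → Cop β (io KK F x) →
      Xg β (io KK F x) = Xg (Nm KK F β) x ∧ Cop (Nm KK F β) x ∧ Adm (Nm KK F β) ∧
        Nm KK F β ≠ 0 ∧ ((4 : 𝓞 F) ∣ β - 1 → (4 : 𝓞 KK) ∣ Nm KK F β - 1) := by
  revert ‹NumberField F›
  induction h with
  | base =>
    intro hN
    letI := algK KK hw
    intro β hβ hA x hx hc
    have h1 : Nm KK KK β = β := by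
      ext
      rw [coe_Nm]
      exact congrArg _ (KK_norm (β : KK))
    have h2 : io KK KK x = x := rfl
    rw [h1]
    rw [h2] at hc ⊢
    exact ⟨rfl, hc, hA, hβ, fun h => h⟩
  | step F₀ F h hle h2 hodd ih =>
    intro hN
    haveI := h.numberField
    have hw₀ := h.mem
    have ih' := ih hw₀
    letI := algK F hw
    letI := algK F₀ hw₀
    letI := algI hle
    haveI := quadI hle h2
    haveI := d2_finite F hw
    haveI := d2_finite F₀ hw₀
    haveI : IsScalarTower KK F₀ F := IsScalarTower.of_algebraMap_eq fun x => rfl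
    haveI : FiniteDimensional F₀ F := Module.Finite.of_restrictScalars_finite ℚ F₀ F
    obtain ⟨S⟩ := exists_Sig F₀ F
    intro β hβ hA x hx hc
    have h3 : io KK F x = io F₀ F (io KK F₀ x) := rfl
    have h4 : Nm KK F β = Nm KK F₀ (Nm F₀ F β) := by
      ext
      rw [coe_Nm, coe_Nm, coe_Nm, Algebra.norm_norm]
    rw [h3] at hc ⊢
    rw [h4, Xg_io_right S β _ (io_ne_zero hx) hc (Or.inr hA)]
    obtain ⟨i1, i2, i3, i4, i5⟩ :=
      ih' (Nm F₀ F β) (Nm_ne_zero S hβ) (hA.norm S) x hx (cop_Nm S β _ hc)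
    refine ⟨i1, i2, i3, i4, fun h5 => i5 ?_⟩
    obtain ⟨c, hc⟩ := h5
    obtain ⟨t, ht⟩ := S.tr (-c)
    have h5 := Nm_one_sub S (-c) t ht
    have h6 : β = 1 - 4 * -c := by linear_combination hc
    rw [← h6] at h5
    exact ⟨-(t - 4 * Nm F₀ F (-c)), by rw [h5]; ring⟩

/-- **Parity of the valuations of the norm.** -/
theorem Tow.ev_norm {F : IntermediateField ℚ ℂ} (h : Tow F) [NumberField F] (hw : w ∈ F) :
    letI := algK F hw
    ∀ y : F, y ≠ 0 → ∀ v : HeightOneSpectrum (𝓞 KK),
      (∀ w : HeightOneSpectrum (𝓞 F), und KK w = v → ev w y) → ev v (Algebra.norm KK y) := by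
  revert ‹NumberField F›
  induction h with
  | base =>
    intro hN
    letI := algK KK hw
    intro y hy v hv
    rw [KK_norm]
    exact hv v rfl
  | step F₀ F h hle h2 hodd ih =>
    intro hN
    haveI := h.numberField
    have hw₀ := h.mem
    have ih' := ih hw₀
    letI := algK F hw
    letI := algK F₀ hw₀
    letI := algI hle
    haveI := quadI hle h2
    haveI := d2_finite F hw
    haveI := d2_finite F₀ hw₀
    haveI : IsScalarTower KK F₀ F := IsScalarTower.of_algebraMap_eq fun x => rfl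
    haveI : FiniteDimensional F₀ F := Module.Finite.of_restrictScalars_finite ℚ F₀ F
    obtain ⟨S⟩ := exists_Sig F₀ F
    intro y hy v hv
    rw [← Algebra.norm_norm (S := F₀)]
    refine ih' _ (norm_neF hy) v fun u hu => ?_
    refine TWR.ev_norm S u hy fun w hwu => hv w ?_
    rw [← hu, ← hwu]
    rfl

end TWR
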